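import Pool.Agent.Lib.MP_64bee1_co.UN.Stmts

/-!
Few good blocks is exponentially unlikely for a uniformly random subset.
-/

namespace Pool.Agent.Lib.MP_64bee1_co.UN

open Finset

/-- Weight of a pattern on one block. -/
noncomputable def BLK_w (h : Fin 4 → Bool) : ℝ :=
  if h 0 = true ∧ h 1 = true ∧ h 2 = true ∧ h 3 = false then 1 / 2 else 1

theorem BLK_sum_w : ∑ h : Fin 4 → Bool, BLK_w h = 31 / 2 := by
  have h1 : ∀ h : Fin 4 → Bool, BLK_w h =
      1 - (1 / 2) * (if h 0 = true ∧ h 1 = true ∧ h 2 = true ∧ h 3 = false then (1 : ℝ) else 0) := by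
    intro h; unfold BLK_w; split_ifs <;> norm_num
  have h2 : (univ.filter fun h : Fin 4 → Bool =>
      h 0 = true ∧ h 1 = true ∧ h 2 = true ∧ h 3 = false).card = 1 := by decide
  have h3 : (∑ h : Fin 4 → Bool,
      if h 0 = true ∧ h 1 = true ∧ h 2 = true ∧ h 3 = false then (1 : ℝ) else 0) = 1 := by
    rw [sum_boole, h2]; norm_num
  simp only [h1, sum_sub_distrib, ← mul_sum, h3, sum_const, card_univ, Fintype.card_fun,
    Fintype.card_bool, Fintype.card_fin]
  norm_num

theorem BLK_split {V B : Type} [Fintype V] [Fintype B] [DecidableEq V] [DecidableEq B]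
    (e : B × Fin 4 → V) (he : Function.Injective e) :
    ∃ c : ℝ, ∀ F : (B → Fin 4 → Bool) → ℝ,
      ∑ f : V → Bool, F (fun b i => f (e (b, i))) = c * ∑ g, F g := by
  classical
  let E : (V → Bool) ≃ (B → Fin 4 → Bool) × ({v // ¬ v ∈ Set.range e} → Bool) :=
    (Equiv.piEquivPiSubtypeProd (fun v => v ∈ Set.range e) (fun _ => Bool)).trans
      (Equiv.prodCongr ((Equiv.arrowCongr (Equiv.ofInjective e he).symm (Equiv.refl Bool)).trans
        (Equiv.curry _ _ _)) (Equiv.refl _))
  refine ⟨(Fintype.card ({v // ¬ v ∈ Set.range e} → Bool) : ℝ), fun F => ?_⟩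
  have h1 : ∀ f : V → Bool, (fun b i => f (e (b, i))) = (E f).1 := fun f => rfl
  simp only [h1]
  rw [Equiv.sum_comp E (fun p => F p.1), Fintype.sum_prod_type, mul_sum]
  refine sum_congr rfl fun g _ => ?_
  simp

theorem BLK_sum {V B : Type} [Fintype V] [Fintype B] [DecidableEq V] [DecidableEq B]
    (e : B × Fin 4 → V) (he : Function.Injective e) :
    ∑ f : V → Bool, ∏ b, BLK_w (fun i => f (e (b, i))) =
      2 ^ Fintype.card V * (31 / 32) ^ Fintype.card B := by
  obtain ⟨c, hc⟩ := BLK_split e he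
  have h1 := hc fun _ => 1
  have h2 := hc fun g => ∏ b, BLK_w (g b)
  have h3 : ∑ g : B → Fin 4 → Bool, ∏ b, BLK_w (g b) = (31 / 2) ^ Fintype.card B := by
    have := Finset.prod_univ_sum (fun _ : B => (univ : Finset (Fin 4 → Bool)))
      (fun _ h => BLK_w h)
    rw [Fintype.piFinset_univ] at this
    rw [← this, BLK_sum_w, prod_const, card_univ]
  simp only [sum_const, card_univ, Fintype.card_fun, Fintype.card_bool, Fintype.card_fin,
    nsmul_eq_mul, mul_one] at h1
  push_cast at h1
  rw [h2, h3, h1, mul_assoc, ← mul_pow]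
  norm_num

theorem BLK : St_BLK := by
  intro V B _ _ e he
  classical
  set n := Fintype.card B with hn
  let good : Finset V → B → Prop := fun S b =>
    e (b, 0) ∈ S ∧ e (b, 1) ∈ S ∧ e (b, 2) ∈ S ∧ e (b, 3) ∉ S
  let φ : Finset V ≃ (V → Bool) :=
    { toFun := fun S v => decide (v ∈ S)
      invFun := fun f => univ.filter fun v => f v = true
      left_inv := fun S => by ext v; simp
      right_inv := fun f => by funext v; simp }
  have hw : ∀ S : Finset V, ∏ b, BLK_w (fun i => φ S (e (b, i))) = (1 / 2) ^ cc (good S) := by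
    intro S
    rw [cc_eq, card_filter, ← prod_pow_eq_pow_sum]
    refine prod_congr rfl fun b _ => ?_
    unfold BLK_w
    by_cases h : good S b
    · rw [if_pos h, if_pos (by simpa [φ, good] using h), pow_one]
    · rw [if_neg h, if_neg (by simpa [φ, good] using h), pow_zero]
  have hs : ∑ S : Finset V, ((1 : ℝ) / 2) ^ cc (good S) = 2 ^ Fintype.card V * (31 / 32) ^ n := by
    rw [← BLK_sum e he, ← Equiv.sum_comp φ]
    exact sum_congr rfl fun S _ => (hw S).symm
  have hl : Real.log 2 < 0.6931471808 := Real.log_two_lt_d9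
  have hl0 : 0 < Real.log 2 := Real.log_pos (by norm_num)
  have hpt : ∀ S : Finset V, (if 64 * cc (good S) < n then (1 : ℝ) else 0) ≤
      Real.exp (Real.log 2 * n / 64) * (1 / 2) ^ cc (good S) := by
    intro S
    split_ifs with h
    · have h2 : ((1 : ℝ) / 2) ^ cc (good S) = Real.exp (-(Real.log 2 * cc (good S))) := by
        rw [Real.exp_neg, mul_comm, Real.exp_nat_mul, Real.exp_log (by norm_num), one_div, inv_pow]
      rw [h2, ← Real.exp_add]
      apply Real.one_le_exp
      have h3 : (64 * cc (good S) : ℝ) ≤ n := by exact_mod_cast h.le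
      nlinarith
    · positivity
  have h32 : ((31 : ℝ) / 32) ^ n ≤ Real.exp (-(n : ℝ) / 32) := by
    have h1 : (31 : ℝ) / 32 ≤ Real.exp (-1 / 32) := by
      have := Real.add_one_le_exp (-1 / 32 : ℝ)
      linarith
    calc ((31 : ℝ) / 32) ^ n ≤ Real.exp (-1 / 32) ^ n := pow_le_pow_left₀ (by norm_num) h1 n
      _ = Real.exp (-(n : ℝ) / 32) := by rw [← Real.exp_nat_mul]; congr 1; ring
  have hn0 : (0 : ℝ) ≤ n := Nat.cast_nonneg _
  calc ((cc fun S : Finset V => 64 * cc (good S) < n : ℕ) : ℝ)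
      = ∑ S : Finset V, if 64 * cc (good S) < n then (1 : ℝ) else 0 := cc_real _
    _ ≤ ∑ S : Finset V, Real.exp (Real.log 2 * n / 64) * (1 / 2) ^ cc (good S) :=
        sum_le_sum fun S _ => hpt S
    _ = Real.exp (Real.log 2 * n / 64) * (2 ^ Fintype.card V * (31 / 32) ^ n) := by
        rw [← mul_sum, hs]
    _ ≤ Real.exp (Real.log 2 * n / 64) * (2 ^ Fintype.card V * Real.exp (-(n : ℝ) / 32)) := by
        gcongr
    _ = 2 ^ Fintype.card V * Real.exp (Real.log 2 * n / 64 + -(n : ℝ) / 32) := by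
        rw [Real.exp_add]; ring
    _ ≤ 2 ^ Fintype.card V * Real.exp (-(n : ℝ) / 50) := by
        gcongr
        nlinarith

end Pool.Agent.Lib.MP_64bee1_co.UN
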