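import Pool.Agent.Lib.MP_64bee1_co.UN.Stmts

/-! Choice of the height of the contour. -/

namespace Pool.Agent.Lib.MP_64bee1_co.UN

open Finset

theorem CB_sinh_le {x : ℝ} (hx : 0 ≤ x) : Real.sinh x ≤ x * Real.cosh x := by
  have hd : ∀ y : ℝ, HasDerivAt (fun y => y * Real.cosh y - Real.sinh y) (y * Real.sinh y) y := by
    intro y
    have h := ((hasDerivAt_id' y).mul (Real.hasDerivAt_cosh y)).sub (Real.hasDerivAt_sinh y)
    have e : 1 * Real.cosh y + y * Real.sinh y - Real.cosh y = y * Real.sinh y := by ring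
    rw [e] at h
    exact h
  have hm : Monotone fun y : ℝ => y * Real.cosh y - Real.sinh y := by
    refine monotone_of_deriv_nonneg (fun y => (hd y).differentiableAt) fun y => ?_
    rw [(hd y).deriv]
    rcases le_total 0 y with h | h
    · exact mul_nonneg h (Real.sinh_nonneg_iff.2 h)
    · exact mul_nonneg_of_nonpos_of_nonpos h (Real.sinh_nonpos_iff.2 h)
  have h := hm hx
  simp only [zero_mul, Real.sinh_zero, sub_zero] at h
  linarith

theorem CB_pos {x : ℝ} (hx : 0 ≤ x) (h1 : x ≤ 1) :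
    x ^ 2 / 2 ≤ x * Real.tanh x ∧ x * Real.tanh x ≤ x ^ 2 := by
  have hc := Real.cosh_pos x
  have h2 : Real.cosh x ≤ 2 := by
    rw [Real.cosh_eq]
    have a1 : Real.exp x ≤ Real.exp 1 := Real.exp_le_exp.2 h1
    have a2 : Real.exp (-x) ≤ 1 := Real.exp_le_one_iff.2 (by linarith)
    have a3 := Real.exp_one_lt_d9
    linarith
  have h3 : x ≤ Real.sinh x := Real.self_le_sinh_iff.2 hx
  have h4 : x / 2 ≤ Real.tanh x := by
    rw [Real.tanh_eq_sinh_div_cosh, le_div_iff₀ hc]
    nlinarith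
  have h5 : Real.tanh x ≤ x := by
    rw [Real.tanh_eq_sinh_div_cosh, div_le_iff₀ hc]
    exact CB_sinh_le hx
  constructor <;> nlinarith

theorem CB_abs {x : ℝ} (h1 : |x| ≤ 1) :
    x ^ 2 / 2 ≤ x * Real.tanh x ∧ x * Real.tanh x ≤ x ^ 2 := by
  rcases le_total 0 x with h | h
  · exact CB_pos h ((le_abs_self x).trans h1)
  · have h2 := CB_pos (x := -x) (by linarith) ((neg_le_abs x).trans h1)
    rw [Real.tanh_neg, neg_mul_neg, neg_sq] at h2
    exact h2

theorem CB_cont : Continuous Real.tanh := by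
  have e : Real.tanh = fun x => Real.sinh x / Real.cosh x := funext Real.tanh_eq_sinh_div_cosh
  rw [e]
  exact Real.continuous_sinh.div Real.continuous_cosh fun x => (Real.cosh_pos x).ne'

theorem CB : St_CB := by
  intro ι _ d p S Y hd hS hS0 hY hp
  have key : ∀ b : ℝ, 0 < b → b ≤ 2 * Y / S →
      S * b / 2 ≤ ∑ v, (d v : ℝ) * Real.tanh (d v * b) ∧
        ∑ v, (d v : ℝ) * Real.tanh (d v * b) ≤ S * b := by
    intro b hb hb2
    have h1 : ∀ v, (d v : ℝ) ^ 2 * b / 2 ≤ (d v : ℝ) * Real.tanh (d v * b) ∧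
        (d v : ℝ) * Real.tanh (d v * b) ≤ (d v : ℝ) ^ 2 * b := by
      intro v
      have a1 : |(d v : ℝ)| ≤ p := by exact_mod_cast hd v
      have a2 : b * S ≤ 2 * Y := (le_div_iff₀ hS0).1 hb2
      have a3 : |(d v : ℝ) * b| ≤ 1 := by
        rw [abs_mul, abs_of_pos hb]
        have a4 : (p : ℝ) * b ≤ 1 := by
          refine le_of_mul_le_mul_right ?_ hS0
          have : (0 : ℝ) ≤ p := Nat.cast_nonneg p
          nlinarith
        nlinarith
      obtain ⟨a5, a6⟩ := CB_abs a3
      constructor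
      · refine le_of_mul_le_mul_right ?_ hb
        nlinarith
      · refine le_of_mul_le_mul_right ?_ hb
        nlinarith
    rw [hS, sum_mul, sum_div]
    exact ⟨sum_le_sum fun v _ => (h1 v).1, sum_le_sum fun v _ => (h1 v).2⟩
  have h0 : 0 < Y / S := div_pos hY hS0
  have h12 : Y / S ≤ 2 * Y / S := by
    rw [mul_div_assoc]
    linarith
  have hc : Continuous fun b : ℝ => ∑ v, (d v : ℝ) * Real.tanh (d v * b) :=
    continuous_finsetSum _ fun v _ =>
      continuous_const.mul (CB_cont.comp (continuous_const.mul continuous_id))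
  have ha := (key _ h0 h12).2
  have hb := (key _ (h0.trans_le h12) le_rfl).1
  have e1 : S * (Y / S) = Y := by field_simp
  have e2 : S * (2 * Y / S) / 2 = Y := by field_simp
  rw [e1] at ha
  rw [e2] at hb
  obtain ⟨β, hβ, he⟩ := intermediate_value_Icc h12 hc.continuousOn ⟨ha, hb⟩
  exact ⟨β, hβ.1, hβ.2, he⟩

end Pool.Agent.Lib.MP_64bee1_co.UN
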