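import Pool.Agent.Lib.MP_64bee1_co.UN.Stmts

/-!
Geometric decay of the cumulative counts below the middle.
-/

namespace Pool.Agent.Lib.MP_64bee1_co.UN

open Finset

theorem CG_sn_abs (b : Bool) (x : ℤ) : |sn b * x| = |x| := by
  cases b <;> simp [sn]

theorem CG_sn_not (b : Bool) : sn (!b) = -sn b := by
  cases b <;> simp [sn]

/-- One step for the sign vectors of one folded class. -/
theorem CG_class {N : ℕ} (d : Fin N → ℤ) (E p s m : ℕ) (ε : ℝ) (f : (Fin N → Bool) → ℕ)
    (hf : ∀ η, 2 * (f η : ℤ) - E = ∑ v, sn (η v) * d v) (hp : 1 ≤ p) (hd : ∀ v, |d v| ≤ p)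
    (hS : ∑ v, |d v| ≤ E) (h0 : 0 < ε) (h1 : ε ≤ 1 / 2) (hm : 2 * (m : ℝ) ≤ (1 - 2 * ε) * E) :
    ((univ.filter fun η => f η + (s + p) ≤ m).card : ℝ) ≤
      (1 - 2 * ε) * (univ.filter fun η => f η + s ≤ m).card := by
  classical
  set a := (univ.filter fun η => f η + (s + p) ≤ m) with ha
  set b := (univ.filter fun η => f η + s ≤ m) with hb
  have hab : a.card ≤ b.card := card_le_card fun η hη =>
    mem_filter.2 ⟨mem_univ _, by have := (mem_filter.1 hη).2; omega⟩
  have key : ∀ v, ∑ η ∈ a, (|d v| - sn (η v) * d v) ≤ ∑ η ∈ b, (|d v| + sn (η v) * d v) := by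
    intro v
    let φ : (Fin N → Bool) → Fin N → Bool := fun η => Function.update η v (!η v)
    have hφ : ∀ η, φ (φ η) = η := fun η => by
      simp [φ]
    have inj : Function.Injective φ := Function.LeftInverse.injective hφ
    have e : ∑ η ∈ a, (|d v| - sn (η v) * d v) =
        ∑ η ∈ a.image φ, (|d v| + sn (η v) * d v) := by
      rw [sum_image fun x _ y _ h => inj h]
      refine sum_congr rfl fun η _ => ?_
      simp only [φ, Function.update_self, CG_sn_not]
      ring
    rw [e]
    refine sum_le_sum_of_subset_of_nonneg (fun η hη => ?_) fun η _ _ => ?_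
    · obtain ⟨ζ, hζ, rfl⟩ := mem_image.1 hη
      have h2 := (mem_filter.1 hζ).2
      have h3 := hf ζ
      have h4 := hf (φ ζ)
      rw [← add_sum_erase _ _ (mem_univ v)] at h3 h4
      have h5 : ∑ x ∈ univ.erase v, sn (φ ζ x) * d x = ∑ x ∈ univ.erase v, sn (ζ x) * d x :=
        sum_congr rfl fun x hx => by
          simp only [φ, Function.update_of_ne (ne_of_mem_erase hx)]
      have h6 : sn (φ ζ v) = -sn (ζ v) := by
        simp only [φ, Function.update_self, CG_sn_not]
      rw [h5, h6, neg_mul] at h4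
      have h7 := neg_abs_le (sn (ζ v) * d v)
      rw [CG_sn_abs] at h7
      have h8 := hd v
      refine mem_filter.2 ⟨mem_univ _, ?_⟩
      omega
    · have h7 := neg_abs_le (sn (η v) * d v)
      rw [CG_sn_abs] at h7
      omega
  have tot := sum_le_sum fun v (_ : v ∈ univ) => key v
  rw [sum_comm, sum_comm (s := univ) (t := b)] at tot
  simp only [sum_sub_distrib, sum_add_distrib, ← hf] at tot
  set S := ∑ v, |d v| with hSdef
  have l1 : (a.card : ℤ) * (S + E - 2 * m) ≤ ∑ η ∈ a, (S - (2 * (f η : ℤ) - E)) := by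
    rw [← nsmul_eq_mul]
    refine card_nsmul_le_sum _ _ _ fun η hη => ?_
    have := (mem_filter.1 hη).2
    omega
  have l2 : ∑ η ∈ b, (S + (2 * (f η : ℤ) - E)) ≤ (b.card : ℤ) * (S - E + 2 * m) := by
    rw [← nsmul_eq_mul]
    refine sum_le_card_nsmul _ _ _ fun η hη => ?_
    have := (mem_filter.1 hη).2
    omega
  simp only [sum_sub_distrib, sum_add_distrib] at l1 l2
  have l3 : (a.card : ℝ) * ((S : ℝ) + E - 2 * m) ≤ (b.card : ℝ) * ((S : ℝ) - E + 2 * m) := by
    exact_mod_cast l1.trans (tot.trans l2)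
  have hab' : (a.card : ℝ) ≤ b.card := by exact_mod_cast hab
  have hS' : (S : ℝ) ≤ E := by exact_mod_cast hS
  have a0 : (0 : ℝ) ≤ a.card := by positivity
  rcases Nat.eq_zero_or_pos E with hE | hE
  · have hm0 : m = 0 := by
      rw [hE] at hm
      have : (m : ℝ) ≤ 0 := by push_cast at hm; linarith
      exact_mod_cast le_antisymm this (Nat.cast_nonneg m)
    have : a = ∅ := filter_false_of_mem fun η _ h => by omega
    rw [this, card_empty, Nat.cast_zero]
    exact mul_nonneg (by linarith) (Nat.cast_nonneg _)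
  · have hE' : (0 : ℝ) < E := by exact_mod_cast hE
    have l4 : ((a.card : ℝ) + b.card) * (2 * ε * E) ≤ ((b.card : ℝ) - a.card) * E := by
      have t1 := mul_le_mul_of_nonneg_left hS' (sub_nonneg.2 hab')
      have t2 : ((a.card : ℝ) + b.card) * (2 * ε * E) ≤ ((a.card : ℝ) + b.card) * (E - 2 * m) :=
        mul_le_mul_of_nonneg_left (by linarith) (by linarith)
      linarith
    have l5 : ((a.card : ℝ) + b.card) * (2 * ε) ≤ (b.card : ℝ) - a.card :=
      le_of_mul_le_mul_right (by linarith) hE'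
    have := mul_nonneg a0 h0.le
    linarith

section graph
variable {N : ℕ} (A : Fin N → Fin N → Prop) [DecidableRel A]

theorem CG_abs (π : Equiv.Perm (Fin N)) : ∑ v, |dg A π v| ≤ ne A := by
  have h1 : ∀ v, |dg A π v| ≤ (∑ u, if A v u ∧ π u < π v then (1 : ℤ) else 0) +
      ∑ u, if A u v ∧ π u < π v then (1 : ℤ) else 0 := fun v => by
    have p1 : 0 ≤ ∑ u, if A v u ∧ π u < π v then (1 : ℤ) else 0 :=
      sum_nonneg fun u _ => by split_ifs <;> norm_num
    have p2 : 0 ≤ ∑ u, if A u v ∧ π u < π v then (1 : ℤ) else 0 :=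
      sum_nonneg fun u _ => by split_ifs <;> norm_num
    unfold dg
    exact abs_le.2 ⟨by linarith, by linarith⟩
  refine (sum_le_sum fun v _ => h1 v).trans ?_
  rw [sum_add_distrib, sum_comm (f := fun v u => if A u v ∧ π u < π v then (1 : ℤ) else 0),
    ← sum_add_distrib, ne, card_filter, Fintype.sum_prod_type]
  push_cast
  refine sum_le_sum fun v _ => ?_
  rw [← sum_add_distrib]
  refine sum_le_sum fun u _ => ?_
  by_cases h : A v u
  · by_cases h' : π u < π v
    · simp [h, h', lt_asymm h']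
    · simp only [h, h', and_false, if_false, true_and, if_true, zero_add]
      split_ifs <;> norm_num
  · simp [h]

theorem CG_fold (hA : ∀ i j, A i j → i ≠ j) (s m : ℕ) :
    ∑ π : Equiv.Perm (Fin N), (univ.filter fun η : Fin N → Bool =>
      ivf A (lab (π, η)) + s ≤ m).card = 2 ^ N * cum A s m := by
  have e : ∑ π : Equiv.Perm (Fin N), (univ.filter fun η : Fin N → Bool =>
      ivf A (lab (π, η)) + s ≤ m).card =
      (univ.filter fun ω : Fo N => ivf A (lab ω) + s ≤ m).card := by
    simp only [card_filter, Fintype.sum_prod_type]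
  rw [e, cum, cc_eq,
    card_eq_sum_card_fiberwise (f := fun ω : Fo N => ivf A (lab ω))
      (t := (range (m + 1)).filter fun t => t + s ≤ m) (fun ω hω => by
        have := (mem_filter.1 (mem_coe.1 hω)).2
        exact mem_coe.2 (mem_filter.2 ⟨mem_range.2 (Nat.lt_succ_of_le (le_of_add_le_left this)), this⟩)),
    card_eq_sum_card_fiberwise (f := fun w : Equiv.Perm (Fin N) => iv A w)
      (t := (range (m + 1)).filter fun t => t + s ≤ m) (fun ω hω => by
        have := (mem_filter.1 (mem_coe.1 hω)).2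
        exact mem_coe.2 (mem_filter.2 ⟨mem_range.2 (Nat.lt_succ_of_le (le_of_add_le_left this)), this⟩)), mul_sum]
  refine sum_congr rfl fun t ht => ?_
  have h := (mem_filter.1 ht).2
  rw [filter_filter, filter_filter,
    filter_congr (q := fun ω : Fo N => ivf A (lab ω) = t) (fun ω _ =>
      ⟨fun q => q.2, fun q => ⟨by omega, q⟩⟩),
    filter_congr (q := fun w : Equiv.Perm (Fin N) => iv A w = t) (fun ω _ =>
      ⟨fun q => q.2, fun q => ⟨by omega, q⟩⟩), card_level A hA]
  rfl

theorem CG_step (hA : Asym A) {p m : ℕ} {ε : ℝ} (hp : 1 ≤ p) (hd : ∀ π v, |dg A π v| ≤ p)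
    (h0 : 0 < ε) (h1 : ε ≤ 1 / 2) (hm : 2 * (m : ℝ) ≤ (1 - 2 * ε) * ne A) (s : ℕ) :
    (cum A (s + p) m : ℝ) ≤ (1 - 2 * ε) * cum A s m := by
  have h := sum_le_sum fun π (_ : π ∈ (univ : Finset (Equiv.Perm (Fin N)))) =>
    CG_class (dg A π) (ne A) p s m ε (fun η => ivf A (lab (π, η)))
      (fun η => by rw [← sg_eq_ivf]; exact sg_signed A hA.ne' π η) hp (hd π) (CG_abs A π) h0 h1 hm
  rw [← mul_sum, ← Nat.cast_sum, ← Nat.cast_sum, CG_fold A hA.ne', CG_fold A hA.ne'] at h
  push_cast at h
  refine le_of_mul_le_mul_left ?_ (show (0 : ℝ) < 2 ^ N by positivity)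
  linarith

end graph

theorem CG : St_CG := by
  intro N A _ p m j ε hA hp hd h0 h1 hm
  induction j with
  | zero => simp
  | succ j ih =>
    have h := CG_step A hA hp hd h0 h1 hm (j * p)
    have e : 1 - 2 * ε ≤ Real.exp (-(2 * ε)) := by
      have := Real.add_one_le_exp (-(2 * ε))
      linarith
    rw [add_mul, one_mul]
    calc (cum A (j * p + p) m : ℝ) ≤ (1 - 2 * ε) * cum A (j * p) m := h
      _ ≤ Real.exp (-(2 * ε)) * (Real.exp (-(2 * ε * j)) * cum A 0 m) :=
        mul_le_mul e ih (Nat.cast_nonneg _) (Real.exp_pos _).le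
      _ = _ := by
        rw [← mul_assoc, ← Real.exp_add]
        push_cast
        ring_nf

end Pool.Agent.Lib.MP_64bee1_co.UN
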