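import Pool.Agent.Lib.MP_64bee1_co.UN.Stmts

/-!
Counting maps `Fin N → Fin M` by their relative order.
-/

namespace Pool.Agent.Lib.MP_64bee1_co.UN

open Finset Polynomial

section aux
variable {N M : ℕ}

theorem CNT_inj {π : Equiv.Perm (Fin N)} {X : Fin N → Fin M} (h : OrdP π X) :
    Function.Injective X := by
  intro u v huv
  have h1 : ¬ π u < π v := fun hh => by
    have := (h u v).2 hh
    rw [huv] at this
    exact lt_irrefl _ this
  have h2 : ¬ π v < π u := fun hh => by
    have := (h v u).2 hh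
    rw [huv] at this
    exact lt_irrefl _ this
  exact π.injective (le_antisymm (not_lt.1 h2) (not_lt.1 h1))

theorem CNT_mono {π : Equiv.Perm (Fin N)} {X : Fin N → Fin M} (h : OrdP π X) :
    StrictMono (X ∘ π.symm) := by
  intro a b hab
  simp only [Function.comp_apply]
  rw [h]
  simpa using hab

theorem CNT_uniq {π π' : Equiv.Perm (Fin N)} {X : Fin N → Fin M} (h : OrdP π X)
    (h' : OrdP π' X) : π = π' := by
  have hm : StrictMono (π' ∘ π.symm) := by
    intro a b hab
    simp only [Function.comp_apply]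
    rw [← h', h]
    simpa using hab
  have hid : (π' ∘ π.symm : Fin N → Fin N) = id := by
    have h1 := Finset.orderEmbOfFin_unique (s := (univ : Finset (Fin N))) (k := N) (by simp)
      (f := π' ∘ π.symm) (fun _ => mem_univ _) hm
    have h2 := Finset.orderEmbOfFin_unique (s := (univ : Finset (Fin N))) (k := N) (by simp)
      (f := id) (fun _ => mem_univ _) strictMono_id
    exact h1.trans h2.symm
  ext1 v
  have := congrFun hid (π v)
  simpa using this.symm

theorem CNT_a (π : Equiv.Perm (Fin N)) :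
    cc (fun X : Fin N → Fin M => OrdP π X) = M.choose N := by
  classical
  rw [cc_eq]
  have hc : (powersetCard N (univ : Finset (Fin M))).card = M.choose N := by simp
  rw [← hc]
  refine card_bij (fun X _ => univ.image X) ?_ ?_ ?_
  · intro X hX
    have h := (mem_filter.1 hX).2
    rw [mem_powersetCard]
    exact ⟨subset_univ _, by rw [card_image_of_injective _ (CNT_inj h)]; simp⟩
  · intro X hX X' hX' he
    have h := (mem_filter.1 hX).2
    have h' := (mem_filter.1 hX').2
    have hs : (univ.image X).card = N := by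
      rw [card_image_of_injective _ (CNT_inj h)]; simp
    have h1 := Finset.orderEmbOfFin_unique hs (f := X ∘ π.symm)
      (fun _ => mem_image_of_mem _ (mem_univ _)) (CNT_mono h)
    have h2 := Finset.orderEmbOfFin_unique hs (f := X' ∘ π.symm)
      (fun _ => by
        have he' : univ.image X = univ.image X' := he
        rw [he']; exact mem_image_of_mem _ (mem_univ _)) (CNT_mono h')
    funext v
    have := congrFun (h1.trans h2.symm) (π v)
    simpa using this
  · intro s hs
    have hs' : s.card = N := (mem_powersetCard.1 hs).2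
    refine ⟨fun v => s.orderEmbOfFin hs' (π v), mem_filter.2 ⟨mem_univ _, fun u v => ?_⟩, ?_⟩
    · exact (s.orderEmbOfFin hs').lt_iff_lt
    · ext y
      simp only [mem_image, mem_univ, true_and]
      constructor
      · rintro ⟨v, rfl⟩
        exact orderEmbOfFin_mem s hs' _
      · intro hy
        have : y ∈ Set.range (s.orderEmbOfFin hs') := by
          rw [range_orderEmbOfFin]; exact hy
        obtain ⟨a, ha⟩ := this
        exact ⟨π.symm a, by simpa using ha⟩

theorem CNT_ivf (A : Fin N → Fin N → Prop) [DecidableRel A] {π : Equiv.Perm (Fin N)}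
    {X : Fin N → Fin M} (h : OrdP π X) : ivf A X = iv A π := by
  unfold ivf iv
  congr 1
  exact filter_congr fun p _ => by rw [h]

theorem CNT_ex {X : Fin N → Fin M} (h : Sep 1 X) : ∃ π : Equiv.Perm (Fin N), OrdP π X := by
  have hi : Function.Injective fun v => ((X v : ℕ) : ℤ) := by
    intro u v huv
    by_contra hne
    have h1 := h u v hne
    have h2 : ((X u : ℕ) : ℤ) = ((X v : ℕ) : ℤ) := huv
    omega
  obtain ⟨ρ, hρ⟩ := exists_rank _ hi
  refine ⟨ρ, fun u v => ?_⟩
  rw [hρ, Fin.lt_def]
  exact Int.ofNat_lt.symm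

theorem CNT_lower (P : (Fin N → Fin M) → Prop) :
    ∑ π : Equiv.Perm (Fin N), cc (fun X => OrdP π X ∧ P X) ≤ cc P := by
  classical
  simp only [cc_eq]
  rw [← card_biUnion]
  · refine card_le_card fun X hX => ?_
    obtain ⟨π, -, h⟩ := mem_biUnion.1 hX
    exact mem_filter.2 ⟨mem_univ _, (mem_filter.1 h).2.2⟩
  · intro π _ π' _ hne
    refine disjoint_left.2 fun X h h' => hne ?_
    exact CNT_uniq (mem_filter.1 h).2.1 (mem_filter.1 h').2.1

theorem CNT_upper (P : (Fin N → Fin M) → Prop) :
    cc P ≤ ∑ π : Equiv.Perm (Fin N), cc (fun X => OrdP π X ∧ P X) +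
      cc fun X : Fin N → Fin M => ¬ Sep 1 X := by
  rw [cc_split P (Sep 1)]
  refine Nat.add_le_add ?_ (cc_mono fun X h => h.2)
  refine le_trans (cc_mono fun X h => ?_)
    (cc_exists_le univ fun (π : Equiv.Perm (Fin N)) X => OrdP π X ∧ P X)
  obtain ⟨π, hπ⟩ := CNT_ex h.2
  exact ⟨π, mem_univ _, hπ, h.1⟩

theorem CNT_sum (A : Fin N → Fin N → Prop) [DecidableRel A] (Q : ℕ → Prop) :
    ∑ π : Equiv.Perm (Fin N), cc (fun X : Fin N → Fin M => OrdP π X ∧ Q (ivf A X)) =
      M.choose N * cc (fun w : Equiv.Perm (Fin N) => Q (iv A w)) := by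
  classical
  rw [cc_eq (fun w : Equiv.Perm (Fin N) => Q (iv A w)), card_filter, mul_sum]
  refine sum_congr rfl fun π _ => ?_
  by_cases h : Q (iv A π)
  · rw [if_pos h, mul_one, ← CNT_a π]
    exact cc_congr fun X => ⟨fun hh => hh.1, fun hh => ⟨hh, by rw [CNT_ivf A hh]; exact h⟩⟩
  · rw [if_neg h, mul_zero]
    exact cc_eq_zero fun X hh => h (by rw [← CNT_ivf A hh.1]; exact hh.2)

end aux

theorem CNT : St_CNT := by
  intro N M A _
  refine ⟨fun π => CNT_a π, fun Q => ⟨?_, ?_⟩, fun Bad b m hb => ?_⟩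
  · rw [← CNT_sum A Q]; exact CNT_lower _
  · rw [← CNT_sum A Q]; exact CNT_upper _
  · have h1 := CNT_upper (fun X : Fin N → Fin M => ivf A X = m ∧ Bad X)
    have h2 : ((∑ π : Equiv.Perm (Fin N),
        cc (fun X : Fin N → Fin M => OrdP π X ∧ ivf A X = m ∧ Bad X) : ℕ) : ℝ) ≤
        b * M.choose N * cnt A m := by
      rw [cnt, card_filter]
      push_cast
      rw [mul_sum]
      refine sum_le_sum fun π _ => ?_
      by_cases h : iv A π = m
      · rw [if_pos h, mul_one]
        refine le_trans ?_ (hb π h)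
        have h4 : cc (fun X : Fin N → Fin M => OrdP π X ∧ ivf A X = m ∧ Bad X) ≤
            cc (fun X : Fin N → Fin M => OrdP π X ∧ Bad X) :=
          cc_mono fun X hh => ⟨hh.1, hh.2.2⟩
        exact_mod_cast h4
      · rw [if_neg h, mul_zero, cc_eq_zero fun X hh => h (by rw [← CNT_ivf A hh.1]; exact hh.2.1)]
        simp
    have h3 : ((cc fun X : Fin N → Fin M => ivf A X = m ∧ Bad X : ℕ) : ℝ) ≤
        ((∑ π : Equiv.Perm (Fin N),
          cc (fun X : Fin N → Fin M => OrdP π X ∧ ivf A X = m ∧ Bad X) : ℕ) : ℝ) +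
        (cc fun X : Fin N → Fin M => ¬ Sep 1 X : ℕ) := by exact_mod_cast h1
    linarith

end Pool.Agent.Lib.MP_64bee1_co.UN
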