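import Pool.Agent.Lib.MP_64bee1_co.UN.Stmts

/-!
Reflection in the value of a neighbour is a coin.
-/

namespace Pool.Agent.Lib.MP_64bee1_co.UN

open Finset

section

variable {N M : ℕ} (A : Fin N → Fin N → Prop) (X : Fin N → Fin M) (i : Fin N)

/-- `u` witnesses that `x` is a coin state. -/
def COIN_W (x : Fin M) (u : Fin N) : Prop :=
  Nb A i u ∧ x ≠ X u ∧ (x : ℕ) ≤ 2 * X u ∧ 2 * (X u : ℕ) < M + x ∧
    ∀ v, Nb A i v → v ≠ u → 2 * |((x : ℕ) : ℤ) - (X u : ℕ)| < |((X v : ℕ) : ℤ) - (X u : ℕ)|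

theorem COIN_mem (x : Fin M) : x ∈ coinS A X i ↔ ∃ u, COIN_W A X i x u := by
  unfold coinS COIN_W
  simp only [mem_filter, mem_univ, true_and]

variable {A X i}

theorem COIN_uniq {x : Fin M} {u u' : Fin N} (h : COIN_W A X i x u) (h' : COIN_W A X i x u') :
    u = u' := by
  by_contra hne
  have h1 := h.2.2.2.2 u' h'.1 (Ne.symm hne)
  have h2 := h'.2.2.2.2 u h.1 hne
  simp only [abs_eq_max_neg] at h1 h2
  omega

theorem COIN_refl {x y : Fin M} {u : Fin N} (h : COIN_W A X i x u)
    (hy : (y : ℕ) = 2 * X u - x) : COIN_W A X i y u := by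
  obtain ⟨h1, h2, h3, h4, h5⟩ := h
  have hx := x.2
  have h2' : (x : ℕ) ≠ X u := fun h0 => h2 (Fin.ext h0)
  refine ⟨h1, fun h0 => ?_, by omega, by omega, fun v hv hne => ?_⟩
  · have : (y : ℕ) = X u := congrArg Fin.val h0
    omega
  · have h6 := h5 v hv hne
    simp only [abs_eq_max_neg] at h6 ⊢
    omega

variable [DecidableRel A]

theorem COIN_step (hA : Asym A) {x y : Fin M} {u : Fin N} (hu : Nb A i u) (hx : x < X u)
    (hy : X u < y) (h : ∀ v, Nb A i v → v ≠ u → (X v < x ↔ X v < y) ∧ (x < X v ↔ y < X v)) :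
    gs A X i y = gs A X i x + 1 ∨ gs A X i x = gs A X i y + 1 := by
  rcases hu with hu | hu
  · left
    have h1 : (cl A X i y).1 = insert u (cl A X i x).1 := by
      ext v
      simp only [cl, mem_filter, mem_univ, true_and, mem_insert]
      by_cases hv : v = u
      · subst hv; simp [hu, hy]
      · simp only [hv, false_or]
        exact and_congr_right fun hiv => (h v (Or.inl hiv) hv).1.symm
    have h2 : (cl A X i y).2 = (cl A X i x).2 := by
      ext v
      simp only [cl, mem_filter, mem_univ, true_and]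
      refine and_congr_right fun hiv => ?_
      have hv : v ≠ u := by rintro rfl; exact hA _ _ hu hiv
      exact (h v (Or.inr hiv) hv).2.symm
    have h3 : u ∉ (cl A X i x).1 := by
      simp only [cl, mem_filter, mem_univ, true_and, not_and, not_lt]
      exact fun _ => hx.le
    unfold gs
    rw [h1, h2, card_insert_of_notMem h3]
    omega
  · right
    have h1 : (cl A X i x).2 = insert u (cl A X i y).2 := by
      ext v
      simp only [cl, mem_filter, mem_univ, true_and, mem_insert]
      by_cases hv : v = u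
      · subst hv; simp [hu, hx]
      · simp only [hv, false_or]
        exact and_congr_right fun hiv => (h v (Or.inr hiv) hv).2
    have h2 : (cl A X i x).1 = (cl A X i y).1 := by
      ext v
      simp only [cl, mem_filter, mem_univ, true_and]
      refine and_congr_right fun hiv => ?_
      have hv : v ≠ u := by rintro rfl; exact hA _ _ hu hiv
      exact (h v (Or.inl hiv) hv).1
    have h3 : u ∉ (cl A X i y).2 := by
      simp only [cl, mem_filter, mem_univ, true_and, not_and, not_lt]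
      exact fun _ => hy.le
    unfold gs
    rw [h1, h2, card_insert_of_notMem h3]
    omega

theorem COIN_gs (hA : Asym A) {x y : Fin M} {u : Fin N} (h : COIN_W A X i x u)
    (hy : (y : ℕ) = 2 * X u - x) :
    gs A X i y = gs A X i x + 1 ∨ gs A X i x = gs A X i y + 1 := by
  obtain ⟨h1, h2, h3, -, h5⟩ := h
  have h2' : (x : ℕ) ≠ X u := fun h0 => h2 (Fin.ext h0)
  have h6 : ∀ v, Nb A i v → v ≠ u → (X v < x ↔ X v < y) ∧ (x < X v ↔ y < X v) := by
    intro v hv hne
    have h7 := h5 v hv hne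
    simp only [abs_eq_max_neg] at h7
    simp only [Fin.lt_def]
    omega
  rcases lt_or_gt_of_ne h2' with h7 | h7
  · exact COIN_step hA h1 (Fin.lt_def.2 h7) (Fin.lt_def.2 (by omega)) h6
  · exact (COIN_step hA h1 (Fin.lt_def.2 (by omega)) (Fin.lt_def.2 h7)
      fun v hv hne => ⟨(h6 v hv hne).1.symm, (h6 v hv hne).2.symm⟩).symm

end

theorem COIN : St_COIN := by
  intro N M A _ R X hA i
  have h1 : ∀ x : Fin M, ∃ y : Fin M, ∀ u, COIN_W A X i x u → (y : ℕ) = 2 * X u - x := by
    intro x
    by_cases hx : ∃ u, COIN_W A X i x u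
    · obtain ⟨u, hu⟩ := hx
      refine ⟨⟨2 * X u - x, by have := hu.2.2.1; have := hu.2.2.2.1; omega⟩, fun u' hu' => ?_⟩
      rw [COIN_uniq hu' hu]
    · exact ⟨x, fun u hu => (hx ⟨u, hu⟩).elim⟩
  choose σ hσ using h1
  refine ⟨σ, fun a ha => ?_⟩
  obtain ⟨u, hu⟩ := (COIN_mem A X i a).1 ha
  have h2 := hσ a u hu
  have h3 := COIN_refl hu h2
  have h4 := hσ _ u h3
  refine ⟨(COIN_mem A X i _).2 ⟨u, h3⟩, Fin.ext ?_, COIN_gs hA hu h2⟩
  have := hu.2.2.1
  omega

theorem SITE : St_SITE := by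
  intro N M g A _ X i u1 u2 _ h1 h2 h3 h4 h5 h6
  classical
  unfold Sm at h5 h6
  push Not at h5 h6
  have h7 := h5.1 i h2
  have h8 := h6.1 u1 h3
  have h9 := h5.2
  have h10 := (X u2).2
  have h11 : ∀ v, Nb A i v → (X v : ℕ) < X i ∨ v = u1 ∨ (X u2 : ℕ) ≤ X v := h4
  rw [cc_eq]
  conv_lhs => rw [← card_range (g / 2)]
  refine card_le_card_of_injOn
    (fun t => (⟨X u1 - 1 - t, by have := (X u1).2; omega⟩ : Fin M)) (fun t ht => ?_)
    fun t ht s hs hts => ?_
  · have ht' : t < g / 2 := mem_range.1 (mem_coe.1 ht)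
    refine mem_coe.2 (mem_filter.2 ⟨mem_univ _, (COIN_mem A X i _).2 ⟨u1, h1, fun h0 => ?_, ?_,
      ?_, fun v hv hne => ?_⟩, ?_⟩)
    · have : (X u1 : ℕ) - 1 - t = X u1 := congrArg Fin.val h0
      omega
    · change (X u1 : ℕ) - 1 - t ≤ _
      omega
    · change _ < M + ((X u1 : ℕ) - 1 - t)
      omega
    · change 2 * |(((X u1 : ℕ) - 1 - t : ℕ) : ℤ) - _| < _
      have h12 := h11 v hv
      simp only [hne, false_or] at h12
      simp only [abs_eq_max_neg]
      omega
    · refine Prod.ext ?_ ?_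
      · ext v
        simp only [cl, mem_filter, mem_univ, true_and, Fin.lt_def]
        refine and_congr_right fun hiv => ?_
        rcases h11 v (Or.inl hiv) with h | rfl | h <;> omega
      · ext v
        simp only [cl, mem_filter, mem_univ, true_and, Fin.lt_def]
        refine and_congr_right fun hiv => ?_
        rcases h11 v (Or.inr hiv) with h | rfl | h <;> omega
  · have ht' : t < g / 2 := mem_range.1 (mem_coe.1 ht)
    have hs' : s < g / 2 := mem_range.1 (mem_coe.1 hs)
    have : (X u1 : ℕ) - 1 - t = X u1 - 1 - s := congrArg Fin.val hts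
    omega

end Pool.Agent.Lib.MP_64bee1_co.UN
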