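import Pool.Agent.Lib.MP_64bee1_co.UN.Stmts

/-!
The lower bound for the low frequency integral of a folded class.
-/

namespace Pool.Agent.Lib.MP_64bee1_co.UN

open Finset

theorem CR (h1 : St_CB) (h2 : St_CM) (h3 : St_CS) : St_CR := by
  intro ι _ d p S Y hp hd hS hS1 hY hYp hz
  have p1 : (1 : ℝ) ≤ p := by exact_mod_cast hp
  have S0 : 0 < S := lt_of_lt_of_le (by positivity) hS1
  have Yp : 0 < Y * p := by positivity
  obtain ⟨β, b1, b2, b3⟩ := h1 ι d p S Y hd hS S0 hY (by linarith)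
  have β0 : 0 < β := lt_of_lt_of_le (by positivity) b1
  have b4 : 864 * β * p ≤ 1 := by
    rw [le_div_iff₀ S0] at b2
    have : 864 * β * p * S ≤ 1 * S := by nlinarith
    exact le_of_mul_le_mul_right this S0
  have βp : 0 < β * p := by positivity
  have m := h2 ι d p S Y β hp hd hS hS1 β0 b4 b3
  have s := h3 ι d p S Y β hp hd hS hY.le β0.le (by linarith)
  set Pc : ℝ := ∏ v, Real.cosh (d v * β) with hPc
  set z : ℝ := Real.exp (-(2 * Y ^ 2 / S)) with hzd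
  set e : ℝ := Real.exp (-S / (16 * p ^ 2)) with he
  have P1 : 1 ≤ Pc :=
    calc (1 : ℝ) = ∏ _v : ι, (1 : ℝ) := by simp
      _ ≤ Pc := prod_le_prod (fun _ _ => zero_le_one) fun v _ => Real.one_le_cosh _
  have q0 : 0 < √S := Real.sqrt_pos.2 S0
  have z0 : 0 < z := Real.exp_pos _
  have z1 : z ≤ Real.exp (-(Y * β)) := by
    refine Real.exp_le_exp.2 (neg_le_neg ?_)
    calc Y * β ≤ Y * (2 * Y / S) := mul_le_mul_of_nonneg_left b2 hY.le
      _ = 2 * Y ^ 2 / S := by ring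
  have e1 : 8 * e ≤ z / (4 * √S) := by
    rw [le_div_iff₀ (by positivity)]
    linarith
  have a1 : z * Pc * β / (2 * √S) ≤ Real.exp (-(Y * β)) * Pc * β / (2 * √S) := by gcongr
  have a2 : 8 * β * Pc * e ≤ β * Pc * (z / (4 * √S)) := by
    have := mul_le_mul_of_nonneg_left e1 (show 0 ≤ β * Pc by positivity)
    linarith
  have a3 : z * Pc * β / (2 * √S) = 2 * (β * Pc * (z / (4 * √S))) := by field_simp; ring
  have a4 : Y / S * 1 * (z / (4 * √S)) ≤ β * Pc * (z / (4 * √S)) := by gcongr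
  have a5 : Y * z / (8 * S * √S) = Y / S * 1 * (z / (4 * √S)) / 2 := by field_simp; ring
  linarith

theorem CR_large {c : ℝ} (hc : 0 < c) :
    ∃ N0 : ℕ, ∀ N : ℕ, N0 ≤ N → 32 * ((N : ℝ) + 2) ^ 6 ≤ Real.exp (c * N) := by
  obtain ⟨N0, h0⟩ := exists_nat_ge (32 * 729 * 5040 / c ^ 7)
  refine ⟨N0 + 1, fun N hN => ?_⟩
  have n1 : (N0 : ℝ) + 1 ≤ N := by exact_mod_cast hN
  have n0 : (0 : ℝ) ≤ N0 := Nat.cast_nonneg _
  have h1 := Real.pow_div_factorial_le_exp (c * N) (by positivity) 7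
  refine le_trans ?_ h1
  have h2 : ((N : ℝ) + 2) ^ 6 ≤ (3 * N) ^ 6 := pow_le_pow_left₀ (by positivity) (by linarith) 6
  have h3 : 32 * 729 * 5040 ≤ c ^ 7 * N := by
    rw [div_le_iff₀ (by positivity)] at h0
    have : (N0 : ℝ) * c ^ 7 ≤ N * c ^ 7 :=
      mul_le_mul_of_nonneg_right (by linarith) (by positivity)
    linarith
  have h4 : ((Nat.factorial 7 : ℕ) : ℝ) = 5040 := by norm_num [Nat.factorial]
  rw [h4, le_div_iff₀ (by norm_num)]
  have h5 : 32 * 729 * 5040 * (N : ℝ) ^ 6 ≤ c ^ 7 * N * (N : ℝ) ^ 6 :=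
    mul_le_mul_of_nonneg_right h3 (by positivity)
  calc 32 * ((N : ℝ) + 2) ^ 6 * 5040 ≤ 32 * (3 * N) ^ 6 * 5040 := by gcongr
    _ = 32 * 729 * 5040 * (N : ℝ) ^ 6 := by ring
    _ ≤ c ^ 7 * N * (N : ℝ) ^ 6 := h5
    _ = (c * N) ^ 7 := by ring

theorem CF (h : St_CR) : St_CF := by
  intro c2 c' hc2 hc'
  obtain ⟨N1, hN1⟩ := CR_large (c := c2 / 32) (by positivity)
  obtain ⟨N2, hN2⟩ := CR_large (c := c' / 2) (by positivity)
  obtain ⟨N3, hN3⟩ := exists_nat_ge (1536 ^ 2 / c2)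
  set ε : ℝ := min (c2 / 1728) (min 1 (c' * c2 / 4)) with hε
  have ε0 : 0 < ε := by positivity
  have ε1 : ε ≤ c2 / 1728 := min_le_left _ _
  have ε2 : ε ≤ 1 := (min_le_right _ _).trans (min_le_left _ _)
  have ε3 : ε ≤ c' * c2 / 4 := (min_le_right _ _).trans (min_le_right _ _)
  refine ⟨ε, ε0, N1 + N2 + N3 + 1, fun N p hN hp hpN d hd hS Y hY1 hY2 => ?_⟩
  set S : ℝ := ∑ v, (d v : ℝ) ^ 2 with hSd
  have p1 : (1 : ℝ) ≤ p := by exact_mod_cast hp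
  have p2 : (p : ℝ) ≤ N + 2 := by exact_mod_cast hpN
  have n1 : (1 : ℝ) ≤ N := by exact_mod_cast (by omega : 1 ≤ N)
  have n3 : (N3 : ℝ) ≤ N := by exact_mod_cast (by omega : N3 ≤ N)
  have l1 := hN1 N (by omega)
  have l2 := hN2 N (by omega)
  have Np : 0 < (N : ℝ) * p ^ 2 := by positivity
  have S0 : 0 < S := lt_of_lt_of_le (by positivity) hS
  have S1 : S ≤ ((N : ℝ) + 2) ^ 3 := by
    have a1 : S ≤ ∑ _v : Fin N, ((N : ℝ) + 2) ^ 2 := sum_le_sum fun v _ => by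
      have b1 : |(d v : ℝ)| ≤ p := by exact_mod_cast hd v
      rw [← sq_abs]
      exact pow_le_pow_left₀ (abs_nonneg _) (b1.trans p2) 2
    rw [sum_const, card_univ, Fintype.card_fin, nsmul_eq_mul] at a1
    nlinarith [sq_nonneg ((N : ℝ) + 2)]
  have t1 : (1 : ℝ) ≤ ((N : ℝ) + 2) ^ 3 := one_le_pow₀ (by linarith)
  have S2 : √S ≤ ((N : ℝ) + 2) ^ 3 := by
    rw [Real.sqrt_le_left (by positivity)]
    nlinarith
  have q0 : 0 < √S := Real.sqrt_pos.2 S0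
  have S3 : 1536 ^ 2 * (p : ℝ) ^ 2 ≤ S := by
    rw [div_le_iff₀ hc2] at hN3
    have a1 : (1536 : ℝ) ^ 2 ≤ c2 * N := by nlinarith
    exact (mul_le_mul_of_nonneg_right a1 (by positivity)).trans hS
  have S4 : 1728 * Y * p ≤ S := by
    have a1 : Y * p ≤ ε * N * p * p := mul_le_mul_of_nonneg_right hY2 (by positivity)
    have a2 : ε * (N * p ^ 2) ≤ c2 / 1728 * (N * p ^ 2) := mul_le_mul_of_nonneg_right ε1 Np.le
    nlinarith
  have Y2 : ∀ b : ℝ, 0 < b → 2 * ε ^ 2 ≤ b * c2 → 2 * Y ^ 2 / S ≤ b * N := by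
    intro b hb hb1
    rw [div_le_iff₀ S0]
    have a1 : Y ^ 2 ≤ (ε * N * p) ^ 2 := pow_le_pow_left₀ (by linarith) hY2 2
    calc 2 * Y ^ 2 ≤ 2 * ε ^ 2 * (N * (N * p ^ 2)) := by nlinarith
      _ ≤ b * c2 * (N * (N * p ^ 2)) := mul_le_mul_of_nonneg_right hb1 (by positivity)
      _ = b * N * (c2 * N * p ^ 2) := by ring
      _ ≤ b * N * S := mul_le_mul_of_nonneg_left hS (by positivity)
  have Y3 := Y2 (c2 / 32) (by positivity) (by nlinarith)
  have Y4 := Y2 (c' / 2) (by positivity) (by nlinarith)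
  have S5 : -S / (16 * p ^ 2) ≤ -(c2 / 16 * N) := by
    rw [div_le_iff₀ (by positivity)]
    linarith
  have t2 : ((N : ℝ) + 2) ^ 3 ≤ ((N : ℝ) + 2) ^ 6 := pow_le_pow_right₀ (by linarith) (by norm_num)
  have S6 : 32 * √S * Real.exp (-S / (16 * p ^ 2)) ≤ Real.exp (-(2 * Y ^ 2 / S)) :=
    calc 32 * √S * Real.exp (-S / (16 * p ^ 2))
        ≤ Real.exp (c2 / 32 * N) * Real.exp (-(c2 / 16 * N)) :=
          mul_le_mul (by linarith) (Real.exp_le_exp.2 S5) (Real.exp_pos _).le (Real.exp_pos _).le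
      _ = Real.exp (-(c2 / 32 * N)) := by rw [← Real.exp_add]; congr 1; ring
      _ ≤ Real.exp (-(2 * Y ^ 2 / S)) := Real.exp_le_exp.2 (neg_le_neg Y3)
  refine le_trans ?_ (h (Fin N) d p S Y hp hd rfl S3 (by linarith) S4 S6)
  rw [le_div_iff₀ (by positivity)]
  have t3 : 8 * S * √S ≤ Real.exp (c' / 2 * N) := by
    have a1 : S * √S ≤ ((N : ℝ) + 2) ^ 3 * ((N : ℝ) + 2) ^ 3 :=
      mul_le_mul S1 S2 q0.le (by positivity)
    have a2 : ((N : ℝ) + 2) ^ 3 * ((N : ℝ) + 2) ^ 3 = ((N : ℝ) + 2) ^ 6 := by ring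
    nlinarith
  calc Real.exp (-(c' * N)) * (8 * S * √S) ≤ Real.exp (-(c' * N)) * Real.exp (c' / 2 * N) :=
        mul_le_mul_of_nonneg_left t3 (Real.exp_pos _).le
    _ = Real.exp (-(c' / 2 * N)) := by rw [← Real.exp_add]; congr 1; ring
    _ ≤ Real.exp (-(2 * Y ^ 2 / S)) := Real.exp_le_exp.2 (neg_le_neg Y4)
    _ ≤ Y * Real.exp (-(2 * Y ^ 2 / S)) := le_mul_of_one_le_left (Real.exp_pos _).le hY1

end Pool.Agent.Lib.MP_64bee1_co.UN
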