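import Pool.Agent.Lib.MP_64bee1_co.UN.Stmts

/-!
The contour shift for the low frequency integral of a folded class.
-/

namespace Pool.Agent.Lib.MP_64bee1_co.UN

open Finset

theorem CS_sinh_le {x : ℝ} (hx : 0 ≤ x) : Real.sinh x ≤ x * Real.cosh x := by
  have hd : ∀ y : ℝ, HasDerivAt (fun y => y * Real.cosh y - Real.sinh y) (y * Real.sinh y) y := by
    intro y
    have := ((hasDerivAt_id' y).fun_mul (Real.hasDerivAt_cosh y)).fun_sub (Real.hasDerivAt_sinh y)
    exact this.congr_deriv (by ring)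
  have hm : MonotoneOn (fun y => y * Real.cosh y - Real.sinh y) (Set.Ici 0) := by
    refine monotoneOn_of_deriv_nonneg (convex_Ici 0) (by fun_prop) (fun y _ =>
      (hd y).differentiableAt.differentiableWithinAt) fun y hy => ?_
    rw [(hd y).deriv]
    have hy' : 0 ≤ y := interior_subset hy
    exact mul_nonneg hy' (Real.sinh_nonneg_iff.2 hy')
  have := hm (Set.self_mem_Ici) hx hx
  simp at this
  linarith

theorem CS_tanh_le (x : ℝ) : |Real.tanh x| ≤ |x| := by
  rw [Real.tanh_eq_sinh_div_cosh, abs_div, abs_of_pos (Real.cosh_pos x),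
    div_le_iff₀ (Real.cosh_pos x), Real.abs_sinh, ← Real.cosh_abs]
  exact CS_sinh_le (abs_nonneg x)

theorem CS_norm_cos (a b : ℝ) :
    ‖Complex.cos (a + b * Complex.I)‖ = Real.cosh b * ‖uu a (Real.tanh b)‖ := by
  have h1 : ‖Complex.exp (Complex.I * (Real.tanh b : ℝ) * a)‖ = 1 := by
    rw [Complex.norm_exp]
    simp [-Complex.ofReal_tanh]
  have h2 : Complex.cos (a + b * Complex.I) =
      (Real.cosh b : ℝ) * (Real.cos a - Complex.I * (Real.tanh b : ℝ) * Real.sin a) := by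
    have h3 : ((Real.cosh b : ℝ) : ℂ) * (Real.tanh b : ℝ) = (Real.sinh b : ℝ) := by
      rw [← Complex.ofReal_mul, Real.tanh_eq_sinh_div_cosh,
        mul_div_cancel₀ _ (Real.cosh_pos b).ne']
    rw [Complex.cos_add_mul_I, ← Complex.ofReal_cos, ← Complex.ofReal_sin, ← Complex.ofReal_cosh,
      ← Complex.ofReal_sinh, ← h3]
    ring
  unfold uu
  rw [h2, norm_mul, norm_mul, h1, mul_one, Complex.norm_real, Real.norm_eq_abs,
    abs_of_pos (Real.cosh_pos b)]

theorem CS_norm_sin (a b : ℝ) : ‖Complex.sin (a + b * Complex.I)‖ ≤ Real.cosh b := by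
  rw [Complex.sin_add_mul_I, ← Complex.ofReal_cos, ← Complex.ofReal_sin, ← Complex.ofReal_cosh,
    ← Complex.ofReal_sinh, ← Complex.ofReal_mul, ← Complex.ofReal_mul,
    Complex.norm_add_mul_I, Real.sqrt_le_left (Real.cosh_pos b).le]
  have h1 := Real.sin_sq_add_cos_sq a
  have h2 := Real.cosh_sq b
  have h3 := sq_nonneg (Real.cos a)
  have : (Real.sin a * Real.cosh b) ^ 2 + (Real.cos a * Real.sinh b) ^ 2 =
      Real.cosh b ^ 2 - Real.cos a ^ 2 := by
    rw [mul_pow, mul_pow, show Real.sin a ^ 2 = 1 - Real.cos a ^ 2 by linarith,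
      show Real.sinh b ^ 2 = Real.cosh b ^ 2 - 1 by linarith]
    ring
  linarith

theorem CS_cosh_le {s : ℝ} (h : |s| ≤ 1 / 2) : Real.cosh s ≤ 2 := by
  have h1 := Real.cosh_le_exp_half_sq s
  have h2 : s ^ 2 / 2 ≤ 1 / 2 := by
    have := sq_abs s
    nlinarith [abs_nonneg s]
  have h3 : Real.exp (1 / 2) ≤ 2 := by
    have h4 : Real.exp (1 / 2) * Real.exp (1 / 2) = Real.exp 1 := by
      rw [← Real.exp_add]
      norm_num
    have := Real.exp_one_lt_d9
    nlinarith [Real.exp_pos (1 / 2)]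
  exact h1.trans ((Real.exp_le_exp.2 h2).trans h3)

theorem CS_side (h : St_CU) {ι : Type} [Fintype ι] (d : ι → ℤ) {p : ℕ} {Y β t s : ℝ}
    (hp : 1 ≤ p) (hd : ∀ v, |d v| ≤ p) (hY : 0 ≤ Y) (hβ : 2 * β * p ≤ 1)
    (ht : |t| = 1 / (2 * p)) (h0 : 0 ≤ s) (h1 : s ≤ β) :
    ‖hh d Y (t + s * Complex.I)‖ ≤ 4 * (∏ v, Real.cosh (d v * β)) *
      Real.exp (-(∑ v, (d v : ℝ) ^ 2) / (16 * p ^ 2)) := by
  have hp' : (1 : ℝ) ≤ p := by exact_mod_cast hp
  have hd' : ∀ v, |(d v : ℝ)| ≤ p := fun v => by exact_mod_cast hd v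
  have hds : ∀ v, |(d v : ℝ) * s| ≤ |(d v : ℝ) * β| := fun v => by
    rw [abs_mul, abs_mul, abs_of_nonneg h0, abs_of_nonneg (h0.trans h1)]
    exact mul_le_mul_of_nonneg_left h1 (abs_nonneg _)
  have hdb : ∀ v, |(d v : ℝ) * β| ≤ 1 / 2 := fun v => by
    rw [abs_mul, abs_of_nonneg (h0.trans h1)]
    nlinarith [hd' v, h0.trans h1]
  have e1 : ∀ v, ‖Complex.cos (d v * (t + s * Complex.I))‖ =
      Real.cosh (d v * s) * ‖uu (d v * t) (Real.tanh (d v * s))‖ := fun v => by
    rw [← CS_norm_cos]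
    congr 2
    push_cast
    ring
  have e2 := (h ι (fun v => d v * t) (fun v => Real.tanh (d v * s)) (fun v => by
    rw [abs_mul, ht]
    have := hd' v
    rw [mul_one_div, div_le_iff₀ (by positivity)]
    linarith) fun v => (CS_tanh_le _).trans ((hds v).trans (hdb v))).2.2
  have e3 : -(∑ v, ((d v : ℝ) * t) ^ 2) / 4 = -(∑ v, (d v : ℝ) ^ 2) / (16 * p ^ 2) := by
    simp only [mul_pow]
    rw [← sum_mul, ← sq_abs t, ht]
    field_simp
    ring
  rw [e3] at e2
  have e4 : ‖Complex.exp (Complex.I * Y * (t + s * Complex.I))‖ ≤ 1 := by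
    rw [Complex.norm_exp, Real.exp_le_one_iff]
    simp
    positivity
  have e5 : ‖-2 * Complex.I * Complex.sin (t + s * Complex.I)‖ ≤ 4 := by
    have q1 := CS_norm_sin t s
    have q2 := CS_cosh_le (s := s) (by
      rw [abs_of_nonneg h0]
      nlinarith)
    rw [norm_mul, norm_mul]
    simp
    linarith
  have e6 : ∏ v, Real.cosh (d v * s) ≤ ∏ v, Real.cosh (d v * β) :=
    prod_le_prod (fun v _ => (Real.cosh_pos _).le) fun v _ => Real.cosh_le_cosh.2 (hds v)
  have e7 : ‖∏ v, Complex.cos (d v * (t + s * Complex.I))‖ ≤ (∏ v, Real.cosh (d v * β)) *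
      Real.exp (-(∑ v, (d v : ℝ) ^ 2) / (16 * p ^ 2)) := by
    rw [norm_prod]
    simp only [e1]
    rw [prod_mul_distrib]
    exact mul_le_mul e6 e2 (prod_nonneg fun v _ => norm_nonneg _)
      (prod_nonneg fun v _ => (Real.cosh_pos _).le)
  unfold hh
  rw [norm_mul, norm_mul]
  calc _ ≤ ((∏ v, Real.cosh (d v * β)) * Real.exp (-(∑ v, (d v : ℝ) ^ 2) / (16 * p ^ 2))) * 1 * 4 :=
        mul_le_mul (mul_le_mul e7 e4 (norm_nonneg _) ((norm_nonneg _).trans e7)) e5
          (norm_nonneg _) (by simpa using (norm_nonneg _).trans e7)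
    _ = _ := by ring

theorem CS_re {ι : Type} [Fintype ι] (d : ι → ℤ) (Y t : ℝ) :
    (hh d Y t).re = (∏ v, Real.cos (d v * t)) * (2 * Real.sin t * Real.sin (Y * t)) := by
  have e1 : ∏ v, Complex.cos (d v * t) = ((∏ v, Real.cos (d v * t) : ℝ) : ℂ) := by
    push_cast
    rfl
  have e2 : Complex.exp (Complex.I * Y * t) =
      (Real.cos (Y * t) : ℝ) + (Real.sin (Y * t) : ℝ) * Complex.I := by
    rw [show Complex.I * Y * t = ((Y * t : ℝ) : ℂ) * Complex.I by push_cast; ring,
      Complex.exp_mul_I, ← Complex.ofReal_cos, ← Complex.ofReal_sin]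
  unfold hh
  rw [e1, e2, ← Complex.ofReal_sin]
  generalize (∏ v, Real.cos (d v * t)) = A
  generalize Real.cos (Y * t) = B
  generalize Real.sin (Y * t) = C
  generalize Real.sin t = D
  simp
  ring

theorem CS_diff {ι : Type} [Fintype ι] (d : ι → ℤ) (Y : ℝ) : Differentiable ℂ (hh d Y) := by
  unfold hh
  fun_prop

theorem CS_bottom {ι : Type} [Fintype ι] (d : ι → ℤ) (p : ℕ) (Y : ℝ) :
    (∫ t in (-(1 / (2 * p)) : ℝ)..(1 / (2 * p)), hh d Y t).re = 2 * lowI d p Y := by
  have hc : Continuous fun t : ℝ => hh d Y t :=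
    (CS_diff d Y).continuous.comp Complex.continuous_ofReal
  have e1 := Complex.reCLM.intervalIntegral_comp_comm
    (hc.intervalIntegrable (μ := MeasureTheory.volume) (-(1 / (2 * p))) (1 / (2 * p)))
  simp only [Complex.reCLM_apply, CS_re] at e1
  rw [← e1]
  have hf : Continuous fun t : ℝ =>
      (∏ v, Real.cos (d v * t)) * (2 * Real.sin t * Real.sin (Y * t)) := by fun_prop
  rw [← intervalIntegral.integral_add_adjacent_intervals (b := 0) (hf.intervalIntegrable _ _)
    (hf.intervalIntegrable _ _)]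
  have e2 := intervalIntegral.integral_comp_neg (a := 0) (b := 1 / (2 * p)) fun t : ℝ =>
      (∏ v, Real.cos (d v * t)) * (2 * Real.sin t * Real.sin (Y * t))
  simp only [mul_neg, Real.cos_neg, Real.sin_neg, neg_mul, neg_neg, neg_zero] at e2
  unfold lowI
  rw [← e2]
  ring

theorem CS (h : St_CU) : St_CS := by
  intro ι _ d p S Y β hp hd hS hY h0 hβ
  have hp' : (1 : ℝ) ≤ p := by exact_mod_cast hp
  have ht : (0 : ℝ) < 1 / (2 * p) := by positivity
  have key := Complex.integral_boundary_rect_eq_zero_of_differentiableOn (hh d Y)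
    ⟨-(1 / (2 * p)), 0⟩ ⟨1 / (2 * p), β⟩ (CS_diff d Y).differentiableOn
  simp only [Complex.ofReal_zero, zero_mul, add_zero] at key
  have side : ∀ t : ℝ, |t| = 1 / (2 * p) →
      ‖Complex.I • ∫ y in (0 : ℝ)..β, hh d Y (t + y * Complex.I)‖ ≤
        4 * (∏ v, Real.cosh (d v * β)) * Real.exp (-S / (16 * p ^ 2)) * β := by
    intro t ht'
    rw [norm_smul, Complex.norm_I, one_mul]
    have := intervalIntegral.norm_integral_le_of_norm_le_const (a := 0) (b := β)
      (f := fun y : ℝ => hh d Y (t + y * Complex.I))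
      (C := 4 * (∏ v, Real.cosh (d v * β)) * Real.exp (-S / (16 * p ^ 2))) fun y hy => by
        rw [Set.uIoc_of_le h0] at hy
        rw [hS]
        exact CS_side h d hp hd hY hβ ht' hy.1.le hy.2
    rwa [sub_zero, abs_of_nonneg h0] at this
  have s1 := (Complex.abs_re_le_norm _).trans (side _ (abs_of_pos ht))
  have s2 := (Complex.abs_re_le_norm _).trans (side (-(1 / (2 * p))) (by
    rw [abs_neg, abs_of_pos ht]))
  have e := congrArg Complex.re key
  simp only [Complex.add_re, Complex.sub_re, Complex.zero_re] at e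
  rw [CS_bottom] at e
  have s3 := (abs_le.1 s1).2
  have s4 := (abs_le.1 s2).1
  linarith

end Pool.Agent.Lib.MP_64bee1_co.UN
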