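import Pool.Agent.Lib.MP_64bee1_co.UN.Stmts

/-!
Estimates for the normalised factors `uu` of the contour argument.
-/

namespace Pool.Agent.Lib.MP_64bee1_co.UN

open Finset

theorem CU_re (a τ : ℝ) :
    (uu a τ).re = Real.cos a * Real.cos (τ * a) + τ * Real.sin a * Real.sin (τ * a) := by
  have h : Complex.I * (τ : ℂ) * (a : ℂ) = ((τ * a : ℝ) : ℂ) * Complex.I := by push_cast; ring
  unfold uu
  rw [h, Complex.mul_re, Complex.exp_ofReal_mul_I_re, Complex.exp_ofReal_mul_I_im]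
  simp [Complex.mul_re, Complex.mul_im, Complex.cos_ofReal_re, Complex.sin_ofReal_re]

theorem CU_im (a τ : ℝ) :
    (uu a τ).im = Real.cos a * Real.sin (τ * a) - τ * Real.sin a * Real.cos (τ * a) := by
  have h : Complex.I * (τ : ℂ) * (a : ℂ) = ((τ * a : ℝ) : ℂ) * Complex.I := by push_cast; ring
  unfold uu
  rw [h, Complex.mul_im, Complex.exp_ofReal_mul_I_re, Complex.exp_ofReal_mul_I_im]
  simp [Complex.mul_re, Complex.mul_im, Complex.cos_ofReal_re, Complex.sin_ofReal_re]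
  ring

theorem CU_normSq (a τ : ℝ) :
    ‖uu a τ‖ ^ 2 = Real.cos a ^ 2 + τ ^ 2 * Real.sin a ^ 2 := by
  rw [Complex.sq_norm, Complex.normSq_apply, CU_re, CU_im]
  have h := Real.sin_sq_add_cos_sq (τ * a)
  linear_combination (Real.cos a ^ 2 + τ ^ 2 * Real.sin a ^ 2) * h

theorem CU_cos_le (a τ : ℝ) : Real.cos a ≤ ‖uu a τ‖ := by
  refine (le_abs_self _).trans (abs_le_of_sq_le_sq ?_ (norm_nonneg _))
  rw [CU_normSq]
  nlinarith [mul_nonneg (sq_nonneg τ) (sq_nonneg (Real.sin a))]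

theorem CU_cos_ge {a : ℝ} (ha : |a| ≤ 1 / 2) : 7 / 8 ≤ Real.cos a := by
  have h1 := Real.one_sub_sq_div_two_le_cos (x := a)
  have h2 : a ^ 2 ≤ 1 / 4 := by
    have := sq_abs a
    nlinarith [abs_nonneg a]
  linarith

theorem CU_sin_sq {a : ℝ} (ha : |a| ≤ 1 / 2) : 225 / 256 * a ^ 2 ≤ Real.sin a ^ 2 := by
  have key : ∀ x : ℝ, 0 ≤ x → x ≤ 1 / 2 → 225 / 256 * x ^ 2 ≤ Real.sin x ^ 2 := by
    intro x hx0 hx
    rcases hx0.eq_or_lt with rfl | hx0'
    · simp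
    · have h := Real.sin_gt_sub_cube hx0'
      have h2 : 15 / 16 * x ≤ Real.sin x := by
        have : x ^ 3 / 6 ≤ x / 16 := by
          have : x ^ 2 ≤ 1 / 4 := by nlinarith
          nlinarith
        linarith
      have h3 : 0 ≤ 15 / 16 * x := by positivity
      nlinarith
  have h := key |a| (abs_nonneg a) ha
  rw [sq_abs] at h
  rcases abs_cases a with ⟨h1, _⟩ | ⟨h1, _⟩
  · rwa [h1] at h
  · rw [h1, Real.sin_neg, neg_sq] at h; exact h

theorem CU_norm_le {a τ : ℝ} (ha : |a| ≤ 1 / 2) (hτ : |τ| ≤ 1 / 2) :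
    ‖uu a τ‖ ≤ Real.exp (-(a ^ 2) / 4) := by
  refine (le_abs_self _).trans (abs_le_of_sq_le_sq ?_ (Real.exp_pos _).le)
  rw [CU_normSq, ← Real.exp_nat_mul]
  have h1 := Real.add_one_le_exp (((2 : ℕ) : ℝ) * (-(a ^ 2) / 4))
  have h2 := CU_sin_sq ha
  have h3 := Real.sin_sq_add_cos_sq a
  have h4 : τ ^ 2 ≤ 1 / 4 := by
    have := sq_abs τ
    nlinarith [abs_nonneg τ]
  have h5 : τ ^ 2 * Real.sin a ^ 2 ≤ 1 / 4 * Real.sin a ^ 2 :=
    mul_le_mul_of_nonneg_right h4 (sq_nonneg _)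
  have h6 := sq_nonneg a
  push_cast at h1 ⊢
  linarith

theorem CU_re_nonneg {a τ : ℝ} (ha : |a| ≤ 1 / 2) (hτ : |τ| ≤ 1 / 2) : 0 ≤ (uu a τ).re := by
  rw [CU_re]
  have hτa : |τ * a| ≤ 1 / 2 := by
    rw [abs_mul]; nlinarith [abs_nonneg τ, abs_nonneg a]
  have h1 := CU_cos_ge ha
  have h2 := CU_cos_ge hτa
  have h3 : |τ * Real.sin a * Real.sin (τ * a)| ≤ 1 / 2 := by
    rw [abs_mul, abs_mul]
    have s1 := Real.abs_sin_le_one a
    have s2 := Real.abs_sin_le_one (τ * a)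
    have p1 : |τ| * |Real.sin a| ≤ 1 / 2 := by nlinarith [abs_nonneg τ, abs_nonneg (Real.sin a)]
    have p0 : 0 ≤ |τ| * |Real.sin a| := by positivity
    nlinarith [abs_nonneg (Real.sin (τ * a))]
  have h4 := (abs_le.1 h3).1
  nlinarith

theorem CU_im_le {a τ : ℝ} (hτ : |τ| ≤ 1 / 2) : |(uu a τ).im| ≤ |τ| * |a| ^ 3 := by
  rw [CU_im]
  let ψ : ℝ → ℝ := fun x => Real.cos x * Real.sin (τ * x) - τ * Real.sin x * Real.cos (τ * x)
  have hd : ∀ x, HasDerivAt ψ (-(1 - τ ^ 2) * Real.sin x * Real.sin (τ * x)) x := by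
    intro x
    have e1 : HasDerivAt (fun x : ℝ => τ * x) τ x := by
      simpa using (hasDerivAt_id x).const_mul τ
    have e2 := ((Real.hasDerivAt_cos x).mul e1.sin).sub
      (((Real.hasDerivAt_sin x).const_mul τ).mul e1.cos)
    refine e2.congr_deriv ?_
    ring
  have hb : ∀ x ∈ Set.Icc (-|a|) |a|,
      ‖-(1 - τ ^ 2) * Real.sin x * Real.sin (τ * x)‖ ≤ |τ| * |a| ^ 2 := by
    intro x hx
    have hx' : |x| ≤ |a| := abs_le.2 hx
    have h4 : τ ^ 2 ≤ 1 / 4 := by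
      have := sq_abs τ
      nlinarith [abs_nonneg τ]
    rw [Real.norm_eq_abs, abs_mul, abs_mul, abs_neg,
      abs_of_nonneg (by linarith : (0 : ℝ) ≤ 1 - τ ^ 2)]
    have s1 : |Real.sin x| ≤ |a| := Real.abs_sin_le_abs.trans hx'
    have s2 : |Real.sin (τ * x)| ≤ |τ| * |a| := by
      refine Real.abs_sin_le_abs.trans ?_
      rw [abs_mul]
      exact mul_le_mul_of_nonneg_left hx' (abs_nonneg _)
    have s3 : (1 - τ ^ 2) * |Real.sin x| ≤ |a| := by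
      nlinarith [abs_nonneg (Real.sin x), sq_nonneg τ]
    calc (1 - τ ^ 2) * |Real.sin x| * |Real.sin (τ * x)| ≤ |a| * (|τ| * |a|) :=
          mul_le_mul s3 s2 (abs_nonneg _) (abs_nonneg _)
      _ = |τ| * |a| ^ 2 := by ring
  have h := Convex.norm_image_sub_le_of_norm_hasDerivWithin_le (f := ψ) (s := Set.Icc (-|a|) |a|)
    (fun x _ => (hd x).hasDerivWithinAt) hb (convex_Icc _ _) (x := 0) (y := a)
    ⟨by simp, abs_nonneg a⟩ ⟨neg_abs_le a, le_abs_self a⟩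
  have h0 : ψ 0 = 0 := by simp [ψ]
  rw [h0, sub_zero, sub_zero, Real.norm_eq_abs, Real.norm_eq_abs] at h
  calc _ ≤ |τ| * |a| ^ 2 * |a| := h
    _ = |τ| * |a| ^ 3 := by ring

theorem CU_sub_norm {z : ℂ} (hz : 0 ≤ z.re) : ‖z - (‖z‖ : ℂ)‖ ≤ 2 * |z.im| := by
  have h1 := Complex.norm_le_abs_re_add_abs_im (z - (‖z‖ : ℂ))
  have h2 := Complex.norm_le_abs_re_add_abs_im z
  have h3 := Complex.re_le_norm z
  rw [abs_of_nonneg hz] at h2
  have h4 : |(z - (‖z‖ : ℂ)).re| ≤ |z.im| := by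
    rw [Complex.sub_re, Complex.ofReal_re, abs_le]
    constructor
    · linarith
    · linarith [abs_nonneg z.im]
  have h5 : (z - (‖z‖ : ℂ)).im = z.im := by simp
  rw [h5] at h1
  linarith

theorem CU_one {a τ : ℝ} (ha : |a| ≤ 1 / 2) (hτ : |τ| ≤ 1 / 2) :
    ‖uu a τ - (‖uu a τ‖ : ℂ)‖ ≤ ‖uu a τ‖ * (3 * (|τ| * |a| ^ 3)) := by
  have h1 := CU_sub_norm (CU_re_nonneg ha hτ)
  have h2 := CU_im_le (a := a) hτ
  have h3 := (CU_cos_ge ha).trans (CU_cos_le a τ)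
  have h4 : 0 ≤ |τ| * |a| ^ 3 := by positivity
  nlinarith

theorem CU_prod {ι : Type} (u : ι → ℂ) (ε : ι → ℝ) (s : Finset ι)
    (h : ∀ v ∈ s, ‖u v - (‖u v‖ : ℂ)‖ ≤ ‖u v‖ * ε v) :
    ‖∏ v ∈ s, u v - ((∏ v ∈ s, ‖u v‖ : ℝ) : ℂ)‖ ≤ (∏ v ∈ s, ‖u v‖) * ∑ v ∈ s, ε v := by
  classical
  induction s using Finset.induction_on with
  | empty => simp
  | insert b s hb ih =>
    have i1 := ih fun v hv => h v (mem_insert_of_mem hv)
    have i2 := h b (mem_insert_self _ _)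
    rw [prod_insert hb, prod_insert hb, sum_insert hb]
    set P := ∏ v ∈ s, u v
    set R := ∏ v ∈ s, ‖u v‖ with hR
    have hR0 : 0 ≤ R := prod_nonneg fun _ _ => norm_nonneg _
    have e : u b * P - ((‖u b‖ * R : ℝ) : ℂ) =
        u b * (P - (R : ℂ)) + (u b - (‖u b‖ : ℂ)) * (R : ℂ) := by push_cast; ring
    rw [e]
    refine (norm_add_le _ _).trans ?_
    rw [norm_mul, norm_mul, Complex.norm_real, Real.norm_of_nonneg hR0]
    have j1 := mul_le_mul_of_nonneg_left i1 (norm_nonneg (u b))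
    have j2 := mul_le_mul_of_nonneg_right i2 hR0
    calc _ ≤ ‖u b‖ * (R * ∑ v ∈ s, ε v) + ‖u b‖ * ε b * R := add_le_add j1 j2
      _ = _ := by ring

theorem CU : St_CU := by
  classical
  intro ι _ a τ ha hτ
  refine ⟨?_, ?_, ?_⟩
  · rw [mul_sum]
    exact CU_prod (fun v => uu (a v) (τ v)) (fun v => 3 * (|τ v| * |a v| ^ 3)) univ
      fun v _ => CU_one (ha v) (hτ v)
  · have h1 := one_sub_sum_le_prod (fun v => ‖uu (a v) (τ v)‖) univ (fun _ _ => norm_nonneg _)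
      fun v _ => (CU_norm_le (ha v) (hτ v)).trans (Real.exp_le_one_iff.2 (by
        have := sq_nonneg (a v); linarith))
    refine le_trans ?_ h1
    rw [sum_div]
    refine sub_le_sub_left (sum_le_sum fun v _ => ?_) 1
    have h2 := Real.one_sub_sq_div_two_le_cos (x := a v)
    have h3 := CU_cos_le (a v) (τ v)
    linarith
  · have e : -(∑ v, a v ^ 2) / 4 = ∑ v, -(a v ^ 2) / 4 := by
      rw [← sum_div, sum_neg_distrib]
    rw [e, Real.exp_sum]
    exact prod_le_prod (fun _ _ => norm_nonneg _) fun v _ => CU_norm_le (ha v) (hτ v)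

end Pool.Agent.Lib.MP_64bee1_co.UN
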