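import Pool.Agent.Lib.MP_64bee1_co.UN.Stmts

/-!
Upper ratio bounds for the cumulative counts, from the deletion map.
-/

namespace Pool.Agent.Lib.MP_64bee1_co.UN

open Finset

/-- Some window of length `L` touches at least its share of the inverted edges. -/
theorem DEL_window {N : ℕ} (A : Fin N → Fin N → Prop) [DecidableRel A] {L : ℕ} (hL : 1 ≤ L)
    (hLN : L ≤ N) (w : Equiv.Perm (Fin N)) :
    ∃ a, a + L ≤ N ∧ iv A w * L ≤
      2 * N * ivt A (univ.filter fun v : Fin N => a ≤ (v : ℕ) ∧ (v : ℕ) < a + L) w := by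
  classical
  set J := N / L + 1 with hJ
  set F : ℕ → ℕ := fun j => ivt A (univ.filter fun v : Fin N =>
    min (j * L) (N - L) ≤ (v : ℕ) ∧ (v : ℕ) < min (j * L) (N - L) + L) w with hF
  have hsum : iv A w ≤ ∑ j ∈ range J, F j := by
    unfold iv
    simp only [hF, ivt]
    refine le_trans (card_le_card ?_) card_biUnion_le
    intro p hp
    rw [mem_biUnion]
    refine ⟨(p.1 : ℕ) / L, ?_, ?_⟩
    · rw [mem_range, hJ]
      exact Nat.lt_succ_of_le (Nat.div_le_div_right p.1.2.le)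
    · rw [mem_filter] at hp ⊢
      refine ⟨mem_univ _, hp.2, Or.inl ?_⟩
      rw [mem_filter]
      refine ⟨mem_univ _, ?_, ?_⟩
      · exact (min_le_left _ _).trans (Nat.div_mul_le_self _ _)
      · have h1 : (p.1 : ℕ) < (p.1 : ℕ) / L * L + L := Nat.lt_div_mul_add (by omega)
        have h2 := p.1.2
        rcases min_choice ((p.1 : ℕ) / L * L) (N - L) with h | h <;> rw [h] <;> omega
  obtain ⟨j, -, hj⟩ := exists_max_image (range J) F ⟨0, mem_range.2 (Nat.succ_pos _)⟩
  have h1 : ∑ i ∈ range J, F i ≤ J * F j := by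
    have := sum_le_card_nsmul (range J) F (F j) hj
    simpa using this
  refine ⟨min (j * L) (N - L), ?_, ?_⟩
  · have := min_le_right (j * L) (N - L)
    omega
  · have h2 : J * L ≤ 2 * N := by
      have := Nat.div_mul_le_self N L
      rw [hJ, add_mul]; omega
    calc iv A w * L ≤ J * F j * L := Nat.mul_le_mul_right _ (hsum.trans h1)
      _ = J * L * F j := by ring
      _ ≤ 2 * N * F j := Nat.mul_le_mul_right _ h2

/-- A map that is injective once the values on a window are known has small fibres. -/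
theorem DEL_fibre {N a L : ℕ} (h : a + L ≤ N) (Ψ : Equiv.Perm (Fin N) → Equiv.Perm (Fin N))
    (hΨ : ∀ w w', Ψ w = Ψ w' → (∀ v : Fin N, a ≤ (v : ℕ) → (v : ℕ) < a + L → w v = w' v) → w = w')
    (Q : Equiv.Perm (Fin N) → Prop) :
    cc (fun w => Q (Ψ w)) ≤ N ^ L * cc Q := by
  classical
  rw [cc_eq, cc_eq]
  have e : N ^ L * (univ.filter Q).card =
      ((univ : Finset (Fin L → Fin N)) ×ˢ (univ.filter Q)).card := by
    rw [card_product, card_univ, Fintype.card_fun, Fintype.card_fin, Fintype.card_fin]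
  rw [e]
  refine card_le_card_of_injOn
    (fun w => (fun s : Fin L => w ⟨a + s, by have := s.2; omega⟩, Ψ w)) ?_ ?_
  · intro w hw
    have hw' := (mem_filter.1 (mem_coe.1 hw)).2
    exact mem_coe.2 (mem_product.2 ⟨mem_univ _, mem_filter.2 ⟨mem_univ _, hw'⟩⟩)
  · intro w _ w' _ hww
    have h1 := congrArg Prod.fst hww
    have h2 := congrArg Prod.snd hww
    refine hΨ w w' h2 fun v hv1 hv2 => ?_
    have h3 := congrFun h1 ⟨(v : ℕ) - a, by omega⟩
    have e : (⟨a + ((v : ℕ) - a), by omega⟩ : Fin N) = v := Fin.ext (by simp; omega)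
    simpa [e] using h3

theorem DEL (h : St_DELb) : St_DEL := by
  classical
  intro N k L t δ hk hL hLk hLN hc
  have hΨ : ∀ a : ℕ, ∃ Ψ : Equiv.Perm (Fin N) → Equiv.Perm (Fin N), a + L ≤ N →
      (∀ w, iv (Adj N k) (Ψ w) +
        ivt (Adj N k) (univ.filter fun v : Fin N => a ≤ (v : ℕ) ∧ (v : ℕ) < a + L) w ≤
        iv (Adj N k) w + if L < k then N / k + 1 else 0) ∧
      ∀ w w', Ψ w = Ψ w' → (∀ v : Fin N, a ≤ (v : ℕ) → (v : ℕ) < a + L → w v = w' v) → w = w' := by
    intro a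
    by_cases ha : a + L ≤ N
    · obtain ⟨Ψ, h1⟩ := h N k a L hk hL hLk ha
      exact ⟨Ψ, fun _ => h1⟩
    · exact ⟨id, fun h' => absurd h' ha⟩
  choose Ψ hΨ using hΨ
  have s1 : cum (Adj N k) 0 (t + δ) ≤ cum (Adj N k) 0 t +
      cc fun w : Equiv.Perm (Fin N) => ∃ a ∈ range (N - L + 1), iv (Adj N k) (Ψ a w) + 0 ≤ t := by
    unfold cum
    refine le_trans (cc_mono fun w hw => ?_) (cc_or_le _ _)
    by_cases hw' : iv (Adj N k) w + 0 ≤ t
    · exact Or.inl hw'
    · right
      obtain ⟨a, ha, hi⟩ := DEL_window (Adj N k) hL hLN w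
      refine ⟨a, mem_range.2 (by omega), ?_⟩
      have h1 := (hΨ a ha).1 w
      have h2 : t * L ≤ iv (Adj N k) w * L := Nat.mul_le_mul_right _ (by omega)
      have h3 := Nat.le_of_mul_le_mul_left (hc.trans (h2.trans hi)) (by omega : 0 < 2 * N)
      omega
  have s2 : cc (fun w : Equiv.Perm (Fin N) =>
      ∃ a ∈ range (N - L + 1), iv (Adj N k) (Ψ a w) + 0 ≤ t) ≤
      N ^ (L + 1) * cum (Adj N k) 0 t := by
    refine (cc_exists_le _ _).trans ?_
    refine (sum_le_card_nsmul _ _ (N ^ L * cum (Adj N k) 0 t) fun a ha => ?_).trans ?_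
    · have ha' : a + L ≤ N := by have := mem_range.1 ha; omega
      exact DEL_fibre ha' (Ψ a) (hΨ a ha').2 fun w => iv (Adj N k) w + 0 ≤ t
    · rw [card_range, smul_eq_mul, pow_succ', mul_assoc]
      exact Nat.mul_le_mul_right _ (by omega)
  rw [add_mul, one_mul]
  omega

theorem DEL_cum_mono {N : ℕ} (A : Fin N → Fin N → Prop) [DecidableRel A] {s t : ℕ} (h : s ≤ t) :
    cum A 0 s ≤ cum A 0 t := cc_mono fun _ hw => hw.trans h

theorem DEL_iter {N : ℕ} (A : Fin N → Fin N → Prop) [DecidableRel A] (m δ K : ℕ)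
    (h : ∀ t, m ≤ t → cum A 0 (t + δ) ≤ K * cum A 0 t) (j : ℕ) :
    cum A 0 (m + j * δ) ≤ K ^ j * cum A 0 m := by
  induction j with
  | zero => simp
  | succ j ih =>
    calc cum A 0 (m + (j + 1) * δ) = cum A 0 (m + j * δ + δ) := by rw [add_mul, one_mul, add_assoc]
      _ ≤ K * cum A 0 (m + j * δ) := h _ (by omega)
      _ ≤ K * (K ^ j * cum A 0 m) := Nat.mul_le_mul_left _ ih
      _ = K ^ (j + 1) * cum A 0 m := by ring

theorem DEL2 (h : St_DEL) : St_DEL2 := by
  intro N k l c m hk hN hc hP hm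
  set P := N / k with hPd
  set L := min k (8 * c) with hLd
  set δ := P * L / (4 * c) with hδ
  set j := 8 * c / L + 1 with hj
  have hL2 : 2 ≤ L := le_min hk (by omega)
  have hLk : L ≤ k := min_le_left _ _
  have hL8 : L ≤ 8 * c := min_le_right _ _
  have hPk : P * k ≤ N := Nat.div_mul_le_self N k
  have hkN : 8 * k ≤ N := le_trans (Nat.mul_le_mul_right _ (by omega)) hPk
  have hδ1 : δ * (4 * c) ≤ P * L := Nat.div_mul_le_self _ _
  have hδ2 : P * L < δ * (4 * c) + 4 * c := Nat.lt_div_mul_add (by omega)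
  have hj2 : 8 * c < 8 * c / L * L + L := Nat.lt_div_mul_add (by omega)
  have hj1 : 8 * c / L * L ≤ 8 * c := Nat.div_mul_le_self _ _
  have hPL : 8 * c ≤ P * L := le_trans hP (Nat.le_mul_of_pos_right _ (by omega))
  have hδ0 : 1 ≤ δ := by
    rcases Nat.eq_zero_or_pos δ with h0 | h0
    · rw [h0] at hδ2
      omega
    · exact h0
  have hjδ : P ≤ j * δ := by
    have a1 : 8 * c ≤ j * L := by rw [hj, add_mul]; omega
    have a2 : P * L ≤ δ * (8 * c) := by nlinarith
    have a3 : P * L ≤ j * δ * L := by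
      calc P * L ≤ δ * (8 * c) := a2
        _ ≤ δ * (j * L) := Nat.mul_le_mul_left _ a1
        _ = j * δ * L := by ring
    exact Nat.le_of_mul_le_mul_right a3 (by omega)
  have step : ∀ t, m ≤ t →
      cum (Adj N k) 0 (t + δ) ≤ (1 + N ^ (L + 1)) * cum (Adj N k) 0 t := by
    intro t ht
    have hm' : N * P ≤ t * c := hm.trans (Nat.mul_le_mul_right _ ht)
    refine h N k L t δ hk (by omega) hLk (by omega) ?_
    split_ifs with hlt
    · have e : L = 8 * c := by
        rcases min_choice k (8 * c) with h' | h'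
        · omega
        · exact h'
      have a1 : δ ≤ 2 * P := by
        have : δ * (4 * c) ≤ 2 * P * (4 * c) := by
          calc δ * (4 * c) ≤ P * L := hδ1
            _ = 2 * P * (4 * c) := by rw [e]; ring
        exact Nat.le_of_mul_le_mul_right this (by omega)
      calc 2 * N * (δ + (N / k + 1)) ≤ 2 * N * (4 * P) := Nat.mul_le_mul_left _ (by omega)
        _ = 8 * (N * P) := by ring
        _ ≤ 8 * (t * c) := Nat.mul_le_mul_left _ hm'
        _ = t * L := by rw [e]; ring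
    · have a1 : 2 * N * (δ + 0) * (2 * c) ≤ t * L * (2 * c) := by
        calc 2 * N * (δ + 0) * (2 * c) = N * (δ * (4 * c)) := by ring
          _ ≤ N * (P * L) := Nat.mul_le_mul_left _ hδ1
          _ = N * P * L := by ring
          _ ≤ t * c * L := Nat.mul_le_mul_right _ hm'
          _ ≤ t * L * (2 * c) := by nlinarith [Nat.zero_le (t * c * L)]
      exact Nat.le_of_mul_le_mul_right a1 (by omega)
  have main := (DEL_cum_mono (Adj N k) (Nat.add_le_add_left hjδ m)).trans
    (DEL_iter (Adj N k) m δ _ step j)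
  have hK : 1 + N ^ (L + 1) ≤ 2 ^ (l * (L + 2)) := by
    have a1 : 1 ≤ N ^ (L + 1) := Nat.one_le_pow _ _ (by omega)
    calc 1 + N ^ (L + 1) ≤ N ^ (L + 1) * N := by nlinarith
      _ = N ^ (L + 2) := by ring
      _ ≤ (2 ^ l) ^ (L + 2) := Nat.pow_le_pow_left hN _
      _ = 2 ^ (l * (L + 2)) := by rw [pow_mul]
  have hexp : l * (L + 2) * j ≤ 40 * c * l := by
    have a1 : (L + 2) * j ≤ 40 * c := by
      calc (L + 2) * j ≤ 2 * L * j := Nat.mul_le_mul_right _ (by omega)
        _ = 2 * (8 * c / L * L + L) := by rw [hj]; ring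
        _ ≤ 40 * c := by omega
    calc l * (L + 2) * j = l * ((L + 2) * j) := by ring
      _ ≤ l * (40 * c) := Nat.mul_le_mul_left _ a1
      _ = 40 * c * l := by ring
  have hK2 : (1 + N ^ (L + 1)) ^ j ≤ 2 ^ (40 * c * l) := by
    calc (1 + N ^ (L + 1)) ^ j ≤ (2 ^ (l * (L + 2))) ^ j := Nat.pow_le_pow_left hK _
      _ = 2 ^ (l * (L + 2) * j) := by rw [← pow_mul]
      _ ≤ 2 ^ (40 * c * l) := Nat.pow_le_pow_right (by omega) hexp
  have h2e : (2 : ℝ) ^ (40 * c * l) ≤ Real.exp (40 * c * l) := by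
    have : (2 : ℝ) ≤ Real.exp 1 := by
      have := Real.add_one_le_exp (1 : ℝ)
      linarith
    calc (2 : ℝ) ^ (40 * c * l) ≤ Real.exp 1 ^ (40 * c * l) :=
          pow_le_pow_left₀ (by norm_num) this _
      _ = Real.exp (40 * c * l) := by
          rw [← Real.exp_nat_mul]; push_cast; ring_nf
  have main2 : cum (Adj N k) 0 (m + P) ≤ 2 ^ (40 * c * l) * cum (Adj N k) 0 m :=
    main.trans (Nat.mul_le_mul_right _ hK2)
  calc (cum (Adj N k) 0 (m + P) : ℝ) ≤ (2 : ℝ) ^ (40 * c * l) * cum (Adj N k) 0 m := by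
        exact_mod_cast main2
    _ ≤ Real.exp (40 * c * l) * cum (Adj N k) 0 m :=
        mul_le_mul_of_nonneg_right h2e (Nat.cast_nonneg _)

end Pool.Agent.Lib.MP_64bee1_co.UN
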