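import Pool.Agent.Lib.MP_64bee1_co.UN.Stmts

/-!
Deleting a window of consecutive vertices and shifting its columns.
-/

namespace Pool.Agent.Lib.MP_64bee1_co.UN

open Finset

/-- The position lies in a column of the window, weakly before the window. -/
def DELb_Sh (k a L p : ℕ) : Prop := ∃ s, a ≤ p + s * k ∧ p + s * k < a + L

open Classical in
/-- The position whose value is moved to `p`. -/
noncomputable def DELb_psi {N : ℕ} (k a L : ℕ) (p : Fin N) : Fin N :=
  if DELb_Sh k a L p ∧ k ≤ (p : ℕ) then ⟨p - k, lt_of_le_of_lt (Nat.sub_le _ _) p.2⟩ else p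

open Classical in
/-- The new labelling. -/
noncomputable def DELb_Y {N : ℕ} (k a L : ℕ) (w : Equiv.Perm (Fin N)) (p : Fin N) : ℤ :=
  if DELb_Sh k a L p ∧ (p : ℕ) < k then ((p : ℕ) : ℤ) - N else ((w (DELb_psi k a L p) : ℕ) : ℤ)

theorem DELb_Sh_sub {k a L p : ℕ} (h : DELb_Sh k a L p) (hp : k ≤ p) : DELb_Sh k a L (p - k) := by
  obtain ⟨s, h1, h2⟩ := h
  refine ⟨s + 1, ?_, ?_⟩ <;> rw [add_mul, one_mul] <;> omega

theorem DELb_psi_sh {N k a L : ℕ} {p : Fin N} (h : DELb_Sh k a L p) (hp : k ≤ (p : ℕ)) :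
    ((DELb_psi k a L p : Fin N) : ℕ) = p - k := by
  unfold DELb_psi
  rw [if_pos ⟨h, hp⟩]

theorem DELb_psi_not {N k a L : ℕ} {p : Fin N} (h : ¬ DELb_Sh k a L p) :
    DELb_psi k a L p = p := by
  unfold DELb_psi
  rw [if_neg fun h' => h h'.1]

theorem DELb_Y_new {N k a L : ℕ} (w : Equiv.Perm (Fin N)) {p : Fin N}
    (h : DELb_Sh k a L p ∧ (p : ℕ) < k) : DELb_Y k a L w p = ((p : ℕ) : ℤ) - N := by
  unfold DELb_Y
  rw [if_pos h]

theorem DELb_Y_old {N k a L : ℕ} (w : Equiv.Perm (Fin N)) {p : Fin N}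
    (h : ¬ (DELb_Sh k a L p ∧ (p : ℕ) < k)) :
    DELb_Y k a L w p = ((w (DELb_psi k a L p) : ℕ) : ℤ) := by
  unfold DELb_Y
  rw [if_neg h]

theorem DELb_psi_inj {N k a L : ℕ} {p q : Fin N} (hp : ¬ (DELb_Sh k a L p ∧ (p : ℕ) < k))
    (hq : ¬ (DELb_Sh k a L q ∧ (q : ℕ) < k)) (h : DELb_psi k a L p = DELb_psi k a L q) :
    p = q := by
  by_cases h1 : DELb_Sh k a L p <;> by_cases h2 : DELb_Sh k a L q
  · have a1 : k ≤ (p : ℕ) := by by_contra hh; exact hp ⟨h1, by omega⟩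
    have a2 : k ≤ (q : ℕ) := by by_contra hh; exact hq ⟨h2, by omega⟩
    have e := congrArg Fin.val h
    rw [DELb_psi_sh h1 a1, DELb_psi_sh h2 a2] at e
    apply Fin.ext
    omega
  · have a1 : k ≤ (p : ℕ) := by by_contra hh; exact hp ⟨h1, by omega⟩
    have e := congrArg Fin.val h
    rw [DELb_psi_sh h1 a1, DELb_psi_not h2] at e
    exact absurd (e ▸ DELb_Sh_sub h1 a1) h2
  · have a2 : k ≤ (q : ℕ) := by by_contra hh; exact hq ⟨h2, by omega⟩
    have e := congrArg Fin.val h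
    rw [DELb_psi_sh h2 a2, DELb_psi_not h1] at e
    exact absurd (e ▸ DELb_Sh_sub h2 a2) h1
  · rwa [DELb_psi_not h1, DELb_psi_not h2] at h

theorem DELb_psi_out {N k a L : ℕ} (hL : L ≤ k) {p : Fin N}
    (hp : ¬ (DELb_Sh k a L p ∧ (p : ℕ) < k)) :
    ¬ (a ≤ ((DELb_psi k a L p : Fin N) : ℕ) ∧ ((DELb_psi k a L p : Fin N) : ℕ) < a + L) := by
  by_cases h1 : DELb_Sh k a L p
  · have a1 : k ≤ (p : ℕ) := by by_contra hh; exact hp ⟨h1, by omega⟩
    rw [DELb_psi_sh h1 a1]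
    obtain ⟨s, _, h3⟩ := h1
    intro h
    omega
  · rw [DELb_psi_not h1]
    intro h
    exact h1 ⟨0, by omega, by omega⟩

theorem DELb_psi_onto {N k a L : ℕ} (hN : a + L ≤ N) (v : Fin N)
    (hv : ¬ (a ≤ (v : ℕ) ∧ (v : ℕ) < a + L)) :
    ∃ p : Fin N, ¬ (DELb_Sh k a L p ∧ (p : ℕ) < k) ∧ DELb_psi k a L p = v := by
  by_cases h1 : DELb_Sh k a L v
  · obtain ⟨s, h2, h3⟩ := h1
    rcases s with _ | s
    · exact absurd ⟨by omega, by omega⟩ hv
    · rw [add_mul, one_mul] at h2 h3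
      have hs : DELb_Sh k a L ((⟨v + k, by omega⟩ : Fin N) : ℕ) :=
        ⟨s, by simp only; omega, by simp only; omega⟩
      refine ⟨⟨v + k, by omega⟩, fun h => ?_, ?_⟩
      · have := h.2
        simp only at this
        omega
      · apply Fin.ext
        rw [DELb_psi_sh hs (by simp)]
        simp
  · exact ⟨v, fun h => h1 h.1, DELb_psi_not h1⟩

theorem DELb_Y_inj {N k a L : ℕ} (w : Equiv.Perm (Fin N)) :
    Function.Injective (DELb_Y k a L w) := by
  intro p q h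
  by_cases hp : DELb_Sh k a L p ∧ (p : ℕ) < k <;> by_cases hq : DELb_Sh k a L q ∧ (q : ℕ) < k
  · rw [DELb_Y_new w hp, DELb_Y_new w hq] at h
    apply Fin.ext
    omega
  · rw [DELb_Y_new w hp, DELb_Y_old w hq] at h
    have := p.2
    omega
  · rw [DELb_Y_old w hp, DELb_Y_new w hq] at h
    have := q.2
    omega
  · rw [DELb_Y_old w hp, DELb_Y_old w hq] at h
    exact DELb_psi_inj hp hq (w.injective (Fin.ext (by omega)))

theorem DELb_eq {N : ℕ} (W : Fin N → Prop) (w w' : Equiv.Perm (Fin N))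
    (h1 : ∀ v, W v → w v = w' v) (h2 : ∀ u v, ¬ W u → ¬ W v → w' u < w' v → w u < w v) :
    w = w' := by
  have key : ∀ n : ℕ, ∀ v, (w v : ℕ) = n → w v = w' v := by
    intro n
    induction n using Nat.strong_induction_on with
    | _ n ih =>
      intro v hv
      by_cases hW : W v
      · exact h1 v hW
      rcases lt_trichotomy (w v) (w' v) with h | h | h
      · have e : w' (w'.symm (w v)) = w v := w'.apply_symm_apply _
        have hne : w'.symm (w v) ≠ v := fun hh => by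
          rw [hh] at e
          exact absurd e h.ne'
        exfalso
        by_cases hu : W (w'.symm (w v))
        · exact hne (w.injective ((h1 _ hu).trans e))
        · have h3 := h2 _ _ hu hW (by rw [e]; exact h)
          have h4 := ih _ (by rw [← hv]; exact h3) _ rfl
          exact hne (w.injective (h4.trans e))
      · exact h
      · have e : w (w.symm (w' v)) = w' v := w.apply_symm_apply _
        have h4 := ih _ (by rw [← hv, e]; exact h) (w.symm (w' v)) rfl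
        have h5 : w.symm (w' v) = v := w'.injective (h4.symm.trans e)
        rw [h5] at e
        exact e
  exact Equiv.ext fun v => key _ v rfl

theorem DELb_mod {k x : ℕ} (h : x % k = 1) (hx : x ≤ k) (hk : 2 ≤ k) : x = 1 := by
  rcases hx.eq_or_lt with rfl | h1
  · rw [Nat.mod_self] at h
    omega
  · rwa [Nat.mod_eq_of_lt h1] at h

/-- An inverted edge of the new labelling comes from an inverted edge or is exceptional. -/
theorem DELb_edge {N k a L : ℕ} (hk : 2 ≤ k) (w : Equiv.Perm (Fin N)) (p q : Fin N)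
    (hA : Adj N k p q) (hY : DELb_Y k a L w q < DELb_Y k a L w p) :
    (¬ (DELb_Sh k a L p ∧ (p : ℕ) < k) ∧ ¬ (DELb_Sh k a L q ∧ (q : ℕ) < k) ∧
      Adj N k (DELb_psi k a L p) (DELb_psi k a L q) ∧
      w (DELb_psi k a L q) < w (DELb_psi k a L p)) ∨
    (DELb_Sh k a L q ∧ ¬ DELb_Sh k a L p ∧ (q : ℕ) = p + 1) := by
  obtain ⟨hlt, hm⟩ := hA
  have hlt' : (p : ℕ) < q := hlt
  by_cases hp : DELb_Sh k a L p ∧ (p : ℕ) < k <;> by_cases hq : DELb_Sh k a L q ∧ (q : ℕ) < k
  · rw [DELb_Y_new w hp, DELb_Y_new w hq] at hY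
    omega
  · rw [DELb_Y_new w hp, DELb_Y_old w hq] at hY
    have := p.2
    omega
  · have := DELb_mod hm (by omega) hk
    exact Or.inr ⟨hq.1, fun h => hp ⟨h, by omega⟩, by omega⟩
  · rw [DELb_Y_old w hp, DELb_Y_old w hq] at hY
    have hw : w (DELb_psi k a L q) < w (DELb_psi k a L p) := by
      rw [Fin.lt_def]; omega
    by_cases h1 : DELb_Sh k a L p <;> by_cases h2 : DELb_Sh k a L q
    · have a1 : k ≤ (p : ℕ) := by by_contra hh; exact hp ⟨h1, by omega⟩
      have a2 : k ≤ (q : ℕ) := by omega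
      refine Or.inl ⟨hp, hq, ⟨?_, ?_⟩, hw⟩
      · rw [Fin.lt_def, DELb_psi_sh h1 a1, DELb_psi_sh h2 a2]
        omega
      · rw [DELb_psi_sh h1 a1, DELb_psi_sh h2 a2, show (q : ℕ) - k - (p - k) = q - p by omega]
        exact hm
    · have a1 : k ≤ (p : ℕ) := by by_contra hh; exact hp ⟨h1, by omega⟩
      refine Or.inl ⟨hp, hq, ⟨?_, ?_⟩, hw⟩
      · rw [Fin.lt_def, DELb_psi_sh h1 a1, DELb_psi_not h2]
        omega
      · rw [DELb_psi_sh h1 a1, DELb_psi_not h2, show (q : ℕ) - (p - k) = q - p + k by omega,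
          Nat.add_mod_right]
        exact hm
    · have a2 : k ≤ (q : ℕ) := by by_contra hh; exact hq ⟨h2, by omega⟩
      by_cases hc : (q : ℕ) - p ≤ k
      · have := DELb_mod hm hc hk
        exact Or.inr ⟨h2, h1, by omega⟩
      · refine Or.inl ⟨hp, hq, ⟨?_, ?_⟩, hw⟩
        · rw [Fin.lt_def, DELb_psi_sh h2 a2, DELb_psi_not h1]
          omega
        · rw [DELb_psi_sh h2 a2, DELb_psi_not h1, ← Nat.add_mod_right,
            show (q : ℕ) - k - p + k = q - p by omega]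
          exact hm
    · refine Or.inl ⟨hp, hq, ?_, hw⟩
      rw [DELb_psi_not h1, DELb_psi_not h2]
      exact ⟨hlt, hm⟩

open Classical in
theorem DELb_exc {N k a L : ℕ} (hk : 2 ≤ k) (hL : L ≤ k) (hN : a + L ≤ N) :
    (univ.filter fun e : Fin N × Fin N =>
      DELb_Sh k a L e.2 ∧ ¬ DELb_Sh k a L e.1 ∧ (e.2 : ℕ) = e.1 + 1).card ≤
      if L < k then N / k + 1 else 0 := by
  have key : ∀ e : Fin N × Fin N, DELb_Sh k a L e.2 → ¬ DELb_Sh k a L e.1 →
      (e.2 : ℕ) = e.1 + 1 → ∃ s, (e.2 : ℕ) + s * k = a ∧ L < k := by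
    rintro e ⟨s, h1, h2⟩ h3 h4
    have h5 : (e.2 : ℕ) + s * k = a := by
      by_contra h
      exact h3 ⟨s, by omega, by omega⟩
    refine ⟨s, h5, ?_⟩
    by_contra h
    refine h3 ⟨s + 1, ?_, ?_⟩ <;> rw [add_mul, one_mul] <;> omega
  split_ifs with h
  · rw [← card_range (N / k + 1)]
    refine card_le_card_of_injOn (fun e => (a - e.2) / k) (fun e he => ?_) fun e he e' he' hh => ?_
    · simp only [coe_range, Set.mem_Iio]
      exact Nat.lt_succ_of_le (Nat.div_le_div_right (by omega))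
    · obtain ⟨b1, b2, b3⟩ := (mem_filter.1 he).2
      obtain ⟨c1, c2, c3⟩ := (mem_filter.1 he').2
      obtain ⟨s, hs, -⟩ := key e b1 b2 b3
      obtain ⟨s', hs', -⟩ := key e' c1 c2 c3
      simp only at hh
      rw [show a - (e.2 : ℕ) = s * k by omega, show a - (e'.2 : ℕ) = s' * k by omega,
        Nat.mul_div_cancel _ (by omega), Nat.mul_div_cancel _ (by omega)] at hh
      subst hh
      exact Prod.ext (Fin.ext (by omega)) (Fin.ext (by omega))
  · rw [Nat.le_zero, card_eq_zero]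
    refine filter_false_of_mem fun e _ he => ?_
    obtain ⟨_, _, h'⟩ := key e he.1 he.2.1 he.2.2
    exact h h'

theorem DELb : St_DELb := by
  classical
  intro N k a L hk _ hL hN
  choose Ψ hΨ using fun w : Equiv.Perm (Fin N) => exists_rank _ (DELb_Y_inj (k := k) (a := a)
    (L := L) w)
  refine ⟨Ψ, fun w => ?_, fun w w' h h1 => ?_⟩
  · set W : Finset (Fin N) := univ.filter fun v : Fin N => a ≤ (v : ℕ) ∧ (v : ℕ) < a + L with hW
    have s : iv (Adj N k) w = ivt (Adj N k) W w + (univ.filter fun p : Fin N × Fin N =>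
        (Adj N k p.1 p.2 ∧ w p.2 < w p.1) ∧ ¬ (p.1 ∈ W ∨ p.2 ∈ W)).card := by
      unfold iv ivt
      rw [← card_filter_add_card_filter_not (fun p : Fin N × Fin N => p.1 ∈ W ∨ p.2 ∈ W),
        filter_filter, filter_filter]
    have h2 := DELb_exc (N := N) hk hL hN
    have h3 : (univ.filter fun e : Fin N × Fin N => ¬ (DELb_Sh k a L e.1 ∧ (e.1 : ℕ) < k) ∧
        ¬ (DELb_Sh k a L e.2 ∧ (e.2 : ℕ) < k) ∧
        Adj N k (DELb_psi k a L e.1) (DELb_psi k a L e.2) ∧
        w (DELb_psi k a L e.2) < w (DELb_psi k a L e.1)).card ≤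
        (univ.filter fun p : Fin N × Fin N =>
        (Adj N k p.1 p.2 ∧ w p.2 < w p.1) ∧ ¬ (p.1 ∈ W ∨ p.2 ∈ W)).card := by
      refine card_le_card_of_injOn (fun e => (DELb_psi k a L e.1, DELb_psi k a L e.2))
        (fun e he => ?_) fun e he e' he' hh => ?_
      · obtain ⟨b1, b2, b3, b4⟩ := (mem_filter.1 he).2
        refine mem_filter.2 ⟨mem_univ _, ⟨b3, b4⟩, ?_⟩
        rintro (h | h)
        · exact DELb_psi_out hL b1 (mem_filter.1 h).2
        · exact DELb_psi_out hL b2 (mem_filter.1 h).2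
      · obtain ⟨b1, b2, -, -⟩ := (mem_filter.1 he).2
        obtain ⟨c1, c2, -, -⟩ := (mem_filter.1 he').2
        simp only [Prod.mk.injEq] at hh
        exact Prod.ext (DELb_psi_inj b1 c1 hh.1) (DELb_psi_inj b2 c2 hh.2)
    have h4 : iv (Adj N k) (Ψ w) ≤ (univ.filter fun e : Fin N × Fin N =>
        ¬ (DELb_Sh k a L e.1 ∧ (e.1 : ℕ) < k) ∧
        ¬ (DELb_Sh k a L e.2 ∧ (e.2 : ℕ) < k) ∧
        Adj N k (DELb_psi k a L e.1) (DELb_psi k a L e.2) ∧
        w (DELb_psi k a L e.2) < w (DELb_psi k a L e.1)).card +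
        (univ.filter fun e : Fin N × Fin N =>
          DELb_Sh k a L e.2 ∧ ¬ DELb_Sh k a L e.1 ∧ (e.2 : ℕ) = e.1 + 1).card := by
      refine le_trans (card_le_card fun e he => ?_) (card_union_le _ _)
      obtain ⟨b1, b2⟩ := (mem_filter.1 he).2
      rcases DELb_edge hk w e.1 e.2 b1 ((hΨ w _ _).1 b2) with h | h
      · exact mem_union_left _ (mem_filter.2 ⟨mem_univ _, h⟩)
      · exact mem_union_right _ (mem_filter.2 ⟨mem_univ _, h⟩)
    omega
  · refine DELb_eq (fun v => a ≤ (v : ℕ) ∧ (v : ℕ) < a + L) w w' (fun v hv => h1 v hv.1 hv.2)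
      fun u v hu hv hlt => ?_
    obtain ⟨p, hp, rfl⟩ := DELb_psi_onto (k := k) hN u hu
    obtain ⟨q, hq, rfl⟩ := DELb_psi_onto (k := k) hN v hv
    have e1 := hΨ w p q
    have e2 := hΨ w' p q
    rw [DELb_Y_old _ hp, DELb_Y_old _ hq] at e1 e2
    rw [h, e2] at e1
    rw [Fin.lt_def] at hlt ⊢
    omega

end Pool.Agent.Lib.MP_64bee1_co.UN
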