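import Pool.Agent.Lib.MP_64bee1_co.UN.Stmts

/-!
Differences of signed degrees along a column, and a cosine inequality.
-/

namespace Pool.Agent.Lib.MP_64bee1_co.UN

open Finset

theorem DS_mod {k d : ℕ} (hk : 2 ≤ k) (hd : d ≤ k) : d % k = 1 ↔ d = 1 := by
  rcases hd.eq_or_lt with rfl | h
  · simp; omega
  · rw [Nat.mod_eq_of_lt h]

theorem DS_pt {k v u : ℕ} (hk : 2 ≤ k) :
    ((if v < u ∧ (u - v) % k = 1 then 1 else 0) - (if u < v ∧ (v - u) % k = 1 then 1 else 0) : ℤ) -
      ((if v + k < u ∧ (u - (v + k)) % k = 1 then 1 else 0) -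
        (if u < v + k ∧ (v + k - u) % k = 1 then 1 else 0)) =
      (if u = v + 1 then 1 else 0) + if u = v + (k - 1) then 1 else 0 := by
  rcases lt_or_ge (v + k) u with h | h
  · have e : (u - v) % k = (u - (v + k)) % k := by
      rw [show u - v = u - (v + k) + k by omega, Nat.add_mod_right]
    rw [e]
    split_ifs <;> omega
  · rcases lt_or_ge u v with h' | h'
    · have e : (v + k - u) % k = (v - u) % k := by
        rw [show v + k - u = v - u + k by omega, Nat.add_mod_right]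
      rw [e]
      split_ifs <;> omega
    · simp only [DS_mod hk (show u - v ≤ k by omega), DS_mod hk (show v + k - u ≤ k by omega)]
      split_ifs <;> omega

open Classical in
theorem DS_ind {N : ℕ} (S : Finset (Fin N)) (x : ℕ) :
    (∑ u ∈ S, if (u : ℕ) = x then 1 else 0 : ℤ) = if mS S x then 1 else 0 := by
  by_cases h : mS S x
  · obtain ⟨hx, h1⟩ := h
    rw [if_pos ⟨hx, h1⟩, sum_eq_single_of_mem _ h1 fun b _ hb => if_neg fun e => hb (Fin.ext e)]
    simp
  · rw [if_neg h]
    exact sum_eq_zero fun u hu => if_neg fun e => h (by subst e; exact ⟨u.2, hu⟩)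

open Classical in
theorem DS_step {N k : ℕ} (S : Finset (Fin N)) (v w : Fin N) (hk : 2 ≤ k) (hw : (w : ℕ) = v + k) :
    dS (Adj N k) S v - dS (Adj N k) S w =
      (if mS S (v + 1) then 1 else 0) + if mS S (v + (k - 1)) then 1 else 0 := by
  rw [← DS_ind, ← DS_ind, ← sum_add_distrib]
  simp only [dS, card_filter, Nat.cast_sum, Nat.cast_ite, Nat.cast_one, Nat.cast_zero,
    ← sum_sub_distrib, Adj, Fin.lt_def, hw]
  exact sum_congr rfl fun u _ => DS_pt hk

open Classical in
theorem DS_cc (Q : ℕ → Prop) (h : ℕ) :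
    ((cc fun s : Fin h => Q s : ℕ) : ℤ) = ∑ s ∈ range h, if Q s then 1 else 0 := by
  rw [cc_eq, card_filter, ← Fin.sum_univ_eq_sum_range (fun s => if Q s then (1 : ℤ) else 0)]
  push_cast
  rfl

theorem DS_one (N k h : ℕ) (S : Finset (Fin N)) (v : Fin N) (hk : 2 ≤ k) :
    ∀ w : Fin N, (w : ℕ) = v + h * k → dS (Adj N k) S v - dS (Adj N k) S w =
      (cc fun s : Fin h => mS S (v + 1 + s * k) : ℕ) +
        (cc fun s : Fin h => mS S (v + (k - 1) + s * k) : ℕ) := by
  rw [DS_cc fun s => mS S (v + 1 + s * k), DS_cc fun s => mS S (v + (k - 1) + s * k)]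
  induction h with
  | zero =>
    intro w hw
    rw [show w = v from Fin.ext (by simpa using hw)]
    simp
  | succ h ih =>
    intro w hw
    have hw' : (w : ℕ) = v + h * k + k := by rw [hw]; ring
    have h1 : v + h * k < N := by have := w.2; omega
    have h2 := ih ⟨v + h * k, h1⟩ rfl
    have h3 := DS_step S ⟨v + h * k, h1⟩ w hk hw'
    rw [sum_range_succ, sum_range_succ, show v + 1 + h * k = v + h * k + 1 by omega,
      show v + (k - 1) + h * k = v + h * k + (k - 1) by omega]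
    dsimp only at h3
    linarith

theorem DS_two (N k : ℕ) (π : Equiv.Perm (Fin N)) (v : Fin N) :
    dg (Adj N k) π v = dS (Adj N k) (univ.filter fun u => π u ≤ π v) v := by
  simp only [dg, dS, filter_filter, card_filter, Nat.cast_sum, Nat.cast_ite, Nat.cast_one,
    Nat.cast_zero]
  congr 1 <;> refine sum_congr rfl fun u _ => if_congr ⟨fun h => ⟨h.2.le, h.1⟩, fun h =>
    ⟨h.2, lt_of_le_of_ne h.1 fun e => ?_⟩⟩ rfl rfl
  · exact h.2.1.ne' (π.injective e)
  · exact h.2.1.ne (π.injective e)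

theorem DS_cos {θ : ℝ} (h1 : 1 / 8 ≤ θ) (h2 : θ ≤ 2) : |Real.cos θ| ≤ 1 - 1 / 130 := by
  rw [abs_le]
  constructor
  · have h3 := Real.one_sub_sq_div_two_le_cos (x := θ / 2)
    have h4 := Real.cos_two_mul (θ / 2)
    rw [show 2 * (θ / 2) = θ by ring] at h4
    have h5 : 1 / 2 ≤ Real.cos (θ / 2) := by nlinarith
    nlinarith
  · have h3 : Real.cos θ ≤ Real.cos (1 / 8) :=
      Real.cos_le_cos_of_nonneg_of_le_pi (by norm_num) (by linarith [Real.pi_gt_three]) h1
    have h4 := Real.cos_bound (x := 1 / 8) (by rw [abs_of_pos] <;> norm_num)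
    rw [abs_of_pos (show (0 : ℝ) < 1 / 8 by norm_num), abs_le] at h4
    linarith [h4.2]

theorem DS_three (a θ : ℝ) (h1 : 1 / 8 ≤ θ) (h2 : θ ≤ 2) :
    |Real.cos a| + |Real.cos (a + θ)| ≤ 2 - 1 / 300 := by
  have h3 : Real.cos a ^ 2 + Real.cos (a + θ) ^ 2 = 1 + Real.cos (2 * a + θ) * Real.cos θ := by
    have e1 := Real.cos_sq a
    have e2 := Real.cos_sq (a + θ)
    have e3 := Real.cos_add (2 * a + θ) θ
    have e4 := Real.cos_sub (2 * a + θ) θ
    rw [show 2 * a + θ + θ = 2 * (a + θ) by ring] at e3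
    rw [show 2 * a + θ - θ = 2 * a by ring] at e4
    linarith
  have h4 : Real.cos (2 * a + θ) * Real.cos θ ≤ 1 - 1 / 130 := by
    refine (le_abs_self _).trans ?_
    rw [abs_mul]
    exact (mul_le_of_le_one_left (abs_nonneg _) (Real.abs_cos_le_one _)).trans (DS_cos h1 h2)
  refine (abs_le_of_sq_le_sq' ?_ (by norm_num)).2
  nlinarith [sq_abs (Real.cos a), sq_abs (Real.cos (a + θ)),
    sq_nonneg (|Real.cos a| - |Real.cos (a + θ)|)]

theorem DS : St_DS :=
  ⟨fun N k h S v w hk hw => DS_one N k h S v hk w hw, DS_two, DS_three⟩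

end Pool.Agent.Lib.MP_64bee1_co.UN
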