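import Pool.Agent.Lib.MP_64bee1_co.UN.Stmts

/-!
One step inside a fixed environment.
-/

namespace Pool.Agent.Lib.MP_64bee1_co.UN

theorem ENV_neg {ξ x : ℝ} (hξ : 0 ≤ ξ) (hx : x ≤ 0) (b : ℕ) : (1 + ξ) * x ≤ b :=
  (mul_nonpos_of_nonneg_of_nonpos (by linarith) hx).trans (Nat.cast_nonneg b)

theorem ENV_fin {ξ ξ' x y : ℝ} {b : ℕ} (hξ : 0 ≤ ξ) (h' : ξ ≤ ξ') (h : x ≤ y)
    (hb : (1 + ξ') * y ≤ b) : (1 + ξ) * x ≤ b := by
  rcases le_total x 0 with hx | hx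
  · exact ENV_neg hξ hx b
  · exact (mul_le_mul (by linarith) h hx (by linarith)).trans hb

theorem ENV_mul {A W Z c e : ℝ} (hA : 0 ≤ A) (hc : 0 ≤ c) (hZ : Z ≤ W * c) (he : W * A ≤ e) :
    A * Z ≤ e * c :=
  (mul_le_mul_of_nonneg_left hZ hA).trans (by
    rw [← mul_assoc, mul_comm A]
    exact mul_le_mul_of_nonneg_right he hc)

theorem ENV_cold {a : ℕ} {η q : ℝ} (hη : 0 < η) (h : 32 * 2 ^ a * η ≤ 1)
    (hq : q ^ (2 * 2 ^ a) < 1 / 3) : q ≤ 1 - 8 * η := by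
  by_contra hn
  have h1 : (1 : ℝ) ≤ 2 ^ a := one_le_pow₀ one_le_two
  have h2 : 32 * η ≤ 1 := le_trans (mul_le_mul_of_nonneg_right (by linarith) hη.le) h
  have h3 := one_add_mul_le_pow (a := -(8 * η)) (by linarith) (2 * 2 ^ a)
  have h4 : (1 + -(8 * η)) ^ (2 * 2 ^ a) ≤ q ^ (2 * 2 ^ a) :=
    pow_le_pow_left₀ (by linarith) (by linarith) _
  push_cast at h3
  linarith

theorem ENV1 (h1 : St_WARM) (h2 : St_W) (h3 : St_HEAT) : St_ENV1 := by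
  intro ι α _ _ _ g f0 g0 g1 d0 D a0 l n h s j d u m η ξ ρ0 ρ1 e1 wp lev hα hg0 hg1 hρ0 hρ1
    hd1 hd2 hd3 hd4 hu he
  have r0 : 0 ≤ ρ0 := zero_le_one.trans wp.rho0
  have r1 := wp.rho1
  have hW : 0 ≤ 64 * ((Fintype.card ι : ℝ) + 1) ^ 2 * ρ0 := by positivity
  have hA : 0 ≤ (l : ℝ) / 2 ^ n + Real.exp (1 - n * η ^ 2 / 2) := by positivity
  have hB : 0 ≤ Fintype.card ι * ρ0 / 3 ^ j := by positivity
  have hE : 0 ≤ Real.exp (20 * η * h) * cb g f0 s m := by positivity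
  have hT : 0 ≤ (4 * u * ρ1 / (Fintype.card ι * d)) ^ u * (cb g f0 0 (m + u * d) : ℝ) := by
    positivity
  rw [mul_add] at he
  have eA := mul_nonneg hW hA
  have eB := mul_nonneg hW hB
  rcases Nat.eq_zero_or_pos (cb g f0 0 m) with h0 | h0
  · have hb : bb g f0 m = 0 := Nat.le_zero.1 (h0 ▸ bb_le_cb g f0 le_rfl)
    refine ENV_neg wp.xi_nonneg ?_ _
    rw [hb, h0, Nat.cast_zero, mul_zero]
    linarith
  obtain ⟨q, q1, q2, hZ⟩ := h2 ι α g f0 g0 m ρ0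
    (fun i => (lev i).imp fun μ hμ => ⟨hμ.1, hμ.2.1⟩) hg0 wp.rho0 hρ0 h0
  rcases le_or_gt (1 / 3) (q ^ (2 * 2 ^ a0)) with hq | hq
  · refine ENV_fin wp.xi_nonneg le_rfl ?_
      (h1 ι α g f0 g0 g1 d0 D a0 l n h s m η ξ ρ0 ρ1 q wp lev hα hρ1 q1 q2 hq)
    have := ENV_mul (e := e1) hA (Nat.cast_nonneg _) hZ (by linarith)
    linarith
  · refine ENV_neg wp.xi_nonneg ?_ _
    have k1 := h3 ι α g f0 g0 g1 d0 D (2 * 2 ^ a0 * j) d u m ρ0 ρ1 q lev hg0 hg1 r0 r1 hρ0 hρ1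
      q1 q2 (by rw [← mul_assoc, ← mul_assoc]; exact hd1) hd2 hd3 hd4 hu
    have k2 : q ^ (2 * 2 ^ a0 * j) ≤ 1 / 3 ^ j := by
      rw [pow_mul, ← one_div_pow]
      exact pow_le_pow_left₀ (by positivity) hq.le _
    have k3 : Fintype.card ι * ρ0 * q ^ (2 * 2 ^ a0 * j) ≤ Fintype.card ι * ρ0 / 3 ^ j := by
      rw [div_eq_mul_one_div]
      exact mul_le_mul_of_nonneg_left k2 (by positivity)
    have k4 := mul_le_mul_of_nonneg_right k3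
      (div_nonneg (ZZ_nonneg g f0 q1.le) (pow_pos q1 m).le)
    have k5 := ENV_mul (e := e1) hB (Nat.cast_nonneg _) hZ (by linarith)
    linarith

theorem ENV2 (h1 : St_WARM) (h2 : St_W) (h3 : St_UCcold) (h4 : St_CELL) : St_ENV2 := by
  intro ι α β _ _ _ g S c f0 g0 g1 d0 D a0 l n h s n' m η ξ ρ0 ρ1 η' e2 wp lev hα hg0 hρ0 hρ1
    hS hc hη hη' hξ he
  have r0 : 0 ≤ ρ0 := zero_le_one.trans wp.rho0
  have hW : 0 ≤ 64 * ((Fintype.card ι : ℝ) + 1) ^ 2 * ρ0 := by positivity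
  have hA : 0 ≤ (l : ℝ) / 2 ^ n + Real.exp (1 - n * η ^ 2 / 2) := by positivity
  have hB : 0 ≤ Real.exp (1 - n' * η' ^ 2 / 2) := by positivity
  have hE : 0 ≤ Real.exp (20 * η * h) * cb g f0 s m := by positivity
  have hC : (0 : ℝ) ≤ (cc fun x => tot g f0 x = m ∧ UU S c x < 4 * n' : ℕ) := Nat.cast_nonneg _
  have hN : (0 : ℝ) ≤ 1 / 2 ^ n' := by positivity
  rw [mul_add] at he
  have eA := mul_nonneg hW hA
  have eB := mul_nonneg hW hB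
  have hb := bb_le_cb g f0 (s := 0) (m := m) (m' := m) le_rfl
  rcases Nat.eq_zero_or_pos (cb g f0 0 m) with h0 | h0
  · refine ENV_neg wp.xi_nonneg ?_ _
    rw [Nat.le_zero.1 (hb.trans h0.le), h0, Nat.cast_zero, mul_zero]
    linarith
  obtain ⟨q, q1, q2, hZ⟩ := h2 ι α g f0 g0 m ρ0
    (fun i => (lev i).imp fun μ hμ => ⟨hμ.1, hμ.2.1⟩) hg0 wp.rho0 hρ0 h0
  rcases le_or_gt (1 / 3) (q ^ (2 * 2 ^ a0)) with hq | hq
  · refine ENV_fin wp.xi_nonneg le_rfl ?_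
      (h1 ι α g f0 g0 g1 d0 D a0 l n h s m η ξ ρ0 ρ1 q wp lev hα hρ1 q1 q2 hq)
    have := ENV_mul (e := e2) hA (Nat.cast_nonneg _) hZ (by linarith)
    linarith
  · refine ENV_fin wp.xi_nonneg hξ ?_
      (h3 ι α g f0 S n' m η' q hS hη q1 (ENV_cold hη hη' hq))
    have k1 := h4 ι α β g f0 S c n' m hc
    have k2 := ENV_mul (e := e2 - 1 / 2 ^ n') hB (Nat.cast_nonneg _) hZ (by linarith)
    have k3 : (bb g f0 m : ℝ) / 2 ^ n' ≤ 1 / 2 ^ n' * cb g f0 0 m := by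
      rw [div_eq_mul_one_div, mul_comm]
      exact mul_le_mul_of_nonneg_left (Nat.cast_le.2 hb) hN
    rw [sub_mul] at k2
    linarith

end Pool.Agent.Lib.MP_64bee1_co.UN
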