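import Pool.Agent.Lib.MP_64bee1_co.UN.Stmts

/-!
Assembly of the regimes.
-/

namespace Pool.Agent.Lib.MP_64bee1_co.UN

open Finset Filter

theorem FINAL_scale (l0 : ℕ) : ∃ N1 : ℕ, ∀ N ≥ N1, ∃ l : ℕ, l0 ≤ l ∧ N ≤ 2 ^ l ∧ l ^ 600 ≤ N := by
  have h := tendsto_pow_const_div_const_pow_of_one_lt 600 (r := (2 : ℝ)) (by norm_num)
  obtain ⟨L, hL⟩ := eventually_atTop.1 (h.eventually (gt_mem_nhds (show (0 : ℝ) < 1 / 2 by norm_num)))
  refine ⟨2 ^ (L + l0), fun N hN => ?_⟩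
  have hN0 : N ≠ 0 := by have := Nat.two_pow_pos (L + l0); omega
  have h1 : L + l0 ≤ Nat.log 2 N := Nat.le_log_of_pow_le (by norm_num) hN
  refine ⟨Nat.log 2 N + 1, by omega, (Nat.lt_pow_succ_log_self (by norm_num) N).le, ?_⟩
  have h2 := hL (Nat.log 2 N + 1) (by omega)
  rw [div_lt_iff₀ (by positivity), pow_succ (2 : ℝ)] at h2
  have h3 : (((Nat.log 2 N + 1) ^ 600 : ℕ) : ℝ) ≤ ((2 ^ Nat.log 2 N : ℕ) : ℝ) := by
    push_cast at h2 ⊢
    linarith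
  exact (Nat.cast_le.1 h3).trans (Nat.pow_log_le_self 2 hN0)

theorem FINAL_uni {N : ℕ} (A : Fin N → Fin N → Prop) [DecidableRel A] (hA : ∀ i j, A i j → i ≠ j)
    (step : ∀ m, 2 * m + 2 ≤ ne A → (∀ j ≤ m, cnt A j ≤ cnt A m) → cnt A m ≤ cnt A (m + 1)) :
    ∃ c : ℕ, (∀ i j, i ≤ j → j ≤ c → cnt A i ≤ cnt A j) ∧
      ∀ i j, c ≤ i → i ≤ j → cnt A j ≤ cnt A i := by
  have up : ∀ t, 2 * t ≤ ne A + 1 → ∀ s ≤ t, cnt A s ≤ cnt A t := by
    intro t
    induction t with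
    | zero => intro _ s hs; rw [Nat.le_zero.1 hs]
    | succ t ih =>
      intro ht s hs
      have hB := ih (by omega)
      have st : cnt A t ≤ cnt A (t + 1) := by
        by_cases h2 : 2 * t + 2 ≤ ne A
        · exact step t h2 hB
        · exact le_of_eq (cnt_symm hA (by omega))
      rcases Nat.lt_or_ge s (t + 1) with h | h
      · exact (hB s (by omega)).trans st
      · rw [show s = t + 1 by omega]
  refine ⟨(ne A + 1) / 2, fun i j hij hj => up j (by omega) i hij, fun i j hi hij => ?_⟩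
  by_cases hj : j ≤ ne A
  · rw [cnt_symm hA (s := j) (t := ne A - j) (by omega),
      cnt_symm hA (s := i) (t := ne A - i) (by omega)]
    exact up _ (by omega) _ (by omega)
  · rw [cnt_zero (not_le.1 hj)]
    exact Nat.zero_le _

theorem FINAL_big {n k : ℕ} (hn : 2 ≤ n) (hk : n ≤ k) (t : ℕ) :
    cnt (Adj (n + 1) k) t = cnt (Adj (n + 1) n) t := by
  have e : ∀ i j : Fin (n + 1), Adj (n + 1) k i j ↔ Adj (n + 1) n i j := by
    intro i j
    refine and_congr_right fun h => ?_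
    have h1 := Fin.lt_def.1 h
    have h2 := j.2
    have a : ∀ q : ℕ, n ≤ q → (((j : ℕ) - i) % q = 1 ↔ (j : ℕ) - i = 1) := by
      intro q hq
      rcases Nat.lt_or_ge ((j : ℕ) - i) q with h3 | h3
      · rw [Nat.mod_eq_of_lt h3]
      · rw [show (j : ℕ) - i = q by omega, Nat.mod_self]
        omega
    rw [a k hk, a n le_rfl]
  unfold cnt iv
  simp only [e]

theorem FINAL (hA : St_REGA) (h1 : St_REGB1) (h2 : St_REGB2) (h3 : St_REGB3) : St_FINAL := by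
  obtain ⟨ε, e0, e1, NA, hA⟩ := hA
  obtain ⟨l1, h1⟩ := h1 ε e0 e1
  obtain ⟨l2, h2⟩ := h2 ε e0 e1
  obtain ⟨l3, h3⟩ := h3 ε e0 e1
  obtain ⟨N1, hs⟩ := FINAL_scale (l1 + l2 + l3)
  obtain ⟨N0, hb⟩ := bounded_columns (p := 40 + 1) (by norm_num)
  have small : ∀ n k, N0 ≤ n → 3 ≤ k → k ≤ n → n ≤ 40 * k →
      ∃ c : ℕ, (∀ i j, i ≤ j → j ≤ c → cnt (Adj (n + 1) k) i ≤ cnt (Adj (n + 1) k) j) ∧
        ∀ i j, c ≤ i → i ≤ j → cnt (Adj (n + 1) k) j ≤ cnt (Adj (n + 1) k) i :=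
    fun n k hn hk hkn hP => hb (n + 1) (by omega) k _ _ (by omega) (cyc_gap (by omega) hkn hP)
  refine ⟨N0 + N1 + NA + 3, fun n k hn hk => ?_⟩
  rcases Nat.lt_or_ge n k with hkn | hkn
  · simp only [FINAL_big (show 2 ≤ n by omega) hkn.le]
    exact small n n (by omega) (by omega) le_rfl (by omega)
  rcases Nat.lt_or_ge ((n + 1) / k) 40 with hP | hP
  · rw [Nat.div_lt_iff_lt_mul (by omega)] at hP
    exact small n k (by omega) hk hkn (by omega)
  obtain ⟨l, a1, a2, a3⟩ := hs (n + 1) (by omega)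
  refine FINAL_uni _ (fun i j h => h.1.ne) fun m hm ih => ?_
  rcases le_or_gt (2 * (m : ℝ)) ((1 - 2 * ε) * ne (Adj (n + 1) k)) with hc | hc
  · rcases Nat.lt_or_ge ((n + 1) / k) (l ^ 76) with hl | hl
    · exact h3 _ k l m (by omega) a2 a3 hk ⟨hP, hl⟩ hc ih
    · rcases le_total ((n + 1) * ((n + 1) / k)) (m * l ^ 35) with h | h
      · exact h1 _ k l m (by omega) a2 a3 hk ⟨hl, h⟩ hc ih
      · exact h2 _ k l m (by omega) a2 a3 hk ⟨hl, h⟩ hc ih
  · exact hA _ k m (by omega) hk (by omega) hm hc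

end Pool.Agent.Lib.MP_64bee1_co.UN
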