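import Pool.Agent.Lib.MP_64bee1_co.UN.Stmts

/-!
Small gaps of the order statistics: a joint bound and a weighted exponential bound.
-/

namespace Pool.Agent.Lib.MP_64bee1_co.UN

open Finset

theorem GAP_choose {N M : ℕ} (hM : 2 * N ≤ M) :
    ∀ h, h ≤ N → M.choose (N - h) * M ^ h ≤ (2 * N) ^ h * M.choose N := by
  intro h
  induction h with
  | zero => intro _; simp
  | succ h ih =>
    intro hh
    have e : N - h = N - (h + 1) + 1 := by omega
    have h1 := Nat.choose_succ_right_eq M (N - (h + 1))
    rw [← e] at h1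
    have h2 : M.choose (N - (h + 1)) * M ≤ 2 * N * M.choose (N - h) :=
      calc M.choose (N - (h + 1)) * M ≤ M.choose (N - (h + 1)) * (2 * (M - (N - (h + 1)))) :=
            Nat.mul_le_mul_left _ (by omega)
        _ = 2 * (M.choose (N - h) * (N - h)) := by rw [h1]; ring
        _ ≤ 2 * (M.choose (N - h) * N) :=
            Nat.mul_le_mul_left _ (Nat.mul_le_mul_left _ (by omega))
        _ = 2 * N * M.choose (N - h) := by ring
    calc M.choose (N - (h + 1)) * M ^ (h + 1) = M.choose (N - (h + 1)) * M * M ^ h := by ring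
      _ ≤ 2 * N * M.choose (N - h) * M ^ h := Nat.mul_le_mul_right _ h2
      _ = 2 * N * (M.choose (N - h) * M ^ h) := by ring
      _ ≤ 2 * N * ((2 * N) ^ h * M.choose N) := Nat.mul_le_mul_left _ (ih (by omega))
      _ = (2 * N) ^ (h + 1) * M.choose N := by ring

/-- One more than the largest value of a vertex of smaller rank. -/
def GAP_low {N M : ℕ} (π : Equiv.Perm (Fin N)) (X : Fin N → Fin M) (u : Fin N) : ℕ :=
  (univ.filter fun v => π v < π u).sup fun v => (X v : ℕ) + 1

theorem GAP_low_le {N M : ℕ} {π : Equiv.Perm (Fin N)} {X : Fin N → Fin M} (h : OrdP π X)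
    (u : Fin N) : GAP_low π X u ≤ X u :=
  Finset.sup_le fun v hv => by
    have := (h v u).2 (mem_filter.1 hv).2
    exact Nat.succ_le_of_lt this

theorem GAP_small {N M g : ℕ} {π : Equiv.Perm (Fin N)} {X : Fin N → Fin M} (h : OrdP π X)
    {u : Fin N} (hs : Sm g X u) : (X u : ℕ) - GAP_low π X u < g := by
  rcases hs with ⟨v, h1, h2⟩ | h1
  · have h3 : (X v : ℕ) + 1 ≤ GAP_low π X u :=
      Finset.le_sup (f := fun v => (X v : ℕ) + 1) (mem_filter.2 ⟨mem_univ v, (h v u).1 h1⟩)
    have h4 : (X v : ℕ) < X u := h1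
    omega
  · omega

theorem GAP_inj {N M : ℕ} {π : Equiv.Perm (Fin N)} {X : Fin N → Fin M} (h : OrdP π X) :
    Function.Injective X := by
  intro u v e
  apply π.injective
  rcases lt_trichotomy (π u) (π v) with h1 | h1 | h1
  · exact absurd e ((h u v).2 h1).ne
  · exact h1
  · exact absurd e ((h v u).2 h1).ne'

theorem GAP_ext {N M : ℕ} {π : Equiv.Perm (Fin N)} {X Y : Fin N → Fin M} (hX : OrdP π X)
    (hY : OrdP π Y) (H : Finset (Fin N)) (e1 : Hᶜ.image X = Hᶜ.image Y)
    (e2 : ∀ u ∈ H, (X u : ℕ) - GAP_low π X u = (Y u : ℕ) - GAP_low π Y u) : X = Y := by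
  have key : ∀ n : ℕ, ∀ u, (π u : ℕ) = n → X u = Y u := by
    intro n
    induction n using Nat.strong_induction_on with
    | _ n ih =>
      intro u hu
      have ih' : ∀ v, π v < π u → X v = Y v := fun v hv => ih _ (hu ▸ hv) v rfl
      by_cases hH : u ∈ H
      · have l1 := GAP_low_le hX u
        have l2 := GAP_low_le hY u
        have l3 : GAP_low π X u = GAP_low π Y u :=
          Finset.sup_congr rfl fun v hv => by rw [ih' v (mem_filter.1 hv).2]
        have l4 := e2 u hH
        apply Fin.ext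
        omega
      · have m1 : X u ∈ Hᶜ.image Y := e1 ▸ mem_image_of_mem X (mem_compl.2 hH)
        have m2 : Y u ∈ Hᶜ.image X := e1.symm ▸ mem_image_of_mem Y (mem_compl.2 hH)
        obtain ⟨v, -, hv⟩ := mem_image.1 m1
        obtain ⟨w, -, hw⟩ := mem_image.1 m2
        have a1 : Y u ≤ X u := by
          by_contra hlt
          have b1 : Y v < Y u := hv ▸ not_le.1 hlt
          have b2 := (hY v u).1 b1
          exact ((hX v u).2 b2).ne ((ih' v b2).trans hv)
        have a2 : X u ≤ Y u := by
          by_contra hlt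
          have b1 : X w < X u := hw ▸ not_le.1 hlt
          have b2 := (hX w u).1 b1
          exact ((hY w u).2 b2).ne ((ih' w b2).symm.trans hw)
        exact le_antisymm a2 a1
  exact funext fun u => key _ u rfl

theorem GAP_count {N M g : ℕ} (π : Equiv.Perm (Fin N)) (H : Finset (Fin N)) :
    (cc fun X : Fin N → Fin M => OrdP π X ∧ ∀ u ∈ H, Sm g X u) ≤
      M.choose (N - H.card) * g ^ H.card := by
  classical
  have c1 : (powersetCard (N - H.card) (univ : Finset (Fin M)) ×ˢ
      Fintype.piFinset fun u : Fin N => if u ∈ H then range g else {0}).card =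
      M.choose (N - H.card) * g ^ H.card := by
    rw [card_product, card_powersetCard, card_univ, Fintype.card_fin, Fintype.card_piFinset]
    congr 1
    simp only [apply_ite Finset.card, card_range, card_singleton]
    rw [prod_ite_mem, univ_inter, prod_const]
  rw [cc_eq, ← c1]
  refine card_le_card_of_injOn
    (fun X => (Hᶜ.image X, fun u => if u ∈ H then (X u : ℕ) - GAP_low π X u else 0))
    (fun X hX => ?_) fun X hX Y hY e => ?_
  · have h := (mem_filter.1 (mem_coe.1 hX)).2
    refine mem_coe.2 (mem_product.2 ⟨mem_powersetCard.2 ⟨subset_univ _, ?_⟩,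
      Fintype.mem_piFinset.2 fun u => ?_⟩)
    · rw [card_image_of_injective _ (GAP_inj h.1), card_compl, Fintype.card_fin]
    · by_cases hu : u ∈ H
      · simp only [hu, if_true]
        exact mem_range.2 (GAP_small h.1 (h.2 u hu))
      · simp [hu]
  · have h1 := (mem_filter.1 (mem_coe.1 hX)).2
    have h2 := (mem_filter.1 (mem_coe.1 hY)).2
    refine GAP_ext h1.1 h2.1 H (congrArg Prod.fst e) fun u hu => ?_
    have := congrFun (congrArg Prod.snd e) u
    simpa [hu] using this

theorem GAP : St_GAP := by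
  intro N M g π H hM
  have h1 := GAP_count (M := M) (g := g) π H
  have hH : H.card ≤ N := by simpa using card_le_univ H
  have h2 := GAP_choose hM H.card hH
  have h3 : (0 : ℝ) < (M : ℝ) ^ H.card := by
    rcases Nat.eq_zero_or_pos H.card with h | h
    · rw [h]; simp
    · have : (0 : ℝ) < M := by exact_mod_cast (by omega : 0 < M)
      positivity
  have h1' : ((cc fun X : Fin N → Fin M => OrdP π X ∧ ∀ u ∈ H, Sm g X u : ℕ) : ℝ) ≤
      M.choose (N - H.card) * (g : ℝ) ^ H.card := by exact_mod_cast h1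
  have h2' : (M.choose (N - H.card) : ℝ) * (M : ℝ) ^ H.card ≤
      (2 * N : ℝ) ^ H.card * M.choose N := by exact_mod_cast h2
  refine h1'.trans ?_
  rw [div_pow, mul_pow, div_mul_eq_mul_div, le_div_iff₀ h3]
  have := mul_le_mul_of_nonneg_right h2' (pow_nonneg (Nat.cast_nonneg g : (0 : ℝ) ≤ g) H.card)
  linarith

theorem GAP_exp {x : ℝ} (h0 : 0 ≤ x) (h1 : x ≤ 1) : Real.exp x - 1 ≤ 2 * x := by
  have := Real.abs_exp_sub_one_le (x := x) (by rw [abs_of_nonneg h0]; exact h1)
  rw [abs_of_nonneg h0] at this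
  exact (le_abs_self _).trans this

theorem WGAP (h1 : St_GAP) : St_WGAP := by
  classical
  intro N M g μ0 π wt S c hM hg hμ hwt hS
  have μp : (0 : ℝ) < μ0 := by exact_mod_cast hμ
  set a : Fin N → ℝ := fun u => Real.exp (wt u / μ0) - 1 with ha
  set θ : ℝ := 2 * N * g / M with hθ
  have w0 : ∀ u, (0 : ℝ) ≤ wt u / μ0 := fun u => by positivity
  have a0 : ∀ u, 0 ≤ a u := fun u => sub_nonneg.2 (Real.one_le_exp (w0 u))
  have a1 : ∀ u, a u ≤ 2 * (wt u / μ0) := fun u =>
    GAP_exp (w0 u) ((div_le_one μp).2 (by exact_mod_cast hwt u))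
  have θ0 : 0 ≤ θ := by positivity
  have θ1 : θ ≤ 1 / 32 := by
    rcases Nat.eq_zero_or_pos M with h | h
    · simp [hθ, h]
    · have Mp : (0 : ℝ) < M := by exact_mod_cast h
      have : (64 : ℝ) * N * g ≤ M := by exact_mod_cast hg
      rw [hθ, div_le_iff₀ Mp]
      linarith
  have s1 : ∀ X : Fin N → Fin M, (if OrdP π X ∧ c ≤ smw g wt X then (1 : ℝ) else 0) ≤
      Real.exp (-c / μ0) * ∑ H ∈ (univ : Finset (Fin N)).powerset,
        (∏ u ∈ H, a u) * if OrdP π X ∧ ∀ u ∈ H, Sm g X u then 1 else 0 := by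
    intro X
    split_ifs with h
    · have e1 : ∑ H ∈ (univ : Finset (Fin N)).powerset,
          (∏ u ∈ H, a u) * (if OrdP π X ∧ ∀ u ∈ H, Sm g X u then (1 : ℝ) else 0) =
          ∏ u, (1 + if Sm g X u then a u else 0) := by
        rw [prod_one_add]
        refine sum_congr rfl fun H _ => ?_
        by_cases hH : ∀ u ∈ H, Sm g X u
        · rw [if_pos ⟨h.1, hH⟩, mul_one]
          exact prod_congr rfl fun u hu => by rw [if_pos (hH u hu)]
        · rw [if_neg fun hh => hH hh.2, mul_zero]
          push Not at hH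
          obtain ⟨u, hu, hs⟩ := hH
          exact (prod_eq_zero hu (if_neg hs)).symm
      have e2 : ∏ u, (1 + if Sm g X u then a u else 0) = Real.exp (smw g wt X / μ0) := by
        rw [smw, sum_div, Real.exp_sum]
        refine prod_congr rfl fun u _ => ?_
        split_ifs
        · simp [ha]
        · simp
      rw [e1, e2, ← Real.exp_add]
      refine Real.one_le_exp ?_
      rw [← add_div]
      exact div_nonneg (by linarith [h.2]) μp.le
    · refine mul_nonneg (Real.exp_pos _).le (sum_nonneg fun H _ => mul_nonneg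
        (prod_nonneg fun u _ => a0 u) ?_)
      split_ifs <;> norm_num
  have s2 : ∑ X : Fin N → Fin M, ∑ H ∈ (univ : Finset (Fin N)).powerset,
      (∏ u ∈ H, a u) * (if OrdP π X ∧ ∀ u ∈ H, Sm g X u then (1 : ℝ) else 0) ≤
      Real.exp (S / 16 / μ0) * M.choose N := by
    rw [sum_comm]
    calc ∑ H ∈ (univ : Finset (Fin N)).powerset, ∑ X : Fin N → Fin M,
          (∏ u ∈ H, a u) * (if OrdP π X ∧ ∀ u ∈ H, Sm g X u then (1 : ℝ) else 0)
        ≤ ∑ H ∈ (univ : Finset (Fin N)).powerset, (∏ u ∈ H, θ * a u) * M.choose N := by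
          refine sum_le_sum fun H _ => ?_
          rw [← mul_sum, ← cc_real, prod_mul_distrib, prod_const, mul_comm (θ ^ H.card), mul_assoc]
          exact mul_le_mul_of_nonneg_left (h1 N M g π H hM) (prod_nonneg fun u _ => a0 u)
      _ = (∏ u, (1 + θ * a u)) * M.choose N := by rw [prod_one_add, sum_mul]
      _ ≤ Real.exp (S / 16 / μ0) * M.choose N := by
          refine mul_le_mul_of_nonneg_right ?_ (Nat.cast_nonneg _)
          calc ∏ u, (1 + θ * a u) ≤ ∏ u, Real.exp ((wt u : ℝ) / 16 / μ0) := by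
                refine prod_le_prod (fun u _ => by have := a0 u; positivity) fun u _ => ?_
                have b1 : θ * a u ≤ (wt u : ℝ) / 16 / μ0 := by
                  have b2 : θ * a u ≤ 1 / 32 * (2 * (wt u / μ0)) :=
                    mul_le_mul θ1 (a1 u) (a0 u) (by norm_num)
                  have b3 : (wt u : ℝ) / 16 / μ0 = 1 / 32 * (2 * (wt u / μ0)) := by ring
                  linarith
                linarith [Real.add_one_le_exp ((wt u : ℝ) / 16 / μ0)]
            _ = Real.exp ((∑ u, (wt u : ℝ)) / 16 / μ0) := by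
                rw [← Real.exp_sum, sum_div, sum_div]
            _ ≤ Real.exp (S / 16 / μ0) := by
                push_cast at hS
                gcongr
  rw [cc_real]
  calc ∑ X : Fin N → Fin M, (if OrdP π X ∧ c ≤ smw g wt X then (1 : ℝ) else 0)
      ≤ ∑ X : Fin N → Fin M, Real.exp (-c / μ0) * ∑ H ∈ (univ : Finset (Fin N)).powerset,
        (∏ u ∈ H, a u) * if OrdP π X ∧ ∀ u ∈ H, Sm g X u then 1 else 0 :=
        sum_le_sum fun X _ => s1 X
    _ ≤ Real.exp (-c / μ0) * (Real.exp (S / 16 / μ0) * M.choose N) := by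
        rw [← mul_sum]
        exact mul_le_mul_of_nonneg_left s2 (Real.exp_pos _).le
    _ = Real.exp ((S / 16 - c) / μ0) * M.choose N := by
        rw [← mul_assoc, ← Real.exp_add]
        congr 2
        ring

end Pool.Agent.Lib.MP_64bee1_co.UN
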