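import Pool.Agent.Lib.MP_64bee1_co.UN.Stmts

/-! Elementary facts on the graph of the problem. -/

namespace Pool.Agent.Lib.MP_64bee1_co.UN

open Finset

theorem GF_card {N n : ℕ} (p : Fin N → Prop) [DecidablePred p] (f : ℕ → ℕ)
    (hf : ∀ s < n, ∀ s' < n, f s = f s' → s = s')
    (h : ∀ u : ℕ, (∃ v : Fin N, p v ∧ (v : ℕ) = u) ↔ ∃ s < n, f s = u) :
    (univ.filter p).card = n := by
  have h1 : (univ.filter p).image Fin.val = (range n).image f := by
    ext u
    simp only [mem_image, mem_filter, mem_univ, true_and, mem_range]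
    exact h u
  rw [← card_image_of_injective _ Fin.val_injective, h1, card_image_of_injOn, card_range]
  intro s hs s' hs' hss
  exact hf s (mem_range.1 hs) s' (mem_range.1 hs') hss

theorem GF_ap (k c N : ℕ) (hk : 1 ≤ k) : ∃ n : ℕ, (∀ s, c + k * s < N ↔ s < n) ∧
    N ≤ c + k * n ∧ (n = 0 ∨ c + k * n < N + k) := by
  have hex : ∃ n, N ≤ c + k * n := ⟨N, by nlinarith⟩
  classical
  refine ⟨Nat.find hex, fun s => ⟨fun h => ?_, fun h => not_le.1 (Nat.find_min hex h)⟩,
    Nat.find_spec hex, ?_⟩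
  · by_contra h1
    have h2 := Nat.find_spec hex
    have h3 := Nat.mul_le_mul_left k (not_lt.1 h1)
    omega
  · rcases Nat.eq_zero_or_pos (Nat.find hex) with h | h
    · exact Or.inl h
    · right
      have h2 := not_le.1 (Nat.find_min hex (m := Nat.find hex - 1) (by omega))
      obtain ⟨m, hm⟩ : ∃ m, Nat.find hex = m + 1 := ⟨Nat.find hex - 1, by omega⟩
      rw [hm] at h2 ⊢
      rw [Nat.add_sub_cancel] at h2
      rw [Nat.mul_succ]
      omega

theorem GF_adj {N k : ℕ} (hk : 2 ≤ k) (i j : Fin N) :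
    Adj N k i j ↔ ∃ s, (i : ℕ) + 1 + k * s = j := by
  constructor
  · rintro ⟨h1, h2⟩
    have h3 := Nat.mod_add_div ((j : ℕ) - i) k
    have h4 : (i : ℕ) < j := h1
    exact ⟨((j : ℕ) - i) / k, by omega⟩
  · rintro ⟨s, hs⟩
    refine ⟨show (i : ℕ) < j by omega, ?_⟩
    rw [show (j : ℕ) - i = 1 + k * s by omega, Nat.add_mul_mod_self_left]
    exact Nat.mod_eq_of_lt (by omega)

theorem GF_od {N k : ℕ} (hk : 2 ≤ k) (v : Fin N) :
    N ≤ k * od (Adj N k) v + v + 1 ∧ k * od (Adj N k) v + v + 2 ≤ N + k := by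
  obtain ⟨n, h1, h2, h3⟩ := GF_ap k (v + 1) N (by omega)
  have h4 : od (Adj N k) v = n := by
    refine GF_card _ (fun s => v + 1 + k * s) (fun s _ s' _ h => ?_) fun u => ⟨?_, ?_⟩
    · exact Nat.eq_of_mul_eq_mul_left (by omega) (Nat.add_left_cancel h)
    · rintro ⟨w, hw, rfl⟩
      obtain ⟨s, hs⟩ := (GF_adj hk v w).1 hw
      exact ⟨s, (h1 s).1 (by rw [hs]; exact w.2), hs⟩
    · rintro ⟨s, hs, rfl⟩
      exact ⟨⟨_, (h1 s).2 hs⟩, (GF_adj hk _ _).2 ⟨s, rfl⟩, rfl⟩
  rw [h4]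
  have := v.2
  refine ⟨by omega, ?_⟩
  rcases h3 with rfl | h3
  · omega
  · omega

theorem GF_idg {N k : ℕ} (hk : 2 ≤ k) (v : Fin N) :
    (v : ℕ) ≤ k * idg (Adj N k) v ∧ k * idg (Adj N k) v + 1 ≤ v + k := by
  obtain ⟨n, h1, h2, h3⟩ := GF_ap k 1 (v + 1) (by omega)
  have h4 : idg (Adj N k) v = n := by
    refine GF_card _ (fun s => v - (1 + k * s)) (fun s hs s' hs' h => ?_) fun u => ⟨?_, ?_⟩
    · have a1 := (h1 s).2 hs
      have a2 := (h1 s').2 hs'
      exact Nat.eq_of_mul_eq_mul_left (m := s) (k := s') (n := k) (by omega) (by omega)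
    · rintro ⟨w, hw, rfl⟩
      obtain ⟨s, hs⟩ := (GF_adj hk w v).1 hw
      exact ⟨s, (h1 s).1 (by omega), by omega⟩
    · rintro ⟨s, hs, rfl⟩
      have a1 := (h1 s).2 hs
      have a2 := v.2
      exact ⟨⟨v - (1 + k * s), by omega⟩, (GF_adj hk _ _).2 ⟨s, by simp only; omega⟩, rfl⟩
  rw [h4]
  refine ⟨by omega, ?_⟩
  rcases h3 with rfl | h3
  · omega
  · omega

theorem GF_deg {N k : ℕ} (hk : 2 ≤ k) (v : Fin N) :
    N / k ≤ od (Adj N k) v + idg (Adj N k) v ∧ od (Adj N k) v + idg (Adj N k) v ≤ N / k + 2 := by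
  obtain ⟨a1, a2⟩ := GF_od hk v
  obtain ⟨b1, b2⟩ := GF_idg hk v
  constructor
  · refine Nat.le_of_lt_succ (Nat.div_lt_of_lt_mul ?_)
    rw [Nat.mul_succ, mul_add]
    omega
  · have h1 := Nat.lt_mul_div_succ N (show 0 < k by omega)
    refine Nat.le_of_lt_succ (Nat.lt_of_mul_lt_mul_left (a := k) ?_)
    rw [mul_add] at h1 ⊢
    rw [show (N / k + 2).succ = N / k + 3 from rfl, mul_add]
    omega

theorem GF_asym (N k : ℕ) : Asym (Adj N k) := fun _ _ h h' => lt_asymm h.1 h'.1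

theorem GF_step {N k : ℕ} (hk : 2 ≤ k) (i j : Fin N) (h : Adj N k i j) :
    (j : ℕ) % k = ((i : ℕ) % k + 1) % k := by
  obtain ⟨s, hs⟩ := (GF_adj hk i j).1 h
  rw [← hs, Nat.add_mul_mod_self_left, Nat.mod_add_mod]

theorem GF_nb {N : ℕ} (A : Fin N → Fin N → Prop) [DecidableRel A] (h : Asym A) (v : Fin N) :
    (univ.filter (Nb A v)).card = od A v + idg A v := by
  unfold od idg
  rw [← card_union_of_disjoint (disjoint_filter.2 fun j _ hj => h v j hj), ← filter_or]
  rfl

theorem GF_ne {N : ℕ} (A : Fin N → Fin N → Prop) [DecidableRel A] :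
    2 * ne A = ∑ v, (od A v + idg A v) := by
  have h1 : ne A = ∑ v, od A v := by
    unfold ne od
    simp only [card_filter]
    exact Fintype.sum_prod_type _
  have h2 : ne A = ∑ v, idg A v := by
    unfold ne idg
    simp only [card_filter]
    exact Fintype.sum_prod_type_right _
  rw [sum_add_distrib, ← h1, ← h2, two_mul]

theorem GF_col {N k r : ℕ} (hr : r < k) :
    N / k ≤ (univ.filter fun v : Fin N => (v : ℕ) % k = r).card ∧
    (univ.filter fun v : Fin N => (v : ℕ) % k = r).card ≤ N / k + 1 := by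
  obtain ⟨n, h1, h2, h3⟩ := GF_ap k r N (by omega)
  have h4 : (univ.filter fun v : Fin N => (v : ℕ) % k = r).card = n := by
    refine GF_card _ (fun s => r + k * s) (fun s _ s' _ h => ?_) fun u => ⟨?_, ?_⟩
    · exact Nat.eq_of_mul_eq_mul_left (by omega) (Nat.add_left_cancel h)
    · rintro ⟨w, hw, rfl⟩
      have h5 := Nat.mod_add_div (w : ℕ) k
      have h6 := w.2
      exact ⟨w / k, (h1 _).1 (by omega), by omega⟩
    · rintro ⟨s, hs, rfl⟩
      refine ⟨⟨_, (h1 s).2 hs⟩, ?_, rfl⟩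
      simp only [Nat.add_mul_mod_self_left]
      exact Nat.mod_eq_of_lt hr
  rw [h4]
  constructor
  · refine Nat.le_of_lt_succ (Nat.div_lt_of_lt_mul ?_)
    rw [Nat.mul_succ]
    omega
  · rcases h3 with rfl | h3
    · exact Nat.zero_le _
    · have h5 := Nat.lt_mul_div_succ N (show 0 < k by omega)
      refine Nat.le_of_lt_succ (Nat.lt_of_mul_lt_mul_left (a := k) ?_)
      rw [mul_add] at h5
      rw [show (N / k + 1).succ = N / k + 2 from rfl, mul_add]
      omega

theorem GF_dg {N : ℕ} (A : Fin N → Fin N → Prop) [DecidableRel A] (π : Equiv.Perm (Fin N))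
    (v : Fin N) : |dg A π v| ≤ ((od A v + idg A v : ℕ) : ℤ) := by
  have h1 : ∀ B : Fin N → Prop, ∀ [DecidablePred B],
      (0 : ℤ) ≤ (∑ u, if B u ∧ π u < π v then 1 else 0) ∧
      (∑ u, if B u ∧ π u < π v then (1 : ℤ) else 0) ≤ ((univ.filter B).card : ℤ) := by
    intro B _
    refine ⟨sum_nonneg fun u _ => by split_ifs <;> norm_num, ?_⟩
    rw [card_filter]
    push_cast
    refine sum_le_sum fun u _ => ?_
    by_cases h : B u
    · simp only [h, true_and, if_true]
      split_ifs <;> norm_num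
    · simp [h]
  obtain ⟨a1, a2⟩ := h1 fun u => A v u
  obtain ⟨b1, b2⟩ := h1 fun u => A u v
  unfold dg od idg
  push_cast
  rw [abs_le]
  constructor <;> linarith

theorem GF_big {N k : ℕ} (hk : 2 ≤ k) (hP : 40 ≤ N / k) : ∃ R : Finset (Fin N),
    Indep (Adj N k) R ∧ (∀ i ∈ R, idg (Adj N k) i + N / k / 3 ≤ od (Adj N k) i) ∧
    N ≤ 20 * R.card := by
  have hk0 : 0 < k := by omega
  have hN1 : k * (N / k) ≤ N := Nat.mul_div_le N k
  have hN2 := Nat.lt_mul_div_succ N hk0
  set P := N / k with hPdef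
  set Q := P / 4 with hQ
  have hQP : k * Q ≤ k * P := Nat.mul_le_mul_left k (by omega)
  refine ⟨univ.filter fun v : Fin N => (v : ℕ) % k % 2 = 1 ∧ (v : ℕ) < k * Q, ?_, ?_, ?_⟩
  · intro i hi j hj h
    have h1 := GF_step hk i j h
    have h2 := (mem_filter.1 hi).2.1
    have h3 := (mem_filter.1 hj).2.1
    have h4 := Nat.mod_lt (i : ℕ) hk0
    rcases Nat.lt_or_ge ((i : ℕ) % k + 1) k with h5 | h5
    · rw [Nat.mod_eq_of_lt h5] at h1
      omega
    · rw [show (i : ℕ) % k + 1 = k by omega, Nat.mod_self] at h1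
      omega
  · intro i hi
    have h2 := (mem_filter.1 hi).2.2
    obtain ⟨a1, -⟩ := GF_od hk i
    obtain ⟨-, b2⟩ := GF_idg hk i
    have c1 : idg (Adj N k) i < Q + 1 := by
      refine Nat.lt_of_mul_lt_mul_left (a := k) ?_
      rw [mul_add]
      omega
    have c2 : P ≤ od (Adj N k) i + Q := by
      refine Nat.le_of_mul_le_mul_left ?_ hk0
      rw [mul_add]
      omega
    omega
  · set R := univ.filter fun v : Fin N => (v : ℕ) % k % 2 = 1 ∧ (v : ℕ) < k * Q with hR
    have h1 : (range Q ×ˢ range (k / 2)).card ≤ (R.image Fin.val).card := by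
      refine card_le_card_of_injOn (fun p => 2 * p.2 + 1 + k * p.1) ?_ ?_
      · rintro ⟨a, b⟩ hp
        obtain ⟨ha, hb⟩ := mem_product.1 (mem_coe.1 hp)
        have ha' : a < Q := mem_range.1 ha
        have hb' : b < k / 2 := mem_range.1 hb
        have h2 : k * (a + 1) ≤ k * Q := Nat.mul_le_mul_left k ha'
        rw [mul_add] at h2
        have h3 : 2 * b + 1 + k * a < k * Q := by omega
        refine mem_coe.2 (mem_image.2 ⟨⟨2 * b + 1 + k * a, by omega⟩, ?_, rfl⟩)
        refine mem_filter.2 ⟨mem_univ _, ?_, h3⟩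
        simp only [Nat.add_mul_mod_self_left]
        rw [Nat.mod_eq_of_lt (show 2 * b + 1 < k by omega)]
        omega
      · rintro ⟨a, b⟩ hp ⟨a', b'⟩ hp' h
        have hb : b < k / 2 := mem_range.1 (mem_product.1 (mem_coe.1 hp)).2
        have hb' : b' < k / 2 := mem_range.1 (mem_product.1 (mem_coe.1 hp')).2
        have h2 : 2 * b + 1 + k * a = 2 * b' + 1 + k * a' := h
        have h3 := congrArg (· % k) h2
        simp only [Nat.add_mul_mod_self_left] at h3
        rw [Nat.mod_eq_of_lt (show 2 * b + 1 < k by omega),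
          Nat.mod_eq_of_lt (show 2 * b' + 1 < k by omega)] at h3
        have h4 : a = a' := Nat.eq_of_mul_eq_mul_left hk0 (by omega)
        exact Prod.ext h4 (by simp only; omega)
    rw [card_product, card_range, card_range] at h1
    have h2 : (R.image Fin.val).card ≤ R.card := card_image_le
    have h3 : k * (P + 1) ≤ 3 * (k / 2) * (P + 1) := Nat.mul_le_mul_right _ (by omega)
    have h4 : (k / 2) * (3 * (P + 1)) ≤ (k / 2) * (20 * Q) := Nat.mul_le_mul_left _ (by omega)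
    nlinarith

theorem GF : St_GF := by
  intro N k hk
  refine ⟨GF_asym N k, GF_step hk, fun v => ⟨(GF_od hk v).1, (GF_od hk v).2, (GF_idg hk v).1,
    (GF_idg hk v).2, (GF_deg hk v).1, (GF_deg hk v).2, GF_nb _ (GF_asym N k) v⟩, ?_,
    fun r hr => GF_col hr, fun π v => ?_, ?_, GF_big hk⟩
  · rw [GF_ne]
    refine (sum_le_sum fun v _ => (GF_deg hk v).2).trans ?_
    simp
  · exact (GF_dg _ π v).trans (Int.ofNat_le.2 (GF_deg hk v).2)
  · intro i hi j hj h
    have h1 := GF_step hk i j h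
    obtain ⟨h2, h3⟩ := (mem_filter.1 hi).2
    have h4 := (mem_filter.1 hj).2.1
    rw [Nat.mod_eq_of_lt h3] at h1
    omega

end Pool.Agent.Lib.MP_64bee1_co.UN
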