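import Pool.Agent.Lib.MP_64bee1_co.UN.Stmts

/-!
Gluing values on an independent set into an environment.
-/

namespace Pool.Agent.Lib.MP_64bee1_co.UN

open Finset

section
variable {N : ℕ} (A : Fin N → Fin N → Prop) [DecidableRel A] (R : Finset (Fin N))

theorem GLUE_in {α : Type} (e : Fin N → α) (x : R → α) (i : R) : glue R e x i = x i := by
  unfold glue; rw [dif_pos i.2]

theorem GLUE_out {α : Type} (e : Fin N → α) (x : R → α) {j : Fin N} (hj : j ∉ R) :
    glue R e x j = e j := by
  unfold glue; rw [dif_neg hj]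

omit [DecidableRel A] in
theorem GLUE_nb (hR : Indep A R) {i j : Fin N} (hi : i ∈ R) (h : Nb A i j) : j ∉ R := by
  intro hj
  rcases h with h | h
  · exact hR i hi j hj h
  · exact hR j hj i hi h

theorem GLUE_split {β : Type} [LinearOrder β] (hR : Indep A R) (X : Fin N → β) :
    ivf A X = fz A R X + ∑ i ∈ R, gs A X i (X i) := by
  have h1 : ∑ i ∈ R, gs A X i (X i) =
      ∑ i, ∑ j, (if i ∈ R ∧ A i j ∧ X j < X i then 1 else 0) +
      ∑ i, ∑ j, (if j ∈ R ∧ A i j ∧ X j < X i then 1 else 0) := by
    rw [sum_comm (f := fun i j => if j ∈ R ∧ A i j ∧ X j < X i then 1 else 0), ← sum_add_distrib]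
    rw [← sum_filter_add_sum_filter_not univ (· ∈ R), filter_mem_eq_inter, univ_inter]
    rw [sum_eq_zero (s := univ.filter (· ∉ R)) (fun i hi => by
      simp [(mem_filter.1 hi).2]), add_zero]
    refine sum_congr rfl fun i hi => ?_
    simp only [gs, cl, card_filter, hi, true_and]
  rw [h1]
  simp only [ivf, fz, card_filter, Fintype.sum_prod_type, ← sum_add_distrib]
  refine sum_congr rfl fun i _ => sum_congr rfl fun j _ => ?_
  by_cases h : A i j
  · by_cases hi : i ∈ R
    · have hj : j ∉ R := fun hj => hR i hi j hj h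
      simp [h, hi, hj]
    · by_cases hj : j ∈ R <;> simp [h, hi, hj]
  · simp [h]

theorem GLUE_cl {β : Type} [LinearOrder β] (hR : Indep A R) (e : Fin N → β) (x : R → β)
    {i : Fin N} (hi : i ∈ R) : cl A (glue R e x) i = cl A e i := by
  funext y
  unfold cl
  refine Prod.ext (filter_congr fun j _ => ?_) (filter_congr fun j _ => ?_)
  · exact and_congr_right fun h => by rw [GLUE_out R e x (GLUE_nb A R hR hi (Or.inl h))]
  · exact and_congr_right fun h => by rw [GLUE_out R e x (GLUE_nb A R hR hi (Or.inr h))]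

theorem GLUE_gR {β : Type} [LinearOrder β] (hR : Indep A R) (e : Fin N → β) (x : R → β) :
    gR A R (glue R e x) = gR A R e := by
  funext i y
  unfold gR gs
  rw [GLUE_cl A R hR e x i.2]

theorem GLUE_fz {β : Type} [LinearOrder β] (e : Fin N → β) (x : R → β) :
    fz A R (glue R e x) = fz A R e := by
  unfold fz
  congr 1
  refine filter_congr fun p _ => ?_
  refine and_congr_right fun _ => and_congr_right fun h1 => and_congr_right fun h2 => ?_
  rw [GLUE_out R e x h1, GLUE_out R e x h2]

omit [DecidableRel A] in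
theorem GLUE_coin {M : ℕ} (hR : Indep A R) (e : Fin N → Fin M) (x : R → Fin M)
    {i : Fin N} (hi : i ∈ R) : coinS A (glue R e x) i = coinS A e i := by
  ext y
  simp only [coinS, mem_filter, mem_univ, true_and]
  refine exists_congr fun u => and_congr_right fun hu => ?_
  rw [GLUE_out R e x (GLUE_nb A R hR hi hu)]
  refine and_congr_right fun _ => and_congr_right fun _ => and_congr_right fun _ => ?_
  refine forall_congr' fun v => imp_congr_right fun hv => ?_
  rw [GLUE_out R e x (GLUE_nb A R hR hi hv)]

theorem GLUE_count {α : Type} [Fintype α] (Q : (Fin N → α) → Prop) :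
    ∑ e : Fin N → α, cc (fun x : R → α => Q (glue R e x)) =
      Fintype.card α ^ R.card * cc Q := by
  classical
  let f : (Fin N → α) × (R → α) → (Fin N → α) × (R → α) :=
    fun p => (glue R p.1 p.2, fun i => p.1 i)
  have hf : Function.Involutive f := by
    rintro ⟨e, x⟩
    refine Prod.ext ?_ ?_
    · funext v
      by_cases hv : v ∈ R
      · exact GLUE_in R _ _ ⟨v, hv⟩
      · exact (GLUE_out R _ _ hv).trans (GLUE_out R _ _ hv)
    · funext i
      exact GLUE_in R e x i
  have h1 : ∑ e : Fin N → α, cc (fun x : R → α => Q (glue R e x)) =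
      ∑ p : (Fin N → α) × (R → α), if Q (f p).1 then 1 else 0 := by
    rw [Fintype.sum_prod_type]
    refine sum_congr rfl fun e _ => ?_
    rw [cc_eq, card_filter]
  have h2 : (∑ p : (Fin N → α) × (R → α), if Q (f p).1 then 1 else 0) =
      ∑ p : (Fin N → α) × (R → α), if Q p.1 then 1 else 0 :=
    Equiv.sum_comp hf.toPerm (fun p => if Q p.1 then 1 else 0)
  rw [h1, h2, Fintype.sum_prod_type, cc_eq, card_filter, mul_sum]
  refine sum_congr rfl fun e _ => ?_
  by_cases h : Q e <;> simp [h]

end

theorem GLUE : St_GLUE := by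
  intro N M A _ R _ hR
  refine ⟨fun e x => ⟨?_, fun g0 g1 d0 D => ?_, ?_, ?_⟩, fun Q => ?_, fun X => ?_⟩
  · rw [GLUE_split A R hR, GLUE_fz, tot, ← sum_coe_sort R]
    congr 1
    refine sum_congr rfl fun i _ => ?_
    rw [GLUE_in, ← GLUE_gR A R hR e x]
    rfl
  · unfold Good
    rw [GLUE_gR A R hR]
  · unfold ncX
    congr 1
    · funext i; exact GLUE_coin A R hR e x i.2
    · funext i; exact GLUE_in R e x i
  · unfold UX
    congr 1
    · funext i; exact GLUE_coin A R hR e x i.2
    · funext i; exact GLUE_cl A R hR e x i.2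
    · funext i; exact GLUE_in R e x i
  · rw [GLUE_count, Fintype.card_fin]
  · rw [GLUE_split A R hR]
    exact Nat.le_add_left _ _

end Pool.Agent.Lib.MP_64bee1_co.UN
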