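import Pool.Agent.Lib.MP_64bee1_co.UN.Stmts

/-!
Most environments are good.
-/

namespace Pool.Agent.Lib.MP_64bee1_co.UN

open Finset

theorem GOOD_ivt (F : ℕ → ℕ) {a b v : ℕ} (hab : a ≤ b) (ha : F a ≤ v) (hb : v < F b) :
    ∃ n, n < b ∧ F n ≤ v ∧ v < F (n + 1) := by
  induction b, hab using Nat.le_induction with
  | base => omega
  | succ b _ ih =>
    by_cases h : v < F b
    · obtain ⟨n, h1, h2⟩ := ih h
      exact ⟨n, by omega, h2⟩
    · exact ⟨b, by omega, by omega, hb⟩

variable {N M : ℕ} (A : Fin N → Fin N → Prop) [DecidableRel A]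

theorem GOOD_inj {π : Equiv.Perm (Fin N)} {X : Fin N → Fin M} (h : OrdP π X) :
    Function.Injective X := by
  intro u v huv
  refine π.injective (le_antisymm (not_lt.1 fun q => ?_) (not_lt.1 fun q => ?_))
  · exact ((h v u).2 q).ne' huv
  · exact ((h u v).2 q).ne huv

theorem GOOD_gs {π : Equiv.Perm (Fin N)} {X : Fin N → Fin M} (h : OrdP π X) (i u : Fin N) :
    gs A X i (X u) = gs A π i (π u) := by
  simp only [gs, cl, h _ _]

theorem GOOD_ptr {X : Fin N → Fin M} (hX : Function.Injective X) (i : Fin N) (a : Fin M) {v : ℕ}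
    (h1 : gs A X i a ≤ v) (h2 : v < od A i) : ∃ u, A i u ∧ gs A X i (X u) = v := by
  let F : ℕ → ℕ := fun n => (univ.filter fun j => A i j ∧ (X j : ℕ) < n).card +
    (univ.filter fun j => A j i ∧ n < (X j : ℕ)).card
  have hF : ∀ x : Fin M, gs A X i x = F x := fun x => rfl
  have hM : v < F M := by
    have : od A i = (univ.filter fun j => A i j ∧ (X j : ℕ) < M).card := by
      simp only [od, Fin.is_lt, and_true]
    simp only [F]
    omega
  obtain ⟨n, hn, q1, q2⟩ := GOOD_ivt F a.2.le (by rw [← hF]; exact h1) hM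
  have e2 : (univ.filter fun j => A j i ∧ n + 1 < (X j : ℕ)).card ≤
      (univ.filter fun j => A j i ∧ n < (X j : ℕ)).card :=
    card_le_card fun j hj => by
      simp only [mem_filter, mem_univ, true_and] at hj ⊢
      exact ⟨hj.1, by omega⟩
  by_cases hu : ∃ u, A i u ∧ (X u : ℕ) = n
  · obtain ⟨u, hu1, hu2⟩ := hu
    refine ⟨u, hu1, ?_⟩
    have e1 : (univ.filter fun j => A i j ∧ (X j : ℕ) < n + 1).card ≤
        (univ.filter fun j => A i j ∧ (X j : ℕ) < n).card + 1 := by
      refine (card_le_card (t := insert u (univ.filter fun j => A i j ∧ (X j : ℕ) < n))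
        fun j hj => ?_).trans (card_insert_le _ _)
      simp only [mem_filter, mem_univ, true_and, mem_insert] at hj ⊢
      by_cases c : (X j : ℕ) = n
      · exact Or.inl (hX (Fin.ext (by omega)))
      · exact Or.inr ⟨hj.1, by omega⟩
    rw [hF, hu2]
    simp only [F] at q1 q2 ⊢
    omega
  · exfalso
    have e1 : (univ.filter fun j => A i j ∧ (X j : ℕ) < n + 1).card ≤
        (univ.filter fun j => A i j ∧ (X j : ℕ) < n).card :=
      card_le_card fun j hj => by
        simp only [mem_filter, mem_univ, true_and] at hj ⊢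
        refine ⟨hj.1, ?_⟩
        by_contra c
        exact hu ⟨j, hj.1, by omega⟩
    simp only [F] at q1 q2
    omega

theorem GOOD_heavy (hA : Asym A) {X : Fin N → Fin M} (hX : Function.Injective X) {i u : Fin N}
    {g : ℕ} (hu : A i u) (hs : ¬ Sm g X u) :
    g ≤ cc fun a : Fin M => gs A X i a = gs A X i (X u) := by
  classical
  simp only [Sm, not_or, not_exists, not_and, not_le, not_lt] at hs
  obtain ⟨h1, h2⟩ := hs
  rw [cc_eq, ← card_range g]
  refine card_le_card_of_injOn (fun t => (⟨X u - t, by omega⟩ : Fin M)) ?_ ?_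
  · intro t ht
    have ht' : t < g := by simpa using ht
    refine mem_coe.2 (mem_filter.2 ⟨mem_univ _, ?_⟩)
    suffices e : cl A X i ⟨X u - t, by omega⟩ = cl A X i (X u) by simp only [gs, e]
    refine Prod.ext ?_ ?_
    · refine filter_congr fun j _ => and_congr_right fun _ => ?_
      have := h1 j
      simp only [Fin.lt_def] at this ⊢
      omega
    · refine filter_congr fun j _ => and_congr_right fun hj => ?_
      have := h1 j
      have q : (X j : ℕ) ≠ X u := fun e => by
        obtain rfl := hX (Fin.ext e)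
        exact hA _ _ hu hj
      simp only [Fin.lt_def] at this ⊢
      omega
  · intro t ht t' ht' e
    have q1 : t < g := by simpa using ht
    have q2 : t' < g := by simpa using ht'
    have := congrArg Fin.val e
    simp only at this
    omega

open Classical in
/-- An out-neighbour at a given level, chosen from the relative order only. -/
noncomputable def GOOD_pt (π : Equiv.Perm (Fin N)) (i : Fin N) (t : ℕ) : Fin N :=
  if h : ∃ u, A i u ∧ gs A π i (π u) = t then h.choose else i

theorem GOOD_pt_spec {π : Equiv.Perm (Fin N)} {i : Fin N} {t : ℕ}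
    (h : ∃ u, A i u ∧ gs A π i (π u) = t) :
    A i (GOOD_pt A π i t) ∧ gs A π i (π (GOOD_pt A π i t)) = t := by
  unfold GOOD_pt
  rw [dif_pos h]
  exact h.choose_spec

/-- The weight attached to a window of levels. -/
noncomputable def GOOD_wt (π : Equiv.Perm (Fin N)) (i : Fin N) (μ d : ℕ) (u : Fin N) : ℕ :=
  if u ∈ (range d).image (fun v => GOOD_pt A π i (μ + v)) then 1 else 0

theorem GOOD_wt_sum (π : Equiv.Perm (Fin N)) (i : Fin N) (μ d : ℕ) :
    ∑ u, GOOD_wt A π i μ d u ≤ d := by
  unfold GOOD_wt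
  rw [← card_filter, filter_mem_eq_inter, univ_inter]
  exact card_image_le.trans (card_range d).le

theorem GOOD_cover (hA : Asym A) {R : Finset (Fin N)} {g0 g1 d0 D : ℕ} {π : Equiv.Perm (Fin N)}
    (hR : ∀ i ∈ R, idg A i + D ≤ od A i) (hd : 1 ≤ d0) (hD : 1 ≤ D) (hM : 2 * N ≤ M)
    {X : Fin N → Fin M} (hX : OrdP π X) (h : ¬ Good A R g0 g1 d0 D X) :
    (∃ u ∈ (univ : Finset (Fin N)), OrdP π X ∧ ∀ v ∈ ({u} : Finset (Fin N)), Sm g0 X v) ∨
    ∃ z ∈ (univ : Finset (Fin N)) ×ˢ range N ×ˢ (Icc 1 N).filter (d0 ≤ ·),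
      OrdP π X ∧ (z.2.2 : ℝ) / 8 ≤ smw g1 (GOOD_wt A π z.1 z.2.1 z.2.2) X := by
  classical
  by_contra hc
  rw [not_or] at hc
  obtain ⟨c1, c2⟩ := hc
  refine h fun i => ?_
  have hi := hR i i.2
  have hinj := GOOD_inj hX
  have hM0 : 0 < M := by
    have := i.1.2
    omega
  obtain ⟨a, -, ha⟩ := exists_min_image univ (gs A X i) ⟨⟨0, hM0⟩, mem_univ _⟩
  have h0 : gs A X i a ≤ idg A i := by
    refine (ha ⟨0, hM0⟩ (mem_univ _)).trans ?_
    have e1 : (cl A X i ⟨0, hM0⟩).1 = ∅ := filter_false_of_mem fun j _ hj => by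
      have := hj.2
      simp [Fin.lt_def] at this
    rw [gs, e1, card_empty, zero_add]
    exact card_le_card fun j hj => mem_filter.2 ⟨mem_univ _, (mem_filter.1 hj).2.1⟩
  have hod : od A i ≤ N := (card_le_univ _).trans (Fintype.card_fin N).le
  have hp : ∀ v, v < D → A i (GOOD_pt A π i (gs A X i a + v)) ∧
      gs A X i (X (GOOD_pt A π i (gs A X i a + v))) = gs A X i a + v := by
    intro v hv
    obtain ⟨u, hu1, hu2⟩ := GOOD_ptr A hinj i a (v := gs A X i a + v) (by omega) (by omega)
    rw [GOOD_gs A hX i (GOOD_pt A π i _)]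
    exact GOOD_pt_spec A ⟨u, hu1, by rw [← GOOD_gs A hX, hu2]⟩
  have hw : ∀ g v, v < D → ¬ Sm g X (GOOD_pt A π i (gs A X i a + v)) →
      g ≤ ww (gR A R X) i (gs A X i a + v) := by
    intro g v hv hs
    have := GOOD_heavy A hA hinj (hp v hv).1 hs
    rw [(hp v hv).2] at this
    exact this
  refine ⟨gs A X i a, fun b => ha b (mem_univ _), ?_, fun d hd0 hdD => ?_⟩
  · exact hw g0 0 hD fun hs => c1 ⟨GOOD_pt A π i (gs A X i a + 0), mem_univ _, hX,
      fun v hv => by rw [mem_singleton.1 hv]; exact hs⟩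
  by_contra hb
  refine c2 ⟨(i, gs A X i a, d), ?_, hX, ?_⟩
  · simp only [mem_product, mem_univ, mem_range, mem_filter, mem_Icc, true_and]
    omega
  set B := (range d).filter fun v => ww (gR A R X) i (gs A X i a + v) < g1 with hB
  have hB' : ∀ v ∈ B, v < d ∧ ww (gR A R X) i (gs A X i a + v) < g1 := fun v hv => by
    simpa [hB] using hv
  have e1 : (B.image fun v => GOOD_pt A π i (gs A X i a + v)).card = B.card := by
    refine card_image_of_injOn fun v hv v' hv' e => ?_
    have q1 := (hp v (by have := (hB' v hv).1; omega)).2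
    have q2 := (hp v' (by have := (hB' v' hv').1; omega)).2
    rw [e] at q1
    omega
  have e2 : ((B.image fun v => GOOD_pt A π i (gs A X i a + v)).card : ℝ) ≤
      smw g1 (GOOD_wt A π i (gs A X i a) d) X := by
    unfold smw
    rw [card_eq_sum_ones]
    push_cast
    refine le_trans (sum_le_sum fun u hu => ?_) (sum_le_sum_of_subset_of_nonneg (subset_univ _)
      fun u _ _ => by split_ifs <;> positivity)
    obtain ⟨v, hv, rfl⟩ := mem_image.1 hu
    obtain ⟨q1, q2⟩ := hB' v hv
    have hs : Sm g1 X (GOOD_pt A π i (gs A X i a + v)) := by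
      by_contra hs
      have := hw g1 v (by omega) hs
      omega
    rw [if_pos hs, GOOD_wt, if_pos (mem_image_of_mem _ (mem_range.2 q1))]
    simp
  rw [e1] at e2
  have e3 : (d : ℝ) ≤ 8 * B.card := by exact_mod_cast (not_le.1 hb).le
  simp only
  linarith

theorem GOOD (h1 : St_GAP) (h2 : St_WGAP) : St_GOOD := by
  intro N M A _ R g0 g1 d0 D π hA hR hd hD hM hg
  have hcov := (cc_mono fun X (hX : OrdP π X ∧ ¬ Good A R g0 g1 d0 D X) =>
    GOOD_cover A hA hR hd hD hM hX.1 hX.2).trans ((cc_or_le _ _).trans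
      (Nat.add_le_add (cc_exists_le _ _) (cc_exists_le _ _)))
  refine (Nat.cast_le.2 hcov).trans ?_
  push_cast
  rw [add_mul]
  refine add_le_add ?_ ?_
  · refine (sum_le_sum fun u _ => h1 N M g0 π {u} hM).trans (le_of_eq ?_)
    simp only [card_singleton, pow_one, sum_const, card_univ, Fintype.card_fin, nsmul_eq_mul]
    ring
  · have hC : (0 : ℝ) ≤ Real.exp (-(d0 : ℝ) / 16) * M.choose N := by positivity
    refine (sum_le_card_nsmul _ _ (Real.exp (-(d0 : ℝ) / 16) * M.choose N) fun z hz => ?_).trans ?_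
    · refine (h2 N M g1 1 π _ z.2.2 _ hM hg le_rfl (fun u => ?_) ?_).trans ?_
      · unfold GOOD_wt
        split_ifs <;> omega
      · exact_mod_cast GOOD_wt_sum A π z.1 z.2.1 z.2.2
      · have q : (d0 : ℝ) ≤ z.2.2 := by
          exact_mod_cast (mem_filter.1 (mem_product.1 (mem_product.1 hz).2).2).2
        refine mul_le_mul_of_nonneg_right (Real.exp_le_exp.2 ?_) (by positivity)
        push_cast
        linarith
    · rw [nsmul_eq_mul, mul_assoc]
      refine mul_le_mul_of_nonneg_right ?_ hC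
      have q : ((univ : Finset (Fin N)) ×ˢ range N ×ˢ (Icc 1 N).filter (d0 ≤ ·)).card ≤ N ^ 3 := by
        have := card_filter_le (Icc 1 N) (d0 ≤ ·)
        simp only [card_product, card_univ, Fintype.card_fin, card_range, Nat.card_Icc,
          Nat.add_sub_cancel] at this ⊢
        calc _ ≤ N * (N * N) := Nat.mul_le_mul_left _ (Nat.mul_le_mul_left _ this)
          _ = N ^ 3 := by ring
      exact_mod_cast q

end Pool.Agent.Lib.MP_64bee1_co.UN
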