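import Pool.Agent.Lib.MP_64bee1_co.UN.Stmts

/-! Heating a cold product configuration. -/

namespace Pool.Agent.Lib.MP_64bee1_co.UN

open Finset

section
variable {ι α : Type} [Fintype ι] [DecidableEq ι] [Fintype α] (g : ι → α → ℕ) (f0 : ℕ)

omit [Fintype α] in
theorem HEAT_tot (x : ι → α) (i : ι) (a : α) :
    tot g f0 (Function.update x i a) + g i (x i) = tot g f0 x + g i a := by
  unfold tot
  rw [← add_sum_erase univ _ (mem_univ i), ← add_sum_erase univ (fun j => g j (x j)) (mem_univ i)]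
  have : ∑ j ∈ univ.erase i, g j (Function.update x i a j) = ∑ j ∈ univ.erase i, g j (x j) :=
    sum_congr rfl fun j hj => by rw [Function.update_of_ne (ne_of_mem_erase hj)]
  rw [this, Function.update_self]
  omega

omit [Fintype ι] [DecidableEq ι] in
theorem HEAT_hi (i : ι) (μ g1 J d : ℕ) (hJ : 4 * J ≤ d)
    (h : 8 * ((range d).filter fun v => ww g i (μ + v) < g1).card ≤ d) :
    d * g1 ≤ 2 * cc fun a : α => μ + J ≤ g i a ∧ g i a < μ + d := by
  classical
  set V := (range d).filter fun v => J ≤ v ∧ g1 ≤ ww g i (μ + v) with hV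
  have h1 : range d ⊆ V ∪ range J ∪ (range d).filter fun v => ww g i (μ + v) < g1 := by
    intro v hv
    simp only [hV, mem_union, mem_filter, mem_range] at hv ⊢
    omega
  have h2 := card_le_card h1
  have h3 := card_union_le (V ∪ range J) ((range d).filter fun v => ww g i (μ + v) < g1)
  have h4 := card_union_le V (range J)
  rw [card_range] at h2 h4
  have h5 : d ≤ 2 * V.card := by omega
  have h6 : g1 * V.card ≤ (univ.filter fun a : α => μ ≤ g i a ∧ g i a - μ ∈ V).card := by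
    refine mul_card_image_le_card_of_maps_to (f := fun a => g i a - μ)
      (fun a ha => (mem_filter.1 ha).2.2) g1 fun v hv => ?_
    refine (mem_filter.1 hv).2.2.trans ?_
    rw [ww, cc_eq]
    refine card_le_card fun a ha => ?_
    have := (mem_filter.1 ha).2
    simp only [mem_filter, mem_univ, true_and]
    refine ⟨⟨by omega, ?_⟩, by omega⟩
    have e : g i a - μ = v := by omega
    rw [e]; exact hv
  have h7 : (univ.filter fun a : α => μ ≤ g i a ∧ g i a - μ ∈ V).card ≤
      cc fun a : α => μ + J ≤ g i a ∧ g i a < μ + d := by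
    rw [cc_eq]
    refine card_le_card fun a ha => ?_
    have := (mem_filter.1 ha).2
    simp only [hV, mem_filter, mem_range, mem_univ, true_and] at this ⊢
    omega
  nlinarith

/-- exchange of the state of site `i` with a spare state -/
def HEAT_sw (i : ι) : Equiv.Perm ((ι → α) × α) :=
  Function.Involutive.toPerm (fun p => (Function.update p.1 i p.2, p.1 i)) (by
    rintro ⟨x, a⟩
    simp)

theorem HEAT_first (i : ι) (μ g0 J m : ℕ) (ρ0 q : ℝ) (hμ : g0 ≤ ww g i μ) (hg0 : 1 ≤ g0)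
    (hρ : 0 ≤ ρ0) (hM : (Fintype.card α : ℝ) ≤ ρ0 * g0) (hq : 0 < q) (hq1 : q ≤ 1) :
    (cc fun x : ι → α => tot g f0 x = m ∧ μ + J ≤ g i (x i) : ℝ) ≤
      ρ0 * q ^ J * (ZZ g f0 q / q ^ m) := by
  classical
  set A : ℝ := ∑ x : ι → α, if μ + J ≤ g i (x i) then q ^ tot g f0 x else 0 with hA
  set G : ℝ := ∑ a : α, q ^ g i a with hG
  set T : ℝ := ∑ a : α, if μ + J ≤ g i a then q ^ g i a else 0 with hT
  have h1 : A * G = ZZ g f0 q * T := by
    rw [hA, hG, hT, ZZ, sum_mul_sum, sum_mul_sum, ← Fintype.sum_prod_type',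
      ← Fintype.sum_prod_type', ← Equiv.sum_comp (HEAT_sw (α := α) i)]
    refine sum_congr rfl ?_
    rintro ⟨x, a⟩ -
    simp only [HEAT_sw, Function.Involutive.coe_toPerm, Function.update_self]
    split_ifs
    · rw [← pow_add, ← pow_add, HEAT_tot]
    · simp
  have h2 : T ≤ Fintype.card α * q ^ (μ + J) := by
    have : T ≤ ∑ _a : α, q ^ (μ + J) := sum_le_sum fun a _ => by
      split_ifs with h
      · exact pow_le_pow_of_le_one hq.le hq1 h
      · positivity
    simpa using this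
  have h3 : g0 * q ^ μ ≤ G := by
    have h4 : (g0 : ℝ) ≤ ∑ a : α, if g i a = μ then (1 : ℝ) else 0 := by
      rw [← cc_real]; exact_mod_cast hμ
    calc (g0 : ℝ) * q ^ μ ≤ (∑ a : α, if g i a = μ then (1 : ℝ) else 0) * q ^ μ := by gcongr
      _ ≤ G := by
        rw [sum_mul]
        refine sum_le_sum fun a _ => ?_
        split_ifs with h
        · rw [h, one_mul]
        · rw [zero_mul]; positivity
  have hG0 : 0 < G := lt_of_lt_of_le (by have : (0 : ℝ) < g0 := by exact_mod_cast hg0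
                                         positivity) h3
  have hZ := ZZ_nonneg g f0 hq.le
  have h5 : T ≤ ρ0 * q ^ J * G := by
    calc T ≤ ρ0 * g0 * q ^ (μ + J) := h2.trans (by gcongr)
      _ = ρ0 * q ^ J * (g0 * q ^ μ) := by ring
      _ ≤ _ := by gcongr
  have h6 : A ≤ ρ0 * q ^ J * ZZ g f0 q := by
    refine le_of_mul_le_mul_right ?_ hG0
    rw [h1]
    calc ZZ g f0 q * T ≤ ZZ g f0 q * (ρ0 * q ^ J * G) := by gcongr
      _ = _ := by ring
  have h7 : (cc fun x : ι → α => tot g f0 x = m ∧ μ + J ≤ g i (x i) : ℝ) * q ^ m ≤ A := by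
    rw [cc_real, sum_mul]
    refine sum_le_sum fun x _ => ?_
    by_cases h : tot g f0 x = m ∧ μ + J ≤ g i (x i)
    · rw [if_pos h, if_pos h.2, h.1, one_mul]
    · rw [if_neg h, zero_mul]
      split_ifs <;> positivity
  rw [← mul_div_assoc, le_div_iff₀ (pow_pos hq m)]
  exact h7.trans h6

/-- configurations with exactly `j` hot sites -/
def HEAT_L (μ : ι → ℕ) (J d m j : ℕ) (x : ι → α) : Prop :=
  (∀ i, g i (x i) < μ i + d) ∧ (cc fun i => μ i + J ≤ g i (x i)) = j ∧ tot g f0 x ≤ m + j * d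

/-- exchange on triples -/
def HEAT_sw3 : Equiv.Perm ((ι → α) × ι × α) :=
  Function.Involutive.toPerm (fun p => (Function.update p.1 p.2.1 p.2.2, p.2.1, p.1 p.2.1)) (by
    rintro ⟨x, i, a⟩
    simp)

omit [Fintype α] in
theorem HEAT_up (μ : ι → ℕ) (hμ : ∀ i a, μ i ≤ g i a) (J d m j : ℕ) (x : ι → α) (i : ι) (a : α)
    (hx : HEAT_L g f0 μ J d m j x) (hi : ¬ μ i + J ≤ g i (x i))
    (ha : μ i + J ≤ g i a ∧ g i a < μ i + d) :
    HEAT_L g f0 μ J d m (j + 1) (Function.update x i a) := by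
  classical
  obtain ⟨h1, h2, h3⟩ := hx
  refine ⟨fun k => ?_, ?_, ?_⟩
  · by_cases hk : k = i
    · subst hk; rw [Function.update_self]; exact ha.2
    · rw [Function.update_of_ne hk]; exact h1 k
  · rw [cc_eq] at h2 ⊢
    have : (univ.filter fun k => μ k + J ≤ g k (Function.update x i a k)) =
        insert i (univ.filter fun k => μ k + J ≤ g k (x k)) := by
      ext k
      by_cases hk : k = i
      · subst hk; simp [ha.1]
      · simp [hk]
    rw [this, card_insert_of_notMem (by simpa using hi), h2]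
  · have := HEAT_tot g f0 x i a
    have := hμ i (x i)
    have := ha.2
    rw [add_mul, one_mul]
    omega

theorem HEAT_step (μ : ι → ℕ) (hμ : ∀ i a, μ i ≤ g i a) (g1 J d m j : ℕ)
    (hH : ∀ i, d * g1 ≤ 2 * cc fun a : α => μ i + J ≤ g i a ∧ g i a < μ i + d) :
    (cc (HEAT_L g f0 μ J d m j) : ℝ) * ((Fintype.card ι - j) * (d * g1 / 2)) ≤
      cc (HEAT_L g f0 μ J d m (j + 1)) * ((j + 1) * Fintype.card α) := by
  classical
  set F : (ι → α) × ι × α → ℝ := fun p => if HEAT_L g f0 μ J d m j p.1 ∧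
    ¬ μ p.2.1 + J ≤ g p.2.1 (p.1 p.2.1) ∧ (μ p.2.1 + J ≤ g p.2.1 p.2.2 ∧
      g p.2.1 p.2.2 < μ p.2.1 + d) then 1 else 0 with hF
  set H : (ι → α) × ι × α → ℝ := fun p => if HEAT_L g f0 μ J d m (j + 1) p.1 ∧
    μ p.2.1 + J ≤ g p.2.1 (p.1 p.2.1) then 1 else 0 with hHd
  have h1 : ∑ p, F p ≤ ∑ p, H p := by
    rw [← Equiv.sum_comp HEAT_sw3 H]
    refine sum_le_sum ?_
    rintro ⟨x, i, a⟩ -
    simp only [hF, hHd, HEAT_sw3, Function.Involutive.coe_toPerm, Function.update_self]
    split_ifs with h h'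
    · exact le_rfl
    · exact absurd ⟨HEAT_up g f0 μ hμ J d m j x i a h.1 h.2.1 h.2.2, h.2.2.1⟩ h'
    · exact zero_le_one
    · exact le_rfl
  have h2 : ∑ p, H p = cc (HEAT_L g f0 μ J d m (j + 1)) * ((j + 1) * Fintype.card α) := by
    rw [Fintype.sum_prod_type, cc_real, sum_mul]
    refine sum_congr rfl fun x _ => ?_
    rw [Fintype.sum_prod_type]
    by_cases hx : HEAT_L g f0 μ J d m (j + 1) x
    · have e : ((cc fun i => μ i + J ≤ g i (x i) : ℕ) : ℝ) = j + 1 := by
        rw [hx.2.1]; push_cast; rfl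
      rw [if_pos hx, one_mul, ← e, cc_real, sum_mul]
      refine sum_congr rfl fun i _ => ?_
      simp only [hHd, hx, true_and]
      simp [mul_comm]
    · simp [hHd, hx]
  have h3 : (cc (HEAT_L g f0 μ J d m j) : ℝ) * ((Fintype.card ι - j) * (d * g1 / 2)) ≤
      ∑ p, F p := by
    rw [Fintype.sum_prod_type, cc_real, sum_mul]
    refine sum_le_sum fun x _ => ?_
    rw [Fintype.sum_prod_type]
    by_cases hx : HEAT_L g f0 μ J d m j x
    · have e : (Fintype.card ι - j : ℝ) =
          ∑ i, if ¬ μ i + J ≤ g i (x i) then (1 : ℝ) else 0 := by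
        have e1 := cc_split (fun _ : ι => True) fun i => μ i + J ≤ g i (x i)
        simp only [true_and] at e1
        rw [hx.2.1, cc_eq, filter_true, card_univ] at e1
        rw [← cc_real, e1]
        push_cast
        ring
      rw [if_pos hx, one_mul, e, sum_mul]
      refine sum_le_sum fun i _ => ?_
      by_cases hi : μ i + J ≤ g i (x i)
      · simp [hF, hi]
      · simp only [hF, hx, hi, not_false_eq_true, true_and, if_true, one_mul]
        rw [← cc_real]
        have : ((d * g1 : ℕ) : ℝ) ≤ ((2 * cc fun a : α => μ i + J ≤ g i a ∧ g i a < μ i + d : ℕ) : ℝ) :=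
          Nat.cast_le.2 (hH i)
        push_cast at this
        linarith
    · simp [hF, hx]
  rw [← h2]
  exact h3.trans h1

end

theorem HEAT : St_HEAT := by
  intro ι α _ _ _ g f0 g0 g1 d0 D J d u m ρ0 ρ1 q hL hg0 hg1 hρ0 hρ1 hM0 hM1 hq hq1 hJ hd0 hD hd hu
  classical
  choose μ hμ1 hμ2 hμ3 using hL
  have hH := fun i => HEAT_hi g i (μ i) g1 J d hJ (hμ3 i d hd0 hD)
  set c : ℝ := 4 * u * ρ1 / (Fintype.card ι * d) with hc
  have hc0 : 0 ≤ c := by positivity
  have hstep : ∀ j, j < u → (cc (HEAT_L g f0 μ J d m j) : ℝ) ≤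
      c * cc (HEAT_L g f0 μ J d m (j + 1)) := by
    intro j hj
    have h := HEAT_step g f0 μ hμ1 g1 J d m j hH
    have hr : (2 * u : ℝ) ≤ Fintype.card ι := by exact_mod_cast hu
    have hj' : (j + 1 : ℝ) ≤ u := by exact_mod_cast hj
    have hj0 : (0 : ℝ) ≤ j := Nat.cast_nonneg j
    have hd' : (0 : ℝ) < d := by exact_mod_cast hd
    have hg' : (0 : ℝ) < g1 := by exact_mod_cast hg1
    have hr0 : (0 : ℝ) < Fintype.card ι := by linarith
    have ha : (0 : ℝ) ≤ cc (HEAT_L g f0 μ J d m j) := Nat.cast_nonneg _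
    have hb : (0 : ℝ) ≤ cc (HEAT_L g f0 μ J d m (j + 1)) := Nat.cast_nonneg _
    have h1 : (cc (HEAT_L g f0 μ J d m j) : ℝ) * (Fintype.card ι / 2 * (d * g1 / 2)) ≤
        cc (HEAT_L g f0 μ J d m (j + 1)) * (u * (ρ1 * g1)) := by
      refine le_trans ?_ (h.trans ?_)
      · gcongr; linarith
      · gcongr
    rw [hc, div_mul_eq_mul_div, le_div_iff₀ (by positivity)]
    refine le_of_mul_le_mul_right ?_ (show (0 : ℝ) < g1 / 4 by positivity)
    calc _ = (cc (HEAT_L g f0 μ J d m j) : ℝ) * (Fintype.card ι / 2 * (d * g1 / 2)) := by ring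
      _ ≤ _ := h1
      _ = _ := by ring
  have hit : ∀ j, j ≤ u → (cc (HEAT_L g f0 μ J d m 0) : ℝ) ≤
      c ^ j * cc (HEAT_L g f0 μ J d m j) := by
    intro j
    induction j with
    | zero => intro _; simp
    | succ j ih =>
      intro hj
      refine (ih (by omega)).trans ?_
      rw [pow_succ, mul_assoc]
      exact mul_le_mul_of_nonneg_left (hstep j (by omega)) (pow_nonneg hc0 _)
  have hlast : cc (HEAT_L g f0 μ J d m u) ≤ cb g f0 0 (m + u * d) :=
    cc_mono fun x hx => by simpa using hx.2.2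
  have hsplit : bb g f0 m ≤ (∑ i : ι, cc fun x : ι → α => tot g f0 x = m ∧ μ i + J ≤ g i (x i)) +
      cc (HEAT_L g f0 μ J d m 0) := by
    rw [bb, cc_split _ fun x => ∃ i, μ i + J ≤ g i (x i)]
    refine Nat.add_le_add ?_ (cc_mono ?_)
    · refine le_trans (cc_mono ?_) (cc_exists_le univ _)
      rintro x ⟨h1, i, h2⟩
      exact ⟨i, mem_univ _, h1, h2⟩
    · rintro x ⟨h1, h2⟩
      push Not at h2
      refine ⟨fun i => ?_, cc_eq_zero fun i => not_le.2 (h2 i), by omega⟩
      have := h2 i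
      omega
  have hfirst : ((∑ i : ι, cc fun x : ι → α => tot g f0 x = m ∧ μ i + J ≤ g i (x i) : ℕ) : ℝ) ≤
      Fintype.card ι * ρ0 * q ^ J * (ZZ g f0 q / q ^ m) := by
    push_cast
    refine (sum_le_sum fun i _ => HEAT_first g f0 i (μ i) g0 J m ρ0 q (hμ2 i) hg0 hρ0 hM0 hq
      hq1).trans (le_of_eq ?_)
    rw [sum_const, card_univ, nsmul_eq_mul]
    ring
  have h1 : (bb g f0 m : ℝ) ≤
      ((∑ i : ι, cc fun x : ι → α => tot g f0 x = m ∧ μ i + J ≤ g i (x i) : ℕ) : ℝ) +
      cc (HEAT_L g f0 μ J d m 0) := by exact_mod_cast hsplit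
  have h2 : c ^ u * (cc (HEAT_L g f0 μ J d m u) : ℝ) ≤ c ^ u * cb g f0 0 (m + u * d) :=
    mul_le_mul_of_nonneg_left (by exact_mod_cast hlast) (pow_nonneg hc0 _)
  linarith [hit u le_rfl]

end Pool.Agent.Lib.MP_64bee1_co.UN
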