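import Pool.Agent.Lib.MP_64bee1_co.UN.Stmts

/-!
The high frequency bound for `t ≤ 1`.
-/

namespace Pool.Agent.Lib.MP_64bee1_co.UN

open Finset

theorem HFa_shift (f : ℕ → ℝ) (hf : ∀ x, 0 ≤ f x) {L a N : ℕ} (h : L + a ≤ N) :
    ∑ v ∈ range L, f (v + a) ≤ ∑ x ∈ range N, f x := by
  rw [range_eq_Ico, sum_Ico_add' f 0 L a]
  refine sum_le_sum_of_subset_of_nonneg (fun x hx => ?_) fun x _ _ => hf x
  rw [mem_Ico] at hx
  rw [mem_range]
  omega

open Classical in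
/-- Indicator of a missing position. -/
noncomputable def HFa_m {N : ℕ} (S : Finset (Fin N)) (x : ℕ) : ℝ := if mS S x then 0 else 1

/-- Deficiency of a position. -/
noncomputable def HFa_d {N : ℕ} (S : Finset (Fin N)) (c : Fin N → ℝ) (x : ℕ) : ℝ :=
  if h : x < N then (if (⟨x, h⟩ : Fin N) ∈ S then 1 - c ⟨x, h⟩ else 0) else 0

theorem HFa_m_nonneg {N : ℕ} (S : Finset (Fin N)) (x : ℕ) : 0 ≤ HFa_m S x := by
  unfold HFa_m; split_ifs <;> norm_num

theorem HFa_d_nonneg {N : ℕ} (S : Finset (Fin N)) (c : Fin N → ℝ) (hc : ∀ v, c v ≤ 1) (x : ℕ) :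
    0 ≤ HFa_d S c x := by
  unfold HFa_d
  split_ifs with h1 h2
  · linarith [hc ⟨x, h1⟩]
  · exact le_rfl
  · exact le_rfl

theorem HFa_sum_m {N : ℕ} (S : Finset (Fin N)) :
    ∑ x ∈ range N, HFa_m S x = (N : ℝ) - S.card := by
  classical
  rw [← Fin.sum_univ_eq_sum_range]
  have h1 : ∀ v : Fin N, HFa_m S v = 1 - if v ∈ S then (1 : ℝ) else 0 := by
    intro v
    unfold HFa_m
    have : mS S v ↔ v ∈ S := ⟨fun ⟨_, h⟩ => h, fun h => ⟨v.2, h⟩⟩
    by_cases hv : v ∈ S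
    · rw [if_pos (this.2 hv), if_pos hv]; norm_num
    · rw [if_neg fun h => hv (this.1 h), if_neg hv]; norm_num
  simp only [h1]
  rw [sum_sub_distrib, sum_boole]
  simp

theorem HFa_sum_d {N : ℕ} (S : Finset (Fin N)) (c : Fin N → ℝ) :
    ∑ x ∈ range N, HFa_d S c x = (S.card : ℝ) - ∑ v ∈ S, c v := by
  classical
  rw [← Fin.sum_univ_eq_sum_range]
  have h1 : ∀ v : Fin N, HFa_d S c v = if v ∈ S then 1 - c v else 0 := by
    intro v
    unfold HFa_d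
    rw [dif_pos v.2]
  simp only [h1]
  rw [← sum_filter, filter_mem_eq_inter, univ_inter, sum_sub_distrib]
  simp

theorem HFa_cc {N : ℕ} (S : Finset (Fin N)) (h : ℕ) (f : ℕ → ℕ) :
    ((cc fun s : Fin h => mS S (f s) : ℕ) : ℝ) = h - ∑ s ∈ range h, HFa_m S (f s) := by
  classical
  rw [cc_real, ← Fin.sum_univ_eq_sum_range (fun s => HFa_m S (f s))]
  have h1 : ∀ s : Fin h, (if mS S (f s) then (1 : ℝ) else 0) = 1 - HFa_m S (f s) := by
    intro s
    unfold HFa_m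
    split_ifs <;> norm_num
  simp only [h1]
  rw [sum_sub_distrib]
  simp

/-- The pointwise bound for the pair `v`, `v + h k`. -/
theorem HFa_point (h2 : St_DS) {N k h : ℕ} (hk : 2 ≤ k) (S : Finset (Fin N)) {t : ℝ}
    (ht0 : 0 ≤ t) (ht1 : 1 / 8 ≤ h * t) (ht2 : h * t ≤ 1) (v : ℕ) :
    (h : ℝ) - h * HFa_m S v - h * HFa_m S (v + h * k) -
        ∑ s ∈ range h, HFa_m S (v + (1 + s * k)) - ∑ s ∈ range h, HFa_m S (v + (k - 1 + s * k)) ≤
      300 * h * (HFa_d S (fun u => |Real.cos (dS (Adj N k) S u * t)|) v +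
        HFa_d S (fun u => |Real.cos (dS (Adj N k) S u * t)|) (v + h * k)) := by
  classical
  set c : Fin N → ℝ := fun u => |Real.cos (dS (Adj N k) S u * t)| with hc
  have hc1 : ∀ u, c u ≤ 1 := fun u => Real.abs_cos_le_one _
  have hd1 := HFa_d_nonneg S c hc1 v
  have hd2 := HFa_d_nonneg S c hc1 (v + h * k)
  have hm1 := HFa_m_nonneg S v
  have hm2 := HFa_m_nonneg S (v + h * k)
  have hs1 : 0 ≤ ∑ s ∈ range h, HFa_m S (v + (1 + s * k)) :=
    sum_nonneg fun _ _ => HFa_m_nonneg S _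
  have hs2 : 0 ≤ ∑ s ∈ range h, HFa_m S (v + (k - 1 + s * k)) :=
    sum_nonneg fun _ _ => HFa_m_nonneg S _
  have hh0 : (0 : ℝ) ≤ h := Nat.cast_nonneg h
  have hR : 0 ≤ 300 * (h : ℝ) * (HFa_d S c v + HFa_d S c (v + h * k)) := by positivity
  have hA := mul_nonneg hh0 hm1
  have hB := mul_nonneg hh0 hm2
  by_cases hv1 : mS S v
  swap
  · have : HFa_m S v = 1 := by unfold HFa_m; rw [if_neg hv1]
    rw [this]; linarith
  by_cases hv2 : mS S (v + h * k)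
  swap
  · have : HFa_m S (v + h * k) = 1 := by unfold HFa_m; rw [if_neg hv2]
    rw [this]; linarith
  by_cases hmiss : (h : ℝ) ≤ ∑ s ∈ range h, HFa_m S (v + (1 + s * k)) +
      ∑ s ∈ range h, HFa_m S (v + (k - 1 + s * k))
  · linarith
  obtain ⟨hvN, hvS⟩ := hv1
  obtain ⟨hwN, hwS⟩ := hv2
  have e := h2.1 N k h S ⟨v, hvN⟩ ⟨v + h * k, hwN⟩ hk rfl
  have e1 := HFa_cc S h fun s => v + 1 + s * k
  have e2 := HFa_cc S h fun s => v + (k - 1) + s * k
  simp only [add_assoc] at e1 e2 e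
  set n1 := cc fun s : Fin h => mS S (v + (1 + s * k)) with hn1
  set n2 := cc fun s : Fin h => mS S (v + (k - 1 + s * k)) with hn2
  have eR : ((dS (Adj N k) S ⟨v, hvN⟩ : ℤ) : ℝ) =
      (dS (Adj N k) S ⟨v + h * k, hwN⟩ : ℤ) + ((n1 : ℝ) + n2) := by
    have := congrArg (fun z : ℤ => (z : ℝ)) e
    push_cast at this
    linarith
  have hlo : (h : ℝ) ≤ (n1 : ℝ) + n2 := by rw [e1, e2]; linarith
  have hhi : (n1 : ℝ) + n2 ≤ 2 * h := by rw [e1, e2]; linarith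
  have hθ := h2.2.2 ((dS (Adj N k) S ⟨v + h * k, hwN⟩ : ℤ) * t) (((n1 : ℝ) + n2) * t)
    (by nlinarith) (by nlinarith)
  have d1 : HFa_d S c v = 1 - c ⟨v, hvN⟩ := by
    unfold HFa_d; rw [dif_pos hvN, if_pos hvS]
  have d2 : HFa_d S c (v + h * k) = 1 - c ⟨v + h * k, hwN⟩ := by
    unfold HFa_d; rw [dif_pos hwN, if_pos hwS]
  have c1 : c ⟨v, hvN⟩ = |Real.cos ((dS (Adj N k) S ⟨v + h * k, hwN⟩ : ℤ) * t +
      ((n1 : ℝ) + n2) * t)| := by
    simp only [hc]; rw [eR, add_mul]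
  have c2 : c ⟨v + h * k, hwN⟩ = |Real.cos ((dS (Adj N k) S ⟨v + h * k, hwN⟩ : ℤ) * t)| := rfl
  have hge : 1 / 300 ≤ HFa_d S c v + HFa_d S c (v + h * k) := by
    rw [d1, d2, c1, c2]; linarith
  have := mul_le_mul_of_nonneg_left hge hh0
  nlinarith

/-- The averaged bound over a large set. -/
theorem HFa_avg (h2 : St_DS) {N k h : ℕ} (hk : 2 ≤ k) (hh : 1 ≤ h) (hN : 2 * (h * k) ≤ N)
    (S : Finset (Fin N)) (hS : N - N / 16 < S.card) {t : ℝ}
    (ht0 : 0 ≤ t) (ht1 : 1 / 8 ≤ h * t) (ht2 : h * t ≤ 1) :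
    ∑ v ∈ S, |Real.cos (dS (Adj N k) S v * t)| ≤ (1 - 1 / 2400) * S.card := by
  set c : Fin N → ℝ := fun u => |Real.cos (dS (Adj N k) S u * t)| with hc
  have hc1 : ∀ u, c u ≤ 1 := fun u => Real.abs_cos_le_one _
  set L := N - h * k with hL
  set q : ℝ := (N : ℝ) - S.card with hq
  set D : ℝ := (S.card : ℝ) - ∑ v ∈ S, c v with hD
  have hsum := sum_le_sum (s := range L) fun v _ => HFa_point h2 hk S ht0 ht1 ht2 v
  rw [← mul_sum, sum_add_distrib, sum_sub_distrib, sum_sub_distrib, sum_sub_distrib,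
    sum_sub_distrib, ← mul_sum, ← mul_sum, sum_comm, sum_comm (s := range L)] at hsum
  have hm : ∀ a, a ≤ h * k → ∑ v ∈ range L, HFa_m S (v + a) ≤ q := fun a ha => by
    rw [hq, ← HFa_sum_m]
    exact HFa_shift _ (HFa_m_nonneg S) (by omega)
  have hd : ∀ a, a ≤ h * k → ∑ v ∈ range L, HFa_d S c (v + a) ≤ D := fun a ha => by
    rw [hD, ← HFa_sum_d]
    exact HFa_shift _ (HFa_d_nonneg S c hc1) (by omega)
  have hs : ∀ s ∈ range h, (s + 1) * k ≤ h * k := fun s hs =>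
    Nat.mul_le_mul_right k (mem_range.1 hs)
  have a1 := hm 0 (Nat.zero_le _)
  have a2 := hm (h * k) le_rfl
  have a3 : ∑ s ∈ range h, ∑ v ∈ range L, HFa_m S (v + (1 + s * k)) ≤ h * q := by
    refine (sum_le_sum fun s hs' => hm _ ?_).trans (by simp)
    have := hs s hs'
    rw [add_mul] at this; omega
  have a4 : ∑ s ∈ range h, ∑ v ∈ range L, HFa_m S (v + (k - 1 + s * k)) ≤ h * q := by
    refine (sum_le_sum fun s hs' => hm _ ?_).trans (by simp)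
    have := hs s hs'
    rw [add_mul] at this; omega
  have b1 := hd 0 (Nat.zero_le _)
  have b2 := hd (h * k) le_rfl
  simp only [add_zero] at a1 b1
  have hh0 : (0 : ℝ) < h := by exact_mod_cast hh
  have hLr : (N : ℝ) ≤ 2 * L := by
    have : N ≤ 2 * L := by omega
    exact_mod_cast this
  have hcard : S.card ≤ N := by simpa using card_le_univ S
  have hqr : 16 * q ≤ N := by
    have h1 : 16 * N ≤ N + 16 * S.card := by omega
    have h1' : (16 : ℝ) * N ≤ N + 16 * S.card := by exact_mod_cast h1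
    rw [hq]; linarith
  have hcr : (S.card : ℝ) ≤ N := by exact_mod_cast hcard
  rw [sum_const, card_range, nsmul_eq_mul] at hsum
  have k1 := mul_le_mul_of_nonneg_left a1 hh0.le
  have k2 := mul_le_mul_of_nonneg_left a2 hh0.le
  have k3 := mul_le_mul_of_nonneg_left (add_le_add b1 b2) hh0.le
  have key : h * ((L : ℝ) - 4 * q) ≤ h * (600 * D) := by nlinarith
  have key2 := le_of_mul_le_mul_left key hh0
  change ∑ v ∈ S, c v ≤ _
  linarith

theorem HFa_h {N k : ℕ} (hP : 4 ≤ N / k) {t : ℝ}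
    (ht1 : 1 / (2 * ((N / k + 2 : ℕ) : ℝ)) ≤ t) (ht2 : t ≤ 1) :
    0 < t ∧ ∃ h : ℕ, 1 ≤ h ∧ 2 * (h * k) ≤ N ∧ 1 / 8 ≤ h * t ∧ h * t ≤ 1 := by
  set P := N / k with hPd
  have hpos : (0 : ℝ) < 2 * ((P + 2 : ℕ) : ℝ) := by positivity
  have ht0 : 0 < t := lt_of_lt_of_le (by positivity) ht1
  have hinv : 1 ≤ 1 / t := by rw [le_div_iff₀ ht0]; linarith
  have hf1 : 1 ≤ ⌊1 / t⌋₊ := Nat.le_floor (by simpa using hinv)
  have hf2 : (⌊1 / t⌋₊ : ℝ) ≤ 1 / t := Nat.floor_le (by positivity)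
  have hf3 : 1 / t < ⌊1 / t⌋₊ + 1 := Nat.lt_floor_add_one _
  have hf1r : (1 : ℝ) ≤ ⌊1 / t⌋₊ := by exact_mod_cast hf1
  rw [le_div_iff₀ ht0] at hf2
  rw [div_lt_iff₀ ht0] at hf3
  refine ⟨ht0, min ⌊1 / t⌋₊ (P / 2), by omega, ?_, ?_, ?_⟩
  · have h1 : min ⌊1 / t⌋₊ (P / 2) * k ≤ P / 2 * k := Nat.mul_le_mul_right k (min_le_right _ _)
    have h2 : 2 * (P / 2) * k ≤ P * k := Nat.mul_le_mul_right k (by omega)
    have h3 : P * k ≤ N := Nat.div_mul_le_self N k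
    rw [mul_assoc] at h2
    omega
  · rcases le_total ⌊1 / t⌋₊ (P / 2) with h | h
    · rw [min_eq_left h]; nlinarith
    · rw [min_eq_right h]
      have h1 : P + 2 ≤ 4 * (P / 2) := by omega
      have h1' : ((P + 2 : ℕ) : ℝ) ≤ 4 * ((P / 2 : ℕ) : ℝ) := by exact_mod_cast h1
      rw [div_le_iff₀ hpos] at ht1
      nlinarith
  · have h1 : ((min ⌊1 / t⌋₊ (P / 2) : ℕ) : ℝ) ≤ ⌊1 / t⌋₊ := by exact_mod_cast min_le_left _ _
    nlinarith

theorem HFa (h1 : St_PEEL) (h2 : St_DS) : St_HFa := by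
  refine ⟨1 / 76800, by norm_num, 32, fun N k hN hk hP t ht1 ht2 => ?_⟩
  obtain ⟨ht0, h, hh, hhk, hl, hu⟩ := HFa_h hP ht1 ht2
  have hp := h1 N (N - N / 16) N (fun S v => |Real.cos (dS (Adj N k) S v * t)|) (1 - 1 / 2400)
    (fun _ => True) (fun _ _ => abs_nonneg _) (fun _ _ => Real.abs_cos_le_one _) (by norm_num)
    (Nat.sub_le _ _) le_rfl
    (fun _ _ _ S _ hS => HFa_avg h2 (by omega) hh hhk S hS ht0.le hl hu)
  rw [cc_eq_zero (fun S hS => hS.2 trivial), Nat.cast_zero, zero_mul, add_zero] at hp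
  unfold modF
  simp only [h2.2.1]
  refine hp.trans (mul_le_mul_of_nonneg_right ?_ (Nat.cast_nonneg _))
  have e : N - (N - N / 16) = N / 16 := by omega
  rw [e]
  have a1 : (1 - 1 / 2400 : ℝ) ≤ Real.exp (-(1 / 2400)) := by
    have := Real.add_one_le_exp (-(1 / 2400) : ℝ); linarith
  refine (pow_le_pow_left₀ (by norm_num) a1 _).trans ?_
  rw [← Real.exp_nat_mul, Real.exp_le_exp]
  have a2 : N ≤ 32 * (N / 16) := by omega
  have a3 : (N : ℝ) ≤ 32 * ((N / 16 : ℕ) : ℝ) := by exact_mod_cast a2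
  linarith

end Pool.Agent.Lib.MP_64bee1_co.UN
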