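import Pool.Agent.Lib.MP_64bee1_co.UN.Stmts

/-!
Decay of the modulus sum for frequencies between `1` and `π / 2`.
-/

namespace Pool.Agent.Lib.MP_64bee1_co.UN

open Finset

theorem HFb_div {k x y x' y' : ℕ} (hy : y < k) (hy' : y' < k) (h : x * k + y = x' * k + y') :
    x = x' ∧ y = y' := by
  have h1 : (x * k + y) % k = (x' * k + y') % k := by rw [h]
  rw [Nat.mul_add_mod_of_lt hy, Nat.mul_add_mod_of_lt hy'] at h1
  subst h1
  exact ⟨Nat.eq_of_mul_eq_mul_right (by omega) (Nat.add_right_cancel h), rfl⟩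

/-- row offset of the four points of a block -/
def HFb_a (i : Fin 4) : ℕ := if i = 1 ∨ i = 3 then 1 else 0

/-- column offset of the four points of a block -/
def HFb_c (i : Fin 4) : ℕ := if i = 2 then 2 else if i = 3 then 0 else 1

theorem HFb_a_le (i : Fin 4) : HFb_a i ≤ 1 := by unfold HFb_a; split_ifs <;> omega

theorem HFb_c_le (i : Fin 4) : HFb_c i ≤ 2 := by unfold HFb_c; split_ifs <;> omega

theorem HFb_ac (i j : Fin 4) (h1 : HFb_a i % 2 = HFb_a j % 2) (h2 : HFb_c i % 2 = HFb_c j % 2) :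
    i = j := by
  revert i j
  decide

theorem HFb_blocks (N k : ℕ) (hk : 3 ≤ k) :
    ∃ e : (Fin (N / k / 2) × Fin ((k - 1) / 2)) × Fin 4 → Fin N, Function.Injective e ∧
      ∀ b, (e (b, 1) : ℕ) = e (b, 0) + 1 * k ∧ (e (b, 2) : ℕ) = e (b, 0) + 1 ∧
        (e (b, 3) : ℕ) = e (b, 0) + (k - 1) := by
  have hcol : ∀ (r : Fin ((k - 1) / 2)) (i : Fin 4), 2 * (r : ℕ) + HFb_c i < k := by
    intro r i
    have := r.2
    have := HFb_c_le i
    omega
  have hlt : ∀ p : (Fin (N / k / 2) × Fin ((k - 1) / 2)) × Fin 4,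
      (2 * (p.1.1 : ℕ) + HFb_a p.2) * k + (2 * (p.1.2 : ℕ) + HFb_c p.2) < N := by
    intro p
    have h1 := p.1.1.2
    have h2 := HFb_a_le p.2
    have h3 := hcol p.1.2 p.2
    have h4 : 2 * (p.1.1 : ℕ) + HFb_a p.2 + 1 ≤ N / k := by omega
    have h5 := Nat.mul_le_mul_right k h4
    have h6 := Nat.div_mul_le_self N k
    rw [add_mul, one_mul] at h5
    omega
  refine ⟨fun p => ⟨_, hlt p⟩, ?_, fun b => ?_⟩
  · rintro ⟨⟨ρ, r⟩, i⟩ ⟨⟨ρ', r'⟩, j⟩ h
    obtain ⟨h1, h2⟩ := HFb_div (hcol r i) (hcol r' j) (congrArg Fin.val h)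
    dsimp only at h1 h2
    have hij : i = j := HFb_ac i j (by omega) (by omega)
    subst hij
    have e1 : ρ = ρ' := Fin.ext (by omega)
    have e2 : r = r' := Fin.ext (by omega)
    rw [e1, e2]
  · have a0 : HFb_a 0 = 0 := by decide
    have a1 : HFb_a 1 = 1 := by decide
    have a2 : HFb_a 2 = 0 := by decide
    have a3 : HFb_a 3 = 1 := by decide
    have c0 : HFb_c 0 = 1 := by decide
    have c1 : HFb_c 1 = 1 := by decide
    have c2 : HFb_c 2 = 2 := by decide
    have c3 : HFb_c 3 = 0 := by decide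
    simp only [a0, a1, a2, a3, c0, c1, c2, c3, add_mul, add_zero]
    omega

section
variable {V B : Type} [Fintype V] [DecidableEq V] [Fintype B] (e : B × Fin 4 → V)

/-- good blocks -/
def HFb_G (S : Finset V) (b : B) : Prop :=
  e (b, 0) ∈ S ∧ e (b, 1) ∈ S ∧ e (b, 2) ∈ S ∧ e (b, 3) ∉ S

omit [Fintype V] in
theorem HFb_loss (he : Function.Injective e) {S S0 : Finset V} (hS : S ⊆ S0) :
    cc (HFb_G e S0) ≤ cc (HFb_G e S) + (S0 \ S).card := by
  classical
  have h1 : cc (HFb_G e S0) ≤ cc fun b => HFb_G e S b ∨ ∃ i, e (b, i) ∈ S0 \ S := by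
    refine cc_mono fun b hb => ?_
    by_contra hn
    rw [not_or, not_exists] at hn
    obtain ⟨g0, g1, g2, g3⟩ := hb
    have key : ∀ i, e (b, i) ∈ S0 → e (b, i) ∈ S := fun i hi => by
      by_contra h
      exact hn.2 i (mem_sdiff.2 ⟨hi, h⟩)
    exact hn.1 ⟨key 0 g0, key 1 g1, key 2 g2, fun h => g3 (hS h)⟩
  refine h1.trans ((cc_or_le _ _).trans (Nat.add_le_add_left ?_ _))
  rw [cc_eq]
  calc (univ.filter fun b => ∃ i, e (b, i) ∈ S0 \ S).card
      ≤ ((univ.filter fun p : B × Fin 4 => e p ∈ S0 \ S).image Prod.fst).card := by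
        refine card_le_card fun b hb => ?_
        obtain ⟨i, hi⟩ := (mem_filter.1 hb).2
        exact mem_image.2 ⟨(b, i), mem_filter.2 ⟨mem_univ _, hi⟩, rfl⟩
    _ ≤ (univ.filter fun p : B × Fin 4 => e p ∈ S0 \ S).card := card_image_le
    _ ≤ (S0 \ S).card :=
        card_le_card_of_injOn e (fun p hp => (mem_filter.1 hp).2) he.injOn

omit [Fintype V] in
theorem HFb_sum (he : Function.Injective e) (S : Finset V) (c : V → ℝ) (hc : ∀ v, c v ≤ 1)
    (hg : ∀ b, HFb_G e S b → c (e (b, 0)) + c (e (b, 1)) ≤ 2 - 1 / 300) :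
    ∑ v ∈ S, c v ≤ S.card - (cc (HFb_G e S) : ℝ) / 300 := by
  classical
  have h1 : ∑ v ∈ ((univ.filter (HFb_G e S)) ×ˢ ({0, 1} : Finset (Fin 4))).image e, (1 - c v) ≤
      ∑ v ∈ S, (1 - c v) := by
    refine sum_le_sum_of_subset_of_nonneg (fun v hv => ?_) fun v _ _ => sub_nonneg.2 (hc v)
    obtain ⟨⟨b, i⟩, hp, rfl⟩ := mem_image.1 hv
    obtain ⟨hb, hi⟩ := mem_product.1 hp
    have hb' := (mem_filter.1 hb).2
    rcases mem_insert.1 hi with h | h
    · dsimp only at h; rw [h]; exact hb'.1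
    · have h' := mem_singleton.1 h
      dsimp only at h'; rw [h']; exact hb'.2.1
  rw [sum_image he.injOn, sum_product] at h1
  have h2 : ∑ b ∈ univ.filter (HFb_G e S), (1 / 300 : ℝ) ≤
      ∑ b ∈ univ.filter (HFb_G e S), ∑ i ∈ ({0, 1} : Finset (Fin 4)), (1 - c (e (b, i))) := by
    refine sum_le_sum fun b hb => ?_
    have h3 := hg b (mem_filter.1 hb).2
    rw [sum_pair (by decide)]
    linarith
  rw [sum_const, nsmul_eq_mul, ← cc_eq] at h2
  rw [sum_sub_distrib, sum_const, nsmul_eq_mul, mul_one] at h1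
  linarith

end

theorem HFb_mid (N : ℕ) : 2 ^ N * ((N / 2).factorial * (N - N / 2).factorial) ≤
    (N + 1) * N.factorial := by
  have h1 : 2 ^ N ≤ (N + 1) * N.choose (N / 2) := by
    rw [← Nat.sum_range_choose]
    refine (sum_le_card_nsmul _ _ (N.choose (N / 2)) fun i _ => Nat.choose_le_middle i N).trans ?_
    simp
  have h2 := Nat.choose_mul_factorial_mul_factorial (Nat.div_le_self N 2)
  calc 2 ^ N * ((N / 2).factorial * (N - N / 2).factorial)
      ≤ (N + 1) * N.choose (N / 2) * ((N / 2).factorial * (N - N / 2).factorial) :=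
        Nat.mul_le_mul_right _ h1
    _ = (N + 1) * (N.choose (N / 2) * (N / 2).factorial * (N - N / 2).factorial) := by ring
    _ = (N + 1) * N.factorial := by rw [h2]

theorem HFb_num (N b : ℕ) (hN : 2000000000000 ≤ N) (hb : N ≤ 12 * b) :
    (1 - 1 / 460800 : ℝ) ^ (b / 128) + (N + 1) * Real.exp (-(b : ℝ) / 50) ≤
      Real.exp (-(1 / 1415577600 * N)) := by
  have hN' : (2000000000000 : ℝ) ≤ N := by exact_mod_cast hN
  have hb' : (N : ℝ) ≤ 12 * b := by exact_mod_cast hb
  have hD : (b : ℝ) ≤ 128 * ((b / 128 : ℕ) : ℝ) + 128 := by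
    have : b ≤ 128 * (b / 128) + 128 := by omega
    exact_mod_cast this
  set x : ℝ := 1 / 1415577600 * N with hx
  have h1 : (1 - 1 / 460800 : ℝ) ^ (b / 128) ≤ Real.exp (1 - 2 * x) := by
    calc (1 - 1 / 460800 : ℝ) ^ (b / 128) ≤ Real.exp (-(1 / 460800)) ^ (b / 128) := by
          refine pow_le_pow_left₀ (by norm_num) ?_ _
          have := Real.add_one_le_exp (-(1 / 460800) : ℝ)
          linarith
      _ = Real.exp (((b / 128 : ℕ) : ℝ) * -(1 / 460800)) := (Real.exp_nat_mul _ _).symm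
      _ ≤ Real.exp (1 - 2 * x) := Real.exp_le_exp.2 (by linarith)
  have h2 : ((N : ℝ) + 1) * Real.exp (-(b : ℝ) / 50) ≤ 1200 * Real.exp (-(2 * x)) := by
    have a1 : (N : ℝ) + 1 ≤ 1200 * Real.exp (N / 1200) := by
      have := Real.add_one_le_exp ((N : ℝ) / 1200)
      linarith
    calc ((N : ℝ) + 1) * Real.exp (-(b : ℝ) / 50)
        ≤ 1200 * Real.exp (N / 1200) * Real.exp (-(b : ℝ) / 50) :=
          mul_le_mul_of_nonneg_right a1 (Real.exp_pos _).le
      _ = 1200 * Real.exp (N / 1200 + -(b : ℝ) / 50) := by rw [Real.exp_add, mul_assoc]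
      _ ≤ 1200 * Real.exp (-(2 * x)) :=
          mul_le_mul_of_nonneg_left (Real.exp_le_exp.2 (by linarith)) (by norm_num)
  have h3 : Real.exp (1 - 2 * x) ≤ 3 * Real.exp (-(2 * x)) := by
    rw [sub_eq_add_neg, Real.exp_add]
    refine mul_le_mul_of_nonneg_right ?_ (Real.exp_pos _).le
    have := Real.exp_one_lt_d9
    linarith
  have h4 : 1203 * Real.exp (-(2 * x)) ≤ Real.exp (-x) := by
    have a1 : (1203 : ℝ) ≤ Real.exp x := by
      have := Real.add_one_le_exp x
      linarith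
    calc 1203 * Real.exp (-(2 * x)) ≤ Real.exp x * Real.exp (-(2 * x)) :=
          mul_le_mul_of_nonneg_right a1 (Real.exp_pos _).le
      _ = Real.exp (-x) := by rw [← Real.exp_add]; ring_nf
  linarith

theorem HFb_one (Q : Fin 1 → Prop) (h : Q 0) : cc Q = 1 := by
  classical
  rw [cc_eq, filter_true_of_mem fun s _ => Subsingleton.elim 0 s ▸ h]
  simp

theorem HFb (h1 : St_PEEL) (h2 : St_DS) (h3 : St_BLK) : St_HFb := by
  classical
  refine ⟨1 / 1415577600, by norm_num, 2000000000000, fun N k hN hk hP t ht1 ht2 => ?_⟩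
  obtain ⟨e, he, hrel⟩ := HFb_blocks N k hk
  obtain ⟨d1, d2, d3⟩ := h2
  set b : ℕ := Fintype.card (Fin (N / k / 2) × Fin ((k - 1) / 2)) with hbdef
  have hb4 : 4 * b ≤ N := by
    have h := Fintype.card_le_of_injective e he
    rw [Fintype.card_prod, Fintype.card_fin, Fintype.card_fin] at h
    omega
  have hb12 : N ≤ 12 * b := by
    rw [hbdef, Fintype.card_prod, Fintype.card_fin, Fintype.card_fin]
    have a1 : N / k + 1 ≤ 3 * (N / k / 2) := by omega
    have a2 : k ≤ 4 * ((k - 1) / 2) := by omega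
    have a3 : N < (N / k + 1) * k := by
      have := Nat.lt_div_mul_add (a := N) (b := k) (by omega)
      rw [add_mul, one_mul]; exact this
    have a4 := Nat.mul_le_mul a1 a2
    nlinarith
  have ht3 : t ≤ 2 := by have := Real.pi_le_four; linarith
  have hpair : ∀ S b, HFb_G e S b → |Real.cos (dS (Adj N k) S (e (b, 0)) * t)| +
      |Real.cos (dS (Adj N k) S (e (b, 1)) * t)| ≤ 2 - 1 / 300 := by
    intro S b hb
    obtain ⟨r1, r2, r3⟩ := hrel b
    have h := d1 N k 1 S (e (b, 0)) (e (b, 1)) (by omega) r1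
    rw [HFb_one, cc_eq_zero] at h
    · have h' : (dS (Adj N k) S (e (b, 0)) : ℝ) = dS (Adj N k) S (e (b, 1)) + 1 := by
        have : dS (Adj N k) S (e (b, 0)) = dS (Adj N k) S (e (b, 1)) + 1 := by
          push_cast at h; omega
        exact_mod_cast this
      have h4 := d3 (dS (Adj N k) S (e (b, 1)) * t) t (by linarith) ht3
      rw [h', add_mul, one_mul]
      linarith
    · rintro s ⟨hs, hm⟩
      refine hb.2.2.2 ?_
      have e3 : e (b, 3) = ⟨_, hs⟩ := Fin.ext (by
        have := s.2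
        have h0 : (s : ℕ) = 0 := by omega
        simp only [r3, h0, zero_mul, add_zero])
      rw [e3]; exact hm
    · have hs : (e (b, 0) : ℕ) + 1 + ((0 : Fin 1) : ℕ) * k < N := by
        have := (e (b, 2)).2
        simp only [Fin.val_zero, zero_mul, add_zero]
        omega
      refine ⟨hs, ?_⟩
      have e2 : (⟨_, hs⟩ : Fin N) = e (b, 2) := Fin.ext (by
        simp only [r2, Fin.val_zero, zero_mul, add_zero])
      rw [e2]; exact hb.2.2.1
  have key := h1 N (N / 2 - b / 128) (N / 2) (fun S v => |Real.cos (dS (Adj N k) S v * t)|)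
    (1 - 1 / 460800) (fun S0 => b ≤ 64 * cc (HFb_G e S0)) (fun _ _ => abs_nonneg _)
    (fun _ _ => Real.abs_cos_le_one _) (by norm_num) (Nat.sub_le _ _) (Nat.div_le_self _ _)
    (fun S0 hc hG S hS hj => by
      have a1 := HFb_loss e he hS
      have a2 := card_sdiff_add_card_eq_card hS
      have a3 : b ≤ 128 * cc (HFb_G e S) := by omega
      have a4 : S.card ≤ N := by simpa using card_le_univ S
      have a5 := HFb_sum e he S (fun v => |Real.cos (dS (Adj N k) S v * t)|)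
        (fun _ => Real.abs_cos_le_one _) (hpair S)
      have a6 : (S.card : ℝ) ≤ 1536 * (cc (HFb_G e S) : ℕ) := by
        have : S.card ≤ 1536 * cc (HFb_G e S) := by omega
        exact_mod_cast this
      linarith)
  have e0 : modF (Adj N k) t = ∑ π : Equiv.Perm (Fin N), ∏ v,
      |Real.cos (dS (Adj N k) (univ.filter fun u => π u ≤ π v) v * t)| := by
    unfold modF
    simp only [d2]
  have e1 : N / 2 - (N / 2 - b / 128) = b / 128 := by omega
  have hbad : ((cc fun S0 : Finset (Fin N) => S0.card = N / 2 ∧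
      ¬ b ≤ 64 * cc (HFb_G e S0) : ℕ) : ℝ) ≤ 2 ^ N * Real.exp (-(b : ℝ) / 50) := by
    have h := h3 (Fin N) _ e he
    rw [Fintype.card_fin] at h
    refine le_trans ?_ h
    exact Nat.cast_le.2 (cc_mono fun S0 hS0 => not_le.1 hS0.2)
  have hmid : (2 : ℝ) ^ N * (((N / 2).factorial * (N - N / 2).factorial : ℕ) : ℝ) ≤
      (N + 1) * N.factorial := by exact_mod_cast HFb_mid N
  have hnum := HFb_num N b hN hb12
  rw [e1] at key
  rw [e0]
  refine key.trans ?_
  have hE := (Real.exp_pos (-(b : ℝ) / 50)).le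
  calc _ ≤ (1 - 1 / 460800 : ℝ) ^ (b / 128) * N.factorial + 2 ^ N * Real.exp (-(b : ℝ) / 50) *
        (((N / 2).factorial * (N - N / 2).factorial : ℕ) : ℝ) :=
        add_le_add le_rfl (mul_le_mul_of_nonneg_right hbad (Nat.cast_nonneg _))
    _ = (1 - 1 / 460800 : ℝ) ^ (b / 128) * N.factorial + Real.exp (-(b : ℝ) / 50) *
        (2 ^ N * (((N / 2).factorial * (N - N / 2).factorial : ℕ) : ℝ)) := by ring
    _ ≤ (1 - 1 / 460800 : ℝ) ^ (b / 128) * N.factorial + Real.exp (-(b : ℝ) / 50) *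
        ((N + 1) * N.factorial) := add_le_add le_rfl (mul_le_mul_of_nonneg_left hmid hE)
    _ = ((1 - 1 / 460800 : ℝ) ^ (b / 128) + (N + 1) * Real.exp (-(b : ℝ) / 50)) * N.factorial := by
        ring
    _ ≤ _ := mul_le_mul_of_nonneg_right hnum (Nat.cast_nonneg _)

end Pool.Agent.Lib.MP_64bee1_co.UN
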