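import Pool.Agent.Lib.MP_64bee1_co.UN.Stmts

/-!
A hybrid argument: the variance of an indicator of a sum of independent concentrated variables.
-/

namespace Pool.Agent.Lib.MP_64bee1_co.UN

open Finset Polynomial

/-- Sum of the first coefficients. -/
noncomputable def HYB_cdf (A : ℝ[X]) (t : ℕ) : ℝ := ∑ j ∈ range t, A.coeff j

theorem HYB_mono {A : ℝ[X]} (hA : Nn A) {a b : ℕ} (h : a ≤ b) : HYB_cdf A a ≤ HYB_cdf A b :=
  sum_le_sum_of_subset_of_nonneg (range_mono h) fun j _ _ => hA j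

theorem HYB_nonneg {A : ℝ[X]} (hA : Nn A) (a : ℕ) : 0 ≤ HYB_cdf A a :=
  sum_nonneg fun j _ => hA j

theorem HYB_total {A : ℝ[X]} (h1 : A.eval 1 = 1) {n : ℕ} (hn : A.natDegree < n) :
    HYB_cdf A n = 1 := by
  rw [eval_eq_sum_range' hn] at h1
  simpa [HYB_cdf] using h1

theorem HYB_le_one {A : ℝ[X]} (hA : Nn A) (h1 : A.eval 1 = 1) (a : ℕ) : HYB_cdf A a ≤ 1 := by
  rw [← HYB_total h1 (n := A.natDegree + 1 + a) (by omega)]
  exact HYB_mono hA (by omega)

theorem HYB_shift (A : ℝ[X]) (y t : ℕ) : HYB_cdf (X ^ y * A) t = HYB_cdf A (t - y) := by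
  unfold HYB_cdf
  induction t with
  | zero => simp
  | succ t ih =>
    rw [sum_range_succ, ih, coeff_X_pow_mul']
    split_ifs with h
    · rw [show t + 1 - y = t - y + 1 by omega, sum_range_succ]
    · rw [show t + 1 - y = t - y by omega, add_zero]

theorem HYB_mul (Y A : ℝ[X]) {n : ℕ} (hn : Y.natDegree < n) (t : ℕ) :
    HYB_cdf (Y * A) t = ∑ y ∈ range n, Y.coeff y * HYB_cdf A (t - y) := by
  have h : Y * A = ∑ y ∈ range n, C (Y.coeff y) * (X ^ y * A) := by
    conv_lhs => rw [Y.as_sum_range' n hn, sum_mul]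
    refine sum_congr rfl fun y _ => ?_
    rw [← C_mul_X_pow_eq_monomial, mul_assoc]
  rw [h]
  simp only [← HYB_shift]
  unfold HYB_cdf
  simp only [finsetSum_coeff, coeff_C_mul, mul_sum]
  exact sum_comm

theorem HYB_term {a b d c e : ℝ} (ha : a ≤ 1) (hb0 : 0 ≤ b) (hb : b ≤ 1) (hda : d ≤ a)
    (hc : b * (1 - b) ≤ c) (he : (e = 0 ∧ d ≤ b) ∨ e = 1) : a * (1 - b) ≤ (a - d) + e + c := by
  have h0 : 0 ≤ b * (1 - b) := mul_nonneg hb0 (by linarith)
  rcases he with ⟨rfl, hdb⟩ | rfl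
  · have h1 : (a - b) * (1 - b) ≤ (a - d) * (1 - b) :=
      mul_le_mul_of_nonneg_right (by linarith) (by linarith)
    have h2 : (a - d) * (1 - b) ≤ a - d := mul_le_of_le_one_right (by linarith) (by linarith)
    nlinarith
  · have h1 : a * (1 - b) ≤ 1 * (1 - b) := mul_le_mul_of_nonneg_right ha (by linarith)
    nlinarith

theorem HYB_step (w L : ℕ → ℝ) (n μ J t : ℕ) (τ c : ℝ) (hn : μ + J ≤ n) (hw : ∀ y, 0 ≤ w y)
    (hw1 : ∑ y ∈ range n, w y = 1) (hw0 : ∀ v < μ, w v = 0)
    (hwt : 1 - τ ≤ ∑ v ∈ range (μ + J), w v) (hL : ∀ a b, a ≤ b → L a ≤ L b)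
    (hL0 : ∀ a, 0 ≤ L a) (hL1 : ∀ a, L a ≤ 1)
    (ih : ∀ a, L a * (1 - L a) ≤ c * (L a - L (a - J) + τ)) :
    (∑ y ∈ range n, w y * L (t - y)) * (1 - ∑ y ∈ range n, w y * L (t - y)) ≤
      (c + 1) * (∑ y ∈ range n, w y * L (t - y) - ∑ y ∈ range n, w y * L (t - J - y) + τ) := by
  have e1 : 1 - ∑ y ∈ range n, w y * L (t - y) = ∑ y ∈ range n, w y * (1 - L (t - y)) := by
    simp only [mul_sub, mul_one, sum_sub_distrib, hw1]
  have key : ∀ y ∈ range n, ∀ z ∈ range n, w y * L (t - y) * (w z * (1 - L (t - z))) ≤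
      w y * (L (t - y) - L (t - J - y)) * w z + w y * (w z * if z < μ + J then 0 else 1) +
        w y * (w z * (c * (L (t - z) - L (t - J - z) + τ))) := by
    intro y _ z _
    by_cases hy : y < μ
    · rw [hw0 y hy]; simp
    have h := HYB_term (a := L (t - y)) (b := L (t - z)) (d := L (t - J - y))
      (c := c * (L (t - z) - L (t - J - z) + τ)) (e := if z < μ + J then 0 else 1)
      (hL1 _) (hL0 _) (hL1 _) (hL _ _ (by omega))
      (by have := ih (t - z); rwa [show t - z - J = t - J - z by omega] at this)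
      (by
        split_ifs with hz
        · exact Or.inl ⟨rfl, hL _ _ (by omega)⟩
        · exact Or.inr rfl)
    have h2 := mul_le_mul_of_nonneg_left h (mul_nonneg (hw y) (hw z))
    linarith
  have tail : ∑ z ∈ range n, (w z * if z < μ + J then (0 : ℝ) else 1) ≤ τ := by
    have h1 : ∑ z ∈ range n, (w z * if z < μ + J then (0 : ℝ) else 1) =
        ∑ z ∈ range n, w z - ∑ z ∈ range n, (if z < μ + J then w z else 0) := by
      rw [← sum_sub_distrib]
      refine sum_congr rfl fun z _ => ?_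
      split_ifs <;> simp
    have h2 : ∑ z ∈ range n, (if z < μ + J then w z else 0) = ∑ v ∈ range (μ + J), w v := by
      rw [← sum_filter]
      refine sum_congr ?_ fun _ _ => rfl
      ext z
      simp only [mem_filter, mem_range]
      omega
    rw [h1, h2, hw1]
    linarith
  rw [e1, sum_mul_sum]
  refine (sum_le_sum fun y hy => sum_le_sum fun z hz => key y hy z hz).trans ?_
  simp only [sum_add_distrib, ← mul_sum, ← sum_mul, hw1, mul_one, one_mul]
  have e2 : ∑ y ∈ range n, w y * (L (t - y) - L (t - J - y)) =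
      ∑ y ∈ range n, w y * L (t - y) - ∑ y ∈ range n, w y * L (t - J - y) := by
    simp only [mul_sub, sum_sub_distrib]
  have e3 : ∑ z ∈ range n, w z * (c * (L (t - z) - L (t - J - z) + τ)) =
      c * (∑ y ∈ range n, w y * (L (t - y) - L (t - J - y)) + (∑ y ∈ range n, w y) * τ) := by
    rw [sum_mul, ← sum_add_distrib, mul_sum]
    exact sum_congr rfl fun z _ => by ring
  rw [e3, e2, hw1]
  linarith

theorem HYB : St_HYB := by
  classical
  intro ι s Y μ J τ _ hN h1 h0 ht
  change ∀ t, HYB_cdf (∏ i ∈ s, Y i) t * (1 - HYB_cdf (∏ i ∈ s, Y i) t) ≤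
    s.card * (HYB_cdf (∏ i ∈ s, Y i) t - HYB_cdf (∏ i ∈ s, Y i) (t - J) + τ)
  induction s using Finset.induction_on with
  | empty =>
    intro t
    rw [prod_empty, card_empty, Nat.cast_zero, zero_mul]
    rcases Nat.eq_zero_or_pos t with rfl | h
    · simp [HYB_cdf]
    · rw [HYB_total (A := 1) (by simp) (by simpa using h)]; simp
  | insert i s hi ih =>
    intro t
    have hi' := mem_insert_self i s
    have hA : Nn (∏ j ∈ s, Y j) := nn_prod _ _ fun j hj => hN j (mem_insert_of_mem hj)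
    have hA1 : (∏ j ∈ s, Y j).eval 1 = 1 := by
      rw [eval_prod]; exact prod_eq_one fun j hj => h1 j (mem_insert_of_mem hj)
    have hn : (Y i).natDegree < (Y i).natDegree + 1 + (μ i + J) := by omega
    rw [prod_insert hi, card_insert_of_notMem hi, HYB_mul _ _ hn, HYB_mul _ _ hn, Nat.cast_succ]
    exact HYB_step (Y i).coeff (HYB_cdf (∏ j ∈ s, Y j)) _ (μ i) J t τ s.card (by omega) (hN i hi')
      (HYB_total (h1 i hi') hn) (h0 i hi') (ht i hi') (fun a b h => HYB_mono hA h)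
      (HYB_nonneg hA) (HYB_le_one hA hA1)
      (ih (fun j hj => hN j (mem_insert_of_mem hj)) (fun j hj => h1 j (mem_insert_of_mem hj))
        (fun j hj => h0 j (mem_insert_of_mem hj)) (fun j hj => ht j (mem_insert_of_mem hj)))

end Pool.Agent.Lib.MP_64bee1_co.UN
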