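import Pool.Agent.Lib.MP_64bee1_co.UN.Stmts

/-!
Transfer of an inequality between level counts from product environments to permutations.
-/

namespace Pool.Agent.Lib.MP_64bee1_co.UN

open Finset Polynomial

theorem LIFT (h1 : St_GLUE) (h2 : St_CNT) : St_LIFT := by
  intro N A _ R m s m' ξ b e1 Λ γ hA hR hξ he1 hΛ hγ H
  refine le_of_forall_pos_le_add fun ε hε => ?_
  have hK : 0 < (1 + ξ) * (1 + e1 + Λ + γ) + 1 := by positivity
  obtain ⟨δ, hδ, hδε⟩ : ∃ δ : ℝ, 0 < δ ∧ ((1 + ξ) * (1 + e1 + Λ + γ) + 1) * δ = ε :=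
    ⟨ε / _, div_pos hε hK, mul_div_cancel₀ _ hK.ne'⟩
  obtain ⟨M, hNM, hM, hsep, Bad, hbad, hall⟩ := H δ hδ
  obtain ⟨g1, g2, -⟩ := h1 N M A R hA hR
  obtain ⟨-, c2, -⟩ := h2 N M A
  have hW : (0 : ℝ) < (M : ℝ) ^ R.card := by positivity
  have hC : (0 : ℝ) < M.choose N := by exact_mod_cast Nat.choose_pos hNM
  have key : ∀ Q : ℕ → (Fin N → Fin M) → Prop,
      ∑ e : Fin N → Fin M, ((cc fun x : R → Fin M =>
        Q (tot (gR A R e) (fz A R e) x) (glue R e x) : ℕ) : ℝ) =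
        (M : ℝ) ^ R.card * (cc fun X => Q (ivf A X) X : ℕ) := by
    intro Q
    have := g2 fun X => Q (ivf A X) X
    simp only [fun e x => (g1 e x).1] at this
    exact_mod_cast this
  have s1 := key fun t _ => t = m
  have s2 := key fun t X => t = m ∧ Bad X
  have s3 := key fun t _ => t + 0 ≤ m
  have s4 := key fun t _ => t + s ≤ m
  have s5 := key fun t _ => t + 0 ≤ m'
  have s6 := key fun t _ => t = m + 1
  have hsum := sum_le_sum fun e (_ : e ∈ (univ : Finset (Fin N → Fin M))) => hall e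
  simp only [← mul_sum, sum_sub_distrib, bb, cb] at hsum
  rw [s1, s2, s3, s4, s5, s6] at hsum
  have a1 : (M.choose N : ℝ) * cnt A m ≤ (cc fun X : Fin N → Fin M => ivf A X = m : ℕ) := by
    rw [cnt_eq_cc]; exact_mod_cast (c2 fun t => t = m).1
  have up : ∀ Q : ℕ → Prop, ((cc fun X : Fin N → Fin M => Q (ivf A X) : ℕ) : ℝ) ≤
      M.choose N * (cc fun w : Equiv.Perm (Fin N) => Q (iv A w) : ℕ) + δ * M.choose N := by
    intro Q
    have : ((cc fun X : Fin N → Fin M => Q (ivf A X) : ℕ) : ℝ) ≤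
        M.choose N * (cc fun w : Equiv.Perm (Fin N) => Q (iv A w) : ℕ) +
          (cc fun X : Fin N → Fin M => ¬ Sep 1 X : ℕ) := by exact_mod_cast (c2 Q).2
    linarith
  have a3 := mul_le_mul_of_nonneg_left (up fun t => t + 0 ≤ m) he1
  have a4 := mul_le_mul_of_nonneg_left (up fun t => t + s ≤ m) hΛ
  have a5 := mul_le_mul_of_nonneg_left (up fun t => t + 0 ≤ m') hγ
  have a6 := up fun t => t = m + 1
  rw [← cnt_eq_cc] at a6
  unfold cum
  generalize ((cc fun X : Fin N → Fin M => ivf A X = m : ℕ) : ℝ) = x1 at *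
  generalize ((cc fun X : Fin N → Fin M => ivf A X = m ∧ Bad X : ℕ) : ℝ) = x2 at *
  generalize ((cc fun X : Fin N → Fin M => ivf A X + 0 ≤ m : ℕ) : ℝ) = x3 at *
  generalize ((cc fun X : Fin N → Fin M => ivf A X + s ≤ m : ℕ) : ℝ) = x4 at *
  generalize ((cc fun X : Fin N → Fin M => ivf A X + 0 ≤ m' : ℕ) : ℝ) = x5 at *
  generalize ((cc fun X : Fin N → Fin M => ivf A X = m + 1 : ℕ) : ℝ) = x6 at *
  generalize ((cc fun w : Equiv.Perm (Fin N) => iv A w + 0 ≤ m : ℕ) : ℝ) = y3 at *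
  generalize ((cc fun w : Equiv.Perm (Fin N) => iv A w + s ≤ m : ℕ) : ℝ) = y4 at *
  generalize ((cc fun w : Equiv.Perm (Fin N) => iv A w + 0 ≤ m' : ℕ) : ℝ) = y5 at *
  generalize (cnt A m : ℝ) = y1 at *
  generalize (cnt A (m + 1) : ℝ) = y6 at *
  generalize (M.choose N : ℝ) = C at *
  generalize (M : ℝ) ^ R.card = W at *
  have b1 : (1 + ξ) * (x1 - x2 - e1 * x3 - Λ * x4 - γ * x5) ≤ x6 :=
    le_of_mul_le_mul_left (by linarith) hW
  have b2 : C * (y1 - b - e1 * y3 - Λ * y4 - γ * y5 - (1 + e1 + Λ + γ) * δ) ≤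
      x1 - x2 - e1 * x3 - Λ * x4 - γ * x5 := by linarith
  have b3 := mul_le_mul_of_nonneg_left b2 (by positivity : 0 ≤ 1 + ξ)
  refine le_of_mul_le_mul_left ?_ hC
  rw [← hδε]
  linarith

end Pool.Agent.Lib.MP_64bee1_co.UN
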