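import Pool.Agent.Lib.MP_64bee1_co.UN.Stmts

/-!
The one step inequality in the warm and hot regimes.
-/

namespace Pool.Agent.Lib.MP_64bee1_co.UN

open Finset

theorem MAIN1_good {ξ b c x y z t : ℝ} (hξ : 0 ≤ ξ) (hc : 0 ≤ c)
    (h : (1 + ξ) * (b - x - y - z) ≤ t) : (1 + ξ) * (b - c - x - y - z) ≤ t :=
  le_trans (mul_le_mul_of_nonneg_left (by linarith only [hc]) (by linarith only [hξ])) h

theorem MAIN1_bad {ξ b x y z t : ℝ} (hξ : 0 ≤ ξ) (hx : 0 ≤ x) (hy : 0 ≤ y) (hz : 0 ≤ z)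
    (ht : 0 ≤ t) : (1 + ξ) * (b - b - x - y - z) ≤ t :=
  le_trans (mul_nonpos_of_nonneg_of_nonpos (by linarith only [hξ])
    (by linarith only [hx, hy, hz])) ht

theorem MAIN1 (h1 : St_ENV1) (h2 : St_LIFT) (h3 : St_GOOD) (h4 : St_CNT) (h5 : St_NSEP)
    (h6 : St_GLUE) : St_MAIN1 := by
  intro N A _ R d0 D a0 l n h s j d u m η ξ e1 hN hA hR hD hd0 hW hj hd hdD hu he
  have he1 : 0 ≤ e1 := le_trans (by positivity) he
  have hξ := hW.xi_nonneg
  have hγ : (0 : ℝ) ≤ (256 * u * N / (R.card * d)) ^ u := by positivity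
  refine h2 N A R m s (m + u * d) ξ _ e1 _ _ hA hR hξ he1 (Real.exp_pos _).le hγ fun δ hδ => ?_
  obtain ⟨M0, hM0⟩ := h5 N 1 δ hδ
  obtain ⟨M', hM'⟩ : ∃ M', M' = M0 + 2 := ⟨_, rfl⟩
  obtain ⟨M, hM⟩ : ∃ M, M = 64 * N ^ 5 * M' := ⟨_, rfl⟩
  have p1 : 1 ≤ M' := by omega
  have p2 : N ≤ N ^ 5 := Nat.le_self_pow (by norm_num) N
  have p3 : 64 * N ^ 5 ≤ M := hM ▸ Nat.le_mul_of_pos_right _ p1
  have p4 : M' ≤ M := hM ▸ Nat.le_mul_of_pos_left _ (by omega)
  have p5 : M = 64 * N * (N ^ 4 * M') := by rw [hM]; ring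
  have p6 : M = N ^ 5 * (64 * M') := by rw [hM]; ring
  have hsep := hM0 M (by omega)
  have hNr : (0 : ℝ) < N := Nat.cast_pos.2 hN
  have hMr : (0 : ℝ) < M' := Nat.cast_pos.2 p1
  have e0 : (2 * (N : ℝ) ^ 2 * ((64 * M' : ℕ) : ℝ) / M) = 2 / N ^ 3 := by
    rw [hM]
    push_cast
    field_simp
  refine ⟨M, by omega, by omega, hsep, fun X => ¬ Good A R (64 * M') (N ^ 4 * M') d0 D X, ?_,
    fun e => ?_⟩
  · have := (h4 N M A).2.2 (fun X => ¬ Good A R (64 * M') (N ^ 4 * M') d0 D X)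
      (2 / N ^ 3 + N ^ 3 * Real.exp (-(d0 : ℝ) / 16)) m fun π _ => by
        rw [← e0]
        exact h3 N M A R _ _ d0 D π hA hD hd0 (by omega) (by omega) p5.ge
    refine this.trans ?_
    rw [add_mul _ δ, mul_right_comm]
    exact add_le_add le_rfl hsep
  · by_cases hg : Good A R (64 * M') (N ^ 4 * M') d0 D e
    · refine MAIN1_good hξ (Nat.cast_nonneg _) ?_
      have q1 : ((Fintype.card (Fin M) : ℕ) : ℝ) ≤ (N : ℝ) ^ 5 * ((64 * M' : ℕ) : ℝ) := by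
        rw [Fintype.card_fin]
        exact_mod_cast p6.le
      have q2 : ((Fintype.card (Fin M) : ℕ) : ℝ) ≤ 64 * N * ((N ^ 4 * M' : ℕ) : ℝ) := by
        rw [Fintype.card_fin]
        exact_mod_cast p5.le
      have := h1 R (Fin M) (gR A R e) (fz A R e) (64 * M') (N ^ 4 * M') d0 D a0 l n h s j d u m η ξ
        ((N : ℝ) ^ 5) (64 * N) e1 (by rwa [Fintype.card_coe]) hg
        (by rw [Fintype.card_fin]; omega) (by omega)
        (Nat.mul_pos (Nat.pow_pos hN) p1) q1 q2 hj hd hdD (hd0.trans hd)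
        (by rwa [Fintype.card_coe]) (by rwa [Fintype.card_coe])
      rw [Fintype.card_coe, show 4 * (u : ℝ) * (64 * N) = 256 * u * N by ring] at this
      exact this
    · have e2 : (cc fun x => tot (gR A R e) (fz A R e) x = m ∧
          ¬ Good A R (64 * M') (N ^ 4 * M') d0 D (glue R e x)) = bb (gR A R e) (fz A R e) m :=
        cc_congr fun x => and_iff_left fun h' => hg ((((h6 N M A R hA hR).1 e x).2.1 _ _ _ _).1 h')
      rw [e2]
      exact MAIN1_bad hξ (mul_nonneg he1 (Nat.cast_nonneg _))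
        (mul_nonneg (Real.exp_pos _).le (Nat.cast_nonneg _)) (mul_nonneg hγ (Nat.cast_nonneg _))
        (Nat.cast_nonneg _)

end Pool.Agent.Lib.MP_64bee1_co.UN
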