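import Pool.Agent.Lib.MP_64bee1_co.UN.Stmts

/-!
The one step inequality away from the centre, cold regime with cells.
-/

namespace Pool.Agent.Lib.MP_64bee1_co.UN

open Finset

theorem MAIN2 (h0 : St_GF) (h1 : St_ENV2) (h2 : St_LIFT) (h3 : St_GOOD) (h4 : St_CNT)
    (h5 : St_NSEP) (h6 : St_GLUE) (h7 : St_TYP2) (h8 : St_COIN) : St_MAIN2 := by
  intro N k R d0 D a0 l n h s n' τ ν μ0 m η ξ η' e2 hN hk hI hdeg hd0 hW hη' h32 hξ hτ hμ0 hm
    hR4 h256 he2
  have hA : Asym (Adj N k) := (h0 N k hk).1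
  have hNr : (0 : ℝ) < N := by exact_mod_cast hN
  have he0 : 0 ≤ e2 := le_trans (by positivity) he2
  have hξ0 : 0 ≤ ξ := hW.xi_nonneg
  have hD : 1 ≤ D := by omega
  have key := h2 N (Adj N k) R m s 0 ξ
    ((2 / N ^ 3 + N ^ 3 * Real.exp (-(d0 : ℝ) / 16) +
      2 * Real.exp (-(R.card : ℝ) / (16 * μ0))) * cnt (Adj N k) m) e2 (Real.exp (20 * η * h)) 0
    hA hI hξ0 he0 (Real.exp_pos _).le le_rfl ?_
  · simpa only [zero_mul, sub_zero] using key
  intro δ hδ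
  obtain ⟨M0, hM0⟩ := h5 N 1 δ hδ
  obtain ⟨M', hM'⟩ : ∃ M', M' = M0 + 2 := ⟨_, rfl⟩
  obtain ⟨g0, hg0⟩ : ∃ g0, g0 = 64 * M' := ⟨_, rfl⟩
  obtain ⟨g1, hg1⟩ : ∃ g1, g1 = N ^ 4 * M' := ⟨_, rfl⟩
  obtain ⟨M, hM⟩ : ∃ M, M = 64 * N * g1 := ⟨_, rfl⟩
  have hN4 : 1 ≤ N ^ 4 := Nat.one_le_pow _ _ hN
  have hg1M : M' ≤ g1 := by rw [hg1]; exact Nat.le_mul_of_pos_left _ hN4
  have hg12 : 2 ≤ g1 := by omega
  have hg01 : 1 ≤ g0 := by omega
  have hM5 : M = N ^ 5 * g0 := by rw [hM, hg1, hg0]; ring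
  have hNg : N ≤ N * g1 := Nat.le_mul_of_pos_right _ (by omega)
  have hgN : g1 ≤ N * g1 := Nat.le_mul_of_pos_left _ hN
  have hM64 : M = 64 * (N * g1) := by rw [hM, mul_assoc]
  have h2N : 2 * N ≤ M := by omega
  have hsep := hM0 M (by omega)
  have hMr0 : (M : ℝ) = (N : ℝ) ^ 5 * g0 := by exact_mod_cast hM5
  have hMr1 : (M : ℝ) = 64 * (N : ℝ) * g1 := by exact_mod_cast hM
  have hg0r : (0 : ℝ) < g0 := by exact_mod_cast hg01
  refine ⟨M, by omega, by omega, hsep,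
    fun X => ¬ Good (Adj N k) R g0 g1 d0 D X ∨ UX (Adj N k) R X < 4 * n', ?_, ?_⟩
  · have hc := (h4 N M (Adj N k)).2.2
      (fun X => ¬ Good (Adj N k) R g0 g1 d0 D X ∨ UX (Adj N k) R X < 4 * n')
      (2 / N ^ 3 + N ^ 3 * Real.exp (-(d0 : ℝ) / 16) +
        2 * Real.exp (-(R.card : ℝ) / (16 * μ0))) m ?_
    · refine hc.trans ?_
      linarith
    intro π hπ
    have hG := h3 N M (Adj N k) R g0 g1 d0 D π hA hdeg hd0 hD h2N hM.ge
    have hT := h7 N M k τ ν μ0 n' g1 R π hk (fun i hi => by have := hdeg i hi; omega) hμ0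
      (by rw [hπ]; exact hm) hR4 hg12 hM.ge
      (by
        calc 256 * n' * μ0 * M = 256 * n' * μ0 * (64 * N) * g1 := by rw [hM]; ring
          _ ≤ R.card ^ 2 * g1 := Nat.mul_le_mul_right _ h256)
    have e : (2 : ℝ) * N ^ 2 * g0 / M = 2 / N ^ 3 := by
      rw [hMr0]; field_simp
    rw [e] at hG
    have hle : cc (fun X : Fin N → Fin M => OrdP π X ∧
        (¬ Good (Adj N k) R g0 g1 d0 D X ∨ UX (Adj N k) R X < 4 * n')) ≤
        cc (fun X : Fin N → Fin M => OrdP π X ∧ ¬ Good (Adj N k) R g0 g1 d0 D X) +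
          cc (fun X : Fin N → Fin M => OrdP π X ∧ UX (Adj N k) R X < 4 * n') :=
      le_trans (cc_mono fun X hX => and_or_left.1 hX) (cc_or_le _ _)
    have hle' := (Nat.cast_le (α := ℝ)).2 hle
    push_cast at hle'
    linarith
  · intro e
    have hGl := (h6 N M (Adj N k) R hA hI).1 e
    have hb1 : (0 : ℝ) ≤ bb (gR (Adj N k) R e) (fz (Adj N k) R e) (m + 1) := Nat.cast_nonneg _
    have hc0 : (0 : ℝ) ≤ e2 * cb (gR (Adj N k) R e) (fz (Adj N k) R e) 0 m :=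
      mul_nonneg he0 (Nat.cast_nonneg _)
    have hc1 : (0 : ℝ) ≤ Real.exp (20 * η * h) * cb (gR (Adj N k) R e) (fz (Adj N k) R e) s m :=
      mul_nonneg (Real.exp_pos _).le (Nat.cast_nonneg _)
    rw [zero_mul, sub_zero]
    by_cases hg : Good (Adj N k) R g0 g1 d0 D e
    · have hcard : Fintype.card R = R.card := Fintype.card_coe R
      have hE := h1 R (Fin M) (Finset (Fin N) × Finset (Fin N)) (gR (Adj N k) R e)
        (fun i : R => coinS (Adj N k) e i) (fun i : R => cl (Adj N k) e i) (fz (Adj N k) R e)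
        g0 g1 d0 D a0 l n h s n' m η ξ ((N : ℝ) ^ 5) (64 * N) η' e2 (by rw [hcard]; exact hW) hg
        (by rw [Fintype.card_fin]; omega) hg01 (by rw [Fintype.card_fin, hMr0])
        (by rw [Fintype.card_fin, hMr1]) (h8 N M (Adj N k) R e hA)
        (fun i a a' haa => by simp only [gR, gs]; rw [haa]) hη' h32 hξ
        (by rw [hcard]; exact he2)
      refine le_trans (mul_le_mul_of_nonneg_left ?_ (by linarith)) hE
      have hle : cc (fun x => tot (gR (Adj N k) R e) (fz (Adj N k) R e) x = m ∧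
          UU (fun i : R => coinS (Adj N k) e i) (fun i : R => cl (Adj N k) e i) x < 4 * n') ≤
          cc (fun x => tot (gR (Adj N k) R e) (fz (Adj N k) R e) x = m ∧
            (¬ Good (Adj N k) R g0 g1 d0 D (glue R e x) ∨
              UX (Adj N k) R (glue R e x) < 4 * n')) :=
        cc_mono fun x hx => ⟨hx.1, Or.inr (by rw [(hGl x).2.2.2]; exact hx.2)⟩
      have hle' := (Nat.cast_le (α := ℝ)).2 hle
      linarith
    · have hle : bb (gR (Adj N k) R e) (fz (Adj N k) R e) m ≤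
          cc (fun x => tot (gR (Adj N k) R e) (fz (Adj N k) R e) x = m ∧
            (¬ Good (Adj N k) R g0 g1 d0 D (glue R e x) ∨
              UX (Adj N k) R (glue R e x) < 4 * n')) :=
        cc_mono fun x hx => ⟨hx, Or.inl fun hgood => hg (((hGl x).2.1 g0 g1 d0 D).1 hgood)⟩
      have hle' := (Nat.cast_le (α := ℝ)).2 hle
      refine le_trans (mul_nonpos_of_nonneg_of_nonpos (by linarith) ?_) hb1
      linarith

end Pool.Agent.Lib.MP_64bee1_co.UN
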