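import Pool.Agent.Lib.MP_64bee1_co.UN.Stmts

/-!
The one step inequality for few rows and many columns.
-/

namespace Pool.Agent.Lib.MP_64bee1_co.UN

open Finset Polynomial

theorem MAIN3 (h0 : St_GF) (h1 : St_UChot) (h2 : St_LIFT) (h3 : St_TYP3) (h4 : St_CNT)
    (h5 : St_NSEP) (h6 : St_GLUE) (h8 : St_COIN) : St_MAIN3 := by
  intro N k m n u h η hk hP hm hnu hη hη' hh
  obtain ⟨hAs, -, -, -, -, -, hInd, -⟩ := h0 N k (by omega)
  have key := h2 N (Adj N k) (R3 N k) m h 0 (2 * η) (n / 2 ^ u * cum (Adj N k) 0 m) 0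
    (Real.exp (20 * η * h)) 0 hAs hInd (by positivity) le_rfl (Real.exp_pos _).le le_rfl ?_
  · simpa using key
  intro δ hδ
  set δ' : ℝ := δ / (3 * n + 1) with hδ'
  have hn1 : (0 : ℝ) < 3 * n + 1 := by positivity
  have hδ'0 : 0 < δ' := div_pos hδ hn1
  have hδδ : δ' * (3 * n + 1) = δ := div_mul_cancel₀ _ hn1.ne'
  have hn0 : (0 : ℝ) ≤ n := Nat.cast_nonneg n
  obtain ⟨M0, hM0⟩ := h5 N 1 δ' hδ'0
  obtain ⟨M1, hM1⟩ := h5 N (15 * (2 * (N / k + 2) + 1)) δ' hδ'0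
  obtain ⟨M, hM⟩ : ∃ M : ℕ, M = M0 + M1 + N + 1 := ⟨_, rfl⟩
  have e0 := hM0 M (by omega)
  have e1 := hM1 M (by omega)
  have hC : (0 : ℝ) ≤ M.choose N := Nat.cast_nonneg _
  refine ⟨M, by omega, by omega, ?_, fun X => ncX (Adj N k) (R3 N k) X < n, ?_, fun e => ?_⟩
  · refine e0.trans (mul_le_mul_of_nonneg_right ?_ hC)
    nlinarith [mul_nonneg hδ'0.le hn0]
  · have t := h3 N M k m n u hk hP hm hnu
    have c := ((h4 N M (Adj N k)).2.1 fun t => t ≤ m).2
    have c' : ((cc fun X : Fin N → Fin M => ivf (Adj N k) X ≤ m : ℕ) : ℝ) ≤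
        M.choose N * cum (Adj N k) 0 m + (cc fun X : Fin N → Fin M => ¬ Sep 1 X : ℕ) := by
      have e : cum (Adj N k) 0 m = cc fun w : Equiv.Perm (Fin N) => iv (Adj N k) w ≤ m :=
        cc_congr fun w => by simp
      rw [e]
      exact_mod_cast c
    have hu : (n : ℝ) / 2 ^ u ≤ n := div_le_self hn0 (one_le_pow₀ (by norm_num))
    have hu0 : (0 : ℝ) ≤ n / 2 ^ u := by positivity
    have a1 := mul_le_mul_of_nonneg_left (c'.trans (add_le_add_right e0 _)) hu0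
    have a2 := mul_le_mul_of_nonneg_left e1 (show (0 : ℝ) ≤ 2 * n by positivity)
    have a3 := mul_le_mul_of_nonneg_right hu (mul_nonneg hδ'0.le hC)
    have a4 := mul_nonneg hδ'0.le hC
    refine t.trans ?_
    rw [← hδδ]
    nlinarith
  · have t := h1 (R3 N k) (Fin M) (gR (Adj N k) (R3 N k) e) (fz (Adj N k) (R3 N k) e)
      (fun i => coinS (Adj N k) e i) n h m η (h8 N M (Adj N k) (R3 N k) e hAs) hη hη' hh
    have e2 : (cc fun x => tot (gR (Adj N k) (R3 N k) e) (fz (Adj N k) (R3 N k) e) x = m ∧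
          ncX (Adj N k) (R3 N k) (glue (R3 N k) e x) < n) =
        cc fun x => tot (gR (Adj N k) (R3 N k) e) (fz (Adj N k) (R3 N k) e) x = m ∧
          nco (fun i : R3 N k => coinS (Adj N k) e i) x < n :=
      cc_congr fun x => by rw [((h6 N M (Adj N k) (R3 N k) hAs hInd).1 e x).2.2.1]
    rw [e2]
    simpa using t

end Pool.Agent.Lib.MP_64bee1_co.UN
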