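import Pool.Agent.Lib.MP_64bee1_co.UN.Stmts

/-!
Splitting off a coin of prescribed size from one site.
-/

namespace Pool.Agent.Lib.MP_64bee1_co.UN

open Finset Polynomial

theorem MS1_coeff {ι α : Type} [Fintype α] (g : ι → α → ℕ) (i : ι) (t : ℕ) :
    (Gs g i).coeff t = ww g i t := by
  rw [Gs, finsetSum_coeff, ww, cc_real]
  simp only [coeff_X_pow, eq_comm]

theorem MS1_half (V : Finset ℕ) (w : ℕ → ℕ) (c g1 t : ℕ) (h : ∀ v ∈ V, g1 ≤ w (c + v)) :
    (∑ v ∈ V, C ((g1 : ℝ) / 2) * X ^ (c + v)).coeff t ≤ (w t : ℝ) / 2 := by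
  rw [finsetSum_coeff]
  simp only [coeff_C_mul_X_pow]
  by_cases h1 : ∃ v ∈ V, t = c + v
  · obtain ⟨v, hv, rfl⟩ := h1
    rw [sum_eq_single v (fun u _ hu => if_neg (by omega)) (fun h2 => (h2 hv).elim), if_pos rfl]
    have : (g1 : ℝ) ≤ w (c + v) := by exact_mod_cast h v hv
    linarith
  · rw [sum_eq_zero fun v hv => if_neg fun h2 => h1 ⟨v, hv, h2⟩]
    positivity

theorem MS1_card (w : ℕ → ℕ) (g1 Δ δ : ℕ) (hδ : δ ≤ Δ)
    (h : 8 * ((range (2 * Δ)).filter fun v => w v < g1).card ≤ 2 * Δ) :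
    Δ ≤ 2 * ((range Δ).filter fun v => g1 ≤ w v ∧ g1 ≤ w (δ + v)).card := by
  have h1 := card_filter_add_card_filter_not (s := range Δ) fun v => g1 ≤ w v ∧ g1 ≤ w (δ + v)
  have h2 : ((range Δ).filter fun v => ¬ (g1 ≤ w v ∧ g1 ≤ w (δ + v))) ⊆
      ((range Δ).filter fun v => w v < g1) ∪ (range Δ).filter fun v => w (δ + v) < g1 := by
    intro v hv
    simp only [mem_filter, mem_union, mem_range] at hv ⊢
    omega
  have h3 := (card_le_card h2).trans (card_union_le _ _)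
  have h4 : ((range Δ).filter fun v => w v < g1).card ≤
      ((range (2 * Δ)).filter fun v => w v < g1).card :=
    card_le_card fun v hv => by
      simp only [mem_filter, mem_range] at hv ⊢
      omega
  have h5 : ((range Δ).filter fun v => w (δ + v) < g1).card ≤
      ((range (2 * Δ)).filter fun v => w v < g1).card :=
    card_le_card_of_injOn (fun v => δ + v) (fun v hv => by
      simp only [coe_filter, mem_range, Set.mem_setOf_eq] at hv ⊢
      omega) fun u _ v _ huv => by simpa using huv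
  rw [card_range] at h1
  omega

theorem MS1 : St_MS1 := by
  intro ι α _ g i μ g1 Δ δ q hμ hl hδ hq hq1 hq3
  have hV := MS1_card (fun v => ww g i (μ + v)) g1 Δ δ hδ hl
  set V := (range Δ).filter fun v => g1 ≤ ww g i (μ + v) ∧ g1 ≤ ww g i (μ + (δ + v)) with hVd
  have hC : Nn (∑ v ∈ V, C ((g1 : ℝ) / 2) * X ^ (μ + v)) :=
    nn_sum _ _ fun v _ => (nn_C (by positivity)).mul (nn_X_pow _)
  refine ⟨∑ v ∈ V, C ((g1 : ℝ) / 2) * X ^ (μ + v),
    Gs g i - (∑ v ∈ V, C ((g1 : ℝ) / 2) * X ^ (μ + v)) * (1 + X ^ δ), hC, fun t => ?_, by ring, ?_⟩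
  · have e : (∑ v ∈ V, C ((g1 : ℝ) / 2) * X ^ (μ + v)) * X ^ δ =
        ∑ v ∈ V, C ((g1 : ℝ) / 2) * X ^ (μ + δ + v) := by
      rw [sum_mul]
      exact sum_congr rfl fun v _ => by ring
    have h1 := MS1_half V (ww g i) μ g1 t fun v hv => (mem_filter.1 hv).2.1
    have h2 := MS1_half V (ww g i) (μ + δ) g1 t fun v hv => by
      rw [add_assoc]
      exact (mem_filter.1 hv).2.2
    rw [mul_add, mul_one, e, coeff_sub, coeff_add, MS1_coeff]
    linarith
  · have h1 : (Gs g i).eval q ≤ Fintype.card α * q ^ μ := by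
      rw [Gs, eval_finsetSum, ← card_univ, ← nsmul_eq_mul]
      refine sum_le_card_nsmul _ _ _ fun a _ => ?_
      rw [eval_pow, eval_X]
      exact pow_le_pow_of_le_one hq.le hq1 (hμ a)
    have h2 : V.card * ((g1 : ℝ) / 2 * (q ^ μ / 3)) ≤
        (∑ v ∈ V, C ((g1 : ℝ) / 2) * X ^ (μ + v)).eval q := by
      rw [eval_finsetSum, ← nsmul_eq_mul]
      refine card_nsmul_le_sum _ _ _ fun v hv => ?_
      rw [eval_mul, eval_C, eval_pow, eval_X, pow_add]
      have h3 : v ≤ 2 * Δ := by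
        have := mem_range.1 (mem_filter.1 hv).1
        omega
      have h4 := hq3.trans (pow_le_pow_of_le_one hq.le hq1 h3)
      refine mul_le_mul_of_nonneg_left ?_ (by positivity)
      have := mul_le_mul_of_nonneg_left h4 (pow_pos hq μ).le
      linarith
    have h3 := hC.eval_nonneg hq.le
    rw [eval_mul, eval_add, eval_one, eval_pow, eval_X]
    generalize (∑ v ∈ V, C ((g1 : ℝ) / 2) * X ^ (μ + v)).eval q = c at h2 h3
    have h4 : (Δ : ℝ) ≤ 2 * V.card := by exact_mod_cast hV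
    have h5 : c ≤ c * (1 + q ^ δ) := le_mul_of_one_le_right h3 (by linarith [pow_pos hq δ])
    have h6 : (g1 : ℝ) * Δ * q ^ μ ≤ 12 * (c * (1 + q ^ δ)) := by
      have := mul_le_mul_of_nonneg_left h4 (show 0 ≤ (g1 : ℝ) * q ^ μ by positivity)
      linarith
    calc (g1 : ℝ) * Δ * (Gs g i).eval q ≤ g1 * Δ * (Fintype.card α * q ^ μ) :=
          mul_le_mul_of_nonneg_left h1 (by positivity)
      _ = Fintype.card α * (g1 * Δ * q ^ μ) := by ring
      _ ≤ Fintype.card α * (12 * (c * (1 + q ^ δ))) :=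
          mul_le_mul_of_nonneg_left h6 (by positivity)
      _ = _ := by ring

end Pool.Agent.Lib.MP_64bee1_co.UN
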