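import Pool.Agent.Lib.MP_64bee1_co.UN.Stmts

/-!
Many coins at every dyadic scale give a binomial block.
-/

namespace Pool.Agent.Lib.MP_64bee1_co.UN

open Finset Polynomial

theorem MS2_geom (a : ℕ) :
    ∏ l ∈ range a, (1 + X ^ 2 ^ l : ℝ[X]) = ∑ r ∈ range (2 ^ a), X ^ r := by
  induction a with
  | zero => simp
  | succ a ih =>
    rw [prod_range_succ, ih, pow_succ, mul_two, sum_range_add, mul_add, mul_one, sum_mul]
    congr 1
    exact sum_congr rfl fun r _ => by rw [← pow_add, add_comm]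

theorem MS2_fib {ι : Type} (sc : ι → ℕ) (a : ℕ) (T : Finset ι) (h : ∀ i, sc i ≤ a) :
    ∏ i ∈ T, (1 + X ^ 2 ^ sc i : ℝ[X]) =
      ∏ l ∈ range (a + 1), (1 + X ^ 2 ^ l : ℝ[X]) ^ (T.filter fun i => sc i = l).card := by
  rw [← prod_fiberwise_of_maps_to (s := T) (t := range (a + 1)) (g := sc)
    (fun i _ => mem_range.2 (Nat.lt_succ_of_le (h i)))]
  refine prod_congr rfl fun l _ => ?_
  rw [← prod_const]
  exact prod_congr rfl fun i hi => by rw [(mem_filter.1 hi).2]

theorem MS2_rich {ι : Type} (sc : ι → ℕ) (a n : ℕ) (T : Finset ι) (h : ∀ i, sc i ≤ a)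
    (hn : 2 ≤ n) (hT : ∀ l ≤ a, n ≤ (T.filter fun i => sc i = l).card) :
    ∃ H : ℝ[X], Nn H ∧ ∏ i ∈ T, (1 + X ^ 2 ^ sc i : ℝ[X]) = Kp (2 ^ a) n * H := by
  refine ⟨(∏ l ∈ range a, (1 + X ^ 2 ^ l : ℝ[X]) ^ ((T.filter fun i => sc i = l).card - 2)) *
    (1 + X ^ 2 ^ a) ^ ((T.filter fun i => sc i = a).card - n), ?_, ?_⟩
  · exact (nn_prod _ _ fun l _ => (nn_one.add (nn_X_pow _)).pow _).mul
      ((nn_one.add (nn_X_pow _)).pow _)
  · rw [MS2_fib sc a T h, prod_range_succ, Kp, ← MS2_geom, ← prod_pow]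
    have e1 : ∏ l ∈ range a, (1 + X ^ 2 ^ l : ℝ[X]) ^ (T.filter fun i => sc i = l).card =
        (∏ l ∈ range a, (1 + X ^ 2 ^ l : ℝ[X]) ^ 2) *
          ∏ l ∈ range a, (1 + X ^ 2 ^ l : ℝ[X]) ^ ((T.filter fun i => sc i = l).card - 2) := by
      rw [← prod_mul_distrib]
      refine prod_congr rfl fun l hl => ?_
      have := hT l (mem_range.1 hl).le
      rw [← pow_add]
      congr 1
      omega
    have e2 : (1 + X ^ 2 ^ a : ℝ[X]) ^ (T.filter fun i => sc i = a).card =
        (1 + X ^ 2 ^ a) ^ n * (1 + X ^ 2 ^ a) ^ ((T.filter fun i => sc i = a).card - n) := by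
      have := hT a le_rfl
      rw [← pow_add]
      congr 1
      omega
    rw [e1, e2]
    ring

theorem MS2_one {ι : Type} [Fintype ι] [DecidableEq ι] (k r : ι → ℝ) (sc : ι → ℕ) (l n : ℕ)
    (p : ℝ) (hk : ∀ i, 0 ≤ k i) (hr : ∀ i, 0 ≤ r i) (hp : ∀ i, p * (k i + r i) ≤ k i)
    (hl : 4 * (n : ℝ) ≤ p * (univ.filter fun i => sc i = l).card) :
    ∑ T ∈ (univ : Finset ι).powerset,
      2 ^ n * (1 / 2) ^ (T.filter fun i => sc i = l).card *
        ((∏ i ∈ T, k i) * ∏ i ∈ univ \ T, r i) ≤ 1 / 2 ^ n * ∏ i, (k i + r i) := by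
  have e1 : ∀ T : Finset ι, (1 / 2 : ℝ) ^ (T.filter fun i => sc i = l).card =
      ∏ i ∈ T, if sc i = l then (1 / 2 : ℝ) else 1 := fun T => by
    rw [← prod_filter, prod_const]
  have e2 : ∑ T ∈ (univ : Finset ι).powerset,
      2 ^ n * (1 / 2) ^ (T.filter fun i => sc i = l).card *
        ((∏ i ∈ T, k i) * ∏ i ∈ univ \ T, r i) =
      2 ^ n * ∏ i, ((if sc i = l then (1 / 2 : ℝ) else 1) * k i + r i) := by
    rw [prod_add, mul_sum]
    refine sum_congr rfl fun T _ => ?_
    rw [e1, prod_mul_distrib]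
    ring
  have e3 : ∏ i, ((if sc i = l then (1 / 2 : ℝ) else 1) * k i + r i) ≤
      ∏ i, ((if sc i = l then Real.exp (-(p / 2)) else 1) * (k i + r i)) := by
    refine prod_le_prod (fun i _ => ?_) fun i _ => ?_
    · have := hk i
      have := hr i
      split_ifs <;> positivity
    · have h1 := hk i
      have h2 := hr i
      have h3 := hp i
      split_ifs
      · have h4 : 1 - p / 2 ≤ Real.exp (-(p / 2)) := by
          have := Real.add_one_le_exp (-(p / 2))
          linarith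
        have h5 := mul_le_mul_of_nonneg_right h4 (add_nonneg h1 h2)
        linarith
      · linarith
  have e4 : ∏ i, (if sc i = l then Real.exp (-(p / 2)) else 1) ≤ (1 / 4) ^ n := by
    rw [← prod_filter, prod_const, ← Real.exp_nat_mul]
    have h1 : Real.exp (-2) ≤ 1 / 4 := by
      rw [Real.exp_neg, ← one_div]
      refine one_div_le_one_div_of_le (by norm_num) ?_
      have h := Real.add_one_le_exp (1 : ℝ)
      have e : Real.exp 2 = Real.exp 1 * Real.exp 1 := by rw [← Real.exp_add]; norm_num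
      rw [e]
      nlinarith
    calc _ ≤ Real.exp (n * (-2)) := Real.exp_le_exp.2 (by linarith)
      _ = Real.exp (-2) ^ n := Real.exp_nat_mul _ _
      _ ≤ _ := pow_le_pow_left₀ (Real.exp_pos _).le h1 n
  have h0 : 0 ≤ ∏ i, (k i + r i) := prod_nonneg fun i _ => add_nonneg (hk i) (hr i)
  rw [e2]
  rw [prod_mul_distrib] at e3
  have e5 := e3.trans (mul_le_mul_of_nonneg_right e4 h0)
  have e6 : (2 : ℝ) ^ n * (1 / 4) ^ n = 1 / 2 ^ n := by
    rw [← mul_pow, ← one_div_pow]
    norm_num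
  calc _ ≤ 2 ^ n * ((1 / 4) ^ n * ∏ i, (k i + r i)) :=
        mul_le_mul_of_nonneg_left e5 (by positivity)
    _ = _ := by rw [← mul_assoc, e6]

theorem MS2 : St_MS2 := by
  intro ι _ G C R sc a n p q hC hR hG hsc hp hq hn hl
  classical
  have hK : ∀ i, Nn (C i * (1 + X ^ 2 ^ sc i)) := fun i => (hC i).mul (nn_one.add (nn_X_pow _))
  let Rich : Finset ι → Prop := fun T => ∀ l ≤ a, n ≤ (T.filter fun i => sc i = l).card
  let tm : Finset ι → ℝ[X] := fun T =>
    (∏ i ∈ T, C i * (1 + X ^ 2 ^ sc i)) * ∏ i ∈ univ \ T, R i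
  have htm : ∀ T, Nn (tm T) := fun T =>
    (nn_prod _ _ fun i _ => hK i).mul (nn_prod _ _ fun i _ => hR i)
  have hprod : ∏ i, G i = ∑ T ∈ (univ : Finset ι).powerset, tm T := by
    rw [prod_congr rfl fun i _ => hG i, prod_add]
  have hex : ∀ T, ∃ H : ℝ[X], Nn H ∧ (Rich T → tm T = Kp (2 ^ a) n * H) := fun T => by
    by_cases hT : Rich T
    · obtain ⟨H, h1, h2⟩ := MS2_rich sc a n T hsc hn hT
      refine ⟨H * (∏ i ∈ T, C i) * ∏ i ∈ univ \ T, R i,
        (h1.mul (nn_prod _ _ fun i _ => hC i)).mul (nn_prod _ _ fun i _ => hR i), fun _ => ?_⟩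
      simp only [tm]
      rw [prod_mul_distrib, h2]
      ring
    · exact ⟨0, nn_zero, fun h => absurd h hT⟩
  choose H hH1 hH2 using hex
  refine ⟨∑ T ∈ (univ : Finset ι).powerset.filter Rich, H T,
    ∑ T ∈ (univ : Finset ι).powerset.filter (fun T => ¬ Rich T), tm T,
    nn_sum _ _ fun T _ => hH1 T, nn_sum _ _ fun T _ => htm T, ?_, ?_⟩
  · rw [hprod, ← sum_filter_add_sum_filter_not _ Rich, mul_sum]
    congr 1
    exact sum_congr rfl fun T hT => hH2 T (mem_filter.1 hT).2
  · let k : ι → ℝ := fun i => (C i * (1 + X ^ 2 ^ sc i)).eval q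
    let r : ι → ℝ := fun i => (R i).eval q
    have hk : ∀ i, 0 ≤ k i := fun i => (hK i).eval_nonneg hq
    have hr : ∀ i, 0 ≤ r i := fun i => (hR i).eval_nonneg hq
    have hg : ∀ i, (G i).eval q = k i + r i := fun i => by rw [hG i, eval_add]
    have hev : ∀ T, (tm T).eval q = (∏ i ∈ T, k i) * ∏ i ∈ univ \ T, r i := fun T => by
      simp only [tm, k, r]
      rw [eval_mul, eval_prod, eval_prod]
    have ht : ∀ T : Finset ι, 0 ≤ (∏ i ∈ T, k i) * ∏ i ∈ univ \ T, r i := fun T =>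
      mul_nonneg (prod_nonneg fun i _ => hk i) (prod_nonneg fun i _ => hr i)
    rw [eval_finsetSum, eval_prod, prod_congr rfl fun i _ => hg i]
    calc _ ≤ ∑ T ∈ (univ : Finset ι).powerset.filter (fun T => ¬ Rich T), ∑ l ∈ range (a + 1),
          2 ^ n * (1 / 2) ^ (T.filter fun i => sc i = l).card *
            ((∏ i ∈ T, k i) * ∏ i ∈ univ \ T, r i) := by
          refine sum_le_sum fun T hT => ?_
          have h1 := (mem_filter.1 hT).2
          simp only [Rich, not_forall, not_le] at h1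
          obtain ⟨l, hla, hlt⟩ := h1
          refine le_trans ?_ (single_le_sum (f := fun l => (2 : ℝ) ^ n *
            (1 / 2) ^ (T.filter fun i => sc i = l).card *
            ((∏ i ∈ T, k i) * ∏ i ∈ univ \ T, r i))
            (fun l _ => mul_nonneg (by positivity) (ht T)) (mem_range.2 (Nat.lt_succ_of_le hla)))
          rw [hev]
          refine le_mul_of_one_le_left (ht T) ?_
          rw [one_div_pow, mul_one_div, le_div_iff₀ (by positivity), one_mul]
          exact pow_le_pow_right₀ (by norm_num) hlt.le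
      _ ≤ ∑ T ∈ (univ : Finset ι).powerset, ∑ l ∈ range (a + 1),
          2 ^ n * (1 / 2) ^ (T.filter fun i => sc i = l).card *
            ((∏ i ∈ T, k i) * ∏ i ∈ univ \ T, r i) :=
          sum_le_sum_of_subset_of_nonneg (filter_subset _ _) fun T _ _ =>
            sum_nonneg fun l _ => mul_nonneg (by positivity) (ht T)
      _ ≤ ∑ l ∈ range (a + 1), 1 / 2 ^ n * ∏ i, (k i + r i) := by
          rw [sum_comm]
          exact sum_le_sum fun l hl' => MS2_one k r sc l n p hk hr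
            (fun i => by rw [← hg i]; exact hp i) (hl l (Nat.lt_succ_iff.1 (mem_range.1 hl')))
      _ = _ := by
          rw [sum_const, card_range, nsmul_eq_mul]
          push_cast
          ring

end Pool.Agent.Lib.MP_64bee1_co.UN
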