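import Pool.Agent.Lib.MP_64bee1_co.UN.Stmts

/-!
Few vertices have a low level at a given value.
-/

namespace Pool.Agent.Lib.MP_64bee1_co.UN

open Finset

theorem MULT_key {N k τ : ℕ} {β : Type} [LinearOrder β] (X : Fin N → β) (y : β) (hk : 2 ≤ k)
    (hX : Function.Injective X) (v w : Fin N) (hw : (w : ℕ) = v + ((2 * τ + 1) * k + 2))
    (h1 : (cl (Adj N k) X v y).1.card ≤ τ) (h2 : (cl (Adj N k) X w y).2.card ≤ τ) : False := by
  have hb : ∀ s, s < 2 * τ + 2 → (v : ℕ) + 1 + s * k < w := by
    intro s hs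
    have : s * k ≤ (2 * τ + 1) * k := Nat.mul_le_mul_right _ (by omega)
    omega
  let f : Fin (2 * τ + 2) → Fin N := fun s => ⟨v + 1 + s * k, (hb s s.2).trans w.2⟩
  have hf : Function.Injective f := by
    intro s t h
    have h' : (v : ℕ) + 1 + s * k = v + 1 + t * k := congrArg Fin.val h
    exact Fin.ext (Nat.eq_of_mul_eq_mul_right (show 0 < k by omega) (by omega))
  have hsub : univ.image f ⊆ ((cl (Adj N k) X v y).1 ∪ (cl (Adj N k) X w y).2) ∪
      univ.filter fun u => X u = y := by
    intro u hu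
    obtain ⟨s, -, rfl⟩ := mem_image.1 hu
    have a1 : Adj N k v (f s) := by
      refine ⟨Fin.lt_def.2 (by show (v : ℕ) < v + 1 + s * k; omega), ?_⟩
      show ((v : ℕ) + 1 + (s : ℕ) * k - v) % k = 1
      rw [show (v : ℕ) + 1 + s * k - v = 1 + s * k by omega, Nat.add_mul_mod_self_right,
        Nat.mod_eq_of_lt (by omega)]
    have a2 : Adj N k (f s) w := by
      refine ⟨Fin.lt_def.2 (hb s s.2), ?_⟩
      show ((w : ℕ) - ((v : ℕ) + 1 + (s : ℕ) * k)) % k = 1
      obtain ⟨r, hr⟩ : ∃ r, 2 * τ + 1 = s + r := ⟨2 * τ + 1 - s, by have := s.2; omega⟩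
      rw [hw, hr, add_mul, show (v : ℕ) + (s * k + r * k + 2) - (v + 1 + s * k) = 1 + r * k by omega,
        Nat.add_mul_mod_self_right, Nat.mod_eq_of_lt (by omega)]
    simp only [cl, mem_union, mem_filter, mem_univ, true_and]
    rcases lt_trichotomy (X (f s)) y with h | h | h
    · exact Or.inl (Or.inl ⟨a1, h⟩)
    · exact Or.inr h
    · exact Or.inl (Or.inr ⟨a2, h⟩)
  have c1 := card_le_card hsub
  rw [card_image_of_injective _ hf, card_univ, Fintype.card_fin] at c1
  have c2 : (univ.filter fun u => X u = y).card ≤ 1 :=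
    card_le_one.2 fun a ha b hb => hX ((mem_filter.1 ha).2.trans (mem_filter.1 hb).2.symm)
  have c3 := card_union_le ((cl (Adj N k) X v y).1 ∪ (cl (Adj N k) X w y).2)
    (univ.filter fun u => X u = y)
  have c4 := card_union_le (cl (Adj N k) X v y).1 (cl (Adj N k) X w y).2
  omega

theorem MULT_cheap {N τ : ℕ} (A : Fin N → Fin N → Prop) [DecidableRel A] {β : Type} [LinearOrder β]
    (X : Fin N → β) (y : β) (v : Fin N) (h : gs A X v (X v) ≤ τ) :
    (cl A X v y).1.card ≤ τ ∨ (cl A X v y).2.card ≤ τ := by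
  unfold gs at h
  rcases le_total y (X v) with hy | hy
  · refine Or.inl (le_trans (card_le_card fun u hu => ?_) (le_trans (Nat.le_add_right _ _) h))
    simp only [cl, mem_filter, mem_univ, true_and] at hu ⊢
    exact ⟨hu.1, hu.2.trans_le hy⟩
  · refine Or.inr (le_trans (card_le_card fun u hu => ?_) (le_trans (Nat.le_add_left _ _) h))
    simp only [cl, mem_filter, mem_univ, true_and] at hu ⊢
    exact ⟨hu.1, hy.trans_lt hu.2⟩

theorem MULT : St_MULT := by
  classical
  intro N k τ β _ X y hk hX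
  set T := (2 * τ + 1) * k + 2 with hT
  set V := univ.filter fun v => gs (Adj N k) X v y ≤ τ with hV
  set Lo := univ.filter fun v => (cl (Adj N k) X v y).1.card ≤ τ with hLo
  set Nc := univ.filter fun v => τ < gs (Adj N k) X v (X v) with hNc
  set L1 := Lo.filter fun v : Fin N => (v : ℕ) + T < N with hL1
  let sh : Fin N → Fin N := fun v => if h : (v : ℕ) + T < N then ⟨v + T, h⟩ else v
  have hsh : ∀ v ∈ L1, (sh v : ℕ) = v + T := fun v hv => by
    simp only [sh, dif_pos (mem_filter.1 hv).2]
  have i1 : (L1.image sh).card = L1.card := card_image_of_injOn fun a ha b hb h => by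
    have := congrArg Fin.val h
    rw [hsh a ha, hsh b hb] at this
    exact Fin.ext (by omega)
  have d1 : Disjoint V (L1.image sh) := by
    refine disjoint_left.2 fun w hw hw' => ?_
    obtain ⟨v, hv, rfl⟩ := mem_image.1 hw'
    have := (mem_filter.1 hw).2
    unfold gs at this
    exact MULT_key X y hk hX v _ (hsh v hv) (mem_filter.1 (mem_filter.1 hv).1).2 (by omega)
  have s1 : V ∪ L1.image sh ⊆ Lo ∪ Nc := by
    intro w hw
    rcases mem_union.1 hw with hw | hw
    · have := (mem_filter.1 hw).2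
      unfold gs at this
      exact mem_union_left _ (mem_filter.2 ⟨mem_univ _, by omega⟩)
    · obtain ⟨v, hv, rfl⟩ := mem_image.1 hw
      by_cases hc : gs (Adj N k) X (sh v) (X (sh v)) ≤ τ
      · rcases MULT_cheap _ X y _ hc with h | h
        · exact mem_union_left _ (mem_filter.2 ⟨mem_univ _, h⟩)
        · exact (MULT_key X y hk hX v _ (hsh v hv) (mem_filter.1 (mem_filter.1 hv).1).2 h).elim
      · exact mem_union_right _ (mem_filter.2 ⟨mem_univ _, not_le.1 hc⟩)
  have c1 := card_le_card s1
  rw [card_union_of_disjoint d1, i1] at c1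
  have c2 := card_union_le Lo Nc
  have c3 := card_filter_add_card_filter_not (s := Lo) fun v : Fin N => (v : ℕ) + T < N
  have c4 : (Lo.filter fun v : Fin N => ¬ (v : ℕ) + T < N).card ≤ T := by
    refine le_trans ?_ (card_range T).le
    refine card_le_card_of_injOn (fun v : Fin N => N - 1 - (v : ℕ)) (fun v hv => ?_) fun a _ b _ h => ?_
    · have := (mem_filter.1 (mem_coe.1 hv)).2
      have := v.2
      exact mem_coe.2 (mem_range.2 (show N - 1 - (v : ℕ) < T by omega))
    · have := a.2
      have := b.2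
      simp only at h
      exact Fin.ext (by omega)
  rw [cc_eq, cc_eq]
  show V.card ≤ T + Nc.card
  rw [← hL1] at c3
  omega

end Pool.Agent.Lib.MP_64bee1_co.UN
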