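import Pool.Agent.Lib.MP_64bee1_co.UN.Stmts

/-! Few maps have two close values. -/

namespace Pool.Agent.Lib.MP_64bee1_co.UN

open Finset

theorem NSEP_pair {N M : ℕ} (g : ℕ) (u v : Fin N) (huv : u ≠ v) :
    cc (fun X : Fin N → Fin M => (X v : ℕ) < X u + g ∧ (X u : ℕ) < X v + g) * M ≤
      M ^ N * (2 * g) := by
  classical
  rw [cc_eq]
  have h := card_le_card_of_injOn
    (s := (univ.filter fun X : Fin N → Fin M => (X v : ℕ) < X u + g ∧ (X u : ℕ) < X v + g) ×ˢ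
      (univ : Finset (Fin M)))
    (t := (univ : Finset (Fin N → Fin M)) ×ˢ range (2 * g))
    (fun p => (Function.update p.1 v p.2, (p.1 v : ℕ) + g - p.1 u))
    (by
      rintro ⟨X, a⟩ hp
      have h1 := (mem_filter.1 (mem_product.1 (mem_coe.1 hp)).1).2
      refine mem_coe.2 (mem_product.2 ⟨mem_univ _, mem_range.2 ?_⟩)
      simp only at h1 ⊢
      omega)
    (by
      rintro ⟨X, a⟩ hp ⟨Y, b⟩ hq he
      have h1 := (mem_filter.1 (mem_product.1 (mem_coe.1 hp)).1).2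
      have h2 := (mem_filter.1 (mem_product.1 (mem_coe.1 hq)).1).2
      simp only [Prod.mk.injEq] at he h1 h2 ⊢
      obtain ⟨e1, e2⟩ := he
      have hab : a = b := by simpa using congrFun e1 v
      have hw : ∀ w, w ≠ v → X w = Y w := fun w hw => by
        simpa [Function.update_of_ne hw] using congrFun e1 w
      have hu := hw u huv
      refine ⟨funext fun w => ?_, hab⟩
      by_cases hwv : w = v
      · subst hwv
        rw [hu] at e2 h1
        exact Fin.ext (by omega)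
      · exact hw w hwv)
  simpa [card_product] using h

theorem NSEP_count {N M : ℕ} (g : ℕ) :
    cc (fun X : Fin N → Fin M => ¬ Sep g X) * M ≤ N ^ 2 * (M ^ N * (2 * g)) := by
  classical
  have h1 : cc (fun X : Fin N → Fin M => ¬ Sep g X) ≤
      ∑ p ∈ (univ : Finset (Fin N)).offDiag, cc fun X : Fin N → Fin M =>
        (X p.2 : ℕ) < X p.1 + g ∧ (X p.1 : ℕ) < X p.2 + g := by
    refine le_trans (cc_mono fun X hX => ?_) (cc_exists_le _ _)
    unfold Sep at hX
    push Not at hX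
    obtain ⟨u, v, huv, h⟩ := hX
    exact ⟨(u, v), mem_offDiag.2 ⟨mem_univ _, mem_univ _, huv⟩, h⟩
  refine (Nat.mul_le_mul_right M h1).trans ?_
  rw [sum_mul]
  refine (sum_le_card_nsmul _ _ (M ^ N * (2 * g)) fun p hp =>
    NSEP_pair g p.1 p.2 (mem_offDiag.1 hp).2.2).trans ?_
  rw [smul_eq_mul, offDiag_card, card_univ, Fintype.card_fin, sq]
  exact Nat.mul_le_mul_right _ (Nat.sub_le _ _)

theorem NSEP_choose {N M : ℕ} (h : 2 * N ≤ M) :
    (M : ℝ) ^ N ≤ 2 ^ N * N.factorial * M.choose N := by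
  have h1 : ((M + 1 - N : ℕ) ^ N : ℝ) / N.factorial ≤ M.choose N := Nat.pow_le_choose N M
  have hf : (0 : ℝ) < N.factorial := by exact_mod_cast N.factorial_pos
  rw [div_le_iff₀ hf] at h1
  have h2 : (M : ℝ) ≤ 2 * (M + 1 - N : ℕ) := by
    have : M ≤ 2 * (M + 1 - N) := by omega
    exact_mod_cast this
  calc (M : ℝ) ^ N ≤ (2 * (M + 1 - N : ℕ)) ^ N := pow_le_pow_left₀ (Nat.cast_nonneg _) h2 N
    _ = 2 ^ N * ((M + 1 - N : ℕ) : ℝ) ^ N := mul_pow _ _ _
    _ ≤ 2 ^ N * (M.choose N * N.factorial) := by gcongr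
    _ = _ := by ring

theorem NSEP : St_NSEP := by
  intro N g δ hδ
  obtain ⟨M1, hM1⟩ := exists_nat_ge ((N : ℝ) ^ 2 * (2 * g) * (2 ^ N * N.factorial) / δ)
  refine ⟨M1 + 2 * N + 1, fun M hM => ?_⟩
  have hMpos : (0 : ℝ) < M := by
    have : 0 < M := by omega
    exact_mod_cast this
  have hM1' : (M1 : ℝ) ≤ M := by
    have : M1 ≤ M := by omega
    exact_mod_cast this
  have h1 : ((cc fun X : Fin N → Fin M => ¬ Sep g X : ℕ) : ℝ) * M ≤
      (N : ℝ) ^ 2 * ((M : ℝ) ^ N * (2 * g)) := by exact_mod_cast NSEP_count (N := N) (M := M) g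
  have h2 := NSEP_choose (N := N) (M := M) (by omega)
  have h3 : (N : ℝ) ^ 2 * (2 * g) * (2 ^ N * N.factorial) ≤ M * δ :=
    (div_le_iff₀ hδ).1 (hM1.trans hM1')
  refine le_of_mul_le_mul_right ?_ hMpos
  calc _ ≤ (N : ℝ) ^ 2 * ((M : ℝ) ^ N * (2 * g)) := h1
    _ ≤ (N : ℝ) ^ 2 * ((2 ^ N * N.factorial * M.choose N) * (2 * g)) := by gcongr
    _ = ((N : ℝ) ^ 2 * (2 * g) * (2 ^ N * N.factorial)) * M.choose N := by ring
    _ ≤ (M * δ) * M.choose N := by gcongr
    _ = _ := by ring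

end Pool.Agent.Lib.MP_64bee1_co.UN
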