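import Pool.Agent.Lib.MP_64bee1_co.UN.Stmts

/-!
Arithmetic of the parameters.
-/

namespace Pool.Agent.Lib.MP_64bee1_co.UN

open Finset Polynomial

theorem PAR_exp {N l : ℕ} (h : N ≤ 2 ^ l) : (N : ℝ) ≤ Real.exp l := by
  have h1 : (N : ℝ) ≤ 2 ^ l := by exact_mod_cast h
  refine h1.trans ?_
  have h2 : (2 : ℝ) ≤ Real.exp 1 := by
    have := Real.add_one_le_exp (1 : ℝ); linarith
  calc (2 : ℝ) ^ l ≤ Real.exp 1 ^ l := pow_le_pow_left₀ (by norm_num) h2 l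
    _ = Real.exp l := by rw [← Real.exp_nat_mul, mul_one]

theorem PAR_small {N l : ℕ} (h : N ≤ 2 ^ l) (h0 : 1 ≤ N) (k : ℕ) {t : ℝ} (ht : t ≤ -(k * l)) :
    Real.exp t ≤ 1 / (N : ℝ) ^ k := by
  have hN : (0 : ℝ) < N := by exact_mod_cast h0
  have h1 : (N : ℝ) ^ k ≤ Real.exp (k * l) := by
    rw [Real.exp_nat_mul]
    exact pow_le_pow_left₀ hN.le (PAR_exp h) k
  calc Real.exp t ≤ Real.exp (-(k * l)) := Real.exp_le_exp.2 ht
    _ = 1 / Real.exp (k * l) := by rw [Real.exp_neg, one_div]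
    _ ≤ 1 / (N : ℝ) ^ k := one_div_le_one_div_of_le (pow_pos hN k) h1

theorem PAR_pow {N l : ℕ} (h : N ≤ 2 ^ l) (k e : ℕ) (he : l * k ≤ e) : (N : ℝ) ^ k ≤ 2 ^ e := by
  have h1 : N ^ k ≤ 2 ^ e :=
    (Nat.pow_le_pow_left h k).trans (by rw [← pow_mul]; exact Nat.pow_le_pow_right (by norm_num) he)
  exact_mod_cast h1

theorem PAR_wp (N P l r : ℕ) (hl : 100000000 ≤ l) (hN : N ≤ 2 ^ l) (hlN : l ^ 600 ≤ N)
    (hP : l ^ 76 ≤ P) (hPN : P ≤ N) (hr : N ≤ 20 * r) :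
    ∃ a0 : ℕ, l ^ 6 ≤ 2 ^ a0 ∧ 2 ^ a0 ≤ 2 * l ^ 6 ∧
    WP r (l ^ 2) (P / 3) a0 l (l ^ 4) (l ^ 2) (l ^ 2 / 20 * (P + 2)) (1 / l) (1 / (N : ℝ) ^ 2)
      ((N : ℝ) ^ 5) (64 * N) := by
  have l1 : 1 ≤ l := by omega
  have mono : ∀ {a b : ℕ}, a ≤ b → l ^ a ≤ l ^ b := fun h => Nat.pow_le_pow_right l1 h
  have hl6 : 1 < l ^ 6 := lt_of_lt_of_le (by omega) (show l ≤ l ^ 6 by
    simpa using mono (show 1 ≤ 6 by norm_num))
  have e1 : l ^ 6 ≤ 2 ^ Nat.clog 2 (l ^ 6) := Nat.le_pow_clog (by norm_num) _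
  have e2 : 2 ^ Nat.clog 2 (l ^ 6) ≤ 2 * l ^ 6 := by
    have h1 := Nat.pow_pred_clog_lt_self (b := 2) (by norm_num) hl6
    have h2 : 0 < Nat.clog 2 (l ^ 6) := Nat.clog_pos (by norm_num) hl6
    obtain ⟨c, hc⟩ : ∃ c, Nat.clog 2 (l ^ 6) = c + 1 := ⟨_, (Nat.succ_pred_eq_of_pos h2).symm⟩
    rw [hc] at h1 ⊢
    simp only [Nat.pred_succ] at h1
    rw [pow_succ]; omega
  generalize Nat.clog 2 (l ^ 6) = a0 at e1 e2
  have h7 : l * l ^ 6 ≤ P := by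
    rw [← pow_succ']; exact (mono (by norm_num)).trans hP
  have h12 : 12 * l ^ 6 ≤ l * l ^ 6 := Nat.mul_le_mul_right _ (by omega)
  have lN2 : l * l ≤ N := by
    rw [← pow_two]; exact (mono (by norm_num)).trans hlN
  have lN : 40 * l ≤ N := le_trans (Nat.mul_le_mul_right _ (by omega)) lN2
  have hlR : (100000000 : ℝ) ≤ l := by exact_mod_cast hl
  have hN1 : (1 : ℝ) ≤ N := by exact_mod_cast (show 1 ≤ N by omega)
  refine ⟨a0, e1, e2, ?_, ?_, ?_, ?_, ?_, ?_, ?_, ?_, ?_, ?_, ?_, ?_, ?_⟩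
  · have := mono (show 2 ≤ 6 by norm_num); omega
  · omega
  · omega
  · have := mono (show 1 ≤ 4 by norm_num); rw [pow_one] at this; omega
  · positivity
  · exact one_div_le_one_div_of_le (by norm_num) (by linarith)
  · push_cast
    have : (1 / (l : ℝ)) * (l : ℝ) ^ 4 = l * l ^ 2 := by field_simp
    rw [this]; nlinarith
  · have h1 : P + 2 ≤ 5 * (P / 3) := by omega
    have h2 : 20 * (l ^ 2 / 20) ≤ l ^ 2 := Nat.mul_div_le _ _
    calc 4 * (l ^ 2 / 20 * (P + 2)) ≤ 4 * (l ^ 2 / 20 * (5 * (P / 3))) := by gcongr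
      _ = 20 * (l ^ 2 / 20) * (P / 3) := by ring
      _ ≤ l ^ 2 * (P / 3) := by gcongr
  · have h1 : r < l * (r / l + 1) := by
      have := Nat.lt_mul_div_succ r (show 0 < l by omega); exact this
    have h2 : N ≤ 40 * l * (r / l) := by nlinarith
    have h3 : 48 * l ^ 4 * (64 * N) ≤ (r / l) * 2 ^ a0 :=
      calc 48 * l ^ 4 * (64 * N) ≤ 48 * l ^ 4 * (64 * (40 * l * (r / l))) := by gcongr
        _ = (r / l) * (122880 * l ^ 5) := by ring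
        _ ≤ (r / l) * (l * l ^ 5) := by gcongr; omega
        _ = (r / l) * l ^ 6 := by ring
        _ ≤ (r / l) * 2 ^ a0 := by gcongr
    exact_mod_cast h3
  · positivity
  · have h1 : ((P / 3 : ℕ) : ℝ) ≤ N := by exact_mod_cast (show P / 3 ≤ N by omega)
    have h2 : (l : ℝ) ≤ N := by exact_mod_cast (show l ≤ N by omega)
    calc 1 / (N : ℝ) ^ 2 * ((P / 3 : ℕ) : ℝ) ≤ 1 / (N : ℝ) ^ 2 * N := by gcongr
      _ = 1 / (N : ℝ) := by field_simp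
      _ ≤ 1 / (l : ℝ) := one_div_le_one_div_of_le (by linarith) h2
      _ ≤ 2 * (1 / (l : ℝ)) := by
        have : (0 : ℝ) ≤ 1 / l := by positivity
        linarith
  · exact one_le_pow₀ hN1
  · positivity

theorem PAR_fin {N r : ℕ} (hN : 1000 ≤ N) (hr : r ≤ N) {a b c d : ℝ} (a0 : 0 ≤ a) (b0 : 0 ≤ b)
    (c0 : 0 ≤ c) (ha : a ≤ 1 / (N : ℝ) ^ 13) (hb : b ≤ 1 / (N : ℝ) ^ 13)
    (hc : c ≤ 1 / (N : ℝ) ^ 13) (hd : d ≤ 1 / (N : ℝ) ^ 6) :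
    64 * ((r : ℝ) + 1) ^ 2 * N ^ 5 * (a + b + c) + d ≤ 1 / N ^ 5 := by
  have hNR : (1000 : ℝ) ≤ N := by exact_mod_cast hN
  have hrR : (r : ℝ) + 1 ≤ 2 * N := by
    have : (r : ℝ) ≤ N := by exact_mod_cast hr
    linarith
  have h1 : a + b + c ≤ 3 * (1 / (N : ℝ) ^ 13) := by linarith
  calc 64 * ((r : ℝ) + 1) ^ 2 * N ^ 5 * (a + b + c) + d
      ≤ 64 * (2 * (N : ℝ)) ^ 2 * N ^ 5 * (3 * (1 / (N : ℝ) ^ 13)) + 1 / (N : ℝ) ^ 6 := by gcongr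
    _ = 769 / (N : ℝ) * (1 / (N : ℝ) ^ 5) := by field_simp; ring
    _ ≤ 1 * (1 / (N : ℝ) ^ 5) := by
      gcongr
      rw [div_le_one (by linarith)]; linarith
    _ = 1 / (N : ℝ) ^ 5 := one_mul _

theorem PAR : St_PAR := by
  intro N P l r hl hN hlN hP hPN hr hrN
  have l1 : 1 ≤ l := by omega
  have mono : ∀ {a b : ℕ}, a ≤ b → l ^ a ≤ l ^ b := fun h => Nat.pow_le_pow_right l1 h
  have lN : l ≤ N := by
    have := (mono (show 1 ≤ 600 by norm_num)).trans hlN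
    rwa [pow_one] at this
  have N1 : 1 ≤ N := by omega
  have hlR : (100000000 : ℝ) ≤ l := by exact_mod_cast hl
  have hNR : (l : ℝ) ≤ N := by exact_mod_cast lN
  have N0 : (0 : ℝ) < N := by linarith
  have l2 : l * 20 ≤ l ^ 2 := by rw [pow_two]; exact Nat.mul_le_mul_left _ (by omega)
  have ta : (l : ℝ) / 2 ^ l ^ 4 ≤ 1 / (N : ℝ) ^ 13 := by
    have h1 := PAR_pow hN 14 (l ^ 4) (by have := mono (show 2 ≤ 4 by norm_num); omega)
    calc (l : ℝ) / 2 ^ l ^ 4 ≤ N / (N : ℝ) ^ 14 := by gcongr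
      _ = 1 / (N : ℝ) ^ 13 := by field_simp
  have tb : Real.exp (1 - ((l ^ 4 : ℕ) : ℝ) * (1 / (l : ℝ)) ^ 2 / 2) ≤ 1 / (N : ℝ) ^ 13 := by
    refine PAR_small hN N1 13 ?_
    have : ((l ^ 4 : ℕ) : ℝ) * (1 / (l : ℝ)) ^ 2 = l * l := by push_cast; field_simp
    rw [this]; push_cast; nlinarith
  refine ⟨PAR_wp N P l r hl hN hlN hP hPN hr, ?_, ?_, ?_, ?_⟩
  · have h1 : Real.exp (-((l ^ 2 : ℕ) : ℝ) / 16) ≤ 1 / (N : ℝ) ^ 6 := by
      refine PAR_small hN N1 6 ?_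
      push_cast; nlinarith
    calc (N : ℝ) ^ 3 * Real.exp (-((l ^ 2 : ℕ) : ℝ) / 16) ≤ (N : ℝ) ^ 3 * (1 / (N : ℝ) ^ 6) := by
          gcongr
      _ = 1 / (N : ℝ) ^ 3 := by field_simp
  · have tc : (r : ℝ) * N ^ 5 / 3 ^ (20 * l) ≤ 1 / (N : ℝ) ^ 13 := by
      have h1 := PAR_pow hN 19 (20 * l) (by omega)
      have h2 : (2 : ℝ) ^ (20 * l) ≤ 3 ^ (20 * l) := pow_le_pow_left₀ (by norm_num) (by norm_num) _
      have h3 : (r : ℝ) ≤ N := by exact_mod_cast hrN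
      calc (r : ℝ) * N ^ 5 / 3 ^ (20 * l) ≤ N * N ^ 5 / (N : ℝ) ^ 19 := by
            gcongr; exact h1.trans h2
        _ = 1 / (N : ℝ) ^ 13 := by field_simp
    have := PAR_fin (d := 0) (by omega) hrN (by positivity) (by positivity) (by positivity) ta tb tc
      (by positivity)
    rwa [add_zero] at this
  · have tc : Real.exp (1 - ((l ^ 16 : ℕ) : ℝ) * (1 / (l : ℝ) ^ 7) ^ 2 / 2) ≤ 1 / (N : ℝ) ^ 13 := by
      refine PAR_small hN N1 13 ?_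
      have : ((l ^ 16 : ℕ) : ℝ) * (1 / (l : ℝ) ^ 7) ^ 2 = l * l := by push_cast; field_simp
      rw [this]; push_cast; nlinarith
    have td : (1 : ℝ) / 2 ^ l ^ 16 ≤ 1 / (N : ℝ) ^ 6 :=
      one_div_le_one_div_of_le (by positivity)
        (PAR_pow hN 6 (l ^ 16) (by have := mono (show 2 ≤ 16 by norm_num); omega))
    exact PAR_fin (by omega) hrN (by positivity) (by positivity) (by positivity) ta tb tc td
  · intro ε hε
    rw [← Real.exp_add]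
    refine PAR_small hN N1 5 ?_
    have h1 : (l : ℝ) * l ≤ 40 * ((l ^ 2 / 20 : ℕ) : ℝ) := by
      have : l * l ≤ 40 * (l ^ 2 / 20) := by rw [← pow_two]; omega
      exact_mod_cast this
    have h2 : 20 * (1 / (l : ℝ)) * ((l ^ 2 : ℕ) : ℝ) = 20 * l := by push_cast; field_simp
    have h3 : 0 < ε := by
      by_contra h
      have : ε * l ≤ 0 := mul_nonpos_of_nonpos_of_nonneg (not_lt.1 h) (by linarith)
      linarith
    rw [h2]; push_cast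
    have h4 : ε * (l * l) ≤ ε * (40 * ((l ^ 2 / 20 : ℕ) : ℝ)) := by gcongr
    have h5 : 1000 * (l : ℝ) ≤ ε * l * l := by gcongr
    nlinarith

end Pool.Agent.Lib.MP_64bee1_co.UN
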