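import Pool.Agent.Lib.MP_64bee1_co.UN.Stmts

/-!
Peeling the vertices in the order of a permutation.
-/

namespace Pool.Agent.Lib.MP_64bee1_co.UN

open Finset

/-- The vertices of rank below `r`. -/
def PEEL_S {N : ℕ} (π : Equiv.Perm (Fin N)) (r : ℕ) : Finset (Fin N) :=
  univ.filter fun u => (π u : ℕ) < r

theorem PEEL_mem {N : ℕ} (π : Equiv.Perm (Fin N)) (r : ℕ) (u : Fin N) :
    u ∈ PEEL_S π r ↔ (π u : ℕ) < r := by simp [PEEL_S]

theorem PEEL_sum {N : ℕ} (π : Equiv.Perm (Fin N)) (r : ℕ) (f : Fin N → ℝ) :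
    ∑ v ∈ PEEL_S π r, f v = ∑ s ∈ univ.filter (fun s : Fin N => (s : ℕ) < r), f (π⁻¹ s) := by
  refine sum_bij' (fun v _ => π v) (fun s _ => π⁻¹ s) ?_ ?_ ?_ ?_ ?_
  · intro v hv; simpa [PEEL_mem] using hv
  · intro s hs; simpa [PEEL_mem] using hs
  · intro v _; simp
  · intro s _; simp
  · intro v _; simp

theorem PEEL_card {N : ℕ} (π : Equiv.Perm (Fin N)) {r : ℕ} (hr : r ≤ N) :
    (PEEL_S π r).card = r := by
  have h := PEEL_sum π r fun _ => 1
  rw [sum_const, sum_const, Fin.card_filter_val_lt, min_eq_right hr] at h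
  simpa using h

theorem PEEL_swap_lt {N : ℕ} (s j x : Fin N) (hs : (s : ℕ) ≤ j) {r : ℕ} (hr : (j : ℕ) < r) :
    ((Equiv.swap s j x : Fin N) : ℕ) < r ↔ (x : ℕ) < r := by
  rw [Equiv.swap_apply_def]
  split_ifs with h1 h2
  · subst h1; constructor <;> intro _ <;> omega
  · subst h2; constructor <;> intro _ <;> omega
  · rfl

theorem PEEL_S_swap {N : ℕ} (π : Equiv.Perm (Fin N)) (s j : Fin N) (hs : (s : ℕ) ≤ j) {r : ℕ}
    (hr : (j : ℕ) < r) : PEEL_S (Equiv.swap s j * π) r = PEEL_S π r := by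
  ext u
  rw [PEEL_mem, PEEL_mem, Equiv.Perm.mul_apply, PEEL_swap_lt s j _ hs hr]

open Classical in
/-- The truncated weight. -/
noncomputable def PEEL_W {N : ℕ} (c : Finset (Fin N) → Fin N → ℝ) (Gd : Finset (Fin N) → Prop)
    (j0 j : ℕ) (π : Equiv.Perm (Fin N)) : ℝ :=
  (if Gd (PEEL_S π j0) then 1 else 0) *
    ∏ r ∈ univ.filter (fun r : Fin N => j ≤ (r : ℕ) ∧ (r : ℕ) < j0), c (PEEL_S π (r + 1)) (π⁻¹ r)

section W
variable {N : ℕ} {c : Finset (Fin N) → Fin N → ℝ} {Gd : Finset (Fin N) → Prop}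

theorem PEEL_W_nonneg (h0 : ∀ S v, 0 ≤ c S v) (j0 j : ℕ) (π : Equiv.Perm (Fin N)) :
    0 ≤ PEEL_W c Gd j0 j π := by
  unfold PEEL_W
  refine mul_nonneg ?_ (prod_nonneg fun r _ => h0 _ _)
  split_ifs <;> norm_num

theorem PEEL_W_step (j0 : ℕ) (j : Fin N) (hj : (j : ℕ) < j0) (π : Equiv.Perm (Fin N)) :
    PEEL_W c Gd j0 j π = PEEL_W c Gd j0 (j + 1) π * c (PEEL_S π (j + 1)) (π⁻¹ j) := by
  unfold PEEL_W
  have e : univ.filter (fun r : Fin N => (j : ℕ) ≤ (r : ℕ) ∧ (r : ℕ) < j0) =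
      insert j (univ.filter fun r : Fin N => (j : ℕ) + 1 ≤ (r : ℕ) ∧ (r : ℕ) < j0) := by
    ext r
    simp only [mem_filter, mem_univ, true_and, mem_insert, Fin.ext_iff]
    omega
  rw [e, prod_insert (by simp)]
  ring

theorem PEEL_W_swap (j0 : ℕ) (s j : Fin N) (hs : (s : ℕ) ≤ j) (hj : (j : ℕ) < j0)
    (π : Equiv.Perm (Fin N)) :
    PEEL_W c Gd j0 (j + 1) (Equiv.swap s j * π) = PEEL_W c Gd j0 (j + 1) π := by
  unfold PEEL_W
  rw [PEEL_S_swap π s j hs hj]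
  congr 1
  refine prod_congr rfl fun r hr => ?_
  have hr' := (mem_filter.1 hr).2.1
  rw [PEEL_S_swap π s j hs (by omega), mul_inv_rev, Equiv.swap_inv, Equiv.Perm.mul_apply,
    Equiv.swap_apply_of_ne_of_ne (by intro h; subst h; omega) (by intro h; subst h; omega)]

theorem PEEL_shift (j0 : ℕ) (s j : Fin N) (hs : (s : ℕ) ≤ j) (hj : (j : ℕ) < j0) :
    ∑ π : Equiv.Perm (Fin N), PEEL_W c Gd j0 j π =
      ∑ π : Equiv.Perm (Fin N), PEEL_W c Gd j0 (j + 1) π * c (PEEL_S π (j + 1)) (π⁻¹ s) := by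
  rw [← Equiv.sum_comp (Equiv.mulLeft (Equiv.swap s j))]
  refine sum_congr rfl fun π _ => ?_
  rw [Equiv.coe_mulLeft, PEEL_W_step j0 j hj, PEEL_W_swap j0 s j hs hj,
    PEEL_S_swap π s j hs (Nat.lt_succ_self _), mul_inv_rev, Equiv.swap_inv, Equiv.Perm.mul_apply,
    Equiv.swap_apply_right]

theorem PEEL_one {κ : ℝ} {j1 j0 : ℕ} (h0 : ∀ S v, 0 ≤ c S v) (hN : j0 ≤ N)
    (H : ∀ S0, S0.card = j0 → Gd S0 → ∀ S ⊆ S0, j1 < S.card → ∑ v ∈ S, c S v ≤ κ * S.card)
    (j : ℕ) (h1 : j1 ≤ j) (hj : j < j0) :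
    ∑ π : Equiv.Perm (Fin N), PEEL_W c Gd j0 j π ≤
      κ * ∑ π : Equiv.Perm (Fin N), PEEL_W c Gd j0 (j + 1) π := by
  classical
  let J : Fin N := ⟨j, by omega⟩
  have hpos : (0 : ℝ) < (j + 1 : ℕ) := by positivity
  refine le_of_mul_le_mul_left ?_ hpos
  have e1 : ((j + 1 : ℕ) : ℝ) * ∑ π : Equiv.Perm (Fin N), PEEL_W c Gd j0 j π =
      ∑ s ∈ univ.filter (fun s : Fin N => (s : ℕ) < j + 1), ∑ π : Equiv.Perm (Fin N),
        PEEL_W c Gd j0 (j + 1) π * c (PEEL_S π (j + 1)) (π⁻¹ s) := by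
    rw [sum_congr rfl fun s hs => (PEEL_shift (c := c) (Gd := Gd) j0 s J
      (by have := (mem_filter.1 hs).2; simp only [J]; omega) hj).symm]
    rw [sum_const, Fin.card_filter_val_lt, min_eq_right (by omega), nsmul_eq_mul]
  rw [e1, sum_comm, mul_sum, mul_sum]
  refine sum_le_sum fun π _ => ?_
  rw [← mul_sum, ← PEEL_sum π (j + 1) (fun v => c (PEEL_S π (j + 1)) v)]
  by_cases hG : Gd (PEEL_S π j0)
  · have h2 := H _ (PEEL_card π hN) hG (PEEL_S π (j + 1))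
      (fun u hu => by rw [PEEL_mem] at hu ⊢; omega) (by rw [PEEL_card π (by omega)]; omega)
    rw [PEEL_card π (by omega)] at h2
    have h3 := mul_le_mul_of_nonneg_left h2 (PEEL_W_nonneg (Gd := Gd) h0 j0 (j + 1) π)
    linarith
  · have : PEEL_W c Gd j0 (j + 1) π = 0 := by unfold PEEL_W; rw [if_neg hG, zero_mul]
    rw [this]; simp

theorem PEEL_ind {κ : ℝ} {j1 j0 : ℕ} (h0 : ∀ S v, 0 ≤ c S v) (hκ : 0 ≤ κ) (hN : j0 ≤ N)
    (H : ∀ S0, S0.card = j0 → Gd S0 → ∀ S ⊆ S0, j1 < S.card → ∑ v ∈ S, c S v ≤ κ * S.card)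
    (i : ℕ) (hi : j1 + i ≤ j0) :
    ∑ π : Equiv.Perm (Fin N), PEEL_W c Gd j0 (j0 - i) π ≤ κ ^ i * N.factorial := by
  classical
  induction i with
  | zero =>
    have : ∀ π : Equiv.Perm (Fin N), PEEL_W c Gd j0 (j0 - 0) π ≤ 1 := fun π => by
      unfold PEEL_W
      rw [filter_false_of_mem (fun r _ => by omega), prod_empty]
      split_ifs <;> norm_num
    refine (sum_le_sum fun π _ => this π).trans ?_
    simp [Fintype.card_perm]
  | succ i ih =>
    refine (PEEL_one h0 hN H (j0 - (i + 1)) (by omega) (by omega)).trans ?_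
    rw [show j0 - (i + 1) + 1 = j0 - i by omega, pow_succ', mul_assoc]
    exact mul_le_mul_of_nonneg_left (ih (by omega)) hκ

end W

theorem PEEL_fibre {N j0 : ℕ} (hN : j0 ≤ N) (S0 : Finset (Fin N)) :
    (univ.filter fun π : Equiv.Perm (Fin N) => PEEL_S π j0 = S0).card ≤
      j0.factorial * (N - j0).factorial := by
  classical
  rcases (univ.filter fun π : Equiv.Perm (Fin N) => PEEL_S π j0 = S0).eq_empty_or_nonempty with
    h | ⟨π0, h⟩
  · rw [h]; simp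
  have h0 := (mem_filter.1 h).2
  let f : Fin N → Bool := fun r => decide ((r : ℕ) < j0)
  have hc := DomMulAct.stabilizer_card f
  have e1 : Fintype.card {a // f a = true} = j0 := by
    rw [Fintype.card_subtype]
    simp only [f, decide_eq_true_eq]
    rw [Fin.card_filter_val_lt, min_eq_right hN]
  have e2 : Fintype.card {a // f a = false} = N - j0 := by
    have := Fintype.card_subtype_compl fun a => f a = true
    rw [e1, Fintype.card_fin] at this
    rw [← this]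
    exact Fintype.card_congr (Equiv.subtypeEquivRight fun a => by simp)
  rw [Fintype.prod_bool, e1, e2, Fintype.card_subtype] at hc
  rw [← hc]
  refine card_le_card_of_injOn (fun π => π * π0⁻¹) (fun π hπ => ?_) (fun a _ b _ hab => ?_)
  · have h1 := (mem_filter.1 (mem_coe.1 hπ)).2
    refine mem_coe.2 (mem_filter.2 ⟨mem_univ _, funext fun r => ?_⟩)
    have h2 : π0⁻¹ r ∈ PEEL_S π j0 ↔ π0⁻¹ r ∈ PEEL_S π0 j0 := by rw [h1, h0]
    rw [PEEL_mem, PEEL_mem, show π0 (π0⁻¹ r) = r by simp] at h2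
    simp only [f, Function.comp, Equiv.Perm.mul_apply, h2]
  · exact mul_right_cancel hab

theorem PEEL : St_PEEL := by
  classical
  intro N j1 j0 c κ Gd h0 h1 hκ hj hN H
  have hA := PEEL_ind (Gd := Gd) h0 hκ hN H (j0 - j1) (by omega)
  rw [show j0 - (j0 - j1) = j1 by omega] at hA
  have hB : ∀ π : Equiv.Perm (Fin N), ∏ v, c (univ.filter fun u => π u ≤ π v) v ≤
      PEEL_W c Gd j0 j1 π + if ¬ Gd (PEEL_S π j0) then 1 else 0 := fun π => by
    have e : ∏ v, c (univ.filter fun u => π u ≤ π v) v =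
        ∏ r : Fin N, c (PEEL_S π (r + 1)) (π⁻¹ r) := by
      rw [← Equiv.prod_comp π fun r : Fin N => c (PEEL_S π (r + 1)) (π⁻¹ r)]
      refine prod_congr rfl fun v _ => ?_
      rw [show π⁻¹ (π v) = v by simp]
      congr 1
      ext u
      rw [PEEL_mem, mem_filter, Fin.le_def]
      simp only [mem_univ, true_and]
      omega
    rw [e]
    by_cases hG : Gd (PEEL_S π j0)
    · unfold PEEL_W
      rw [if_pos hG, if_neg (not_not.2 hG), one_mul, add_zero]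
      exact prod_le_prod_of_subset_of_le_one (subset_univ _) (fun r _ => h0 _ _)
        (fun r _ _ => h1 _ _)
    · rw [if_pos hG]
      have := PEEL_W_nonneg (Gd := Gd) h0 j0 j1 π
      have := prod_le_one (s := univ) (f := fun r : Fin N => c (PEEL_S π (r + 1)) (π⁻¹ r))
        (fun r _ => h0 _ _) (fun r _ => h1 _ _)
      linarith
  refine (sum_le_sum fun π _ => hB π).trans ?_
  rw [sum_add_distrib]
  refine add_le_add hA ?_
  rw [← cc_real, ← Nat.cast_mul, Nat.cast_le, cc_eq, cc_eq]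
  refine (card_le_mul_card_image_of_maps_to (f := fun π => PEEL_S π j0)
    (t := univ.filter fun S0 : Finset (Fin N) => S0.card = j0 ∧ ¬ Gd S0) (fun π hπ => ?_)
    (j0.factorial * (N - j0).factorial) (fun S0 _ => ?_)).trans (le_of_eq (mul_comm _ _))
  · exact mem_filter.2 ⟨mem_univ _, PEEL_card π hN, (mem_filter.1 hπ).2⟩
  · refine le_trans (card_le_card fun π hπ => ?_) (PEEL_fibre hN S0)
    exact mem_filter.2 ⟨mem_univ _, (mem_filter.1 hπ).2⟩

end Pool.Agent.Lib.MP_64bee1_co.UN
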