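import Pool.Agent.Lib.MP_64bee1_co.UN.Stmts

/-!
Growth of the coefficients of a binomial block times a nonnegative polynomial, cold regime.
-/

namespace Pool.Agent.Lib.MP_64bee1_co.UN

open Finset Polynomial

theorem PKcold_exp {η : ℝ} (h0 : 0 < η) (h1 : η ≤ 1 / 8) : Real.exp η - 1 ≤ η + η ^ 2 := by
  have h := Real.abs_exp_sub_one_sub_id_le (x := η) (by rw [abs_of_pos h0]; linarith)
  have := le_abs_self (Real.exp η - 1 - η)
  linarith

theorem PKcold_coin {η r : ℝ} (h0 : 0 < η) (h1 : η ≤ 1 / 8) (hr0 : 0 ≤ r) (hr : r ≤ 1 - 8 * η) :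
    1 + Real.exp η * r ≤ Real.exp ((1 / 2 - 2 * η) * (η + η ^ 2)) * (1 + r) := by
  have hu := PKcold_exp h0 h1
  have hv : 0 ≤ η + η ^ 2 := by positivity
  have h2 : r ≤ (1 / 2 - 2 * η) * (1 + r) := by nlinarith
  have h3 := Real.add_one_le_exp ((1 / 2 - 2 * η) * (η + η ^ 2))
  have h4 : (Real.exp η - 1) * r ≤ (η + η ^ 2) * r := mul_le_mul_of_nonneg_right hu hr0
  have h5 : (η + η ^ 2) * r ≤ (η + η ^ 2) * ((1 / 2 - 2 * η) * (1 + r)) :=
    mul_le_mul_of_nonneg_left h2 hv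
  have h6 : ((1 / 2 - 2 * η) * (η + η ^ 2) + 1) * (1 + r) ≤
      Real.exp ((1 / 2 - 2 * η) * (η + η ^ 2)) * (1 + r) :=
    mul_le_mul_of_nonneg_right h3 (by linarith)
  nlinarith

theorem PKcold_eval (Δ n : ℕ) (x : ℝ) :
    (Kp Δ n).eval x = (1 + x ^ Δ) ^ n * (∑ r ∈ range Δ, x ^ r) ^ 2 := by
  simp [Kp, eval_finsetSum]

theorem PKcold_tilt {Δ n : ℕ} {η q : ℝ} (hΔ : 1 ≤ Δ) (h0 : 0 < η) (h1 : η ≤ 1 / 8) (hq : 0 < q)
    (hr : q ^ Δ ≤ 1 - 8 * η) :
    Real.exp (η - η * (1 / 2 - η) * n) * (Kp Δ n).eval (Real.exp (η / Δ) * q) ≤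
      Real.exp (1 - n * η ^ 2 / 2) * (Kp Δ n).eval q := by
  have hΔ' : (0 : ℝ) < Δ := by exact_mod_cast hΔ
  have hz : Real.exp (η / Δ) ^ Δ = Real.exp η := by
    rw [← Real.exp_nat_mul]; congr 1; field_simp
  have hz1 : 1 ≤ Real.exp (η / Δ) := Real.one_le_exp (by positivity)
  have hG : ∑ r ∈ range Δ, (Real.exp (η / Δ) * q) ^ r ≤ Real.exp η * ∑ r ∈ range Δ, q ^ r := by
    rw [mul_sum]
    refine sum_le_sum fun r hr' => ?_
    rw [mul_pow, ← hz]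
    exact mul_le_mul_of_nonneg_right (pow_le_pow_right₀ hz1 (mem_range.1 hr').le) (by positivity)
  have hG0 : 0 ≤ ∑ r ∈ range Δ, (Real.exp (η / Δ) * q) ^ r := sum_nonneg fun r _ => by positivity
  have hC : 1 + (Real.exp (η / Δ) * q) ^ Δ ≤
      Real.exp ((1 / 2 - 2 * η) * (η + η ^ 2)) * (1 + q ^ Δ) := by
    rw [mul_pow, hz]; exact PKcold_coin h0 h1 (by positivity) hr
  rw [PKcold_eval, PKcold_eval]
  have h2 : (1 + (Real.exp (η / Δ) * q) ^ Δ) ^ n * (∑ r ∈ range Δ, (Real.exp (η / Δ) * q) ^ r) ^ 2 ≤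
      (Real.exp ((1 / 2 - 2 * η) * (η + η ^ 2)) * (1 + q ^ Δ)) ^ n *
        (Real.exp η * ∑ r ∈ range Δ, q ^ r) ^ 2 :=
    mul_le_mul (pow_le_pow_left₀ (by positivity) hC n) (pow_le_pow_left₀ hG0 hG 2) (by positivity)
      (by positivity)
  refine (mul_le_mul_of_nonneg_left h2 (Real.exp_pos _).le).trans ?_
  have h3 : Real.exp (η - η * (1 / 2 - η) * n) *
      ((Real.exp ((1 / 2 - 2 * η) * (η + η ^ 2)) * (1 + q ^ Δ)) ^ n *
        (Real.exp η * ∑ r ∈ range Δ, q ^ r) ^ 2) =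
      Real.exp (η - η * (1 / 2 - η) * n + n * ((1 / 2 - 2 * η) * (η + η ^ 2)) + 2 * η) *
        ((1 + q ^ Δ) ^ n * (∑ r ∈ range Δ, q ^ r) ^ 2) := by
    rw [Real.exp_add, Real.exp_add, Real.exp_nat_mul, two_mul η, Real.exp_add, mul_pow, mul_pow]
    ring
  rw [h3]
  refine mul_le_mul_of_nonneg_right (Real.exp_le_exp.2 ?_) (by positivity)
  have hn : (0 : ℝ) ≤ n * η ^ 3 := by positivity
  nlinarith

theorem PKcold_bad {Δ n y : ℕ} {η : ℝ} (hΔ : 1 ≤ Δ) (h0 : 0 < η)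
    (hy : ¬ (((y + 1) / Δ : ℕ) : ℝ) ≤ (1 / 2 - η) * n) :
    1 ≤ Real.exp (η - η * (1 / 2 - η) * n) * Real.exp (η / Δ) ^ y := by
  have hΔ1 : (1 : ℝ) ≤ Δ := by exact_mod_cast hΔ
  have hΔ' : (0 : ℝ) < Δ := by linarith
  rw [← Real.exp_nat_mul, ← Real.exp_add]
  refine Real.one_le_exp ?_
  have h1 : (((y + 1) / Δ : ℕ) : ℝ) ≤ ((y + 1 : ℕ) : ℝ) / Δ := Nat.cast_div_le
  have h2 : (1 / 2 - η) * n ≤ (y : ℝ) / Δ + 1 := by
    have h3 : (1 : ℝ) / Δ ≤ 1 := by rw [div_le_one hΔ']; exact hΔ1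
    push_cast at h1
    rw [add_div] at h1
    linarith [not_le.1 hy]
  have h4 : (y : ℝ) * (η / Δ) = η * (y / Δ) := by ring
  rw [h4]
  nlinarith [mul_le_mul_of_nonneg_left h2 h0.le]

theorem PKcold (hg : St_PKg) : St_PKcold := by
  intro Δ n m η q H hΔ h0 h1 hq _ hr hH
  have hΔ' : (0 : ℝ) < Δ := by exact_mod_cast hΔ
  have hK := nn_Kp Δ n
  set K := Kp Δ n with hKdef
  set z := Real.exp (η / Δ) with hz
  set c := Real.exp (η - η * (1 / 2 - η) * n) with hc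
  have hz0 : 0 < z := Real.exp_pos _
  have hc0 : 0 < c := Real.exp_pos _
  have hξ : 0 ≤ 1 + 2 * η / Δ := by positivity
  have hK' : Nn (K.comp (C z * X)) := fun j => by
    rw [comp_C_mul_X_coeff]; exact mul_nonneg (hK j) (by positivity)
  -- the tilted product dominates the bad part
  have hB : c * (K.comp (C z * X) * H).coeff m ≤
      Real.exp (1 - n * η ^ 2 / 2) * ((K * H).eval q / q ^ m) := by
    refine (mul_le_mul_of_nonneg_left ((hK'.mul hH).coeff_le hq m) hc0.le).trans ?_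
    have h2 := PKcold_tilt (n := n) hΔ h0 h1 hq hr
    have h3 : 0 ≤ H.eval q / q ^ m := div_nonneg (hH.eval_nonneg hq.le) (by positivity)
    have h4 := mul_le_mul_of_nonneg_right h2 h3
    simp only [eval_mul, eval_comp, eval_C, eval_X]
    calc c * (eval (z * q) K * eval q H / q ^ m) = c * eval (z * q) K * (eval q H / q ^ m) := by ring
      _ ≤ _ := h4
      _ = _ := by ring
  have hterm : ∀ p ∈ antidiagonal m, (1 + 2 * η / Δ) * (K.coeff p.1 * H.coeff p.2 -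
      c * ((K.comp (C z * X)).coeff p.1 * H.coeff p.2)) ≤ K.coeff (p.1 + 1) * H.coeff p.2 := by
    intro p _
    rw [comp_C_mul_X_coeff]
    have hp : 0 ≤ K.coeff p.1 * H.coeff p.2 := mul_nonneg (hK _) (hH _)
    by_cases hy : (((p.1 + 1) / Δ : ℕ) : ℝ) ≤ (1 / 2 - η) * n
    · have h2 := mul_le_mul_of_nonneg_right (hg Δ n p.1 η hΔ h0.le (by linarith) hy) (hH p.2)
      have h3 : 0 ≤ c * (K.coeff p.1 * z ^ p.1 * H.coeff p.2) :=
        mul_nonneg hc0.le (mul_nonneg (mul_nonneg (hK _) (by positivity)) (hH _))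
      calc _ ≤ (1 + 2 * η / Δ) * (K.coeff p.1 * H.coeff p.2) :=
            mul_le_mul_of_nonneg_left (by linarith) hξ
        _ = (1 + 2 * η / Δ) * K.coeff p.1 * H.coeff p.2 := by ring
        _ ≤ _ := h2
    · have h2 := mul_le_mul_of_nonneg_right (PKcold_bad hΔ h0 hy) hp
      have h3 : K.coeff p.1 * H.coeff p.2 - c * (K.coeff p.1 * z ^ p.1 * H.coeff p.2) ≤ 0 := by
        have : c * (K.coeff p.1 * z ^ p.1 * H.coeff p.2) =
            c * z ^ p.1 * (K.coeff p.1 * H.coeff p.2) := by ring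
        rw [this]; linarith
      exact (mul_nonpos_of_nonneg_of_nonpos hξ h3).trans (mul_nonneg (hK _) (hH _))
  have hsum := sum_le_sum hterm
  rw [← mul_sum, sum_sub_distrib, ← mul_sum, ← coeff_mul, ← coeff_mul] at hsum
  have hsucc : ∑ p ∈ antidiagonal m, K.coeff (p.1 + 1) * H.coeff p.2 ≤ (K * H).coeff (m + 1) := by
    rw [coeff_mul, Finset.Nat.sum_antidiagonal_succ]
    exact le_add_of_nonneg_left (mul_nonneg (hK _) (hH _))
  exact (mul_le_mul_of_nonneg_left (by linarith) hξ).trans (hsum.trans hsucc)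

end Pool.Agent.Lib.MP_64bee1_co.UN
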