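import Pool.Agent.Lib.MP_64bee1_co.UN.Stmts

/-!
Growth of the coefficients of a binomial block times a nonnegative polynomial, hot regime.
-/

namespace Pool.Agent.Lib.MP_64bee1_co.UN

open Finset Polynomial

theorem PKhot_step {n k : ℕ} {η : ℝ} (h0 : 0 < η) (h1 : η ≤ 1 / 8) (hn : 1 ≤ η * n)
    (hk : (1 / 2 - 2 * η) * n < (k : ℝ) + 1) :
    (n.choose (k + 1) : ℝ) ≤ (1 + 20 * η) * n.choose k := by
  have hk0 : (0 : ℝ) < (k : ℝ) + 1 := by positivity
  have h2 : (n.choose (k + 1) : ℝ) * ((k : ℝ) + 1) = n.choose k * ((n - k : ℕ) : ℝ) := by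
    exact_mod_cast Nat.choose_succ_right_eq n k
  have h3 : ((n - k : ℕ) : ℝ) ≤ (1 + 20 * η) * ((k : ℝ) + 1) := by
    rcases le_total k n with h | h
    · rw [Nat.cast_sub h]
      have hn0 : (0 : ℝ) ≤ n := by positivity
      have h4 : (1 + 20 * η) * ((1 / 2 - 2 * η) * n) ≤ (1 + 20 * η) * ((k : ℝ) + 1) :=
        mul_le_mul_of_nonneg_left hk.le (by positivity)
      have h5 : 0 ≤ η * (1 / 8 - η) * n :=
        mul_nonneg (mul_nonneg h0.le (by linarith)) hn0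
      nlinarith
    · rw [Nat.sub_eq_zero_of_le h]; push_cast; positivity
  refine le_of_mul_le_mul_right ?_ hk0
  rw [h2]
  calc (n.choose k : ℝ) * ((n - k : ℕ) : ℝ) ≤ n.choose k * ((1 + 20 * η) * ((k : ℝ) + 1)) :=
        mul_le_mul_of_nonneg_left h3 (by positivity)
    _ = _ := by ring

theorem PKhot_iter {n a : ℕ} {η : ℝ} (h0 : 0 < η) (h1 : η ≤ 1 / 8) (hn : 1 ≤ η * n)
    (ha : (1 / 2 - 2 * η) * n < (a : ℝ) + 1) (t : ℕ) :
    (n.choose (a + t) : ℝ) ≤ Real.exp (20 * η * t) * n.choose a := by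
  induction t with
  | zero => simp
  | succ t ih =>
    have ht : (0 : ℝ) ≤ t := by positivity
    have h2 := PKhot_step (n := n) (k := a + t) h0 h1 hn (by push_cast; linarith)
    have h3 : 1 + 20 * η ≤ Real.exp (20 * η) := by
      have := Real.add_one_le_exp (20 * η); linarith
    have h4 : Real.exp (20 * η * ((t + 1 : ℕ) : ℝ)) = Real.exp (20 * η) * Real.exp (20 * η * t) := by
      rw [← Real.exp_add]; congr 1; push_cast; ring
    rw [← add_assoc, h4, mul_assoc]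
    exact h2.trans (mul_le_mul h3 ih (by positivity) (Real.exp_pos _).le)

theorem PKhot_bad (hf : St_PKf) {Δ n h y : ℕ} {η : ℝ} (hΔ : 1 ≤ Δ) (h0 : 0 < η) (h1 : η ≤ 1 / 8)
    (hh : (h : ℝ) + 1 ≤ η * n) (hy : ¬ (((y + 1) / Δ : ℕ) : ℝ) ≤ (1 / 2 - η) * n) :
    (Kp Δ n).coeff y ≤ Real.exp (20 * η * h) * (X ^ (h * Δ) * Kp Δ n).coeff y := by
  have hh0 : (0 : ℝ) ≤ h := by positivity
  have hn0 : (0 : ℝ) ≤ n := by positivity
  have hn : 1 ≤ η * n := by linarith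
  have hρ : y % Δ < Δ := Nat.mod_lt _ hΔ
  have hyj : y = y / Δ * Δ + y % Δ := (Nat.div_add_mod' y Δ).symm
  have h2 : (y + 1) / Δ ≤ y / Δ + 1 := by
    refine Nat.div_le_of_le_mul ?_
    rw [mul_add, mul_one, mul_comm]
    omega
  have h3 : (((y + 1) / Δ : ℕ) : ℝ) ≤ ((y / Δ : ℕ) : ℝ) + 1 := by exact_mod_cast h2
  have h4 : (1 / 2 - 2 * η) * n + h < ((y / Δ : ℕ) : ℝ) := by
    have := not_le.1 hy
    nlinarith
  have h5 : 0 ≤ (1 / 2 - 2 * η) * n := mul_nonneg (by linarith) hn0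
  have h6 : h < y / Δ := by
    have : (h : ℝ) < ((y / Δ : ℕ) : ℝ) := by linarith
    exact_mod_cast this
  obtain ⟨a, ha⟩ : ∃ a, y / Δ = a + 1 + h := ⟨y / Δ - h - 1, by omega⟩
  generalize y % Δ = ρ at hρ hyj
  rw [ha] at hyj h4
  push_cast at h4
  have h7 : y = (a + 1) * Δ + ρ + h * Δ := by rw [hyj]; ring
  have h8 : (X ^ (h * Δ) * Kp Δ n).coeff y = (Kp Δ n).coeff ((a + 1) * Δ + ρ) := by
    rw [h7, coeff_X_pow_mul]
  rw [h8, hyj, hf Δ n _ ρ hρ, hf Δ n _ ρ hρ, if_neg (by omega), if_neg (by omega)]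
  have e1 : a + 1 + h - 1 = a + h := by omega
  have e2 : a + 1 - 1 = a := by omega
  rw [e1, e2]
  have i1 := PKhot_iter (n := n) (a := a + 1) h0 h1 hn (by push_cast; linarith) h
  have i2 := PKhot_iter (n := n) (a := a) h0 h1 hn (by linarith) h
  have c1 : (0 : ℝ) ≤ (ρ : ℝ) + 1 := by positivity
  have c2 : (0 : ℝ) ≤ (Δ : ℝ) - 1 - ρ := by
    have : ((ρ + 1 : ℕ) : ℝ) ≤ Δ := by exact_mod_cast hρ
    push_cast at this; linarith
  have j1 := mul_le_mul_of_nonneg_left i1 c1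
  have j2 := mul_le_mul_of_nonneg_left i2 c2
  nlinarith

theorem PKhot (hf : St_PKf) (hg : St_PKg) : St_PKhot := by
  intro Δ n h m η H hΔ h0 h1 hh hH
  have hΔ' : (0 : ℝ) < Δ := by exact_mod_cast hΔ
  have hK := nn_Kp Δ n
  have hbad := fun y => PKhot_bad hf (y := y) hΔ h0 h1 hh
  have hgood := fun y => hg Δ n y η hΔ h0.le (by linarith)
  set K := Kp Δ n with hKdef
  set c := Real.exp (20 * η * h) with hc
  have hc0 : 0 < c := Real.exp_pos _
  have hξ : 0 ≤ 1 + 2 * η / Δ := by positivity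
  have hK' : Nn (X ^ (h * Δ) * K) := (nn_X_pow _).mul hK
  have hB : (X ^ (h * Δ) * K * H).coeff m =
      if h * Δ ≤ m then (K * H).coeff (m - h * Δ) else 0 := by
    rw [mul_assoc, coeff_X_pow_mul']
  have hterm : ∀ p ∈ antidiagonal m, (1 + 2 * η / Δ) * (K.coeff p.1 * H.coeff p.2 -
      c * ((X ^ (h * Δ) * K).coeff p.1 * H.coeff p.2)) ≤ K.coeff (p.1 + 1) * H.coeff p.2 := by
    intro p _
    by_cases hy : (((p.1 + 1) / Δ : ℕ) : ℝ) ≤ (1 / 2 - η) * n
    · have h2 := mul_le_mul_of_nonneg_right (hgood p.1 hy) (hH p.2)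
      have h3 : 0 ≤ c * ((X ^ (h * Δ) * K).coeff p.1 * H.coeff p.2) :=
        mul_nonneg hc0.le (mul_nonneg (hK' _) (hH _))
      calc _ ≤ (1 + 2 * η / Δ) * (K.coeff p.1 * H.coeff p.2) :=
            mul_le_mul_of_nonneg_left (by linarith) hξ
        _ = (1 + 2 * η / Δ) * K.coeff p.1 * H.coeff p.2 := by ring
        _ ≤ _ := h2
    · have h2 := mul_le_mul_of_nonneg_right (hbad p.1 hy) (hH p.2)
      have h3 : K.coeff p.1 * H.coeff p.2 -
          c * ((X ^ (h * Δ) * K).coeff p.1 * H.coeff p.2) ≤ 0 := by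
        rw [← mul_assoc]; linarith
      exact (mul_nonpos_of_nonneg_of_nonpos hξ h3).trans (mul_nonneg (hK _) (hH _))
  have hsum := sum_le_sum hterm
  rw [← mul_sum, sum_sub_distrib, ← mul_sum, ← coeff_mul, ← coeff_mul, hB] at hsum
  have hsucc : ∑ p ∈ antidiagonal m, K.coeff (p.1 + 1) * H.coeff p.2 ≤ (K * H).coeff (m + 1) := by
    rw [coeff_mul, Finset.Nat.sum_antidiagonal_succ]
    exact le_add_of_nonneg_left (mul_nonneg (hK _) (hH _))
  exact hsum.trans hsucc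

end Pool.Agent.Lib.MP_64bee1_co.UN
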