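import Pool.Agent.Lib.MP_64bee1_co.UN.Stmts

/-!
The step from level `m` to level `m + 1` near the centre.
-/

namespace Pool.Agent.Lib.MP_64bee1_co.UN

open Finset

theorem REGA_cos {y : ℝ} (h : |y| ≤ 1 / 2) : Real.exp (-(y ^ 2)) ≤ |Real.cos y| := by
  have h1 := Real.one_sub_sq_div_two_le_cos (x := y)
  have h2 : y ^ 2 ≤ 1 / 4 := by
    have := sq_le_sq' (abs_le.1 h).1 (abs_le.1 h).2
    linarith
  have h3 : y ^ 2 + 1 ≤ Real.exp (y ^ 2) := Real.add_one_le_exp _
  have h0 : 0 ≤ y ^ 2 := sq_nonneg y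
  have h4 : Real.exp (-(y ^ 2)) ≤ 1 - y ^ 2 / 2 := by
    rw [Real.exp_neg, inv_le_iff_one_le_mul₀ (Real.exp_pos _)]
    have : (1 - y ^ 2 / 2) * (y ^ 2 + 1) ≤ (1 - y ^ 2 / 2) * Real.exp (y ^ 2) :=
      mul_le_mul_of_nonneg_left h3 (by linarith)
    nlinarith
  exact h4.trans (h1.trans (le_abs_self _))

theorem REGA_two (a b : ℝ) : |2 * Real.sin a * Real.sin b| ≤ 2 := by
  rw [abs_mul, abs_mul, abs_two]
  have := Real.abs_sin_le_one a
  have := Real.abs_sin_le_one b
  have := abs_nonneg (Real.sin a)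
  have := abs_nonneg (Real.sin b)
  nlinarith

theorem REGA_Fi {ι : Type} (d : ι → ℤ) (S : Finset ι) (x : ℤ) (t : ℝ) :
    -(2 * ∏ v ∈ S, |Real.cos (d v * t)|) ≤ Fi d S x t := by
  have a3 : |Fi d S x t| ≤ (∏ v ∈ S, |Real.cos (d v * t)|) * 2 := by
    unfold Fi
    rw [abs_mul, abs_prod]
    exact mul_le_mul_of_nonneg_left (REGA_two _ _) (prod_nonneg fun v _ => abs_nonneg _)
  linarith [(abs_le.1 a3).1]

theorem REGA_low_eq {ι : Type} [Fintype ι] (d : ι → ℤ) (p : ℕ) (x : ℤ) :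
    ∫ t in (0 : ℝ)..(1 / (2 * p)), Fi d univ x t = lowI d p ((x : ℝ) + 1) := rfl

theorem REGA_low_ge {ι : Type} [Fintype ι] (d : ι → ℤ) {p : ℕ} (hp : 1 ≤ p) (x : ℤ) :
    -1 ≤ lowI d p ((x : ℝ) + 1) := by
  rw [← REGA_low_eq]
  have hp' : (1 : ℝ) ≤ p := by exact_mod_cast hp
  have h0 : (0 : ℝ) ≤ 1 / (2 * p) := by positivity
  have h1 : (1 : ℝ) / (2 * p) ≤ 1 / 2 := one_div_le_one_div_of_le (by norm_num) (by linarith)
  have j3 := intervalIntegral.integral_mono_on h0
    (intervalIntegrable_const (c := (-2 : ℝ)) (μ := MeasureTheory.volume))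
    ((Fi_cont d univ x).intervalIntegrable _ _) fun t _ => by
      have a := REGA_Fi d univ x t
      have b : ∏ v, |Real.cos (d v * t)| ≤ 1 :=
        prod_le_one (fun v _ => abs_nonneg _) fun v _ => Real.abs_cos_le_one _
      linarith
  rw [intervalIntegral.integral_const, smul_eq_mul] at j3
  linarith

theorem REGA_half {ι : Type} [DecidableEq ι] (d : ι → ℤ) (S : Finset ι) (x : ℤ)
    (hpar : (x - ∑ v ∈ S, d v) % 2 = 0) :
    ∫ t in (0 : ℝ)..Real.pi, Fi d S x t = 2 * ∫ t in (0 : ℝ)..(Real.pi / 2), Fi d S x t := by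
  have ii : ∀ a b : ℝ, IntervalIntegrable (Fi d S x) MeasureTheory.volume a b :=
    fun a b => (Fi_cont d S x).intervalIntegrable a b
  rw [← intervalIntegral.integral_add_adjacent_intervals (ii 0 (Real.pi / 2)) (ii _ Real.pi)]
  have := intervalIntegral.integral_comp_sub_left (a := 0) (b := Real.pi / 2) (Fi d S x) Real.pi
  simp only [Fi_reflect d S x hpar, sub_zero] at this
  rw [show Real.pi - Real.pi / 2 = Real.pi / 2 by ring] at this
  rw [← this]
  ring

/-- The difference of two consecutive levels as a sum of integrals. -/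
theorem REGA_diff {N : ℕ} (A : Fin N → Fin N → Prop) [DecidableRel A] (hA : ∀ i j, A i j → i ≠ j)
    (m : ℕ) : ((cnt A (m + 1) : ℝ) - cnt A m) * Real.pi = 2 * ∑ π : Equiv.Perm (Fin N),
      ∫ t in (0 : ℝ)..(Real.pi / 2), Fi (dg A π) univ ((ne A : ℤ) - 2 * m - 2) t := by
  set x : ℤ := (ne A : ℤ) - 2 * m - 2 with hx
  have t1 := total_class A hA (m + 1)
  have t0 := total_class A hA m
  have e1 : ∀ π : Equiv.Perm (Fin N), co (∏ v, U (dg A π v)) (2 * ((m + 1 : ℕ) : ℤ) - ne A) =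
      co (∏ v, U (dg A π v)) x := fun π => by
    rw [← sym_prod (dg A π) univ x]
    congr 1
    push_cast
    omega
  have e0 : ∀ π : Equiv.Perm (Fin N), co (∏ v, U (dg A π v)) (2 * (m : ℤ) - ne A) =
      co (∏ v, U (dg A π v)) (x + 2) := fun π => by
    rw [← sym_prod (dg A π) univ (x + 2)]
    congr 1
    omega
  simp only [e1] at t1
  simp only [e0] at t0
  have t1' : ∑ π : Equiv.Perm (Fin N), (co (∏ v, U (dg A π v)) x : ℝ) = 2 ^ N * cnt A (m + 1) := by
    exact_mod_cast t1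
  have t0' : ∑ π : Equiv.Perm (Fin N), (co (∏ v, U (dg A π v)) (x + 2) : ℝ) = 2 ^ N * cnt A m := by
    exact_mod_cast t0
  have e : ∀ π : Equiv.Perm (Fin N),
      ((co (∏ v, U (dg A π v)) x : ℝ) - co (∏ v, U (dg A π v)) (x + 2)) * Real.pi =
        2 ^ N * (2 * ∫ t in (0 : ℝ)..(Real.pi / 2), Fi (dg A π) univ x t) := fun π => by
    rw [diff_integral, REGA_half, card_univ, Fintype.card_fin]
    rw [sum_dg A hA π]
    omega
  have h2 : (0 : ℝ) < 2 ^ N := by positivity
  refine mul_left_cancel₀ h2.ne' ?_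
  rw [mul_sum, mul_sum, ← sum_congr rfl fun π _ => e π, ← sum_mul, sum_sub_distrib, t1', t0']
  ring

/-- The estimate for a family of classes. -/
theorem REGA_sum {N : ℕ} (A : Fin N → Fin N → Prop) [DecidableRel A] (p : ℕ) (x : ℤ) (c : ℝ)
    (hp : 1 ≤ p) (hd : ∀ π v, |dg A π v| ≤ p) (hz : Real.exp (-(c / 4 * N)) ≤ 1 / 4)
    (hmod : ∀ t : ℝ, 1 / (2 * (p : ℝ)) ≤ t → t ≤ Real.pi / 2 →
      modF A t ≤ Real.exp (-(c * N)) * N.factorial)
    (hgood : ∀ π, 2 * c * N * p ^ 2 ≤ ∑ v, (dg A π v : ℝ) ^ 2 →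
      Real.exp (-(c / 4 * N)) ≤ lowI (dg A π) p ((x : ℝ) + 1)) :
    0 ≤ ∑ π : Equiv.Perm (Fin N), ∫ t in (0 : ℝ)..(Real.pi / 2), Fi (dg A π) univ x t := by
  classical
  have hp' : (1 : ℝ) ≤ p := by exact_mod_cast hp
  have pi3 := Real.pi_gt_three
  have pi4 := Real.pi_le_four
  set t1 : ℝ := 1 / (2 * p) with ht1
  have h0 : 0 ≤ t1 := by positivity
  have h1 : t1 ≤ 1 / 2 := one_div_le_one_div_of_le (by norm_num) (by linarith)
  have h12 : t1 ≤ Real.pi / 2 := by linarith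
  set z : ℝ := Real.exp (-(c / 4 * N)) with hzdef
  have z0 : 0 < z := Real.exp_pos _
  have z2 : Real.exp (-(c / 2 * N)) = z ^ 2 := by
    rw [hzdef, ← Real.exp_nat_mul]; congr 1; push_cast; ring
  have z4 : Real.exp (-(c * N)) = z ^ 4 := by
    rw [hzdef, ← Real.exp_nat_mul]; congr 1; push_cast; ring
  rw [z4] at hmod
  set F : ℝ := (N.factorial : ℝ) with hF
  have F0 : 0 < F := by rw [hF]; exact_mod_cast N.factorial_pos
  have ii : ∀ (π : Equiv.Perm (Fin N)) (a b : ℝ),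
      IntervalIntegrable (Fi (dg A π) univ x) MeasureTheory.volume a b :=
    fun π a b => (Fi_cont _ univ x).intervalIntegrable a b
  have split : ∀ π : Equiv.Perm (Fin N), ∫ t in (0 : ℝ)..(Real.pi / 2), Fi (dg A π) univ x t =
      lowI (dg A π) p ((x : ℝ) + 1) + ∫ t in t1..(Real.pi / 2), Fi (dg A π) univ x t := fun π => by
    rw [← REGA_low_eq, intervalIntegral.integral_add_adjacent_intervals (ii π _ _) (ii π _ _)]
  simp only [split, sum_add_distrib]
  -- high frequencies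
  have high : -(4 * z ^ 4 * F) ≤
      ∑ π : Equiv.Perm (Fin N), ∫ t in t1..(Real.pi / 2), Fi (dg A π) univ x t := by
    rw [← intervalIntegral.integral_finsetSum fun π _ => ii π _ _]
    have j3 := intervalIntegral.integral_mono_on h12
      (intervalIntegrable_const (c := -(2 * (z ^ 4 * F))) (μ := MeasureTheory.volume))
      ((continuous_finsetSum univ fun (π : Equiv.Perm (Fin N)) _ =>
        Fi_cont (dg A π) univ x).intervalIntegrable _ _) fun t ht => by
        have a := hmod t ht.1 ht.2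
        have b : ∑ π : Equiv.Perm (Fin N), -(2 * ∏ v, |Real.cos (dg A π v * t)|) ≤
            ∑ π : Equiv.Perm (Fin N), Fi (dg A π) univ x t :=
          sum_le_sum fun π _ => REGA_Fi _ _ _ _
        rw [sum_neg_distrib, ← mul_sum] at b
        unfold modF at a
        linarith
    rw [intervalIntegral.integral_const, smul_eq_mul] at j3
    have : 0 < z ^ 4 * F := by positivity
    nlinarith
  -- bad classes
  set Bd : Finset (Equiv.Perm (Fin N)) :=
    univ.filter fun π => ¬ 2 * c * N * p ^ 2 ≤ ∑ v, (dg A π v : ℝ) ^ 2 with hBd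
  have bad1 : ∀ π ∈ Bd, z ^ 2 ≤ ∏ v, |Real.cos (dg A π v * t1)| := by
    intro π hπ
    have hlt := not_le.1 (mem_filter.1 hπ).2
    have a : ∏ v, Real.exp (-((dg A π v * t1) ^ 2)) ≤ ∏ v, |Real.cos (dg A π v * t1)| := by
      refine prod_le_prod (fun v _ => (Real.exp_pos _).le) fun v _ => REGA_cos ?_
      have he : |(dg A π v : ℝ)| ≤ p := by exact_mod_cast hd π v
      rw [abs_mul, abs_of_nonneg h0]
      have : (p : ℝ) * t1 = 1 / 2 := by rw [ht1]; field_simp
      nlinarith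
    refine le_trans ?_ a
    rw [← Real.exp_sum, ← z2, Real.exp_le_exp, sum_neg_distrib, neg_le_neg_iff]
    simp only [mul_pow]
    rw [← sum_mul]
    have e : 2 * c * N * p ^ 2 * t1 ^ 2 = c / 2 * N := by rw [ht1]; field_simp
    rw [← e]
    exact mul_le_mul_of_nonneg_right hlt.le (sq_nonneg _)
  have bad2 : (Bd.card : ℝ) * z ^ 2 ≤ z ^ 4 * F := by
    refine le_trans ?_ (hmod t1 le_rfl h12)
    rw [← nsmul_eq_mul]
    refine (card_nsmul_le_sum _ _ _ bad1).trans ?_
    unfold modF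
    exact sum_le_sum_of_subset_of_nonneg (subset_univ _) fun π _ _ =>
      prod_nonneg fun v _ => abs_nonneg _
  have bad3 : (Bd.card : ℝ) ≤ z ^ 2 * F := by
    have hz2 : 0 < z ^ 2 := by positivity
    refine le_of_mul_le_mul_right ?_ hz2
    nlinarith
  have low : ∑ π : Equiv.Perm (Fin N), (z - if π ∈ Bd then (1 + z) else 0) ≤
      ∑ π : Equiv.Perm (Fin N), lowI (dg A π) p ((x : ℝ) + 1) := by
    refine sum_le_sum fun π _ => ?_
    by_cases hπ : π ∈ Bd
    · rw [if_pos hπ]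
      have := REGA_low_ge (dg A π) hp x
      linarith
    · rw [if_neg hπ, sub_zero]
      refine hgood π ?_
      by_contra hc
      exact hπ (mem_filter.2 ⟨mem_univ _, hc⟩)
  rw [sum_sub_distrib, sum_const, card_univ, Fintype.card_perm, Fintype.card_fin, nsmul_eq_mul,
    ← sum_filter, filter_mem_eq_inter, univ_inter, sum_const, nsmul_eq_mul, ← hF] at low
  have b4 : (Bd.card : ℝ) * (1 + z) ≤ z ^ 2 * F * (1 + z) :=
    mul_le_mul_of_nonneg_right bad3 (by linarith)
  have b5 : 0 ≤ 1 - z * (1 + z) - 4 * z ^ 3 := by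
    have : z ^ 3 ≤ (1 / 4) ^ 3 := pow_le_pow_left₀ z0.le hz 3
    nlinarith
  have b6 : 0 ≤ z * F * (1 - z * (1 + z) - 4 * z ^ 3) := by positivity
  nlinarith

theorem REGA (h0 : St_GF) (h1 : St_HFa) (h2 : St_HFb) (h3 : St_CF) : St_REGA := by
  obtain ⟨ca, hca, Na, ha⟩ := h1
  obtain ⟨cb', hcb, Nb', hb⟩ := h2
  set c : ℝ := min ca cb' with hc
  have c0 : 0 < c := lt_min hca hcb
  obtain ⟨ε, hε, Nc, hC⟩ := h3 (2 * c) (c / 4) (by linarith) (by linarith)
  obtain ⟨Nd, hNd⟩ := exists_nat_ge (12 / c)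
  refine ⟨min ε (1 / 4), lt_min hε (by norm_num), min_le_right _ _, Na + Nb' + Nc + Nd,
    fun N k m hN hk hP hm hmE => ?_⟩
  obtain ⟨gA, -, -, gE, -, gd, -⟩ := h0 N k (by omega)
  set A := Adj N k with hA
  set p : ℕ := N / k + 2 with hp
  have hpN : p ≤ N + 2 := by have := Nat.div_le_self N k; omega
  have hN0 : (0 : ℝ) ≤ N := Nat.cast_nonneg _
  have key := REGA_sum A p ((ne A : ℤ) - 2 * m - 2) c (by omega) gd ?_ ?_ ?_
  · have e := REGA_diff A gA.ne' m
    have : 0 ≤ ((cnt A (m + 1) : ℝ) - cnt A m) * Real.pi := by rw [e]; linarith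
    have h4 := nonneg_of_mul_nonneg_left this Real.pi_pos
    have h5 : (cnt A m : ℝ) ≤ cnt A (m + 1) := by linarith
    exact_mod_cast h5
  · have hNN : (Nd : ℝ) ≤ N := by exact_mod_cast (by omega : Nd ≤ N)
    have a1 : 12 ≤ c * N := by
      rw [div_le_iff₀ c0] at hNd
      nlinarith
    have a2 := Real.add_one_le_exp (c / 4 * N)
    rw [Real.exp_neg, inv_le_comm₀ (Real.exp_pos _) (by norm_num)]
    norm_num
    linarith
  · intro t ht0 ht1
    have hF : (0 : ℝ) ≤ N.factorial := Nat.cast_nonneg _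
    rcases le_total t 1 with h | h
    · refine (ha N k (by omega) hk hP t ht0 h).trans (mul_le_mul_of_nonneg_right ?_ hF)
      rw [Real.exp_le_exp, neg_le_neg_iff]
      exact mul_le_mul_of_nonneg_right (min_le_left _ _) hN0
    · refine (hb N k (by omega) hk hP t h ht1).trans (mul_le_mul_of_nonneg_right ?_ hF)
      rw [Real.exp_le_exp, neg_le_neg_iff]
      exact mul_le_mul_of_nonneg_right (min_le_right _ _) hN0
  · intro π hπ
    have hm' : 2 * (m : ℝ) + 2 ≤ ne A := by exact_mod_cast hm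
    have gE' : 2 * (ne A : ℝ) ≤ N * p := by exact_mod_cast gE
    refine hC N p (by omega) (by omega) hpN _ (gd π) hπ _ ?_ ?_
    · push_cast; linarith
    · push_cast
      have a1 : min ε (1 / 4) ≤ ε := min_le_left _ _
      have a0 : (0 : ℝ) ≤ ne A := Nat.cast_nonneg _
      have a2 : min ε (1 / 4) * ne A ≤ ε * ne A := mul_le_mul_of_nonneg_right a1 a0
      have a3 : ε * (2 * ne A) ≤ ε * (N * p) := mul_le_mul_of_nonneg_left gE' hε.le
      nlinarith

end Pool.Agent.Lib.MP_64bee1_co.UN
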