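import Pool.Agent.Lib.MP_64bee1_co.UN.Stmts

/-!
The one step inequality away from the centre, for many rows and a low level.
-/

namespace Pool.Agent.Lib.MP_64bee1_co.UN

open Finset Polynomial

theorem REGB2_cum {N : ℕ} (A : Fin N → Fin N → Prop) [DecidableRel A] (m : ℕ)
    (h : ∀ j ≤ m, cnt A j ≤ cnt A m) : cum A 0 m ≤ (m + 1) * cnt A m := by
  have h1 : cum A 0 m ≤ cc fun w : Equiv.Perm (Fin N) => ∃ j ∈ range (m + 1), iv A w = j :=
    cc_mono fun w hw => ⟨iv A w, mem_range.2 (by omega), rfl⟩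
  refine h1.trans ((cc_exists_le _ _).trans ?_)
  calc ∑ j ∈ range (m + 1), cc (fun w : Equiv.Perm (Fin N) => iv A w = j)
      ≤ ∑ _j ∈ range (m + 1), cnt A m := by
        refine sum_le_sum fun j hj => ?_
        rw [← cnt_eq_cc]
        exact h j (by have := mem_range.1 hj; omega)
    _ = (m + 1) * cnt A m := by simp

theorem REGB2_exp {N l Q r : ℕ} (hl : 100000000 ≤ l) (hN1 : 1 ≤ N) (hN : N ≤ 2 ^ l) (hQ : 1 ≤ Q)
    (h : Q * l ^ 17 ≤ 20 * r) :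
    Real.exp (-(r : ℝ) / (16 * ((5 * Q : ℕ) : ℝ))) ≤ 1 / (N : ℝ) ^ 3 := by
  have hN0 : (0 : ℝ) < N := by exact_mod_cast hN1
  have hQ0 : (0 : ℝ) < Q := by exact_mod_cast hQ
  have h1 : 4800 * l ≤ l ^ 17 := by
    have : l ^ 2 ≤ l ^ 17 := Nat.pow_le_pow_right (by omega) (by norm_num)
    nlinarith
  have h2 : 240 * l * Q ≤ r := by nlinarith
  have h2' : 240 * (l : ℝ) * Q ≤ r := by exact_mod_cast h2
  have h3 : -(r : ℝ) / (16 * ((5 * Q : ℕ) : ℝ)) ≤ -(3 * l) := by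
    rw [div_le_iff₀ (by push_cast; positivity)]
    push_cast
    linarith
  refine (Real.exp_le_exp.2 h3).trans ?_
  rw [Real.exp_neg, one_div]
  refine inv_anti₀ (by positivity) ?_
  have h4 : (N : ℝ) ≤ Real.exp l := by
    calc (N : ℝ) ≤ 2 ^ l := by exact_mod_cast hN
      _ ≤ Real.exp 1 ^ l := by
          refine pow_le_pow_left₀ (by norm_num) ?_ _
          have := Real.add_one_le_exp 1
          linarith
      _ = Real.exp l := by rw [← Real.exp_nat_mul, mul_one]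
  calc (N : ℝ) ^ 3 ≤ Real.exp l ^ 3 := pow_le_pow_left₀ hN0.le h4 3
    _ = Real.exp (3 * l) := by rw [← Real.exp_nat_mul]; norm_num

theorem REGB2_fin {n a b c0 cs x1 x2 E F : ℝ} (hn : 14 ≤ n) (ha : 0 ≤ a) (hc0 : c0 ≤ n ^ 2 * a)
    (hc0' : 0 ≤ c0) (h1 : x1 ≤ 1 / n ^ 3) (h2 : x2 ≤ 1 / n ^ 3) (hE : 0 ≤ E) (hs : cs ≤ F * c0)
    (hEF : E * F ≤ 1 / n ^ 5)
    (h : (1 + 1 / n ^ 2) * (a - (2 / n ^ 3 + x1 + 2 * x2) * a - 1 / n ^ 5 * c0 - E * cs) ≤ b) :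
    a ≤ b := by
  have hn0 : 0 < n := by linarith
  have e1 : 1 / n ^ 5 * c0 ≤ 1 / n ^ 3 * a := by
    calc 1 / n ^ 5 * c0 ≤ 1 / n ^ 5 * (n ^ 2 * a) := by gcongr
      _ = 1 / n ^ 3 * a := by field_simp
  have e2 : E * cs ≤ 1 / n ^ 3 * a := by
    calc E * cs ≤ E * (F * c0) := by gcongr
      _ = E * F * c0 := by ring
      _ ≤ 1 / n ^ 5 * c0 := by gcongr
      _ ≤ _ := e1
  have e3 : (2 / n ^ 3 + x1 + 2 * x2) * a ≤ 5 * (1 / n ^ 3) * a := by
    refine mul_le_mul_of_nonneg_right ?_ ha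
    have : 2 / n ^ 3 = 2 * (1 / n ^ 3) := by ring
    linarith
  have e4 : 7 * (1 / n ^ 3) ≤ 1 / n ^ 2 / 2 := by
    rw [mul_one_div, div_div, div_le_div_iff₀ (by positivity) (by positivity)]
    nlinarith [pow_pos hn0 2]
  set ξ : ℝ := 1 / n ^ 2 with hξ
  have hξ0 : 0 ≤ ξ := by positivity
  have hξ1 : ξ ≤ 1 := by
    rw [hξ, div_le_one (by positivity)]
    nlinarith
  have e5 : 7 * (1 / n ^ 3) * a ≤ ξ / 2 * a := mul_le_mul_of_nonneg_right e4 ha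
  have e6 : (1 - ξ / 2) * a ≤ a - (2 / n ^ 3 + x1 + 2 * x2) * a - 1 / n ^ 5 * c0 - E * cs := by
    linarith
  have e7 : (1 + ξ) * ((1 - ξ / 2) * a) ≤ b :=
    (mul_le_mul_of_nonneg_left e6 (by linarith)).trans h
  have e8 : 0 ≤ ξ * (1 - ξ) * a := mul_nonneg (mul_nonneg hξ0 (by linarith)) ha
  nlinarith

theorem REGB2 (h0 : St_GF) (h1 : St_MAIN2) (h2 : St_PAR) (h3 : St_CG) : St_REGB2 := by
  intro ε hε hε4
  refine ⟨max 100000000 ⌈1000 / ε⌉₊, fun N k l m hl hN hlN hk hS hm hmono => ?_⟩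
  obtain ⟨hP, hmP⟩ := hS
  have hl8 : 100000000 ≤ l := le_trans (le_max_left _ _) hl
  have hεl : 1000 ≤ ε * l := by
    have : 1000 / ε ≤ l := (Nat.le_ceil _).trans (by exact_mod_cast le_trans (le_max_right _ _) hl)
    rw [div_le_iff₀ hε] at this
    linarith
  obtain ⟨hA, -, -, hE, -, hdg, -, hR⟩ := h0 N k (by omega)
  have hpow : ∀ i j : ℕ, i ≤ j → l ^ i ≤ l ^ j := fun i j hij =>
    Nat.pow_le_pow_right (by omega) hij
  have hl1 : ∀ j : ℕ, 1 ≤ j → l ≤ l ^ j := fun j hj => by simpa using hpow 1 j hj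
  have hPk : N / k * k ≤ N := Nat.div_mul_le_self N k
  have hP3 : N / k ≤ N / 3 := Nat.div_le_div_left hk (by norm_num)
  generalize hPdef : N / k = P at *
  have hPl : l ≤ P := (hl1 76 (by norm_num)).trans hP
  have hlN' : l ≤ N := (hl1 600 (by norm_num)).trans hlN
  obtain ⟨R, hRi, hRd, hRc⟩ := hR (by omega)
  have hRN : R.card ≤ N := by simpa using card_le_univ R
  obtain ⟨⟨a0, ha1, ha2, hW⟩, hb1, -, hb2, hb3⟩ :=
    h2 N P l R.card hl8 hN hlN hP (by omega) hRc hRN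
  have h17 : 0 < l ^ 17 := pow_pos (by omega) _
  have h17l : l ≤ l ^ 17 := hl1 17 (by norm_num)
  have hQ1 : N / l ^ 17 * l ^ 17 ≤ N := Nat.div_mul_le_self _ _
  have hQ2 : N < (N / l ^ 17 + 1) * l ^ 17 := by
    have := Nat.lt_div_mul_add (a := N) h17
    linarith
  have hT1 : P / l ^ 17 * l ^ 17 ≤ P := Nat.div_mul_le_self _ _
  have hT2 : P < (P / l ^ 17 + 1) * l ^ 17 := by
    have := Nat.lt_div_mul_add (a := P) h17
    linarith
  have hT3 : P / l ^ 17 ≤ P / 6 := Nat.div_le_div_left (by omega) (by norm_num)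
  have hTQ : P / l ^ 17 * k ≤ N / l ^ 17 := by
    rw [Nat.le_div_iff_mul_le h17]
    calc P / l ^ 17 * k * l ^ 17 = P / l ^ 17 * l ^ 17 * k := by ring
      _ ≤ P * k := Nat.mul_le_mul_right _ hT1
      _ ≤ N := hPk
  have hkQ : 3 * k ≤ N / l ^ 17 := by
    rw [Nat.le_div_iff_mul_le h17]
    have e1 : 3 * l ^ 17 ≤ l ^ 76 := by
      calc 3 * l ^ 17 ≤ l * l ^ 17 := Nat.mul_le_mul_right _ (by omega)
        _ = l ^ 18 := by ring
        _ ≤ l ^ 76 := hpow _ _ (by norm_num)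
    calc 3 * k * l ^ 17 = 3 * l ^ 17 * k := by ring
      _ ≤ P * k := Nat.mul_le_mul_right _ (e1.trans hP)
      _ ≤ N := hPk
  generalize N / l ^ 17 = Q at *
  generalize P / l ^ 17 = τ at *
  have hQ : 1 ≤ Q := by omega
  have hQr : Q * l ^ 17 ≤ 20 * R.card := hQ1.trans hRc
  have hl0 : (0 : ℝ) < l := by exact_mod_cast (by omega : 0 < l)
  have hN0 : (0 : ℝ) < N := by exact_mod_cast (by omega : 0 < N)
  have c1 : 32 * 2 ^ a0 * (1 / (l : ℝ) ^ 7) ≤ 1 := by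
    rw [mul_one_div, div_le_one (by positivity)]
    have e1 : 32 * 2 ^ a0 ≤ l ^ 7 := by
      calc 32 * 2 ^ a0 ≤ 32 * (2 * l ^ 6) := Nat.mul_le_mul_left _ ha2
        _ = 64 * l ^ 6 := by ring
        _ ≤ l * l ^ 6 := Nat.mul_le_mul_right _ (by omega)
        _ = l ^ 7 := by ring
    exact_mod_cast e1
  have c2 : 1 / (N : ℝ) ^ 2 ≤ 2 * (1 / (l : ℝ) ^ 7) := by
    have e1 : l ^ 7 ≤ N ^ 2 := by
      have := (hpow 7 600 (by norm_num)).trans hlN
      nlinarith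
    have e2 : (l : ℝ) ^ 7 ≤ (N : ℝ) ^ 2 := by exact_mod_cast e1
    have e3 : 1 / (N : ℝ) ^ 2 ≤ 1 / (l : ℝ) ^ 7 := one_div_le_one_div_of_le (by positivity) e2
    have e4 : 0 ≤ 1 / (l : ℝ) ^ 7 := by positivity
    linarith
  have c3 : (2 * τ + 3) * k + 2 + Q ≤ 5 * Q := by nlinarith
  have c4 : 2 * m ≤ Q * (τ + 1) := by
    have e1 : N * P ≤ (2 * Q * l ^ 17) * ((τ + 1) * l ^ 17) := by
      refine Nat.mul_le_mul (hQ2.le.trans ?_) hT2.le
      exact Nat.mul_le_mul_right _ (by omega)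
    have e2 : (m * l) * l ^ 34 ≤ (2 * (Q * (τ + 1))) * l ^ 34 := by
      calc (m * l) * l ^ 34 = m * l ^ 35 := by ring
        _ ≤ _ := hmP.trans e1
        _ = _ := by ring
    have e3 : m * l ≤ 2 * (Q * (τ + 1)) := Nat.le_of_mul_le_mul_right e2 (pow_pos (by omega) _)
    have e4 : m * 4 ≤ m * l := Nat.mul_le_mul_left _ (by omega)
    omega
  have c5 : 4 * (5 * Q) ≤ R.card := by
    have : Q * 400 ≤ Q * l ^ 17 := Nat.mul_le_mul_left _ (by omega)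
    omega
  have c6 : 256 * l ^ 16 * (5 * Q) * (64 * N) ≤ R.card ^ 2 := by
    have e1 : Q * l ^ 16 * 32768000 ≤ 20 * R.card := by
      calc Q * l ^ 16 * 32768000 ≤ Q * l ^ 16 * l := Nat.mul_le_mul_left _ (by omega)
        _ = Q * l ^ 17 := by ring
        _ ≤ _ := hQr
    have e2 : Q * l ^ 16 * 1638400 ≤ R.card := by linarith
    calc 256 * l ^ 16 * (5 * Q) * (64 * N) ≤ 256 * l ^ 16 * (5 * Q) * (64 * (20 * R.card)) := by
          gcongr
      _ = Q * l ^ 16 * 1638400 * R.card := by ring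
      _ ≤ R.card * R.card := Nat.mul_le_mul_right _ e2
      _ = R.card ^ 2 := by ring
  have hmain := h1 N k R (l ^ 2) (P / 3) a0 l (l ^ 4) (l ^ 2) (l ^ 2 / 20 * (P + 2)) (l ^ 16) τ Q
    (5 * Q) m (1 / l) (1 / (N : ℝ) ^ 2) (1 / (l : ℝ) ^ 7) (1 / (N : ℝ) ^ 5) (by omega) (by omega)
    hRi hRd (Nat.one_le_iff_ne_zero.2 (pow_ne_zero _ (by omega))) hW (by positivity) c1 c2
    (by omega) c3 c4 c5 c6 hb2
  have hcg := h3 N (Adj N k) (P + 2) m (l ^ 2 / 20) ε hA (by omega) hdg hε (by linarith) hm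
  have hmN : m + 1 ≤ N ^ 2 := by
    have e0 : (0 : ℝ) ≤ ne (Adj N k) := Nat.cast_nonneg _
    have e1 : 2 * (m : ℝ) ≤ ne (Adj N k) := by nlinarith
    have e2 : 2 * m ≤ ne (Adj N k) := by exact_mod_cast e1
    have e3 : N * (P + 2) ≤ N * N := Nat.mul_le_mul_left _ (by omega)
    have e4 : 2 ≤ N * N := by nlinarith
    rw [sq]
    omega
  have hc0 : (cum (Adj N k) 0 m : ℝ) ≤ (N : ℝ) ^ 2 * cnt (Adj N k) m := by
    have := (REGB2_cum (Adj N k) m hmono).trans (Nat.mul_le_mul_right _ hmN)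
    exact_mod_cast this
  have hfin := REGB2_fin (n := N) (by exact_mod_cast (by omega : 14 ≤ N)) (Nat.cast_nonneg _) hc0
    (Nat.cast_nonneg _) hb1 (REGB2_exp hl8 (by omega) hN hQ hQr) (Real.exp_pos _).le hcg
    (hb3 ε hεl) hmain
  exact_mod_cast hfin

end Pool.Agent.Lib.MP_64bee1_co.UN
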