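import Pool.Agent.Lib.MP_64bee1_co.UN.Stmts

/-!
The step away from the centre when the number of rows is small.
-/

namespace Pool.Agent.Lib.MP_64bee1_co.UN

open Finset

theorem REGB3_cum {N : ℕ} (A : Fin N → Fin N → Prop) [DecidableRel A] (m : ℕ)
    (h : ∀ j ≤ m, cnt A j ≤ cnt A m) : cum A 0 m ≤ (m + 1) * cnt A m := by
  have h1 : cum A 0 m ≤
      cc fun w : Equiv.Perm (Fin N) => ∃ j ∈ range (m + 1), iv A w = j := by
    refine cc_mono fun w hw => ⟨iv A w, mem_range.2 (by omega), rfl⟩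
  refine h1.trans ((cc_exists_le _ _).trans ?_)
  calc ∑ j ∈ range (m + 1), cc (fun w : Equiv.Perm (Fin N) => iv A w = j)
      ≤ ∑ _j ∈ range (m + 1), cnt A m := by
        refine sum_le_sum fun j hj => ?_
        rw [← cnt_eq_cc]
        exact h j (by have := mem_range.1 hj; omega)
    _ = (m + 1) * cnt A m := by simp

theorem REGB3_k {N k l : ℕ} (hl : 1000000000 ≤ l) (hN : l ^ 600 ≤ N) (hk : 3 ≤ k)
    (hP : N / k < l ^ 76) :
    4000000 * (N / k + 2) ^ 4 * (l ^ 4 * (N / k + 2) ^ 2 + 20 * l) ≤ k := by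
  have hl1 : 1 ≤ l := by omega
  have h76 : 1 ≤ l ^ 76 := Nat.one_le_pow _ _ hl1
  have hp : N / k + 2 ≤ 2 * l ^ 76 := by omega
  have h1 : N < (N / k + 1) * k := by
    have := Nat.div_add_mod N k
    have := Nat.mod_lt N (show 0 < k by omega)
    nlinarith
  have h2 : l ^ 76 * l ^ 524 < l ^ 76 * k := by
    calc l ^ 76 * l ^ 524 = l ^ 600 := by rw [← pow_add]
      _ ≤ N := hN
      _ < (N / k + 1) * k := h1
      _ ≤ l ^ 76 * k := Nat.mul_le_mul_right _ hP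
  have h3 : l ^ 524 < k := Nat.lt_of_mul_lt_mul_left h2
  have h4 : (N / k + 2) ^ 4 ≤ 16 * l ^ 304 := by
    calc (N / k + 2) ^ 4 ≤ (2 * l ^ 76) ^ 4 := Nat.pow_le_pow_left hp _
      _ = 16 * l ^ 304 := by rw [mul_pow, ← pow_mul]; rfl
  have h5 : l ^ 4 * (N / k + 2) ^ 2 ≤ 4 * l ^ 156 := by
    calc l ^ 4 * (N / k + 2) ^ 2 ≤ l ^ 4 * (2 * l ^ 76) ^ 2 :=
          Nat.mul_le_mul_left _ (Nat.pow_le_pow_left hp _)
      _ = 4 * (l ^ 4 * l ^ 152) := by rw [mul_pow, ← pow_mul, mul_left_comm]; rfl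
      _ = 4 * l ^ 156 := by rw [← pow_add]
  have h6 : 20 * l ≤ l ^ 156 := by
    calc 20 * l ≤ l * l := Nat.mul_le_mul_right _ (by omega)
      _ = l ^ 2 := (sq l).symm
      _ ≤ l ^ 156 := Nat.pow_le_pow_right hl1 (by norm_num)
  have h7 : l ^ 304 * l ^ 156 = l ^ 460 := by rw [← pow_add]
  have h8 : l * l ^ 460 = l ^ 461 := by rw [← pow_succ']
  have h9 : l ^ 461 ≤ l ^ 524 := Nat.pow_le_pow_right hl1 (by norm_num)
  calc 4000000 * (N / k + 2) ^ 4 * (l ^ 4 * (N / k + 2) ^ 2 + 20 * l)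
      ≤ 4000000 * (16 * l ^ 304) * (5 * l ^ 156) :=
        Nat.mul_le_mul (Nat.mul_le_mul_left _ h4) (by omega)
    _ = 320000000 * (l ^ 304 * l ^ 156) := by
        generalize l ^ 304 = a
        generalize l ^ 156 = b
        ring
    _ ≤ l * l ^ 460 := by rw [h7]; exact Nat.mul_le_mul_right _ (by omega)
    _ ≤ k := by rw [h8]; exact h9.trans h3.le

theorem REGB3_small {N k l : ℕ} (hl : 1000000000 ≤ l) (hN : l ^ 600 ≤ N)
    (hP : N / k < l ^ 76) :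
    l ^ 4 * (N / k + 2) ^ 2 ≤ N ∧ l * (N / k + 2) ≤ N ∧ l ≤ N := by
  have hl1 : 1 ≤ l := by omega
  have h76 : 1 ≤ l ^ 76 := Nat.one_le_pow _ _ hl1
  have hp : N / k + 2 ≤ 2 * l ^ 76 := by omega
  have h5 : l ^ 4 * (N / k + 2) ^ 2 ≤ 4 * l ^ 156 := by
    calc l ^ 4 * (N / k + 2) ^ 2 ≤ l ^ 4 * (2 * l ^ 76) ^ 2 :=
          Nat.mul_le_mul_left _ (Nat.pow_le_pow_left hp _)
      _ = 4 * (l ^ 4 * l ^ 152) := by rw [mul_pow, ← pow_mul, mul_left_comm]; rfl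
      _ = 4 * l ^ 156 := by rw [← pow_add]
  have h6 : 4 * l ^ 156 ≤ N := by
    calc 4 * l ^ 156 ≤ l * l ^ 156 := Nat.mul_le_mul_right _ (by omega)
      _ = l ^ 157 := by rw [← pow_succ']
      _ ≤ l ^ 600 := Nat.pow_le_pow_right hl1 (by norm_num)
      _ ≤ N := hN
  have h7 : l ≤ l ^ 4 := by
    calc l = l ^ 1 := (pow_one l).symm
      _ ≤ l ^ 4 := Nat.pow_le_pow_right hl1 (by norm_num)
  have h8 : N / k + 2 ≤ (N / k + 2) ^ 2 := by
    calc N / k + 2 = (N / k + 2) ^ 1 := (pow_one _).symm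
      _ ≤ (N / k + 2) ^ 2 := Nat.pow_le_pow_right (Nat.succ_pos _) (by norm_num)
  have h9 : l * (N / k + 2) ≤ N := (Nat.mul_le_mul h7 h8).trans (h5.trans h6)
  refine ⟨h5.trans h6, h9, le_trans ?_ h9⟩
  exact Nat.le_mul_of_pos_right _ (Nat.succ_pos _)

theorem REGB3_exp {N l : ℕ} {ε : ℝ} (hN : N ≤ 2 ^ l) (hN1 : 1 ≤ N) (he : 1000 ≤ ε * l) :
    Real.exp (20 * l) * Real.exp (-(2 * ε * ((l ^ 2 : ℕ) : ℝ))) ≤ 1 / (N : ℝ) ^ 4 := by
  have hN0 : (0 : ℝ) < N := by exact_mod_cast hN1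
  have hl0 : (0 : ℝ) ≤ l := Nat.cast_nonneg l
  have h2 : (2 : ℝ) ≤ Real.exp 1 := by
    have := Real.add_one_le_exp (1 : ℝ)
    linarith
  have h3 : (N : ℝ) ≤ Real.exp l := by
    calc (N : ℝ) ≤ (2 : ℝ) ^ l := by exact_mod_cast hN
      _ ≤ Real.exp 1 ^ l := pow_le_pow_left₀ (by norm_num) h2 l
      _ = Real.exp l := by rw [← Real.exp_nat_mul, mul_one]
  have h4 : (N : ℝ) ^ 4 ≤ Real.exp (4 * l) := by
    calc (N : ℝ) ^ 4 ≤ Real.exp l ^ 4 := pow_le_pow_left₀ hN0.le h3 4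
      _ = Real.exp (4 * l) := by rw [← Real.exp_nat_mul]; norm_num
  rw [← Real.exp_add, le_div_iff₀ (pow_pos hN0 4)]
  calc Real.exp (20 * l + -(2 * ε * ((l ^ 2 : ℕ) : ℝ))) * (N : ℝ) ^ 4
      ≤ Real.exp (20 * l + -(2 * ε * ((l ^ 2 : ℕ) : ℝ))) * Real.exp (4 * l) :=
        mul_le_mul_of_nonneg_left h4 (Real.exp_pos _).le
    _ = Real.exp (20 * l + -(2 * ε * ((l ^ 2 : ℕ) : ℝ)) + 4 * l) := by rw [← Real.exp_add]
    _ ≤ Real.exp 0 := by
        refine Real.exp_le_exp.2 ?_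
        push_cast
        nlinarith [mul_le_mul_of_nonneg_right he hl0]
    _ = 1 := Real.exp_zero

theorem REGB3_two {N l n : ℕ} (hN : N ≤ 2 ^ l) (hN1 : 1 ≤ N) (hn : n ≤ N) :
    (n : ℝ) / 2 ^ (20 * l) ≤ 1 / (N : ℝ) ^ 4 := by
  have hN0 : (0 : ℝ) < N := by exact_mod_cast hN1
  rw [div_le_div_iff₀ (by positivity) (pow_pos hN0 4), one_mul]
  have h1 : n * N ^ 4 ≤ 2 ^ (20 * l) := by
    calc n * N ^ 4 ≤ N * N ^ 4 := Nat.mul_le_mul_right _ hn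
      _ = N ^ 5 := by ring
      _ ≤ (2 ^ l) ^ 5 := Nat.pow_le_pow_left hN 5
      _ = 2 ^ (l * 5) := by rw [← pow_mul]
      _ ≤ 2 ^ (20 * l) := Nat.pow_le_pow_right (by norm_num) (by omega)
  exact_mod_cast h1

theorem REGB3_fin {a b c c' e1 e2 e3 η N : ℝ} (ha : 0 ≤ a) (hc : 0 ≤ c) (hN : 2 ≤ N)
    (hca : c ≤ N ^ 2 * a) (he1 : e1 ≤ 1 / N ^ 4) (he2 : 0 ≤ e2) (hc' : c' ≤ e3 * c)
    (he : e2 * e3 ≤ 1 / N ^ 4) (hη : 1 / N ≤ η) (hη' : η ≤ 1 / 8)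
    (h : (1 + 2 * η) * (a - e1 * c - e2 * c') ≤ b) : a ≤ b := by
  have hN0 : 0 < N := by linarith
  have hη0 : 0 < η := lt_of_lt_of_le (by positivity) hη
  have h1 : 1 / N ^ 4 * c ≤ η / 2 * a := by
    calc 1 / N ^ 4 * c ≤ 1 / N ^ 4 * (N ^ 2 * a) :=
          mul_le_mul_of_nonneg_left hca (by positivity)
      _ = 1 / N * (1 / N) * a := by field_simp
      _ ≤ η * (1 / 2) * a := by
          refine mul_le_mul_of_nonneg_right ?_ ha
          exact mul_le_mul hη (one_div_le_one_div_of_le (by norm_num) hN) (by positivity) hη0.le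
      _ = η / 2 * a := by ring
  have h2 : e1 * c ≤ η / 2 * a := (mul_le_mul_of_nonneg_right he1 hc).trans h1
  have h3 : e2 * c' ≤ η / 2 * a := by
    calc e2 * c' ≤ e2 * (e3 * c) := mul_le_mul_of_nonneg_left hc' he2
      _ = e2 * e3 * c := by ring
      _ ≤ 1 / N ^ 4 * c := mul_le_mul_of_nonneg_right he hc
      _ ≤ η / 2 * a := h1
  have h4 : (1 - η) * a ≤ a - e1 * c - e2 * c' := by linarith
  have h5 : (1 + 2 * η) * ((1 - η) * a) ≤ b :=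
    (mul_le_mul_of_nonneg_left h4 (by linarith)).trans h
  have h6 : 0 ≤ η * (1 - 2 * η) * a := mul_nonneg (mul_nonneg hη0.le (by linarith)) ha
  nlinarith

theorem REGB3 (h0 : St_GF) (h1 : St_MAIN3) (h3 : St_CG) : St_REGB3 := by
  intro ε hε hε'
  refine ⟨max 1000000000 ⌈1000 / ε⌉₊, fun N k l m hl hN hlN hk hS hm hmono => ?_⟩
  obtain ⟨h40, hP⟩ := hS
  have hl1 : 1000000000 ≤ l := le_trans (le_max_left _ _) hl
  have hl2 : 1000 ≤ ε * l := by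
    have a1 : 1000 / ε ≤ (l : ℝ) :=
      (Nat.le_ceil _).trans (by exact_mod_cast le_trans (le_max_right _ _) hl)
    rw [div_le_iff₀ hε] at a1
    linarith
  obtain ⟨hA, -, -, hE, -, hdg, -, -⟩ := h0 N k (by omega)
  obtain ⟨s1, s2, s3⟩ := REGB3_small hl1 hlN hP
  have hk4 := REGB3_k hl1 hlN hk hP
  have hm2 : 2 * m ≤ ne (Adj N k) := by
    have a1 : (0 : ℝ) ≤ ne (Adj N k) := Nat.cast_nonneg _
    have a2 : 2 * (m : ℝ) ≤ ne (Adj N k) := by nlinarith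
    exact_mod_cast a2
  have hPN : N / k + 2 ≤ N := le_trans (Nat.le_mul_of_pos_left _ (by omega)) s2
  have hmN : m + 1 ≤ N ^ 2 := by
    have a1 : N * (N / k + 2) ≤ N * N := Nat.mul_le_mul_left _ hPN
    have a2 : 4 ≤ N * N := by nlinarith
    rw [sq]; omega
  set p := N / k + 2 with hp
  have hp1 : 1 ≤ p := Nat.succ_pos _
  have hlr : (1000000000 : ℝ) ≤ l := by exact_mod_cast hl1
  have hpr : (1 : ℝ) ≤ p := by exact_mod_cast hp1
  have hlp : (0 : ℝ) < l * p := by positivity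
  have hη8 : 1 / ((l : ℝ) * p) ≤ 1 / 8 :=
    one_div_le_one_div_of_le (by norm_num) (by nlinarith)
  have hh : ((l ^ 2 * p : ℕ) : ℝ) + 1 ≤ 1 / ((l : ℝ) * p) * ((l ^ 4 * p ^ 2 : ℕ) : ℝ) := by
    have a1 : 1 / ((l : ℝ) * p) * ((l ^ 4 * p ^ 2 : ℕ) : ℝ) = l * (l ^ 2 * p) := by
      push_cast; field_simp
    rw [a1]
    push_cast
    have a2 : (1 : ℝ) ≤ l ^ 2 * p := by
      have : (1 : ℝ) ≤ (l : ℝ) ^ 2 := one_le_pow₀ (by linarith)
      nlinarith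
    nlinarith
  have hmain := h1 N k m (l ^ 4 * p ^ 2) (20 * l) (l ^ 2 * p) (1 / ((l : ℝ) * p)) hk h40 hm2 hk4
    (by positivity) hη8 hh
  have hcg := h3 N (Adj N k) p m (l ^ 2) ε hA hp1 hdg hε (by linarith) hm
  have hex : 20 * (1 / ((l : ℝ) * p)) * ((l ^ 2 * p : ℕ) : ℝ) = 20 * l := by
    push_cast; field_simp
  rw [hex] at hmain
  have hN1 : 1 ≤ N := by omega
  have hcum : (cum (Adj N k) 0 m : ℝ) ≤ (N : ℝ) ^ 2 * cnt (Adj N k) m := by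
    exact_mod_cast (REGB3_cum (Adj N k) m hmono).trans (Nat.mul_le_mul_right _ hmN)
  have hη : 1 / (N : ℝ) ≤ 1 / ((l : ℝ) * p) :=
    one_div_le_one_div_of_le hlp (by exact_mod_cast s2)
  have hfin := REGB3_fin (Nat.cast_nonneg _) (Nat.cast_nonneg _)
    (by exact_mod_cast (show 2 ≤ N by omega)) hcum (REGB3_two hN hN1 s1) (Real.exp_pos _).le hcg
    (REGB3_exp hN hN1 hl2) hη hη8 hmain
  exact_mod_cast hfin

end Pool.Agent.Lib.MP_64bee1_co.UN
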