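import Pool.Agent.Lib.MP_64bee1_co.UN.Stmts

/-!
The switching inequality that creates a coin inside a block.
-/

namespace Pool.Agent.Lib.MP_64bee1_co.UN

open Finset

theorem SW_abs {γ ε : Type} [Fintype γ] (L R : γ → Prop) [DecidablePred R] (E : Finset ε)
    (W : ε → γ → γ → ℝ) (hW : ∀ e x y, 0 ≤ W e x y) (a b : ℝ)
    (send : ∀ x, L x → ∃ e ∈ E, a ≤ ∑ y, if R y then W e x y else 0)
    (recv : ∀ e ∈ E, ∀ y, ∑ x, W e x y ≤ b) : a * cc L ≤ E.card * b * cc R := by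
  classical
  have h0 : ∀ e x, 0 ≤ ∑ y, if R y then W e x y else 0 := fun e x =>
    sum_nonneg fun y _ => by split_ifs; exacts [hW e x y, le_rfl]
  calc a * cc L = ∑ x, if L x then a else 0 := by
        rw [cc_real, mul_sum]
        exact sum_congr rfl fun x _ => by split_ifs <;> simp
    _ ≤ ∑ x, ∑ e ∈ E, ∑ y, if R y then W e x y else 0 := by
        refine sum_le_sum fun x _ => ?_
        split_ifs with h
        · obtain ⟨e, he, h1⟩ := send x h
          exact h1.trans (single_le_sum (fun e _ => h0 e x) he)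
        · exact sum_nonneg fun e _ => h0 e x
    _ = ∑ e ∈ E, ∑ y, if R y then ∑ x, W e x y else 0 := by
        rw [sum_comm]
        refine sum_congr rfl fun e _ => ?_
        rw [sum_comm]
        exact sum_congr rfl fun y _ => by split_ifs <;> simp
    _ ≤ ∑ e ∈ E, b * cc R := by
        refine sum_le_sum fun e he => ?_
        rw [cc_real, mul_sum]
        refine sum_le_sum fun y _ => ?_
        split_ifs
        · rw [mul_one]; exact recv e he y
        · simp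
    _ = E.card * b * cc R := by rw [sum_const, nsmul_eq_mul, mul_assoc]

variable {N M : ℕ}

/-- `Y` arises from `X` by moving the two ends of `e` towards each other. -/
def SW_cond (Q : ℕ) (e : Fin N × Fin N) (X Y : Fin N → Fin M) : Prop :=
  (∀ v, v ≠ e.1 → v ≠ e.2 → X v = Y v) ∧ (X e.1 : ℕ) ≤ Y e.1 ∧ (Y e.1 : ℕ) < Y e.2 ∧
    (Y e.2 : ℕ) ≤ X e.2 ∧ (X e.2 : ℕ) < X e.1 + Q * (Y e.2 - Y e.1)

open Classical in
/-- The weight of a move. -/
noncomputable def SW_w (Q : ℕ) (e : Fin N × Fin N) (X Y : Fin N → Fin M) : ℝ :=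
  if SW_cond Q e X Y then 1 / (((Y e.2 : ℕ) - (Y e.1 : ℕ) : ℕ) : ℝ) ^ 2 else 0

theorem SW_w_nonneg (Q : ℕ) (e : Fin N × Fin N) (X Y : Fin N → Fin M) : 0 ≤ SW_w Q e X Y := by
  unfold SW_w
  split_ifs <;> positivity

theorem SW_recv (Q : ℕ) (e : Fin N × Fin N) (Y : Fin N → Fin M) :
    ∑ X, SW_w Q e X Y ≤ (Q : ℝ) ^ 2 := by
  classical
  unfold SW_w
  rw [← sum_filter, sum_const, nsmul_eq_mul]
  generalize hd : (Y e.2 : ℕ) - (Y e.1 : ℕ) = d
  have h1 : (univ.filter fun X => SW_cond Q e X Y).card ≤ (range (Q * d) ×ˢ range (Q * d)).card := by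
    refine card_le_card_of_injOn (fun X => ((Y e.1 : ℕ) - X e.1, (X e.2 : ℕ) - Y e.2))
      (fun X hX => ?_) fun X hX X' hX' h => ?_
    · obtain ⟨-, a1, a2, a3, a4⟩ := (mem_filter.1 hX).2
      rw [hd] at a4
      simp only [coe_product, Set.mem_prod, mem_coe, mem_range]
      omega
    · obtain ⟨a0, a1, a2, a3, -⟩ := (mem_filter.1 hX).2
      obtain ⟨b0, b1, -, b3, -⟩ := (mem_filter.1 hX').2
      simp only [Prod.mk.injEq] at h
      funext v
      by_cases h1 : v = e.1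
      · subst h1; exact Fin.ext (by omega)
      by_cases h2 : v = e.2
      · subst h2; exact Fin.ext (by omega)
      rw [a0 v h1 h2, b0 v h1 h2]
  rw [card_product, card_range] at h1
  rcases Nat.eq_zero_or_pos d with rfl | h0
  · simp
  · rw [mul_one_div, div_le_iff₀ (by positivity)]
    calc _ ≤ ((Q * d * (Q * d) : ℕ) : ℝ) := Nat.cast_le.2 h1
      _ = _ := by push_cast; ring

theorem SW_send (Q : ℕ) (R : (Fin N → Fin M) → Prop) [DecidablePred R] {i j : Fin N} (hij : i ≠ j)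
    (X : Fin N → Fin M) {s z : ℕ} (hs : 0 < s) (h1 : (X i : ℕ) ≤ z) (h2 : z + 15 * s ≤ X j)
    (h3 : (X j : ℕ) < X i + Q * s)
    (hR : ∀ Y : Fin N → Fin M, (∀ v, v ≠ i → v ≠ j → X v = Y v) → z + 6 * s ≤ Y i →
      (Y i : ℕ) < z + 7 * s → z + 8 * s ≤ Y j → (Y j : ℕ) < z + 9 * s → R Y) :
    1 / 9 ≤ ∑ Y, if R Y then SW_w Q (i, j) X Y else 0 := by
  classical
  have hM := (X j).2
  let T : Fin s × Fin s → Fin N → Fin M := fun a =>
    Function.update (Function.update X i ⟨z + 6 * s + a.1, by have := a.1.2; omega⟩) j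
      ⟨z + 8 * s + a.2, by have := a.2.2; omega⟩
  have t1 : ∀ a, (T a i : ℕ) = z + 6 * s + a.1 := fun a => by simp [T, hij]
  have t2 : ∀ a, (T a j : ℕ) = z + 8 * s + a.2 := fun a => by simp [T]
  have t3 : ∀ a v, v ≠ i → v ≠ j → X v = T a v := fun a v a1 a2 => by simp [T, a1, a2]
  have hT : Function.Injective T := fun a b h => by
    have e1 := t1 a
    have e2 := t2 a
    rw [h, t1] at e1
    rw [h, t2] at e2
    exact Prod.ext (Fin.ext (by omega)) (Fin.ext (by omega))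
  have h0 : ∀ Y, 0 ≤ if R Y then SW_w Q (i, j) X Y else 0 := fun Y => by
    split_ifs; exacts [SW_w_nonneg _ _ _ _, le_rfl]
  refine le_trans ?_ (sum_le_sum_of_subset_of_nonneg (subset_univ (univ.image T))
    fun Y _ _ => h0 Y)
  rw [sum_image fun a _ b _ h => hT h]
  have hs' : (0 : ℝ) < s := Nat.cast_pos.2 hs
  refine le_trans (le_of_eq ?_) (card_nsmul_le_sum _ _ (1 / (3 * s : ℝ) ^ 2) fun a _ => ?_)
  · rw [card_univ, Fintype.card_prod, Fintype.card_fin, nsmul_eq_mul]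
    push_cast
    field_simp
    norm_num
  · have a1 := a.1.2
    have a2 := a.2.2
    have e1 := t1 a
    have e2 := t2 a
    have e3 : Q * s ≤ Q * ((T a j : ℕ) - T a i) := Nat.mul_le_mul_left _ (by omega)
    rw [if_pos (hR _ (t3 a) (by omega) (by omega) (by omega) (by omega)), SW_w,
      if_pos ⟨t3 a, by simp only; omega, by simp only; omega, by simp only; omega,
        by simp only; omega⟩]
    have e4 : 0 < (T a j : ℕ) - T a i := by omega
    have e5 : (((T a j : ℕ) - T a i : ℕ) : ℝ) ≤ 3 * s := by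
      exact_mod_cast (by omega : (T a j : ℕ) - T a i ≤ 3 * s)
    exact one_div_le_one_div_of_le (by positivity) (by gcongr)

theorem SW_free (U : Finset (Fin N)) (X : Fin N → Fin M) (c w n : ℕ) (hU : U.card ≤ n) :
    ∃ t ≤ n, ∀ u ∈ U, (X u : ℕ) < c + w * t ∨ c + w * t + w ≤ X u := by
  by_contra h
  push Not at h
  have h1 : range (n + 1) ⊆ U.image fun u => ((X u : ℕ) - c) / w := fun t ht => by
    obtain ⟨u, hu, a1, a2⟩ := h t (by simpa [Nat.lt_succ_iff] using ht)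
    refine mem_image.2 ⟨u, hu, Nat.div_eq_of_lt_le ?_ ?_⟩
    · rw [mul_comm]; omega
    · rw [add_mul, mul_comm t]; omega
  have := (card_le_card h1).trans card_image_le
  rw [card_range] at this
  omega

theorem SW_edges {p : ℕ} (A : Fin N → Fin N → Prop) [DecidableRel A] (Bl : Finset (Fin N))
    (hA : Asym A) (h1 : ∀ v, (univ.filter (Nb A v)).card ≤ p) (h2 : Bl.card ≤ p) :
    (univ.filter fun e : Fin N × Fin N => A e.1 e.2 ∧ (e.1 ∈ Bl ∨ e.2 ∈ Bl)).card ≤ p * p := by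
  have : (univ.filter fun e : Fin N × Fin N => A e.1 e.2 ∧ (e.1 ∈ Bl ∨ e.2 ∈ Bl)) ⊆
      Bl.biUnion fun b => (univ.filter (Nb A b)).image fun u => if A b u then (b, u) else (u, b) := by
    rintro ⟨i, j⟩ he
    obtain ⟨a, b | b⟩ := (mem_filter.1 he).2
    · exact mem_biUnion.2 ⟨i, b, mem_image.2 ⟨j, mem_filter.2 ⟨mem_univ _, Or.inl a⟩, if_pos a⟩⟩
    · exact mem_biUnion.2 ⟨j, b, mem_image.2 ⟨i, mem_filter.2 ⟨mem_univ _, Or.inr a⟩,
        if_neg (hA _ _ a)⟩⟩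
  exact (card_le_card this).trans ((card_biUnion_le_card_mul _ _ _ fun b _ =>
    card_image_le.trans (h1 b)).trans (Nat.mul_le_mul_right _ h2))

theorem SW_ivf (A : Fin N → Fin N → Prop) [DecidableRel A] (hA : Asym A) {i j : Fin N}
    (hij : A i j) {X Y : Fin N → Fin M} (h0 : ∀ v, v ≠ i → v ≠ j → X v = Y v)
    (h1 : X i ≤ Y i) (h2 : Y i < Y j) (h3 : Y j ≤ X j)
    (h4 : ∀ u, A i u → X u < X j → X u < X i) (h5 : ∀ u, A u j → X i < X u → X j < X u) :
    ivf A Y ≤ ivf A X := by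
  refine card_le_card fun e he => mem_filter.2 ⟨mem_univ _, (mem_filter.1 he).2.1, ?_⟩
  obtain ⟨a, b⟩ := e
  obtain ⟨h6, h7⟩ : A a b ∧ Y b < Y a := (mem_filter.1 he).2
  show X b < X a
  have hne := hA.ne' _ _ h6
  by_cases a1 : a = i
  · subst a1
    by_cases b2 : b = j
    · subst b2; exact absurd h7 h2.not_gt
    · rw [← h0 b hne.symm b2] at h7
      exact h4 b h6 (h7.trans (h2.trans_le h3))
  by_cases a2 : a = j
  · subst a2
    have b1 : b ≠ i := fun h => hA _ _ hij (h ▸ h6)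
    rw [← h0 b b1 hne.symm] at h7
    exact h7.trans_le h3
  rw [← h0 a a1 a2] at h7
  by_cases b1 : b = i
  · subst b1; exact h1.trans_lt h7
  by_cases b2 : b = j
  · subst b2; exact h5 a h6 ((h1.trans_lt h2).trans h7)
  rwa [← h0 b b1 b2] at h7

theorem SW_coin {A : Fin N → Fin N → Prop} {X : Fin N → Fin M} {i : Fin N} {x : Fin M}
    (h : ∃ u, Nb A i u ∧ x ≠ X u ∧ (x : ℕ) ≤ 2 * X u ∧ 2 * (X u : ℕ) < M + x ∧
      ∀ v, Nb A i v → v ≠ u → 2 * |((x : ℕ) : ℤ) - (X u : ℕ)| < |((X v : ℕ) : ℤ) - (X u : ℕ)|) :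
    x ∈ coinS A X i := by
  unfold coinS
  simpa only [mem_filter, mem_univ, true_and] using h

theorem SW : St_SW := by
  intro N M p m A _ Bl Gr Φ hA hp H1 H2 hN hB hG1 hG2 hΦ
  classical
  have key := SW_abs (fun X : Fin N → Fin M => ivf A X ≤ m ∧ Sep (15 * (2 * p + 1)) X ∧
      (∃ i j, A i j ∧ (i ∈ Bl ∨ j ∈ Bl) ∧ X i < X j) ∧ Φ X)
    (fun X : Fin N → Fin M => ivf A X ≤ m ∧ (∃ i ∈ Bl, X i ∈ coinS A X i) ∧ Φ X)
    (univ.filter fun e : Fin N × Fin N => A e.1 e.2 ∧ (e.1 ∈ Bl ∨ e.2 ∈ Bl))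
    (SW_w (2 * (15 * (2 * p + 1)))) (SW_w_nonneg _) (1 / 9) _ ?_ fun e _ Y => SW_recv _ e Y
  · have h1 : ((univ.filter fun e : Fin N × Fin N =>
        A e.1 e.2 ∧ (e.1 ∈ Bl ∨ e.2 ∈ Bl)).card : ℝ) ≤ p * p := by
      exact_mod_cast SW_edges A Bl hA hN hB
    have h2 : ((2 * (15 * (2 * p + 1)) : ℕ) : ℝ) ≤ 90 * p := by
      exact_mod_cast (by omega : 2 * (15 * (2 * p + 1)) ≤ 90 * p)
    generalize cc (fun X : Fin N → Fin M => ivf A X ≤ m ∧ (∃ i ∈ Bl, X i ∈ coinS A X i) ∧ Φ X) = b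
      at key
    generalize cc (fun X : Fin N → Fin M => ivf A X ≤ m ∧ Sep (15 * (2 * p + 1)) X ∧
      (∃ i j, A i j ∧ (i ∈ Bl ∨ j ∈ Bl) ∧ X i < X j) ∧ Φ X) = a at key
    have h3 := key.trans (show _ ≤ (p * p : ℝ) * (90 * p) ^ 2 * b by gcongr)
    have h4 : (0 : ℝ) ≤ p ^ 4 * b := by positivity
    have : (a : ℝ) ≤ 100000 * p ^ 4 * b := by nlinarith
    exact_mod_cast this
  rintro X ⟨x1, x2, ⟨i0, j0, x3⟩, x4⟩
  obtain ⟨⟨i, j⟩, he, hmin⟩ := exists_min_image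
    (univ.filter fun e : Fin N × Fin N => A e.1 e.2 ∧ (e.1 ∈ Bl ∨ e.2 ∈ Bl) ∧ X e.1 < X e.2)
    (fun e => (X e.2 : ℕ) - X e.1) ⟨(i0, j0), mem_filter.2 ⟨mem_univ _, x3⟩⟩
  obtain ⟨e1, e2, e3⟩ : A i j ∧ (i ∈ Bl ∨ j ∈ Bl) ∧ X i < X j := (mem_filter.1 he).2
  have hmin' : ∀ a b, A a b → a ∈ Bl ∨ b ∈ Bl → X a < X b →
      (X j : ℕ) - X i ≤ (X b : ℕ) - X a := fun a b h1 h2 h3 =>
    hmin (a, b) (mem_filter.2 ⟨mem_univ _, h1, h2, h3⟩)
  have hij := hA.ne' _ _ e1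
  have e4 : (X i : ℕ) < X j := e3
  have hsep : ∀ u v, u ≠ v → (X u : ℕ) ≠ X v := fun u v h => by
    have := x2 u v h
    omega
  refine ⟨(i, j), mem_filter.2 ⟨mem_univ _, e1, e2⟩, ?_⟩
  obtain ⟨s, hs⟩ : ∃ s, s = ((X j : ℕ) - X i) / (15 * (2 * p + 1)) := ⟨_, rfl⟩
  have s1 : 15 * (2 * p + 1) * s ≤ (X j : ℕ) - X i := hs ▸ Nat.mul_div_le _ _
  have s2 : (X j : ℕ) - X i < 15 * (2 * p + 1) * (s + 1) := hs ▸ Nat.lt_mul_div_succ _ (by omega)
  have s0 : 0 < s := hs ▸ Nat.div_pos (by have := x2 i j hij; omega) (by omega)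
  obtain ⟨t, ht, hU⟩ := SW_free
    ((univ.filter (Nb A i) ∪ univ.filter (Nb A j)).filter fun u => u ≠ i ∧ u ≠ j) X (X i) (15 * s)
    (2 * p) ((card_filter_le _ _).trans
      ((card_union_le _ _).trans (by have := hN i; have := hN j; omega)))
  have s3 : 15 * s * (t + 1) ≤ 15 * s * (2 * p + 1) := Nat.mul_le_mul_left _ (by omega)
  have s4 : 15 * (2 * p + 1) * 1 ≤ 15 * (2 * p + 1) * s := Nat.mul_le_mul_left _ s0
  have s5 : (X i : ℕ) + 15 * s * t + 15 * s ≤ X j := by nlinarith [Nat.sub_add_cancel e4.le]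
  have s6 : (X j : ℕ) < X i + 2 * (15 * (2 * p + 1)) * s := by nlinarith [Nat.sub_add_cancel e4.le]
  generalize hz : (X i : ℕ) + 15 * s * t = z at hU s5
  have s7 : (X i : ℕ) ≤ z := by omega
  have hU' : ∀ u, Nb A i u ∨ Nb A j u → u ≠ i → u ≠ j → (X u : ℕ) < z ∨ z + 15 * s ≤ X u :=
    fun u h a b => hU u (mem_filter.2 ⟨by simpa using h, a, b⟩)
  have hM := (X j).2
  refine SW_send _ _ hij X s0 s7 s5 s6 fun Y y0 y1 y2 y3 y4 => ⟨le_trans ?_ x1, ?_, ?_⟩
  · refine SW_ivf A hA e1 y0 (Fin.le_def.2 (by omega)) (Fin.lt_def.2 (by omega))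
      (Fin.le_def.2 (by omega)) (fun u h1 h2 => ?_) fun u h1 h2 => ?_
    · by_contra h3
      have h4 := hsep i u (hA.ne' _ _ h1)
      have h5 := hmin' i u h1 (e2.imp_right fun h => H1 i j e1 h u h1)
        (by rw [Fin.lt_def] at h3 ⊢; omega)
      rw [Fin.lt_def] at h2 h3
      omega
    · by_contra h3
      have h4 := hsep u j (hA.ne' _ _ h1)
      have h5 := hmin' u j h1 (e2.imp_left fun h => H2 i j e1 h u h1)
        (by rw [Fin.lt_def] at h3 ⊢; omega)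
      rw [Fin.lt_def] at h2 h3
      omega
  · rcases e2 with e2 | e2
    · refine ⟨i, e2, SW_coin ⟨j, Or.inl e1, fun h => ?_, by omega, by omega,
        fun v h1 h2 => ?_⟩⟩
      · rw [h] at y2; omega
      · have h3 : v ≠ i := fun h => by subst h; exact h1.elim (hA.ne' _ _ · rfl) (hA.ne' _ _ · rfl)
        have h4 := hU' v (Or.inl h1) h3 h2
        rw [← y0 v h3 h2, abs_of_nonpos (by omega), lt_abs]
        omega
    · refine ⟨j, e2, SW_coin ⟨i, Or.inr e1, fun h => ?_, by omega, by omega,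
        fun v h1 h2 => ?_⟩⟩
      · rw [h] at y3; omega
      · have h3 : v ≠ j := fun h => by subst h; exact h1.elim (hA.ne' _ _ · rfl) (hA.ne' _ _ · rfl)
        have h4 := hU' v (Or.inr h1) h2 h3
        rw [← y0 v h2 h3, abs_of_nonneg (by omega), lt_abs]
        omega
  · have g : i ∈ Gr ∧ j ∈ Gr := e2.elim (fun h => ⟨hG1 h, hG2 i h j (Or.inl e1)⟩)
      fun h => ⟨hG2 j h i (Or.inr e1), hG1 h⟩
    exact hΦ X Y (fun v hv => y0 v (fun h => hv (h ▸ g.1)) fun h => hv (h ▸ g.2)) x4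

end Pool.Agent.Lib.MP_64bee1_co.UN
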