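import Pool.Agent.Lib.MP_64bee1_co.UN.Stmts

/-! Configurations with few coin sites are rare. -/

namespace Pool.Agent.Lib.MP_64bee1_co.UN

open Finset

open Classical in
theorem TYP3_sum {γ δ : Type} [Fintype γ] (s : Finset δ) (Q : δ → γ → Prop) :
    ∑ b ∈ s, cc (Q b) = ∑ x, (s.filter fun b => Q b x).card := by
  simp only [cc_eq, card_filter]
  exact sum_comm

open Classical in
theorem TYP3_mul {γ : Type} [Fintype γ] (T : γ → Prop) (c : ℕ) :
    c * cc T = ∑ x, if T x then c else 0 := by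
  rw [cc_eq, card_filter, mul_sum]
  simp

theorem TYP3_lo {γ δ : Type} [Fintype γ] {s : Finset δ} {Q : δ → γ → Prop} {T : γ → Prop}
    {c d : ℕ} (h : ∀ x, T x → ∃ s' : Finset δ, c ≤ d * s'.card ∧ ∀ b ∈ s', b ∈ s ∧ Q b x) :
    c * cc T ≤ d * ∑ b ∈ s, cc (Q b) := by
  rw [TYP3_sum, TYP3_mul, mul_sum]
  refine sum_le_sum fun x _ => ?_
  split_ifs with hx
  · obtain ⟨s', h1, h2⟩ := h x hx
    exact h1.trans (Nat.mul_le_mul_left _ (card_le_card fun b hb => by simpa using h2 b hb))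
  · exact Nat.zero_le _

theorem TYP3_hi {γ δ : Type} [Fintype γ] {s : Finset δ} {Q : δ → γ → Prop} {T : γ → Prop}
    {c : ℕ} (h' : ∀ x, ∀ b ∈ s, Q b x → T x)
    (h : ∀ x, T x → ∃ s' : Finset δ, s'.card ≤ c ∧ ∀ b ∈ s, Q b x → b ∈ s') :
    ∑ b ∈ s, cc (Q b) ≤ c * cc T := by
  rw [TYP3_sum, TYP3_mul]
  refine sum_le_sum fun x _ => ?_
  split_ifs with hx
  · obtain ⟨s', h1, h2⟩ := h x hx
    refine le_trans (card_le_card fun b hb => ?_) h1
    simp only [mem_filter] at hb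
    exact h2 b hb.1 hb.2
  · simpa using fun b hb hQ => hx (h' x b hb hQ)

/-- The middle column of a group. -/
def TYP3_Bl (N k b : ℕ) : Finset (Fin N) := univ.filter fun v => (v : ℕ) % k = 3 * b + 1

/-- A group of three columns. -/
def TYP3_Gr (N k b : ℕ) : Finset (Fin N) := univ.filter fun v => (v : ℕ) % k / 3 = b

/-- The group contains a coin. -/
def TYP3_coin {N M : ℕ} (k b : ℕ) (X : Fin N → Fin M) : Prop :=
  ∃ i ∈ TYP3_Bl N k b, X i ∈ coinS (Adj N k) X i

/-- The middle column of the group has a non inverted edge. -/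
def TYP3_edge {N M : ℕ} (k b : ℕ) (X : Fin N → Fin M) : Prop :=
  ∃ i j, Adj N k i j ∧ (i ∈ TYP3_Bl N k b ∨ j ∈ TYP3_Bl N k b) ∧ X i < X j

open Classical in
/-- Number of groups with a coin. -/
noncomputable def TYP3_cg {N M : ℕ} (k : ℕ) (s : Finset ℕ) (X : Fin N → Fin M) : ℕ :=
  (s.filter fun b => TYP3_coin k b X).card

theorem TYP3_step {a b k : ℕ} (ha : a < k) (h : b = (a + 1) % k) : b = a + 1 ∨ b = 0 ∧ a + 1 = k := by
  rcases Nat.lt_or_ge (a + 1) k with h1 | h1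
  · exact Or.inl (h.trans (Nat.mod_eq_of_lt h1))
  · have : a + 1 = k := by omega
    exact Or.inr ⟨by rw [h, this, Nat.mod_self], this⟩

theorem TYP3_nb (h0 : St_GF) {N k b : ℕ} (hb : b < k / 3) :
    ∀ i ∈ TYP3_Bl N k b, ∀ j, Nb (Adj N k) i j → j ∈ TYP3_Gr N k b := by
  have hk : 0 < k := by omega
  have h1 := (h0 N k (by omega)).2.1
  simp only [TYP3_Bl, TYP3_Gr, mem_filter, mem_univ, true_and]
  rintro i hi j (h | h)
  · have := TYP3_step (Nat.mod_lt _ hk) (h1 i j h)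
    omega
  · have := TYP3_step (Nat.mod_lt _ hk) (h1 j i h)
    omega

theorem TYP3_loc (h0 : St_GF) {N M k b : ℕ} (hb : b < k / 3) {X X' : Fin N → Fin M}
    (h : ∀ v ∈ TYP3_Gr N k b, X v = X' v) (hc : TYP3_coin k b X) : TYP3_coin k b X' := by
  obtain ⟨i, hi, hc⟩ := hc
  have hi' : X i = X' i := h i (by
    simp only [TYP3_Bl, TYP3_Gr, mem_filter, mem_univ, true_and] at hi ⊢
    omega)
  have hn := fun j hj => h j (TYP3_nb h0 hb i hi j hj)
  simp only [coinS, mem_filter, mem_univ, true_and] at hc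
  obtain ⟨u, h1, h2, h3, h4, h5⟩ := hc
  refine ⟨i, hi, ?_⟩
  simp only [coinS, mem_filter, mem_univ, true_and, ← hi']
  refine ⟨u, h1, ?_⟩
  rw [← hn u h1]
  exact ⟨h2, h3, h4, fun v hv hvu => hn v hv ▸ h5 v hv hvu⟩

theorem TYP3_le {N M k : ℕ} (X : Fin N → Fin M) :
    TYP3_cg k (range (k / 3)) X ≤ ncX (Adj N k) (R3 N k) X := by
  classical
  rw [ncX, nco, cc_eq]
  refine le_trans (card_le_card fun b hb => ?_)
    (card_image_le (f := fun i : R3 N k => ((i : Fin N) : ℕ) % k / 3))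
  obtain ⟨hb, i, hi, hc⟩ := mem_filter.1 hb
  simp only [TYP3_Bl, mem_filter, mem_univ, true_and, mem_range] at hi hb
  refine mem_image.2 ⟨⟨i, mem_filter.2 ⟨mem_univ _, by omega, by omega⟩⟩,
    mem_filter.2 ⟨mem_univ _, hc⟩, ?_⟩
  simp only
  omega

open Classical in
theorem TYP3_bad (h0 : St_GF) (h2 : St_GLUE) {N M k m g : ℕ} (hk : 3 ≤ k) (hP : 40 ≤ N / k)
    (hm : 2 * m ≤ ne (Adj N k)) (hg : 1 ≤ g) {X : Fin N → Fin M} (hX : ivf (Adj N k) X ≤ m)
    (hS : Sep g X) :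
    100 * ((range (k / 3)).filter fun b => ¬ TYP3_edge k b X).card ≤ 27 * k := by
  obtain ⟨g1, -, g3, g4, g5, -, g7, -⟩ := h0 N k (by omega)
  set B := (range (k / 3)).filter fun b => ¬ TYP3_edge k b X
  have a1 : B.biUnion (TYP3_Bl N k) ⊆ R3 N k := fun v hv => by
    obtain ⟨b, hb, hv⟩ := mem_biUnion.1 hv
    have := mem_range.1 (mem_filter.1 hb).1
    simp only [TYP3_Bl, R3, mem_filter, mem_univ, true_and] at hv ⊢
    omega
  have a2 : B.card * (N / k) ≤ (B.biUnion (TYP3_Bl N k)).card := by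
    rw [card_biUnion (t := TYP3_Bl N k) fun b _ b' _ hb =>
      disjoint_filter.2 fun v _ h1 h2 => hb (by omega)]
    refine card_nsmul_le_sum _ _ _ fun b hb => (g5 _ ?_).1
    have := mem_range.1 (mem_filter.1 hb).1
    omega
  have a3 : ∀ v ∈ B.biUnion (TYP3_Bl N k), N / k ≤ gs (Adj N k) X v (X v) := fun v hv => by
    obtain ⟨b, hb, hv⟩ := mem_biUnion.1 hv
    have hne : ∀ i j, Adj N k i j → i = v ∨ j = v → X j < X i := fun i j h h' => by
      have h3 : ¬ X i < X j := fun h3 => (mem_filter.1 hb).2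
        ⟨i, j, h, by rcases h' with rfl | rfl <;> simp [hv], h3⟩
      have := hS i j (g1.ne' i j h)
      simp only [Fin.lt_def] at h3 ⊢
      omega
    exact (g3 v).2.2.2.2.1.trans (add_le_add
      (card_le_card fun j hj => mem_filter.2 ⟨mem_univ _, (mem_filter.1 hj).2,
        hne _ _ (mem_filter.1 hj).2 (Or.inl rfl)⟩)
      (card_le_card fun j hj => mem_filter.2 ⟨mem_univ _, (mem_filter.1 hj).2,
        hne _ _ (mem_filter.1 hj).2 (Or.inr rfl)⟩))
  have a4 := ((card_nsmul_le_sum _ _ _ a3).trans (sum_le_sum_of_subset a1)).trans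
    (((h2 N M _ _ g1 g7).2.2 X).trans hX)
  have a5 : N < k * (N / k + 1) := Nat.lt_mul_div_succ N (by omega)
  rw [smul_eq_mul] at a4
  generalize N / k = P at *
  have a6 : B.card * P * P ≤ m := (Nat.mul_le_mul_right _ a2).trans a4
  have a7 : N * (P + 2) ≤ k * (P + 1) * (P + 2) := Nat.mul_le_mul_right _ a5.le
  have a8 : k * (100 * ((P + 1) * (P + 2))) ≤ k * (108 * (P * P)) :=
    Nat.mul_le_mul_left _ (by nlinarith)
  refine Nat.le_of_mul_le_mul_right (c := P * P) ?_ (by positivity)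
  nlinarith

theorem TYP3_rec (h0 : St_GF) (h1 : St_SW) (h2 : St_GLUE) {N M k m l : ℕ} (hP : 40 ≤ N / k)
    (hm : 2 * m ≤ ne (Adj N k)) (hl : 4000000 * (N / k + 2) ^ 4 * (l + 1) ≤ k) :
    2 * cc (fun X : Fin N → Fin M => (ivf (Adj N k) X ≤ m ∧ TYP3_cg k (range (k / 3)) X = l) ∧
        Sep (15 * (2 * (N / k + 2) + 1)) X) ≤
      cc fun X : Fin N → Fin M => ivf (Adj N k) X ≤ m ∧ TYP3_cg k (range (k / 3)) X = l + 1 := by
  classical
  have hl' : 4000000 * (l + 1) ≤ k := le_trans (Nat.mul_le_mul_right _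
    (Nat.le_mul_of_pos_right _ (by positivity))) hl
  obtain ⟨g1, g2, g3, -, g5, -⟩ := h0 N k (by omega)
  have hk : 0 < k := by omega
  have sw := sum_le_sum fun b (hb : b ∈ range (k / 3)) =>
    h1 N M (N / k + 2) m (Adj N k) (TYP3_Bl N k b) (TYP3_Gr N k b)
      (fun X => TYP3_cg k ((range (k / 3)).erase b) X = l) g1 (by omega)
      (fun i j h hj u hu => mem_filter.2 ⟨mem_univ _, by
        rw [g2 i u hu, ← g2 i j h, (mem_filter.1 hj).2]⟩)
      (fun i j h hi u hu => mem_filter.2 ⟨mem_univ _, by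
        have := TYP3_step (Nat.mod_lt _ hk) (g2 i j h)
        have := TYP3_step (Nat.mod_lt _ hk) (g2 u j hu)
        have := (mem_filter.1 hi).2
        omega⟩)
      (fun v => (g3 v).2.2.2.2.2.2.le.trans (g3 v).2.2.2.2.2.1)
      ((g5 _ (by have := mem_range.1 hb; omega)).2.trans (Nat.le_succ _))
      (fun v hv => mem_filter.2 ⟨mem_univ _, by have := (mem_filter.1 hv).2; omega⟩)
      (TYP3_nb h0 (mem_range.1 hb)) fun X X' h e => by
        refine Eq.trans (congrArg card (filter_congr fun b' hb' => ?_)) e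
        have h3 : ∀ v ∈ TYP3_Gr N k b', X v = X' v := fun v hv => h v fun hv' =>
          (mem_erase.1 hb').1 ((mem_filter.1 hv).2.symm.trans (mem_filter.1 hv').2)
        have h4 := mem_range.1 (mem_erase.1 hb').2
        exact ⟨TYP3_loc h0 h4 fun v hv => (h3 v hv).symm, TYP3_loc h0 h4 h3⟩
  rw [← mul_sum] at sw
  refine Nat.le_of_mul_le_mul_left ?_ hk
  refine (mul_left_comm _ _ _).trans_le (le_trans (Nat.mul_le_mul_left 2 ((TYP3_lo (d := 20)
    fun X h => ?_).trans (Nat.mul_le_mul_left _ (sw.trans (Nat.mul_le_mul_left _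
      (TYP3_hi (T := fun X => ivf (Adj N k) X ≤ m ∧ TYP3_cg k (range (k / 3)) X = l + 1)
        (fun X b hb h => ⟨h.1, ?_⟩) fun X h => ⟨_, h.2.le, fun b hb h4 =>
        mem_filter.2 ⟨hb, h4.2.1⟩⟩)))))) (le_trans (le_of_eq ?_) (Nat.mul_le_mul_right _ hl)))
  · obtain ⟨⟨h3, h4⟩, h5⟩ := h
    have h6 := TYP3_bad h0 h2 (by omega) hP hm (by omega) h3 h5
    have h7 : range (k / 3) ⊆ ((range (k / 3)).filter fun b => ¬ TYP3_edge k b X) ∪
        (((range (k / 3)).filter fun b => TYP3_coin k b X) ∪ (range (k / 3)).filter fun b =>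
          ¬ TYP3_coin k b X ∧ TYP3_edge k b X) := fun b hb => by
      simp only [mem_union, mem_filter, hb, true_and]
      tauto
    have h8 := (card_le_card h7).trans ((card_union_le _ _).trans
      (Nat.add_le_add_left (card_union_le _ _) _))
    refine ⟨(range (k / 3)).filter fun b => ¬ TYP3_coin k b X ∧ TYP3_edge k b X, ?_,
      fun b hb => ?_⟩
    · rw [card_range, show ((range (k / 3)).filter fun b => TYP3_coin k b X).card = l
        from h4] at h8
      omega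
    · obtain ⟨h9, h10, h11⟩ := mem_filter.1 hb
      refine ⟨h9, h3, h5, h11, ?_⟩
      rw [← h4, TYP3_cg, TYP3_cg, filter_erase, erase_eq_of_notMem]
      exact fun h => h10 (mem_filter.1 h).2
  · rw [← h.2.2, TYP3_cg, TYP3_cg, filter_erase, card_erase_add_one]
    exact mem_filter.2 ⟨hb, h.2.1⟩
  · ring

theorem TYP3 (h0 : St_GF) (h1 : St_SW) (h2 : St_GLUE) : St_TYP3 := by
  intro N M k m n u _ hP hm hk
  set t : ℕ → ℕ := fun l => cc fun X : Fin N → Fin M =>
    ivf (Adj N k) X ≤ m ∧ TYP3_cg k (range (k / 3)) X = l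
  set S := cc fun X : Fin N → Fin M => ¬ Sep (15 * (2 * (N / k + 2) + 1)) X
  set C := cc fun X : Fin N → Fin M => ivf (Adj N k) X ≤ m
  have a1 : ∀ l, l + 1 ≤ n + u → 2 * t l ≤ t (l + 1) + 2 * S := fun l hl => by
    have b1 := TYP3_rec (M := M) h0 h1 h2 hP hm ((Nat.mul_le_mul_left _ hl).trans hk)
    have b2 : t l ≤ _ + S := (cc_split _ (Sep (15 * (2 * (N / k + 2) + 1)))).trans_le
      (Nat.add_le_add_left (cc_mono fun X h => h.2) _)
    simp only [t] at b2 ⊢
    omega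
  have a2 : ∀ l j, l + j ≤ n + u → ((t l : ℝ) - 2 * S) * 2 ^ j ≤ t (l + j) - 2 * S := by
    intro l j
    induction j with
    | zero => simp
    | succ j ih =>
      intro h
      have b1 : (2 * t (l + j) : ℝ) ≤ t (l + j + 1) + 2 * S := by exact_mod_cast a1 _ h
      have b2 := ih (by omega)
      rw [pow_succ, ← add_assoc]
      linarith
  have a3 : ∀ l ∈ range n, (t l : ℝ) ≤ C / 2 ^ u + 2 * S := fun l hl => by
    have b1 := a2 l u (by have := mem_range.1 hl; omega)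
    have b2 : (t (l + u) : ℝ) ≤ C := Nat.cast_le.2 (cc_mono fun X h => h.1)
    have b3 : (0 : ℝ) ≤ S := Nat.cast_nonneg _
    rw [← sub_le_iff_le_add, le_div_iff₀ (by positivity)]
    linarith
  calc _ ≤ ((∑ l ∈ range n, t l : ℕ) : ℝ) := Nat.cast_le.2 (le_trans (cc_mono fun X h =>
        ⟨_, mem_range.2 ((TYP3_le X).trans_lt h.2), h.1.le, rfl⟩) (cc_exists_le _ _))
    _ ≤ ∑ _l ∈ range n, (C / 2 ^ u + 2 * S : ℝ) := by
      rw [Nat.cast_sum]
      exact sum_le_sum a3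
    _ = _ := by
      rw [sum_const, card_range, nsmul_eq_mul]
      ring

end Pool.Agent.Lib.MP_64bee1_co.UN
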