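import Pool.Agent.Lib.MP_64bee1_co.UN.Stmts

/-!
Configurations with many unit coins.
-/

namespace Pool.Agent.Lib.MP_64bee1_co.UN

open Finset Polynomial

theorem UC_site {α : Type} (g : α → ℕ) (S : Finset α) (σ : α → α)
    (h : ∀ a ∈ S, σ a ∈ S ∧ σ (σ a) = a ∧ (g (σ a) = g a + 1 ∨ g a = g (σ a) + 1)) :
    ∃ Cf : ℝ[X], Nn Cf ∧ ∑ a ∈ S, (X : ℝ[X]) ^ g a = Cf * (1 + X) := by
  classical
  refine ⟨∑ a ∈ S.filter (fun a => g (σ a) = g a + 1), X ^ g a,
    nn_sum _ _ fun _ _ => nn_X_pow _, ?_⟩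
  rw [← sum_filter_add_sum_filter_not S (fun a => g (σ a) = g a + 1), mul_add, mul_one, sum_mul]
  congr 1
  refine sum_nbij' σ σ ?_ ?_ ?_ ?_ ?_
  · intro b hb
    obtain ⟨hb, hb'⟩ := mem_filter.1 hb
    obtain ⟨h1, h2, h3⟩ := h b hb
    refine mem_filter.2 ⟨h1, ?_⟩
    rw [h2]; omega
  · intro a ha
    obtain ⟨ha, ha'⟩ := mem_filter.1 ha
    obtain ⟨h1, h2, _⟩ := h a ha
    refine mem_filter.2 ⟨h1, ?_⟩
    rw [h2]; omega
  · intro b hb; exact (h b (mem_filter.1 hb).1).2.1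
  · intro b hb; exact (h b (mem_filter.1 hb).1).2.1
  · intro b hb
    obtain ⟨hb, hb'⟩ := mem_filter.1 hb
    obtain ⟨_, _, h3⟩ := h b hb
    rw [← pow_succ]
    congr 1
    omega

theorem UC_Kp (n : ℕ) : Kp 1 n = (1 + X) ^ n := by simp [Kp]

theorem UC_pi {ι α : Type} [Fintype ι] [DecidableEq ι] (g : ι → α → ℕ) (f0 : ℕ)
    (F : ι → Finset α) :
    gen g f0 (Fintype.piFinset F) = X ^ f0 * ∏ i, ∑ a ∈ F i, (X : ℝ[X]) ^ g i a := by
  unfold gen tot
  rw [prod_univ_sum, mul_sum]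
  refine sum_congr rfl fun x _ => ?_
  rw [pow_add, prod_pow_eq_pow_sum]

theorem UC : St_UC := by
  intro ι α _ _ _ g f0 S n hS
  classical
  choose σ hσ using hS
  choose Cf hC hC' using fun i => UC_site (g i) (S i) (σ i) (hσ i)
  let T : (ι → α) → Finset ι := fun x => univ.filter fun i => x i ∈ S i
  have hT : ∀ x, nco S x = (T x).card := fun x => cc_eq _
  have hmap : ∀ x ∈ univ.filter (fun x => n ≤ nco S x),
      T x ∈ univ.filter fun t : Finset ι => n ≤ t.card := fun x hx =>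
    mem_filter.2 ⟨mem_univ _, hT x ▸ (mem_filter.1 hx).2⟩
  unfold gen
  rw [← sum_fiberwise_of_maps_to hmap]
  refine sum_induction _ (fun f : ℝ[X] => ∃ H : ℝ[X], Nn H ∧ f = Kp 1 n * H) ?_
    ⟨0, nn_zero, by simp⟩ ?_
  · rintro _ _ ⟨H, h1, rfl⟩ ⟨H', h2, rfl⟩
    exact ⟨H + H', h1.add h2, (mul_add _ _ _).symm⟩
  · intro t ht
    have hn : n ≤ t.card := (mem_filter.1 ht).2
    have e : (univ.filter (fun x => n ≤ nco S x)).filter (fun x => T x = t)
        = Fintype.piFinset fun i => if i ∈ t then S i else (S i)ᶜ := by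
      ext x
      simp only [mem_filter, mem_univ, true_and, Fintype.mem_piFinset]
      constructor
      · rintro ⟨_, rfl⟩ i
        split_ifs with hi
        · exact (mem_filter.1 hi).2
        · exact mem_compl.2 fun h => hi (mem_filter.2 ⟨mem_univ _, h⟩)
      · intro h
        have e : T x = t := by
          ext i
          have := h i
          simp only [T, mem_filter, mem_univ, true_and]
          split_ifs at this with hi
          · exact ⟨fun _ => hi, fun _ => this⟩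
          · exact ⟨fun h' => absurd h' (mem_compl.1 this), fun h' => absurd h' hi⟩
        exact ⟨by rw [hT, e]; exact hn, e⟩
    rw [e]
    have e2 := UC_pi g f0 fun i => if i ∈ t then S i else (S i)ᶜ
    unfold gen at e2
    rw [e2, ← prod_mul_prod_compl t]
    have e3 : ∏ i ∈ t, ∑ a ∈ (if i ∈ t then S i else (S i)ᶜ), (X : ℝ[X]) ^ g i a
        = (∏ i ∈ t, Cf i) * (1 + X) ^ t.card := by
      rw [← prod_const, ← prod_mul_distrib]
      refine prod_congr rfl fun i hi => ?_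
      rw [if_pos hi, hC']
    obtain ⟨k, hk⟩ := Nat.exists_eq_add_of_le hn
    refine ⟨X ^ f0 * ((∏ i ∈ t, Cf i) * (1 + X ^ 1) ^ k *
      ∏ i ∈ tᶜ, ∑ a ∈ (if i ∈ t then S i else (S i)ᶜ), (X : ℝ[X]) ^ g i a), ?_, ?_⟩
    · exact (nn_X_pow _).mul (((nn_prod _ _ fun i _ => hC i).mul
        ((nn_one.add (nn_X_pow 1)).pow _)).mul
        (nn_prod _ _ fun i _ => nn_sum _ _ fun _ _ => nn_X_pow _))
    · rw [e3, UC_Kp, hk, pow_add, pow_one]
      ring

section
variable {ι α : Type} [Fintype ι] [DecidableEq ι] [Fintype α] (g : ι → α → ℕ) (f0 : ℕ)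
  (S : ι → Finset α) (n : ℕ)

theorem UC_split (m : ℕ) :
    (gen g f0 (univ.filter fun x => n ≤ nco S x)).coeff m
      = (bb g f0 m : ℝ) - (cc fun x => tot g f0 x = m ∧ nco S x < n : ℕ) := by
  rw [coeff_gen, bb, cc_split (fun x => tot g f0 x = m) fun x => nco S x < n]
  have : cc (fun x => x ∈ univ.filter (fun x => n ≤ nco S x) ∧ tot g f0 x = m)
      = cc fun x => tot g f0 x = m ∧ ¬ nco S x < n :=
    cc_congr fun x => by simp [and_comm]
  rw [this]
  push_cast
  ring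

theorem UC_le (s : Finset (ι → α)) (m : ℕ) : (gen g f0 s).coeff m ≤ bb g f0 m := by
  rw [coeff_gen]
  exact Nat.cast_le.2 (cc_mono fun x (hx : x ∈ s ∧ tot g f0 x = m) => hx.2)

theorem UC_eval (s : Finset (ι → α)) {q : ℝ} (hq : 0 ≤ q) : (gen g f0 s).eval q ≤ ZZ g f0 q := by
  rw [eval_gen]
  exact sum_le_sum_of_subset_of_nonneg (subset_univ _) fun _ _ _ => pow_nonneg hq _

end

theorem UChot (h1 : St_UC) (h2 : St_PKhot) : St_UChot := by
  intro ι α _ _ _ g f0 S n h m η hS hη hη' hh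
  obtain ⟨H, hH, e⟩ := h1 ι α g f0 S n hS
  have k := h2 1 n h m η H le_rfl hη hη' hh hH
  rw [← e, UC_split, Nat.cast_one, div_one, mul_one] at k
  refine le_trans (mul_le_mul_of_nonneg_left ?_ (by linarith)) (k.trans (UC_le g f0 _ _))
  refine sub_le_sub_left (mul_le_mul_of_nonneg_left ?_ (Real.exp_pos _).le) _
  split_ifs with hm
  · refine (UC_le g f0 _ _).trans ?_
    exact_mod_cast bb_le_cb g f0 (by omega)
  · exact Nat.cast_nonneg _

theorem UCcold (h1 : St_UC) (h2 : St_PKcold) : St_UCcold := by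
  intro ι α _ _ _ g f0 S n m η q hS hη hq hq'
  obtain ⟨H, hH, e⟩ := h1 ι α g f0 S n hS
  have k := h2 1 n m η q H le_rfl hη (by linarith) hq (by linarith) (by rwa [pow_one]) hH
  rw [← e, UC_split, Nat.cast_one, div_one] at k
  refine le_trans (mul_le_mul_of_nonneg_left ?_ (by linarith)) (k.trans (UC_le g f0 _ _))
  refine sub_le_sub_left (mul_le_mul_of_nonneg_left ?_ (Real.exp_pos _).le) _
  exact div_le_div_of_nonneg_right (UC_eval g f0 _ hq.le) (pow_pos hq m).le

end Pool.Agent.Lib.MP_64bee1_co.UN
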