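import Pool.Agent.Lib.MP_64bee1_co.UN.Stmts

/-!
The warm regime: growth of the level counts of a sum of independent sites.
-/

namespace Pool.Agent.Lib.MP_64bee1_co.UN

open Finset Polynomial

theorem WARM_fib (ι : Type) [Fintype ι] (b j : ℕ) (hj : j < b) :
    Fintype.card ι / b ≤
      (univ.filter fun i : ι => ((Fintype.equivFin ι i : Fin _) : ℕ) % b = j).card := by
  have hlt : ∀ t : Fin (Fintype.card ι / b), (t : ℕ) * b + j < Fintype.card ι := fun t => by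
    have h1 : ((t : ℕ) + 1) * b ≤ Fintype.card ι / b * b := Nat.mul_le_mul_right _ t.2
    have h2 := Nat.div_mul_le_self (Fintype.card ι) b
    rw [add_mul, one_mul] at h1
    omega
  have h := card_le_card_of_injOn (s := (univ : Finset (Fin (Fintype.card ι / b))))
    (t := univ.filter fun i : ι => ((Fintype.equivFin ι i : Fin _) : ℕ) % b = j)
    (fun t => (Fintype.equivFin ι).symm ⟨(t : ℕ) * b + j, hlt t⟩)
    (fun t _ => by
      simp only [coe_filter, mem_univ, true_and, Set.mem_ofPred_eq, Equiv.apply_symm_apply]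
      rw [Nat.mul_add_mod_self_right, Nat.mod_eq_of_lt hj])
    (fun t _ t' _ h => by
      have h1 := congrArg Fin.val ((Fintype.equivFin ι).symm.injective h)
      simp only at h1
      have h2 : (t : ℕ) * b = (t' : ℕ) * b := by omega
      exact Fin.ext (Nat.eq_of_mul_eq_mul_right (by omega) h2))
  simpa using h

theorem WARM_scale (D a0 : ℕ) (q : ℝ) (h1 : 2 * 2 ^ a0 ≤ D) (h2 : 1 / 3 ≤ q ^ (2 * 2 ^ a0)) :
    ∃ a, a0 ≤ a ∧ 2 * 2 ^ a ≤ D ∧ 1 / 3 ≤ q ^ (2 * 2 ^ a) ∧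
      (D < 4 * 2 ^ a ∨ q ^ (4 * 2 ^ a) < 1 / 3) := by
  classical
  have h0 : a0 ≤ D := by have := Nat.lt_two_pow_self (n := a0); omega
  have hs := Nat.findGreatest_spec (P := fun a => 2 * 2 ^ a ≤ D ∧ 1 / 3 ≤ q ^ (2 * 2 ^ a)) h0
    ⟨h1, h2⟩
  have hl := Nat.le_findGreatest (P := fun a => 2 * 2 ^ a ≤ D ∧ 1 / 3 ≤ q ^ (2 * 2 ^ a)) h0
    ⟨h1, h2⟩
  set a := Nat.findGreatest (fun a => 2 * 2 ^ a ≤ D ∧ 1 / 3 ≤ q ^ (2 * 2 ^ a)) D with ha
  have h3 : a + 1 ≤ D := by have := Nat.lt_two_pow_self (n := a); have := hs.1; omega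
  have hm := Nat.findGreatest_is_greatest
    (P := fun a => 2 * 2 ^ a ≤ D ∧ 1 / 3 ≤ q ^ (2 * 2 ^ a)) (k := a + 1) (by omega) h3
  have he : 2 * 2 ^ (a + 1) = 4 * 2 ^ a := by rw [pow_succ]; ring
  simp only [he] at hm
  refine ⟨a, hl, hs.1, hs.2, ?_⟩
  by_contra hc
  push Not at hc
  exact hm hc

theorem WARM_fin {ξ c B B' R : ℝ} (h0 : 0 ≤ ξ) (h1 : ξ ≤ c) (h2 : B ≤ B') (h3 : (1 + c) * B' ≤ R)
    (h4 : 0 ≤ R) : (1 + ξ) * B ≤ R := by
  rcases le_total B 0 with hB | hB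
  · exact (mul_nonpos_of_nonneg_of_nonpos (by linarith) hB).trans h4
  · exact (mul_le_mul (by linarith) h2 hB (by linarith)).trans h3

theorem WARM_cold {η x : ℝ} (h0 : 0 < η) (h1 : η ≤ 1 / 48) (h2 : x ^ 4 < 1 / 3) :
    x ≤ 1 - 8 * η := by
  by_contra hc
  push Not at hc
  have h3 : (1 - 8 * η) ^ 4 ≤ x ^ 4 := pow_le_pow_left₀ (by linarith) hc.le 4
  have h4 := one_add_mul_le_pow (a := -(8 * η)) (by linarith) 4
  rw [← sub_eq_add_neg] at h4
  push_cast at h4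
  linarith

theorem WARM (h1 : St_MS1) (h2 : St_MS2) (h3 : St_PKcold) (h4 : St_PKhot) : St_WARM := by
  intro ι α _ _ _ g f0 g0 g1 d0 D a0 l n h s m η ξ ρ0 ρ1 q W hL hM hρ hq0 hq1 hq3
  obtain ⟨a, ha0, haD, haq, hmax⟩ := WARM_scale D a0 q W.le_D hq3
  have hpa : 2 ^ a0 ≤ 2 ^ a := Nat.pow_le_pow_right (by norm_num) ha0
  have hal : a + 1 ≤ l := by
    have h5 : 2 ^ (a + 1) ≤ 2 ^ l := by rw [pow_succ]; have := W.D_le; omega
    exact (Nat.pow_le_pow_iff_right (by norm_num)).1 h5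
  choose μ hμ using hL
  let sc : ι → ℕ := fun i => ((Fintype.equivFin ι i : Fin _) : ℕ) % (a + 1)
  have hsc : ∀ i, sc i ≤ a := fun i => Nat.le_of_lt_succ (Nat.mod_lt _ (Nat.succ_pos a))
  have hMS := fun i => h1 ι α g i (μ i) g1 (2 ^ a) (2 ^ sc i) q (hμ i).1
    ((hμ i).2.2 (2 * 2 ^ a) (by have := W.d0_le; omega) haD)
    (Nat.pow_le_pow_right (by norm_num) (hsc i)) hq0 hq1 haq
  choose C R hC hR hG hK using hMS
  have hM0 : (0 : ℝ) < 12 * Fintype.card α := by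
    have : (1 : ℝ) ≤ Fintype.card α := by exact_mod_cast hM
    linarith
  obtain ⟨H, Rm, hH, hRm, hP, hE⟩ := h2 ι (Gs g) C R sc a n
    ((g1 : ℝ) * ((2 ^ a : ℕ) : ℝ) / (12 * Fintype.card α)) q hC hR hG hsc
    (fun i => by
      rw [div_mul_eq_mul_div, div_le_iff₀ hM0, mul_comm _ (12 * (Fintype.card α : ℝ))]
      exact hK i) hq0.le W.n_ge
    (fun j hj => by
      have h5 : Fintype.card ι / l ≤ (univ.filter fun i => sc i = j).card :=
        (Nat.div_le_div_left hal (Nat.succ_pos a)).trans (WARM_fib ι (a + 1) j (by omega))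
      have h6 : ((Fintype.card ι / l : ℕ) : ℝ) ≤ ((univ.filter fun i => sc i = j).card : ℝ) := by
        exact_mod_cast h5
      have h7 : (2 : ℝ) ^ a0 ≤ ((2 ^ a : ℕ) : ℝ) := by exact_mod_cast hpa
      have h8 : 48 * n * ρ1 ≤ ((univ.filter fun i => sc i = j).card : ℝ) * ((2 ^ a : ℕ) : ℝ) :=
        W.kap.trans (mul_le_mul h6 h7 (by positivity) (by positivity))
      rw [div_mul_eq_mul_div, le_div_iff₀ hM0]
      have h9 : 48 * (n : ℝ) * Fintype.card α ≤ 48 * n * (ρ1 * g1) :=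
        mul_le_mul_of_nonneg_left hρ (by positivity)
      have h10 := mul_le_mul_of_nonneg_right h8 (Nat.cast_nonneg (α := ℝ) g1)
      linarith)
  have hH' : Nn (X ^ f0 * H) := (nn_X_pow _).mul hH
  have hR' : Nn (X ^ f0 * Rm) := (nn_X_pow _).mul hRm
  have hA : Nn (Kp (2 ^ a) n * (X ^ f0 * H)) := (nn_Kp _ _).mul hH'
  have hgen : gen g f0 univ = Kp (2 ^ a) n * (X ^ f0 * H) + X ^ f0 * Rm := by
    rw [gen_univ, hP]; ring
  have hbb : ∀ t, (bb g f0 t : ℝ) =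
      (Kp (2 ^ a) n * (X ^ f0 * H)).coeff t + (X ^ f0 * Rm).coeff t := fun t => by
    rw [← coeff_gen_univ, hgen, coeff_add]
  have hge : ∀ t, (Kp (2 ^ a) n * (X ^ f0 * H)).coeff t ≤ (bb g f0 t : ℝ) := fun t => by
    rw [hbb]; linarith [hR' t]
  have hZ : ZZ g f0 q = (Kp (2 ^ a) n * (X ^ f0 * H)).eval q + (X ^ f0 * Rm).eval q := by
    rw [← eval_gen_univ, hgen, eval_add]
  have hZ0 : 0 ≤ ZZ g f0 q := ZZ_nonneg g f0 hq0.le
  have hW0 : 0 ≤ ZZ g f0 q / q ^ m := div_nonneg hZ0 (pow_pos hq0 m).le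
  have hRe : (X ^ f0 * Rm).eval q ≤ (l : ℝ) / 2 ^ n * ZZ g f0 q := by
    have h5 : ZZ g f0 q = q ^ f0 * (∏ i, Gs g i).eval q := by
      rw [← eval_gen_univ, gen_univ, eval_mul, eval_pow, eval_X]
    have h6 : ((a : ℝ) + 1) / 2 ^ n ≤ (l : ℝ) / 2 ^ n :=
      div_le_div_of_nonneg_right (by exact_mod_cast hal) (by positivity)
    refine le_trans ?_ (mul_le_mul_of_nonneg_right h6 hZ0)
    rw [h5, eval_mul, eval_pow, eval_X, mul_left_comm]
    exact mul_le_mul_of_nonneg_left hE (pow_pos hq0 _).le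
  have hRc : (X ^ f0 * Rm).coeff m ≤ (l : ℝ) / 2 ^ n * (ZZ g f0 q / q ^ m) := by
    rw [← mul_div_assoc]
    exact (hR'.coeff_le hq0 m).trans (div_le_div_of_nonneg_right hRe (pow_pos hq0 m).le)
  have hξ : ξ ≤ 2 * η / ((2 ^ a : ℕ) : ℝ) := by
    rw [le_div_iff₀ (by positivity)]
    have h5 : ((2 ^ a : ℕ) : ℝ) ≤ D := by exact_mod_cast (by omega : 2 ^ a ≤ D)
    exact (mul_le_mul_of_nonneg_left h5 W.xi_nonneg).trans W.xi_le
  have hη : η ≤ 1 / 8 := W.eta_le.trans (by norm_num)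
  have hE1 := (Real.exp_pos (1 - n * η ^ 2 / 2)).le
  have hE2 := (Real.exp_pos (20 * η * h)).le
  rcases hmax with hhot | hcold
  · have h5 := h4 (2 ^ a) n h m η (X ^ f0 * H) Nat.one_le_two_pow W.eta_pos hη W.h_le hH'
    refine WARM_fin W.xi_nonneg hξ ?_ (h5.trans (hge _)) (Nat.cast_nonneg _)
    have hs : s ≤ h * 2 ^ a := by
      have h6 := W.s_le
      have h7 : h * D ≤ h * (4 * 2 ^ a) := Nat.mul_le_mul_left _ hhot.le
      rw [mul_left_comm] at h7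
      omega
    have h8 : (if h * 2 ^ a ≤ m then (Kp (2 ^ a) n * (X ^ f0 * H)).coeff (m - h * 2 ^ a) else 0) ≤
        (cb g f0 s m : ℝ) := by
      split_ifs with hm
      · exact (hge _).trans (by exact_mod_cast bb_le_cb g f0 (by omega))
      · exact Nat.cast_nonneg _
    have h9 := mul_le_mul_of_nonneg_left h8 hE2
    have h10 := mul_nonneg hE1 hW0
    rw [hbb m, add_mul]
    linarith
  · have hc : q ^ 2 ^ a ≤ 1 - 8 * η :=
      WARM_cold W.eta_pos W.eta_le (by rwa [← pow_mul, mul_comm])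
    have h5 := h3 (2 ^ a) n m η q (X ^ f0 * H) Nat.one_le_two_pow W.eta_pos hη hq0 hq1 hc hH'
    refine WARM_fin W.xi_nonneg hξ ?_ (h5.trans (hge _)) (Nat.cast_nonneg _)
    have h6 : (Kp (2 ^ a) n * (X ^ f0 * H)).eval q / q ^ m ≤ ZZ g f0 q / q ^ m :=
      div_le_div_of_nonneg_right (by rw [hZ]; linarith [hR'.eval_nonneg hq0.le])
        (pow_pos hq0 m).le
    have h7 := mul_le_mul_of_nonneg_left h6 hE1
    have h8 := mul_nonneg hE2 (Nat.cast_nonneg (α := ℝ) (cb g f0 s m))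
    rw [hbb m, add_mul]
    linarith

end Pool.Agent.Lib.MP_64bee1_co.UN
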