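import Pool.Agent.Lib.MP_64bee1_co.UN.Stmts

/-!
The window bound: a tilt at which the tilted mass is comparable with the cumulative count.
-/

namespace Pool.Agent.Lib.MP_64bee1_co.UN

open Finset Polynomial

section poly
variable {γ : Type} [Fintype γ] (w : γ → ℝ) (l : γ → ℕ)

/-- Weighted generating polynomial. -/
noncomputable def WIN_P : ℝ[X] := ∑ x, C (w x) * X ^ l x

theorem WIN_coeff (v : ℕ) : (WIN_P w l).coeff v = ∑ x, if l x = v then w x else 0 := by
  unfold WIN_P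
  rw [finsetSum_coeff]
  refine sum_congr rfl fun x _ => ?_
  rw [coeff_C_mul, coeff_X_pow]
  by_cases h : l x = v
  · rw [if_pos h.symm, if_pos h, mul_one]
  · rw [if_neg fun h' => h h'.symm, if_neg h, mul_zero]

theorem WIN_sum (t : ℕ) :
    ∑ j ∈ range t, (WIN_P w l).coeff j = ∑ x, if l x < t then w x else 0 := by
  simp only [WIN_coeff]
  rw [sum_comm]
  refine sum_congr rfl fun x _ => ?_
  rw [sum_ite_eq]
  simp only [mem_range]

theorem WIN_nn (hw : ∀ x, 0 ≤ w x) : Nn (WIN_P w l) :=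
  nn_sum _ _ fun x _ => (nn_C (hw x)).mul (nn_X_pow _)

theorem WIN_eval : (WIN_P w l).eval 1 = ∑ x, w x := by
  simp [WIN_P, eval_finsetSum]

end poly

section main
variable {ι α : Type} [Fintype ι] [DecidableEq ι] [Fintype α] (g : ι → α → ℕ) (f0 : ℕ)

theorem WIN_prod (w : ι → α → ℝ) :
    ∏ i, WIN_P (w i) (g i) =
      WIN_P (fun x : ι → α => ∏ i, w i (x i)) (fun x => ∑ i, g i (x i)) := by
  unfold WIN_P
  rw [prod_univ_sum, Fintype.piFinset_univ]
  refine sum_congr rfl fun x _ => ?_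
  rw [prod_mul_distrib, prod_pow_eq_pow_sum, map_prod]

theorem WIN_ZZ (q : ℝ) : ZZ g f0 q = q ^ f0 * ∏ i, ∑ a, q ^ g i a := by
  unfold ZZ tot
  rw [prod_univ_sum, Fintype.piFinset_univ, mul_sum]
  refine sum_congr rfl fun x _ => ?_
  rw [pow_add, prod_pow_eq_pow_sum]

theorem WIN_cb (m : ℕ) :
    (cb g f0 0 m : ℝ) = ∑ x : ι → α, if tot g f0 x ≤ m then (1 : ℝ) else 0 := by
  unfold cb
  rw [cc_real]
  simp only [add_zero]

omit [Fintype ι] [DecidableEq ι] in
theorem WIN_G {q : ℝ} (hq : 0 ≤ q) (i : ι) (μ : ℕ) :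
    (ww g i μ : ℝ) * q ^ μ ≤ ∑ a, q ^ g i a := by
  unfold ww
  rw [cc_real, sum_mul]
  refine sum_le_sum fun a _ => ?_
  split_ifs with h
  · rw [h, one_mul]
  · rw [zero_mul]; exact pow_nonneg hq _

/-- The balanced tilt. -/
theorem WIN_bal (m : ℕ) (hc : 0 < cb g f0 0 m) :
    ZZ g f0 1 ≤ 2 * cb g f0 0 m ∨ ∃ q : ℝ, 0 < q ∧ q < 1 ∧
      ZZ g f0 q = 2 * ∑ x : ι → α, if tot g f0 x ≤ m then q ^ tot g f0 x else 0 := by
  by_cases h1 : ZZ g f0 1 ≤ 2 * cb g f0 0 m
  · exact Or.inl h1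
  right
  set φ : ℝ → ℝ := fun q =>
    ZZ g f0 q - 2 * ∑ x : ι → α, if tot g f0 x ≤ m then q ^ tot g f0 x else 0 with hφ
  have hcont : Continuous φ := by
    refine Continuous.sub ?_ (continuous_const.mul ?_)
    · exact continuous_finsetSum _ fun x _ => continuous_pow _
    · refine continuous_finsetSum _ fun x _ => ?_
      split_ifs
      · exact continuous_pow _
      · exact continuous_const
  have hφ1 : 0 < φ 1 := by
    simp only [hφ, one_pow]
    rw [← WIN_cb]
    linarith [not_le.1 h1]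
  set n : ℝ := ((Fintype.card (ι → α) : ℕ) : ℝ) with hn
  have hn0 : 0 ≤ n := Nat.cast_nonneg _
  set q0 : ℝ := 1 / (n + 1) with hq0
  have hq0p : 0 < q0 := by positivity
  have hq01 : q0 ≤ 1 := by rw [hq0, div_le_one (by positivity)]; linarith
  have hφ0 : φ q0 ≤ 0 := by
    obtain ⟨x0, hx0⟩ : ∃ x0 : ι → α, tot g f0 x0 ≤ m := by
      by_contra hne
      push Not at hne
      have : cb g f0 0 m = 0 := cc_eq_zero fun x hx => by have := hne x; omega
      omega
    have hlo : q0 ^ m ≤ ∑ x : ι → α, if tot g f0 x ≤ m then q0 ^ tot g f0 x else 0 := by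
      refine le_trans ?_ (single_le_sum (f := fun x : ι → α =>
        if tot g f0 x ≤ m then q0 ^ tot g f0 x else 0)
        (fun x _ => by split_ifs <;> positivity) (mem_univ x0))
      simp only [if_pos hx0]
      exact pow_le_pow_of_le_one hq0p.le hq01 hx0
    have hhi : ZZ g f0 q0 ≤
        (∑ x : ι → α, if tot g f0 x ≤ m then q0 ^ tot g f0 x else 0) + n * q0 ^ (m + 1) := by
      have : n * q0 ^ (m + 1) = ∑ _x : ι → α, q0 ^ (m + 1) := by
        rw [sum_const, card_univ, nsmul_eq_mul]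
      rw [this, ← sum_add_distrib]
      refine sum_le_sum fun x _ => ?_
      split_ifs with h
      · have : 0 ≤ q0 ^ (m + 1) := by positivity
        linarith
      · rw [zero_add]
        exact pow_le_pow_of_le_one hq0p.le hq01 (by omega)
    have hnq : n * q0 ≤ 1 := by
      rw [hq0, mul_one_div, div_le_one (by positivity)]; linarith
    have : n * q0 ^ (m + 1) ≤ q0 ^ m := by
      rw [pow_succ, mul_comm (q0 ^ m), ← mul_assoc]
      exact mul_le_of_le_one_left (by positivity) hnq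
    simp only [hφ]
    linarith
  obtain ⟨q, ⟨hq1, hq2⟩, hq⟩ :=
    intermediate_value_Icc hq01 hcont.continuousOn (show (0 : ℝ) ∈ Set.Icc (φ q0) (φ 1) from
      ⟨hφ0, hφ1.le⟩)
  refine ⟨q, hq0p.trans_le hq1, lt_of_le_of_ne hq2 ?_, ?_⟩
  · rintro rfl
    exact absurd hq hφ1.ne'
  · simp only [hφ] at hq
    linarith

end main

theorem WIN (h : St_HYB) : St_W := by
  intro ι α _ _ _ g f0 g0 m ρ0 hlev hg0 hρ hM hc
  set r : ℝ := ((Fintype.card ι : ℕ) : ℝ) with hr
  have hr0 : 0 ≤ r := Nat.cast_nonneg _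
  have hcb : (0 : ℝ) ≤ cb g f0 0 m := Nat.cast_nonneg _
  rcases WIN_bal g f0 m hc with h1 | ⟨q, hq0, hq1, hbal⟩
  · refine ⟨1, one_pos, le_rfl, ?_⟩
    rw [one_pow, div_one]
    refine h1.trans (mul_le_mul_of_nonneg_right ?_ hcb)
    nlinarith [mul_nonneg hr0 hr0]
  refine ⟨q, hq0, hq1.le, ?_⟩
  choose μ hμ hw using hlev
  set τ : ℝ := 1 / (8 * (r + 1)) with hτ
  have hτ0 : 0 < τ := by positivity
  have hτ1 : τ < 1 := by rw [hτ, div_lt_one (by positivity)]; linarith
  have hρ0 : 0 < ρ0 := by linarith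
  have hex : ∃ J : ℕ, q ^ J * ρ0 ≤ τ := by
    obtain ⟨J, hJ⟩ := exists_pow_lt_of_lt_one (div_pos hτ0 hρ0) hq1
    exact ⟨J, ((lt_div_iff₀ hρ0).1 hJ).le⟩
  classical
  obtain ⟨K, hK1, hK2⟩ : ∃ K : ℕ, q ^ (K + 1) * ρ0 ≤ τ ∧ τ < q ^ K * ρ0 := by
    have h0 : Nat.find hex ≠ 0 := by
      intro h0
      have := Nat.find_spec hex
      rw [h0, pow_zero, one_mul] at this
      linarith
    obtain ⟨K, hK⟩ := Nat.exists_eq_succ_of_ne_zero h0
    refine ⟨K, ?_, not_le.1 (Nat.find_min hex (by omega))⟩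
    have := Nat.find_spec hex
    rwa [hK] at this
  set G : ι → ℝ := fun i => ∑ a, q ^ g i a with hG
  have hg0' : (1 : ℝ) ≤ g0 := by exact_mod_cast hg0
  have hGl : ∀ i, (g0 : ℝ) * q ^ μ i ≤ G i := fun i =>
    le_trans (mul_le_mul_of_nonneg_right (by exact_mod_cast hw i) (by positivity))
      (WIN_G g hq0.le i (μ i))
  have hGp : ∀ i, 0 < G i := fun i => lt_of_lt_of_le (by positivity) (hGl i)
  have hone : ∀ i, ∑ a, q ^ g i a / G i = 1 := fun i => by
    rw [← sum_div]; exact div_self (hGp i).ne'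
  have key := h ι univ (fun i => WIN_P (fun a => q ^ g i a / G i) (g i)) μ (K + 1) τ hτ0.le
    (fun i _ => WIN_nn _ _ fun a => div_nonneg (by positivity) (hGp i).le)
    (fun i _ => by rw [WIN_eval, hone])
    (fun i _ v hv => by
      rw [WIN_coeff]
      exact sum_eq_zero fun a _ => if_neg (by have := hμ i a; omega))
    (fun i _ => by
      rw [WIN_sum]
      have h1 : ∑ a, q ^ g i a / G i ≤
          (∑ a, if g i a < μ i + (K + 1) then q ^ g i a / G i else 0) +
            ∑ _a : α, q ^ (μ i + (K + 1)) / G i := by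
        rw [← sum_add_distrib]
        refine sum_le_sum fun a _ => ?_
        split_ifs with ha
        · have : 0 ≤ q ^ (μ i + (K + 1)) / G i := div_nonneg (by positivity) (hGp i).le
          linarith
        · rw [zero_add]
          exact div_le_div_of_nonneg_right (pow_le_pow_of_le_one hq0.le hq1.le (by omega))
            (hGp i).le
      have h2 : ∑ _a : α, q ^ (μ i + (K + 1)) / G i ≤ τ := by
        rw [sum_const, card_univ, nsmul_eq_mul, ← mul_div_assoc, div_le_iff₀ (hGp i), pow_add]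
        calc (Fintype.card α : ℝ) * (q ^ μ i * q ^ (K + 1))
            ≤ ρ0 * g0 * (q ^ μ i * q ^ (K + 1)) :=
              mul_le_mul_of_nonneg_right hM (by positivity)
          _ = q ^ (K + 1) * ρ0 * (g0 * q ^ μ i) := by ring
          _ ≤ τ * G i := mul_le_mul hK1 (hGl i) (by positivity) hτ0.le
      rw [hone] at h1
      linarith)
    (m + 1 - f0)
  rw [WIN_prod, WIN_sum, WIN_sum, card_univ, ← hr] at key
  have hZ : ZZ g f0 q = q ^ f0 * ∏ i, G i := WIN_ZZ g f0 q
  have hP : 0 < ∏ i, G i := prod_pos fun i _ => hGp i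
  have hZp : 0 < ZZ g f0 q := by rw [hZ]; positivity
  have hwt : ∀ x : ι → α, ∏ i, q ^ g i (x i) / G i = q ^ tot g f0 x / ZZ g f0 q := fun x => by
    rw [prod_div_distrib, prod_pow_eq_pow_sum, hZ, tot, pow_add,
      mul_div_mul_left _ _ (pow_pos hq0 _).ne']
  have hF : ∀ t s : ℕ, (∀ y : ℕ, y < t ↔ f0 + y + s ≤ m) →
      (∑ x : ι → α, if ∑ i, g i (x i) < t then ∏ i, q ^ g i (x i) / G i else 0) =
        (∑ x : ι → α, if tot g f0 x + s ≤ m then q ^ tot g f0 x else 0) / ZZ g f0 q := by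
    intro t s hts
    rw [sum_div]
    refine sum_congr rfl fun x _ => ?_
    rw [hwt]
    by_cases hx : ∑ i, g i (x i) < t
    · rw [if_pos hx, if_pos (show tot g f0 x + s ≤ m from (hts _).1 hx)]
    · rw [if_neg hx, if_neg (show ¬ tot g f0 x + s ≤ m from fun h' => hx ((hts _).2 h')),
        zero_div]
  rw [hF _ 0 (fun y => by omega), hF _ (K + 1) (fun y => by omega)] at key
  simp only [add_zero] at key
  set lo : ℝ := ∑ x : ι → α, if tot g f0 x ≤ m then q ^ tot g f0 x else 0 with hlo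
  set lo' : ℝ := ∑ x : ι → α, if tot g f0 x + (K + 1) ≤ m then q ^ tot g f0 x else 0 with hlo'
  have hhalf : lo / ZZ g f0 q = 1 / 2 := by
    rw [div_eq_iff hZp.ne']; linarith
  have hwin : τ ≤ lo / ZZ g f0 q - lo' / ZZ g f0 q := by
    by_contra hlt
    have hlt := not_le.1 hlt
    have h3 : r * (lo / ZZ g f0 q - lo' / ZZ g f0 q + τ) ≤ r * (2 * τ) :=
      mul_le_mul_of_nonneg_left (by linarith) hr0
    have h4 : r * (2 * τ) < 1 / 4 := by
      rw [hτ, ← mul_assoc, mul_one_div, div_lt_iff₀ (by positivity)]; linarith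
    have h5 : lo / ZZ g f0 q * (1 - lo / ZZ g f0 q) = 1 / 4 := by rw [hhalf]; norm_num
    linarith
  have hdiff : (lo - lo') * q ^ K ≤ q ^ m * cb g f0 0 m := by
    rw [WIN_cb, hlo, hlo', ← sum_sub_distrib, sum_mul, mul_sum]
    refine sum_le_sum fun x _ => ?_
    by_cases hx : tot g f0 x ≤ m
    · rw [if_pos hx, if_pos hx, mul_one]
      split_ifs with hx'
      · rw [sub_self, zero_mul]; positivity
      · rw [sub_zero, ← pow_add]
        exact pow_le_pow_of_le_one hq0.le hq1.le (by omega)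
    · rw [if_neg hx, if_neg hx, if_neg (by omega), sub_self, zero_mul, mul_zero]
  rw [← sub_div, le_div_iff₀ hZp] at hwin
  have h6 : τ * ZZ g f0 q * τ ≤ q ^ m * cb g f0 0 m * ρ0 :=
    calc τ * ZZ g f0 q * τ ≤ (lo - lo') * (q ^ K * ρ0) :=
          mul_le_mul hwin hK2.le hτ0.le (le_trans (by positivity) hwin)
      _ = (lo - lo') * q ^ K * ρ0 := by ring
      _ ≤ _ := mul_le_mul_of_nonneg_right hdiff hρ0.le
  rw [div_le_iff₀ (pow_pos hq0 _)]
  have h7 : τ * τ * (64 * (r + 1) ^ 2) = 1 := by rw [hτ]; field_simp; ring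
  calc ZZ g f0 q = τ * ZZ g f0 q * τ * (64 * (r + 1) ^ 2) := by
        rw [show τ * ZZ g f0 q * τ * (64 * (r + 1) ^ 2) =
          τ * τ * (64 * (r + 1) ^ 2) * ZZ g f0 q by ring, h7, one_mul]
    _ ≤ q ^ m * cb g f0 0 m * ρ0 * (64 * (r + 1) ^ 2) :=
        mul_le_mul_of_nonneg_right h6 (by positivity)
    _ = _ := by ring

end Pool.Agent.Lib.MP_64bee1_co.UN
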