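import Pool.Agent.Lib.MP_64bee1_co.UN.PK1
import Pool.Agent.Lib.MP_64bee1_co.UN.PKcold
import Pool.Agent.Lib.MP_64bee1_co.UN.PKhot
import Pool.Agent.Lib.MP_64bee1_co.UN.UC
import Pool.Agent.Lib.MP_64bee1_co.UN.MS1
import Pool.Agent.Lib.MP_64bee1_co.UN.MS2
import Pool.Agent.Lib.MP_64bee1_co.UN.WARM
import Pool.Agent.Lib.MP_64bee1_co.UN.HYB
import Pool.Agent.Lib.MP_64bee1_co.UN.WIN
import Pool.Agent.Lib.MP_64bee1_co.UN.HEAT
import Pool.Agent.Lib.MP_64bee1_co.UN.CELL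
import Pool.Agent.Lib.MP_64bee1_co.UN.ENV
import Pool.Agent.Lib.MP_64bee1_co.UN.GLUE
import Pool.Agent.Lib.MP_64bee1_co.UN.CNT
import Pool.Agent.Lib.MP_64bee1_co.UN.NSEP
import Pool.Agent.Lib.MP_64bee1_co.UN.LIFT
import Pool.Agent.Lib.MP_64bee1_co.UN.GAP
import Pool.Agent.Lib.MP_64bee1_co.UN.GOOD
import Pool.Agent.Lib.MP_64bee1_co.UN.COIN
import Pool.Agent.Lib.MP_64bee1_co.UN.MULT
import Pool.Agent.Lib.MP_64bee1_co.UN.TYP2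
import Pool.Agent.Lib.MP_64bee1_co.UN.SW
import Pool.Agent.Lib.MP_64bee1_co.UN.TYP3
import Pool.Agent.Lib.MP_64bee1_co.UN.GF
import Pool.Agent.Lib.MP_64bee1_co.UN.CG
import Pool.Agent.Lib.MP_64bee1_co.UN.DELb
import Pool.Agent.Lib.MP_64bee1_co.UN.DEL
import Pool.Agent.Lib.MP_64bee1_co.UN.MAIN1
import Pool.Agent.Lib.MP_64bee1_co.UN.MAIN2
import Pool.Agent.Lib.MP_64bee1_co.UN.MAIN3
import Pool.Agent.Lib.MP_64bee1_co.UN.PAR
import Pool.Agent.Lib.MP_64bee1_co.UN.REGB1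
import Pool.Agent.Lib.MP_64bee1_co.UN.REGB2
import Pool.Agent.Lib.MP_64bee1_co.UN.REGB3
import Pool.Agent.Lib.MP_64bee1_co.UN.PEEL
import Pool.Agent.Lib.MP_64bee1_co.UN.DS
import Pool.Agent.Lib.MP_64bee1_co.UN.HFa
import Pool.Agent.Lib.MP_64bee1_co.UN.BLK
import Pool.Agent.Lib.MP_64bee1_co.UN.HFb
import Pool.Agent.Lib.MP_64bee1_co.UN.CU
import Pool.Agent.Lib.MP_64bee1_co.UN.CB
import Pool.Agent.Lib.MP_64bee1_co.UN.CR
import Pool.Agent.Lib.MP_64bee1_co.UN.CM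
import Pool.Agent.Lib.MP_64bee1_co.UN.CS
import Pool.Agent.Lib.MP_64bee1_co.UN.REGA
import Pool.Agent.Lib.MP_64bee1_co.UN.FINAL

/-!
The uniform theorem.
-/

namespace Pool.Agent.Lib.MP_64bee1_co.UN

theorem all_large : St_FINAL := by
  have c := PKcold PKg
  have h := PKhot PKf PKg
  have w := WARM MS1 MS2 c h
  have lf := LIFT GLUE CNT
  have gd := GOOD GAP (WGAP GAP)
  exact FINAL (REGA GF (HFa PEEL DS) (HFb PEEL DS BLK) (CF (CR CB (CM CU) (CS CU))))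
    (REGB1 GF (MAIN1 (ENV1 w (WIN HYB) HEAT) lf gd CNT NSEP GLUE) PAR CG (DEL2 (DEL DELb)))
    (REGB2 GF (MAIN2 GF (ENV2 w (WIN HYB) (UCcold UC c) CELL) lf gd CNT NSEP GLUE
      (TYP2 GF (WGAP GAP) MULT SITE) COIN) PAR CG)
    (REGB3 GF (MAIN3 GF (UChot UC h) lf (TYP3 GF SW GLUE) CNT NSEP GLUE COIN) CG)

end Pool.Agent.Lib.MP_64bee1_co.UN
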