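import Pool.Agent.Lib.MP_64bee1_co.UN.Stmts

/-!
Resampling inside the cells: few coins are unlikely when many are expected.
-/

namespace Pool.Agent.Lib.MP_64bee1_co.UN

open Finset

theorem CELL_fib {γ δ : Type} [Fintype γ] (φ : γ → δ) (A B : γ → Prop) (t : ℝ)
    (hA : ∀ x y, φ y = φ x → A x → A y)
    (h : ∀ x, A x → ((cc fun y => φ y = φ x ∧ B y : ℕ) : ℝ) ≤ t * (cc fun y => φ y = φ x : ℕ)) :
    ((cc fun x => A x ∧ B x : ℕ) : ℝ) ≤ t * (cc A : ℕ) := by
  classical
  rw [cc_eq, cc_eq,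
    card_eq_sum_card_fiberwise (f := φ) (s := univ.filter fun x => A x ∧ B x)
      (t := (univ.filter A).image φ)
      (fun x hx => mem_coe.2 (mem_image_of_mem φ
        (mem_filter.2 ⟨mem_univ _, (mem_filter.1 (mem_coe.1 hx)).2.1⟩))),
    card_eq_sum_card_fiberwise (f := φ) (s := univ.filter A) (t := (univ.filter A).image φ)
      (fun x hx => mem_coe.2 (mem_image_of_mem φ (mem_coe.1 hx)))]
  push_cast
  rw [mul_sum]
  refine sum_le_sum fun b hb => ?_
  obtain ⟨x, hx, rfl⟩ := mem_image.1 hb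
  have hx' := (mem_filter.1 hx).2
  have h1 := h x hx'
  rw [cc_eq, cc_eq] at h1
  have e1 : ((univ.filter fun x => A x ∧ B x).filter fun y => φ y = φ x) =
      univ.filter fun y => φ y = φ x ∧ B y := by
    ext y
    simp only [mem_filter, mem_univ, true_and]
    exact ⟨fun h => ⟨h.2, h.1.2⟩, fun h => ⟨⟨hA x y h.1 hx', h.2⟩, h.1⟩⟩
  have e2 : ((univ.filter A).filter fun y => φ y = φ x) = univ.filter fun y => φ y = φ x := by
    ext y
    simp only [mem_filter, mem_univ, true_and]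
    exact ⟨fun h => h.2, fun h => ⟨hA x y h hx', h⟩⟩
  rw [e1, e2]
  exact h1

theorem CELL_site {α : Type} [Fintype α] [DecidableEq α] (T S : Finset α) (hT : T.Nonempty) :
    ∑ a ∈ T, (if a ∈ S then (1 / 2 : ℝ) else 1) ≤
      T.card * Real.exp (-(((T.filter (· ∈ S)).card : ℝ) / T.card) / 2) := by
  have hpos : (0 : ℝ) < T.card := by exact_mod_cast hT.card_pos
  have e : ∑ a ∈ T, (if a ∈ S then (1 / 2 : ℝ) else 1) =
      T.card - ((T.filter (· ∈ S)).card : ℝ) / 2 := by
    rw [card_filter, card_eq_sum_ones T]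
    push_cast
    rw [sum_div, ← sum_sub_distrib]
    refine sum_congr rfl fun a _ => ?_
    split_ifs <;> norm_num
  rw [e]
  have h1 := Real.add_one_le_exp (-(((T.filter (· ∈ S)).card : ℝ) / T.card) / 2)
  have h2 := mul_le_mul_of_nonneg_left h1 hpos.le
  refine le_trans (le_of_eq ?_) h2
  field_simp
  ring

theorem CELL_class {ι α β : Type} [Fintype ι] [DecidableEq ι] [Fintype α]
    (S : ι → Finset α) (c : ι → α → β) (n : ℕ) (x : ι → α) (hx : 4 * (n : ℝ) ≤ UU S c x) :
    ((cc fun y : ι → α => (fun i => c i (y i)) = (fun i => c i (x i)) ∧ nco S y < n : ℕ) : ℝ) ≤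
      1 / 2 ^ n * (cc fun y : ι → α => (fun i => c i (y i)) = (fun i => c i (x i)) : ℕ) := by
  classical
  set T : ι → Finset α := fun i => univ.filter fun a => c i a = c i (x i) with hT
  have hmem : ∀ y : ι → α, (fun i => c i (y i)) = (fun i => c i (x i)) ↔
      y ∈ Fintype.piFinset T := by
    intro y
    rw [Fintype.mem_piFinset, funext_iff]
    simp [hT]
  have e1 : (cc fun y : ι → α => (fun i => c i (y i)) = (fun i => c i (x i))) =
      ∏ i, (T i).card := by
    rw [cc_eq, ← Fintype.card_piFinset]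
    congr 1
    ext y
    rw [mem_filter, hmem]
    simp
  have e2 : (cc fun y : ι → α => (fun i => c i (y i)) = (fun i => c i (x i)) ∧ nco S y < n) =
      ((Fintype.piFinset T).filter fun y => nco S y < n).card := by
    rw [cc_eq]
    congr 1
    ext y
    rw [mem_filter, mem_filter, hmem]
    simp
  have e3 : ∀ y : ι → α, ∏ i, (if y i ∈ S i then (1 / 2 : ℝ) else 1) = (1 / 2) ^ nco S y := by
    intro y
    rw [prod_ite, prod_const, prod_const_one, mul_one, nco, cc_eq]
  have eU : UU S c x = ∑ i, (((T i).filter (· ∈ S i)).card : ℝ) / (T i).card := by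
    unfold UU
    refine sum_congr rfl fun i _ => ?_
    rw [cc_eq, cc_eq, hT, filter_filter]
    congr 3
    ext a
    simp only [mem_filter, mem_univ, true_and]
    exact and_comm
  have h1 : (((Fintype.piFinset T).filter fun y => nco S y < n).card : ℝ) ≤
      2 ^ n * ∑ y ∈ Fintype.piFinset T, ∏ i, (if y i ∈ S i then (1 / 2 : ℝ) else 1) := by
    rw [card_filter, mul_sum]
    push_cast
    refine sum_le_sum fun y _ => ?_
    rw [e3]
    split_ifs with h
    · have : (1 / 2 : ℝ) ^ n ≤ (1 / 2) ^ nco S y :=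
        pow_le_pow_of_le_one (by norm_num) (by norm_num) h.le
      calc (1 : ℝ) = 2 ^ n * (1 / 2) ^ n := by rw [← mul_pow]; norm_num
        _ ≤ _ := mul_le_mul_of_nonneg_left this (by positivity)
    · positivity
  have h2 : ∑ y ∈ Fintype.piFinset T, ∏ i, (if y i ∈ S i then (1 / 2 : ℝ) else 1) ≤
      (∏ i, ((T i).card : ℝ)) * Real.exp (-UU S c x / 2) := by
    rw [← prod_univ_sum T fun i a => if a ∈ S i then (1 / 2 : ℝ) else 1, eU, ← sum_neg_distrib,
      sum_div, Real.exp_sum, ← prod_mul_distrib]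
    refine prod_le_prod (fun i _ => sum_nonneg fun a _ => by split_ifs <;> norm_num) fun i _ => ?_
    exact CELL_site (T i) (S i) ⟨x i, by simp [hT]⟩
  have h3 : Real.exp (-UU S c x / 2) ≤ (1 / 4) ^ n := by
    have h4 : Real.exp (-2) ≤ 1 / 4 := by
      have h5 : (2 : ℝ) ≤ Real.exp 1 := by
        have := Real.add_one_le_exp (1 : ℝ); linarith
      have h6 : Real.exp 2 = Real.exp 1 * Real.exp 1 := by rw [← Real.exp_add]; norm_num
      rw [Real.exp_neg, one_div]
      exact inv_anti₀ (by norm_num) (by nlinarith)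
    calc Real.exp (-UU S c x / 2) ≤ Real.exp (n * (-2)) := Real.exp_le_exp.2 (by linarith)
      _ = Real.exp (-2) ^ n := Real.exp_nat_mul _ _
      _ ≤ _ := pow_le_pow_left₀ (Real.exp_pos _).le h4 n
  rw [e1, e2]
  push_cast
  have hP : (0 : ℝ) ≤ ∏ i, ((T i).card : ℝ) := prod_nonneg fun i _ => by positivity
  calc _ ≤ _ := h1
    _ ≤ 2 ^ n * ((∏ i, ((T i).card : ℝ)) * (1 / 4) ^ n) :=
        mul_le_mul_of_nonneg_left (h2.trans (mul_le_mul_of_nonneg_left h3 hP)) (by positivity)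
    _ = (2 ^ n * (1 / 4) ^ n) * ∏ i, ((T i).card : ℝ) := by ring
    _ = _ := by rw [← mul_pow, ← one_div_pow]; norm_num

theorem CELL : St_CELL := by
  intro ι α β _ _ _ g f0 S c n m hc
  have hinv : ∀ x y : ι → α, (fun i => c i (y i)) = (fun i => c i (x i)) →
      tot g f0 y = tot g f0 x ∧ UU S c y = UU S c x := by
    intro x y h
    have h' : ∀ i, c i (y i) = c i (x i) := fun i => congrFun h i
    refine ⟨?_, ?_⟩
    · unfold tot
      rw [sum_congr rfl fun i _ => hc i _ _ (h' i)]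
    · unfold UU
      simp only [h']
  have h1 := CELL_fib (fun (x : ι → α) i => c i (x i))
    (fun x => tot g f0 x = m ∧ 4 * (n : ℝ) ≤ UU S c x) (fun x => nco S x < n) (1 / 2 ^ n)
    (fun x y h hx => by
      obtain ⟨e1, e2⟩ := hinv x y h
      rw [e1, e2]; exact hx)
    (fun x hx => CELL_class S c n x hx.2)
  have h2 : (cc fun x => tot g f0 x = m ∧ 4 * (n : ℝ) ≤ UU S c x) ≤ bb g f0 m :=
    cc_mono fun x hx => hx.1
  have h3 : (cc fun x => tot g f0 x = m ∧ nco S x < n) ≤
      (cc fun x => (tot g f0 x = m ∧ 4 * (n : ℝ) ≤ UU S c x) ∧ nco S x < n) +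
        cc fun x => tot g f0 x = m ∧ UU S c x < 4 * n := by
    refine le_trans (cc_mono fun x hx => ?_) (cc_or_le _ _)
    rcases le_or_gt (4 * (n : ℝ)) (UU S c x) with h | h
    · exact Or.inl ⟨⟨hx.1, h⟩, hx.2⟩
    · exact Or.inr ⟨hx.1, h⟩
  have h2' : ((cc fun x => tot g f0 x = m ∧ 4 * (n : ℝ) ≤ UU S c x : ℕ) : ℝ) ≤ bb g f0 m := by
    exact_mod_cast h2
  have h3' := (Nat.cast_le (α := ℝ)).2 h3
  push_cast at h3'
  have h4 := mul_le_mul_of_nonneg_left h2' (show (0 : ℝ) ≤ 1 / 2 ^ n by positivity)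
  have e : (bb g f0 m : ℝ) / 2 ^ n = 1 / 2 ^ n * bb g f0 m := by ring
  rw [e]
  linarith

end Pool.Agent.Lib.MP_64bee1_co.UN
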