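import Pool.Agent.Lib.MP_64bee1_co.UN.Stmts

/-!
Lower bound for the integral along the shifted segment.
-/

namespace Pool.Agent.Lib.MP_64bee1_co.UN

open Finset

theorem CM_sinh_le (x : ℝ) (hx : 0 ≤ x) : Real.sinh x ≤ x * Real.cosh x := by
  have hd : ∀ y : ℝ, HasDerivAt (fun y => y * Real.cosh y - Real.sinh y) (y * Real.sinh y) y := by
    intro y
    have := ((hasDerivAt_id' y).mul (Real.hasDerivAt_cosh y)).sub (Real.hasDerivAt_sinh y)
    exact this.congr_deriv (by ring)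
  have hm : MonotoneOn (fun y => y * Real.cosh y - Real.sinh y) (Set.Ici 0) := by
    refine monotoneOn_of_deriv_nonneg (convex_Ici 0) ?_ ?_ ?_
    · exact fun y _ => (hd y).continuousAt.continuousWithinAt
    · exact fun y _ => (hd y).differentiableAt.differentiableWithinAt
    · intro y hy
      rw [interior_Ici] at hy
      rw [(hd y).deriv]
      exact mul_nonneg (le_of_lt hy) (Real.sinh_nonneg_iff.2 (le_of_lt hy))
  have := hm (Set.mem_Ici.2 le_rfl) (Set.mem_Ici.2 hx) hx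
  simp at this
  linarith

theorem CM_tanh_le (x : ℝ) : |Real.tanh x| ≤ |x| := by
  have key : ∀ y : ℝ, 0 ≤ y → |Real.tanh y| ≤ |y| := by
    intro y hy
    have hc := Real.cosh_pos y
    rw [Real.tanh_eq_sinh_div_cosh, abs_of_nonneg hy,
      abs_of_nonneg (div_nonneg (Real.sinh_nonneg_iff.2 hy) hc.le), div_le_iff₀ hc]
    exact CM_sinh_le y hy
  rcases le_total 0 x with h | h
  · exact key x h
  · have := key (-x) (by linarith)
    rwa [Real.tanh_neg, abs_neg, abs_neg] at this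

theorem CM_cosh_le (x : ℝ) (h0 : 0 ≤ x) (h1 : x ≤ 1 / 2) : Real.cosh x ≤ 2 := by
  have h2 := Real.cosh_le_exp_half_sq x
  have h3 : Real.exp (x ^ 2 / 2) ≤ 1 / (1 - x ^ 2 / 2) :=
    Real.exp_bound_div_one_sub_of_interval (by positivity) (by nlinarith)
  have h4 : 1 / (1 - x ^ 2 / 2) ≤ 2 := by
    rw [div_le_iff₀ (by nlinarith)]; nlinarith
  linarith

theorem CM_cos (d t b : ℝ) : Complex.cos (d * (t + b * Complex.I)) =
    (Real.cosh (d * b) : ℂ) *
      (Real.cos (d * t) - Complex.I * Real.tanh (d * b) * Real.sin (d * t)) := by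
  have h1 : (d : ℂ) * (t + b * Complex.I) = ((d * t : ℝ) : ℂ) + ((d * b : ℝ) : ℂ) * Complex.I := by
    push_cast; ring
  have hc : (Real.cosh (d * b) : ℂ) ≠ 0 := by exact_mod_cast (Real.cosh_pos _).ne'
  have h2 : (Real.tanh (d * b) : ℂ) = (Real.sinh (d * b) : ℂ) / Real.cosh (d * b) := by
    rw [Real.tanh_eq_sinh_div_cosh]; push_cast; rfl
  rw [h1, Complex.cos_add_mul_I, h2, ← Complex.ofReal_cos, ← Complex.ofReal_sin,
    ← Complex.ofReal_cosh, ← Complex.ofReal_sinh]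
  field_simp

theorem CM_fact {ι : Type} [Fintype ι] (d : ι → ℤ) (Y β t : ℝ)
    (hY : ∑ v, (d v : ℝ) * Real.tanh (d v * β) = Y) :
    hh d Y (t + β * Complex.I) =
      ((Real.exp (-(Y * β)) * ∏ v, Real.cosh (d v * β) : ℝ) : ℂ) *
        ((∏ v, uu (d v * t) (Real.tanh (d v * β))) *
          (-2 * Complex.I * Complex.sin (t + β * Complex.I))) := by
  have h1 : ∏ v, Complex.cos (d v * (t + β * Complex.I)) =
      ∏ v, ((Real.cosh (d v * β) : ℂ) * (Real.cos (d v * t) -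
        Complex.I * Real.tanh (d v * β) * Real.sin (d v * t))) := by
    refine prod_congr rfl fun v _ => ?_
    have := CM_cos (d v) t β
    simpa using this
  have h2 : Complex.exp (Complex.I * Y * (t + β * Complex.I)) =
      (Real.exp (-(Y * β)) : ℂ) *
        ∏ v, Complex.exp (Complex.I * Real.tanh (d v * β) * ((d v * t : ℝ) : ℂ)) := by
    rw [← Complex.exp_sum, Complex.ofReal_exp, ← Complex.exp_add]
    congr 1
    have h3 : ∑ v, Complex.I * Real.tanh (d v * β) * ((d v * t : ℝ) : ℂ) =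
        Complex.I * (Y : ℂ) * t := by
      rw [← hY, Complex.ofReal_sum, mul_sum, sum_mul]
      refine sum_congr rfl fun v _ => ?_
      rw [Complex.ofReal_mul, Complex.ofReal_mul]
      ring
    rw [h3]
    push_cast
    linear_combination (Y * β : ℂ) * Complex.I_mul_I
  unfold hh uu
  rw [h1, h2, prod_mul_distrib, prod_mul_distrib, Complex.ofReal_mul, Complex.ofReal_prod]
  ring

theorem CM_W (t β : ℝ) (ht : |t| ≤ 1 / 2) (h0 : 0 ≤ β) (h1 : β ≤ 1 / 2) :
    β ≤ (-2 * Complex.I * Complex.sin (t + β * Complex.I)).re ∧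
      ‖-2 * Complex.I * Complex.sin (t + β * Complex.I)‖ ≤ 4 * (β + |t|) := by
  have hW : -2 * Complex.I * Complex.sin (t + β * Complex.I) =
      ((2 * Real.cos t * Real.sinh β : ℝ) : ℂ) +
        ((-2 * Real.sin t * Real.cosh β : ℝ) : ℂ) * Complex.I := by
    rw [Complex.sin_add_mul_I]
    push_cast
    linear_combination (-2 * Complex.cos t * Complex.sinh β) * Complex.I_mul_I
  have hcos : 7 / 8 ≤ Real.cos t := by
    have := Real.one_sub_sq_div_two_le_cos (x := t)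
    have h2 : t ^ 2 ≤ 1 / 4 := by
      rw [← sq_abs]; nlinarith [abs_nonneg t]
    linarith
  have hs : β ≤ Real.sinh β := Real.self_le_sinh_iff.2 h0
  have hc := CM_cosh_le β h0 h1
  have hs2 : Real.sinh β ≤ 2 * β := by
    have := CM_sinh_le β h0
    nlinarith
  have hc0 := Real.cosh_pos β
  rw [hW]
  constructor
  · rw [Complex.add_re, Complex.ofReal_re, Complex.re_ofReal_mul, Complex.I_re]
    nlinarith
  · refine (norm_add_le _ _).trans ?_
    rw [norm_mul, Complex.norm_I, mul_one, Complex.norm_real, Complex.norm_real, Real.norm_eq_abs,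
      Real.norm_eq_abs]
    have e1 : |2 * Real.cos t * Real.sinh β| ≤ 4 * β := by
      rw [abs_of_nonneg (by nlinarith)]
      nlinarith [Real.cos_le_one t]
    have e2 : |-2 * Real.sin t * Real.cosh β| ≤ 4 * |t| := by
      rw [abs_mul, abs_mul, abs_of_pos hc0]
      have := Real.abs_sin_le_abs (x := t)
      have h5 : |(-2 : ℝ)| = 2 := by norm_num
      rw [h5]
      nlinarith [abs_nonneg (Real.sin t), abs_nonneg t]
    linarith

theorem CM_exp (x : ℝ) (hx : 0 ≤ x) :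
    Real.exp (-x / 4) * x ≤ 4 ∧ Real.exp (-x / 4) * x ^ 2 ≤ 32 := by
  have h1 : Real.exp (-x / 4) * Real.exp (x / 4) = 1 := by
    rw [← Real.exp_add]; simp [neg_div]
  have h2 := Real.quadratic_le_exp_of_nonneg (x := x / 4) (by positivity)
  have h3 := Real.exp_pos (-x / 4)
  constructor
  · have : x ≤ 4 * Real.exp (x / 4) := by nlinarith [sq_nonneg x]
    nlinarith
  · have : x ^ 2 ≤ 32 * Real.exp (x / 4) := by nlinarith
    nlinarith

theorem CM_point (h : St_CU) {ι : Type} [Fintype ι] (d : ι → ℤ) (p : ℕ) (S β t : ℝ) (hp : 1 ≤ p)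
    (hd : ∀ v, |d v| ≤ p) (hS : S = ∑ v, (d v : ℝ) ^ 2) (hS0 : 0 < S) (hβ : 0 < β)
    (hβp : 864 * β * p ≤ 1) (ht : |t| ≤ 1 / (2 * p)) :
    ∃ ρ : ℝ, 0 ≤ ρ ∧ 1 - S * t ^ 2 / 2 ≤ ρ ∧
      β * (ρ - (384 * p ^ 2 / S + 216 * β * p ^ 2 / √S)) ≤
        ((∏ v, uu (d v * t) (Real.tanh (d v * β))) *
          (-2 * Complex.I * Complex.sin (t + β * Complex.I))).re := by
  have hp' : (1 : ℝ) ≤ p := by exact_mod_cast hp
  have hd' : ∀ v, |(d v : ℝ)| ≤ p := fun v => by exact_mod_cast hd v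
  have htp : |t| * p ≤ 1 / 2 := by
    rw [le_div_iff₀ (by positivity)] at ht; linarith
  have ht0 := abs_nonneg t
  have ha : ∀ v, |(d v : ℝ) * t| ≤ 1 / 2 := fun v => by
    rw [abs_mul]; nlinarith [hd' v]
  have hτ0 : ∀ v, |Real.tanh (d v * β)| ≤ |(d v : ℝ)| * β := fun v => by
    have := CM_tanh_le (d v * β)
    rwa [abs_mul, abs_of_pos hβ] at this
  have hτ : ∀ v, |Real.tanh (d v * β)| ≤ 1 / 2 := fun v => by
    nlinarith [hτ0 v, hd' v]
  obtain ⟨c1, c2, c3⟩ := h ι (fun v => (d v : ℝ) * t) (fun v => Real.tanh (d v * β)) ha hτ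
  have hsq : ∑ v, ((d v : ℝ) * t) ^ 2 = S * t ^ 2 := by
    rw [hS, sum_mul]; exact sum_congr rfl fun v _ => by ring
  rw [hsq] at c2 c3
  set U := ∏ v, uu (d v * t) (Real.tanh (d v * β)) with hU
  set ρ := ∏ v, ‖uu (d v * t) (Real.tanh (d v * β))‖ with hρ
  have hρ0 : 0 ≤ ρ := prod_nonneg fun v _ => norm_nonneg _
  have hsum : ∑ v, |Real.tanh (d v * β)| * |(d v : ℝ) * t| ^ 3 ≤ β * |t| ^ 3 * p ^ 2 * S := by
    rw [hS, mul_sum]
    refine sum_le_sum fun v _ => ?_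
    have e0 := abs_nonneg (d v : ℝ)
    have e1 : |(d v : ℝ)| ^ 2 ≤ (p : ℝ) ^ 2 := pow_le_pow_left₀ e0 (hd' v) 2
    calc |Real.tanh (d v * β)| * |(d v : ℝ) * t| ^ 3
        ≤ (|(d v : ℝ)| * β) * |(d v : ℝ) * t| ^ 3 :=
          mul_le_mul_of_nonneg_right (hτ0 v) (by positivity)
      _ = β * |t| ^ 3 * |(d v : ℝ)| ^ 2 * |(d v : ℝ)| ^ 2 := by rw [abs_mul]; ring
      _ ≤ β * |t| ^ 3 * p ^ 2 * |(d v : ℝ)| ^ 2 := by gcongr
      _ = β * |t| ^ 3 * p ^ 2 * (d v : ℝ) ^ 2 := by rw [sq_abs]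
  have ht2 : |t| ≤ 1 / 2 := by nlinarith
  have hβ2 : β ≤ 1 / 2 := by nlinarith
  obtain ⟨w1, w2⟩ := CM_W t β ht2 hβ.le hβ2
  set W := -2 * Complex.I * Complex.sin (t + β * Complex.I) with hW
  refine ⟨ρ, hρ0, c2, ?_⟩
  have e1 : (U * W).re = ρ * W.re + ((U - ρ) * W).re := by
    rw [← Complex.re_ofReal_mul, ← Complex.add_re]; congr 1; ring
  have e2 : -‖(U - ρ) * W‖ ≤ ((U - ρ) * W).re := (abs_le.1 (Complex.abs_re_le_norm _)).1
  have e3 : ‖(U - ρ) * W‖ ≤ ρ * (3 * (β * |t| ^ 3 * p ^ 2 * S)) * (4 * (β + |t|)) := by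
    rw [norm_mul]
    refine mul_le_mul (c1.trans ?_) w2 (norm_nonneg _) (by positivity)
    gcongr
  obtain ⟨x1, x2⟩ := CM_exp (S * t ^ 2) (by positivity)
  have hr := Real.sqrt_pos.2 hS0
  have hrr : √S * √S = S := Real.mul_self_sqrt hS0.le
  have f1 : ρ * (S * t ^ 2) ≤ 4 :=
    (mul_le_mul_of_nonneg_right c3 (by positivity)).trans x1
  have f2 : ρ * (S * t ^ 2) ^ 2 ≤ 32 :=
    (mul_le_mul_of_nonneg_right c3 (by positivity)).trans x2
  have g1 : ρ * S * |t| ^ 4 ≤ 32 / S := by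
    rw [le_div_iff₀ hS0]
    have : |t| ^ 4 = (t ^ 2) ^ 2 := by rw [← sq_abs t]; ring
    rw [this]; nlinarith
  have g2 : ρ * S * |t| ^ 3 ≤ 18 / √S := by
    rw [le_div_iff₀ hr]
    have hy : (√S * |t|) ^ 2 = S * t ^ 2 := by rw [mul_pow, sq_abs, sq √S, hrr]
    have hy0 : 0 ≤ √S * |t| := by positivity
    have h3 : ρ * S * |t| ^ 3 * √S = ρ * (√S * |t|) ^ 3 := by
      rw [mul_pow]
      have : √S ^ 3 = S * √S := by rw [pow_succ, sq, hrr]
      rw [this]; ring
    rw [h3]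
    rw [← hy] at f1 f2
    generalize √S * |t| = y at *
    have : y ^ 3 ≤ (y ^ 2 + (y ^ 2) ^ 2) / 2 := by nlinarith [sq_nonneg (y - y ^ 2)]
    nlinarith
  have e4 : ρ * (3 * (β * |t| ^ 3 * p ^ 2 * S)) * (4 * (β + |t|)) =
      β * (12 * p ^ 2 * (ρ * S * |t| ^ 4) + 12 * β * p ^ 2 * (ρ * S * |t| ^ 3)) := by ring
  have e5 : 12 * p ^ 2 * (ρ * S * |t| ^ 4) + 12 * β * p ^ 2 * (ρ * S * |t| ^ 3) ≤
      384 * p ^ 2 / S + 216 * β * p ^ 2 / √S := by
    have a1 : 12 * p ^ 2 * (ρ * S * |t| ^ 4) ≤ 12 * p ^ 2 * (32 / S) := by gcongr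
    have a2 : 12 * β * p ^ 2 * (ρ * S * |t| ^ 3) ≤ 12 * β * p ^ 2 * (18 / √S) := by gcongr
    calc _ ≤ 12 * p ^ 2 * (32 / S) + 12 * β * p ^ 2 * (18 / √S) := add_le_add a1 a2
      _ = _ := by ring
  have e6 := mul_le_mul_of_nonneg_left e5 hβ.le
  have e7 := mul_le_mul_of_nonneg_left w1 hρ0
  rw [e1]
  rw [e4] at e3
  nlinarith

theorem CM (h : St_CU) : St_CM := by
  intro ι _ d p S Y β hp hd hS hSp hβ hβp hY
  have hp' : (1 : ℝ) ≤ p := by exact_mod_cast hp
  have hS0 : 0 < S := by nlinarith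
  have hr := Real.sqrt_pos.2 hS0
  have hrr : √S * √S = S := Real.mul_self_sqrt hS0.le
  have hrp : 1536 * (p : ℝ) ≤ √S := Real.le_sqrt_of_sq_le (by nlinarith)
  set K := Real.exp (-(Y * β)) * ∏ v, Real.cosh (d v * β) with hK
  have hK0 : 0 < K := mul_pos (Real.exp_pos _) (prod_pos fun v _ => Real.cosh_pos _)
  set E := 384 * (p : ℝ) ^ 2 / S + 216 * β * p ^ 2 / √S with hE
  set t1 : ℝ := 1 / (2 * p) with ht1
  set s : ℝ := 1 / √S with hs
  have hs0 : 0 < s := by positivity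
  have hst : s ≤ t1 := one_div_le_one_div_of_le (by positivity) (by linarith)
  have hcont : Continuous fun t : ℝ => hh d Y (t + β * Complex.I) := by
    unfold hh; fun_prop
  set f : ℝ → ℝ := fun t => (hh d Y (t + β * Complex.I)).re with hf
  have hfc : Continuous f := Complex.continuous_re.comp hcont
  have hre : (∫ t in (-t1)..t1, hh d Y (t + β * Complex.I)).re = ∫ t in (-t1)..t1, f t := by
    have := Complex.reCLM.intervalIntegral_comp_comm
      (hcont.intervalIntegrable (μ := MeasureTheory.volume) (-t1) t1)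
    simpa [hf] using this.symm
  have hpt : ∀ t, |t| ≤ t1 → ∃ ρ : ℝ, 0 ≤ ρ ∧ 1 - S * t ^ 2 / 2 ≤ ρ ∧ K * (β * (ρ - E)) ≤ f t := by
    intro t ht
    obtain ⟨ρ, h0, h1, h2⟩ := CM_point h d p S β t hp hd hS hS0 hβ hβp ht
    refine ⟨ρ, h0, h1, ?_⟩
    simp only [hf]
    rw [CM_fact d Y β t hY, Complex.re_ofReal_mul]
    exact mul_le_mul_of_nonneg_left h2 hK0.le
  have hout : ∀ t, |t| ≤ t1 → -(K * β * E) ≤ f t := by
    intro t ht
    obtain ⟨ρ, h0, -, h2⟩ := hpt t ht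
    have := mul_nonneg (mul_pos hK0 hβ).le h0
    nlinarith
  have hin : ∀ t, |t| ≤ s → K * β * (1 / 2 - E) ≤ f t := by
    intro t ht
    obtain ⟨ρ, -, h1, h2⟩ := hpt t (ht.trans hst)
    have h3 : S * t ^ 2 ≤ 1 := by
      rw [hs, le_div_iff₀ hr] at ht
      have : (|t| * √S) ^ 2 ≤ 1 := pow_le_one₀ (by positivity) ht
      rw [mul_pow, sq_abs, sq √S, hrr] at this
      linarith
    have h4 : 0 ≤ K * β * (ρ - 1 / 2) := mul_nonneg (mul_pos hK0 hβ).le (by linarith)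
    nlinarith
  have hi : ∀ a b, IntervalIntegrable f MeasureTheory.volume a b := fun a b =>
    hfc.intervalIntegrable a b
  have hlow : ∀ a b c : ℝ, a ≤ b → (∀ t ∈ Set.Icc a b, c ≤ f t) →
      (b - a) * c ≤ ∫ t in a..b, f t := by
    intro a b c hab hc
    have := intervalIntegral.integral_mono_on (μ := MeasureTheory.volume) (f := fun _ => c)
      (g := f) hab intervalIntegrable_const (hi a b) hc
    simpa using this
  have i1 := hlow (-t1) (-s) _ (by linarith) fun t ht =>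
    hout t (abs_le.2 ⟨ht.1, by linarith [ht.2]⟩)
  have i2 := hlow (-s) s _ (by linarith) fun t ht => hin t (abs_le.2 ⟨ht.1, ht.2⟩)
  have i3 := hlow s t1 _ hst fun t ht => hout t (abs_le.2 ⟨by linarith [ht.1], ht.2⟩)
  have j1 := intervalIntegral.integral_add_adjacent_intervals (hi (-t1) (-s)) (hi (-s) s)
  have j2 := intervalIntegral.integral_add_adjacent_intervals (hi (-t1) s) (hi s t1)
  rw [hre]
  have hEt : 2 * t1 * E ≤ s / 2 := by
    have k1 : 2 * t1 * E = 384 * p / S + 216 * β * p / √S := by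
      rw [ht1, hE]; field_simp
    have k2 : 384 * (p : ℝ) / S ≤ s / 4 := by
      rw [hs, div_div, div_le_div_iff₀ hS0 (by positivity)]
      nlinarith
    have k3 : 216 * β * (p : ℝ) / √S ≤ s / 4 := by
      rw [hs, div_div, div_le_div_iff₀ hr (by positivity)]
      nlinarith
    linarith
  have k4 : K * β / (2 * √S) = K * β * (s / 2) := by rw [hs]; field_simp
  have k5 := mul_le_mul_of_nonneg_left hEt (mul_pos hK0 hβ).le
  rw [k4]
  nlinarith

end Pool.Agent.Lib.MP_64bee1_co.UN
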