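import Pool.Agent.Lib.MP_64bee1_co.Bounded
import Pool.Agent.Lib.MP_64bee1_co.OddK

/-!
Definitions and small facts for the uniform theorem (all `k`, large `n`).
-/

namespace Pool.Agent.Lib.MP_64bee1_co.UN

open Finset Polynomial

/-! ### Counting -/

open Classical in
/-- Number of elements with a property. -/
noncomputable def cc {γ : Type} [Fintype γ] (Q : γ → Prop) : ℕ := (univ.filter Q).card

section cc
variable {γ : Type} [Fintype γ]

theorem cc_eq (Q : γ → Prop) [DecidablePred Q] : cc Q = (univ.filter Q).card := by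
  unfold cc; congr

theorem cc_mono {Q Q' : γ → Prop} (h : ∀ x, Q x → Q' x) : cc Q ≤ cc Q' := by
  classical
  rw [cc_eq, cc_eq]
  exact card_le_card fun x hx => mem_filter.2 ⟨mem_univ _, h x (mem_filter.1 hx).2⟩

theorem cc_congr {Q Q' : γ → Prop} (h : ∀ x, Q x ↔ Q' x) : cc Q = cc Q' :=
  le_antisymm (cc_mono fun x => (h x).1) (cc_mono fun x => (h x).2)

theorem cc_or_le (Q Q' : γ → Prop) : cc (fun x => Q x ∨ Q' x) ≤ cc Q + cc Q' := by
  classical
  rw [cc_eq, cc_eq, cc_eq, filter_or]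
  exact card_union_le _ _

theorem cc_split (Q Q' : γ → Prop) :
    cc Q = cc (fun x => Q x ∧ Q' x) + cc (fun x => Q x ∧ ¬ Q' x) := by
  classical
  rw [cc_eq, cc_eq, cc_eq, ← filter_filter, ← filter_filter, card_filter_add_card_filter_not]

theorem cc_le_card (Q : γ → Prop) : cc Q ≤ Fintype.card γ := by
  classical
  rw [cc_eq]; exact card_le_univ _

theorem cc_eq_zero {Q : γ → Prop} (h : ∀ x, ¬ Q x) : cc Q = 0 := by
  classical
  rw [cc_eq, card_eq_zero]; exact filter_false_of_mem fun x _ => h x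

theorem cc_real (Q : γ → Prop) [DecidablePred Q] :
    (cc Q : ℝ) = ∑ x, if Q x then (1 : ℝ) else 0 := by
  rw [cc_eq, card_filter]; push_cast; rfl

theorem cc_exists_le {δ : Type} (s : Finset δ) (Q : δ → γ → Prop) :
    cc (fun x => ∃ a ∈ s, Q a x) ≤ ∑ a ∈ s, cc (Q a) := by
  classical
  induction s using Finset.induction_on with
  | empty => simp [cc_eq_zero]
  | insert a s ha ih =>
    rw [sum_insert ha]
    refine le_trans (cc_mono (Q' := fun x => Q a x ∨ ∃ b ∈ s, Q b x) fun x hx => ?_)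
      ((cc_or_le _ _).trans (Nat.add_le_add_left ih _))
    obtain ⟨b, hb, h⟩ := hx
    rcases mem_insert.1 hb with rfl | hb
    · exact Or.inl h
    · exact Or.inr ⟨b, hb, h⟩

end cc

/-! ### Polynomials with nonnegative coefficients -/

/-- All coefficients are nonnegative. -/
def Nn (f : ℝ[X]) : Prop := ∀ j, 0 ≤ f.coeff j

theorem Nn.add {f g : ℝ[X]} (hf : Nn f) (hg : Nn g) : Nn (f + g) := fun j => by
  rw [coeff_add]; exact add_nonneg (hf j) (hg j)

theorem Nn.mul {f g : ℝ[X]} (hf : Nn f) (hg : Nn g) : Nn (f * g) := fun j => by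
  rw [coeff_mul]; exact sum_nonneg fun x _ => mul_nonneg (hf _) (hg _)

theorem nn_one : Nn 1 := fun j => by rw [coeff_one]; split_ifs <;> norm_num

theorem nn_zero : Nn 0 := fun j => by simp

theorem nn_X_pow (n : ℕ) : Nn (X ^ n) := fun j => by rw [coeff_X_pow]; split_ifs <;> norm_num

theorem nn_C {a : ℝ} (h : 0 ≤ a) : Nn (C a) := fun j => by
  rw [coeff_C]; split_ifs <;> simp [h]

theorem Nn.pow {f : ℝ[X]} (hf : Nn f) (n : ℕ) : Nn (f ^ n) := by
  induction n with
  | zero => simpa using nn_one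
  | succ n ih => rw [pow_succ]; exact ih.mul hf

theorem nn_sum {δ : Type} (s : Finset δ) (f : δ → ℝ[X]) (h : ∀ i ∈ s, Nn (f i)) :
    Nn (∑ i ∈ s, f i) := sum_induction f Nn (fun _ _ => Nn.add) nn_zero h

theorem nn_prod {δ : Type} (s : Finset δ) (f : δ → ℝ[X]) (h : ∀ i ∈ s, Nn (f i)) :
    Nn (∏ i ∈ s, f i) := prod_induction f Nn (fun _ _ => Nn.mul) nn_one h

theorem Nn.eval_nonneg {f : ℝ[X]} (hf : Nn f) {q : ℝ} (hq : 0 ≤ q) : 0 ≤ f.eval q := by
  rw [eval_eq_sum_range]
  exact sum_nonneg fun j _ => mul_nonneg (hf j) (pow_nonneg hq _)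

theorem Nn.coeff_le {f : ℝ[X]} (hf : Nn f) {q : ℝ} (hq : 0 < q) (m : ℕ) :
    f.coeff m ≤ f.eval q / q ^ m := by
  rw [le_div_iff₀ (pow_pos hq m), eval_eq_sum_range' (n := f.natDegree + m + 1) (by omega)]
  exact single_le_sum (f := fun j => f.coeff j * q ^ j)
    (fun j _ => mul_nonneg (hf j) (pow_nonneg hq.le _)) (mem_range.2 (by omega))

/-- `n` coins of size `Δ` times the square of the uniform block of length `Δ`. -/
noncomputable def Kp (Δ n : ℕ) : ℝ[X] := (1 + X ^ Δ) ^ n * (∑ r ∈ range Δ, X ^ r) ^ 2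

theorem nn_Kp (Δ n : ℕ) : Nn (Kp Δ n) :=
  ((nn_one.add (nn_X_pow _)).pow _).mul ((nn_sum _ _ fun r _ => nn_X_pow r).pow _)

/-! ### Sums of independent sites -/

section prod
variable {ι α : Type} [Fintype ι] [DecidableEq ι] [Fintype α] (g : ι → α → ℕ) (f0 : ℕ)

/-- The total level of a configuration. -/
def tot (x : ι → α) : ℕ := f0 + ∑ i, g i (x i)

/-- Configurations at level `m`. -/
noncomputable def bb (m : ℕ) : ℕ := cc fun x : ι → α => tot g f0 x = m

/-- Configurations at level at most `m - s`. -/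
noncomputable def cb (s m : ℕ) : ℕ := cc fun x : ι → α => tot g f0 x + s ≤ m

/-- Tilted mass. -/
noncomputable def ZZ (q : ℝ) : ℝ := ∑ x : ι → α, q ^ tot g f0 x

/-- Number of states of a site at a given level. -/
noncomputable def ww (i : ι) (v : ℕ) : ℕ := cc fun a : α => g i a = v

/-- Generating polynomial of a set of configurations. -/
noncomputable def gen (s : Finset (ι → α)) : ℝ[X] := ∑ x ∈ s, X ^ tot g f0 x

/-- Generating polynomial of one site. -/
noncomputable def Gs (i : ι) : ℝ[X] := ∑ a : α, X ^ g i a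

/-- Every site has a set of states with an involution moving the level by one. -/
def IsCoin (S : ι → Finset α) : Prop :=
  ∀ i, ∃ σ : α → α, ∀ a ∈ S i, σ a ∈ S i ∧ σ (σ a) = a ∧
    (g i (σ a) = g i a + 1 ∨ g i a = g i (σ a) + 1)

/-- Number of sites in a coin state. -/
noncomputable def nco (S : ι → Finset α) (x : ι → α) : ℕ := cc fun i => x i ∈ S i

/-- The lowest level of each site is heavy, and most low levels are heavy. -/
def Lev (g0 g1 d0 D : ℕ) : Prop :=
  ∀ i, ∃ μ : ℕ, (∀ a, μ ≤ g i a) ∧ g0 ≤ ww g i μ ∧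
    ∀ d, d0 ≤ d → d ≤ D → 8 * ((range d).filter fun v => ww g i (μ + v) < g1).card ≤ d

/-- Expected number of coins when every site is resampled inside its cell. -/
noncomputable def UU {β : Type} (S : ι → Finset α) (cl : ι → α → β) (x : ι → α) : ℝ :=
  ∑ i, (cc fun a => a ∈ S i ∧ cl i a = cl i (x i) : ℝ) / (cc fun a => cl i a = cl i (x i) : ℝ)

omit [Fintype α] [DecidableEq ι] in
theorem nn_gen (s : Finset (ι → α)) : Nn (gen g f0 s) := nn_sum _ _ fun _ _ => nn_X_pow _

theorem coeff_gen (s : Finset (ι → α)) (m : ℕ) :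
    (gen g f0 s).coeff m = cc fun x => x ∈ s ∧ tot g f0 x = m := by
  classical
  rw [gen, finsetSum_coeff, cc_real]
  simp only [coeff_X_pow]
  rw [← sum_filter_add_sum_filter_not univ (· ∈ s)]
  rw [sum_eq_zero (s := univ.filter (· ∉ s)) (fun x hx => by
    rw [if_neg fun h => (mem_filter.1 hx).2 h.1]), add_zero, filter_mem_eq_inter, univ_inter]
  refine sum_congr rfl fun x hx => ?_
  simp only [hx, true_and, eq_comm]

theorem coeff_gen_univ (m : ℕ) : (gen g f0 univ).coeff m = bb g f0 m := by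
  rw [coeff_gen, bb]
  exact congrArg _ (cc_congr fun x => by simp)

omit [Fintype α] [DecidableEq ι] in
theorem eval_gen (s : Finset (ι → α)) (q : ℝ) :
    (gen g f0 s).eval q = ∑ x ∈ s, q ^ tot g f0 x := by
  simp [gen, eval_finsetSum]

theorem eval_gen_univ (q : ℝ) : (gen g f0 univ).eval q = ZZ g f0 q := eval_gen g f0 univ q

theorem gen_univ : gen g f0 univ = X ^ f0 * ∏ i, Gs g i := by
  unfold gen Gs tot
  rw [prod_univ_sum, Fintype.piFinset_univ, mul_sum]
  refine sum_congr rfl fun x _ => ?_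
  rw [pow_add, prod_pow_eq_pow_sum]

theorem bb_le_cb {s m m' : ℕ} (h : m' + s ≤ m) : bb g f0 m' ≤ cb g f0 s m :=
  cc_mono fun x hx => by omega

theorem cb_anti {s s' m : ℕ} (h : s ≤ s') : cb g f0 s' m ≤ cb g f0 s m :=
  cc_mono fun x hx => by omega

theorem ZZ_nonneg {q : ℝ} (hq : 0 ≤ q) : 0 ≤ ZZ g f0 q := sum_nonneg fun _ _ => pow_nonneg hq _

end prod

/-! ### Directed graphs on `Fin N` -/

section graph
variable {N : ℕ} (A : Fin N → Fin N → Prop) [DecidableRel A]

/-- No loops and no pair of opposite edges. -/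
def Asym (A : Fin N → Fin N → Prop) : Prop := ∀ i j, A i j → ¬ A j i

omit [DecidableRel A] in
theorem Asym.ne' {A : Fin N → Fin N → Prop} (h : Asym A) : ∀ i j, A i j → i ≠ j := by
  rintro i j hij rfl; exact h i i hij hij

/-- No edge inside the set. -/
def Indep (A : Fin N → Fin N → Prop) (R : Finset (Fin N)) : Prop := ∀ i ∈ R, ∀ j ∈ R, ¬ A i j

/-- Neighbours. -/
def Nb (A : Fin N → Fin N → Prop) (i j : Fin N) : Prop := A i j ∨ A j i

instance (i : Fin N) : DecidablePred (Nb A i) := fun j => by unfold Nb; infer_instance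

/-- Out-degree. -/
def od (i : Fin N) : ℕ := (univ.filter fun j => A i j).card

/-- In-degree. -/
def idg (i : Fin N) : ℕ := (univ.filter fun j => A j i).card

/-- Permutations at level at most `m - s`. -/
noncomputable def cum (s m : ℕ) : ℕ := cc fun w : Equiv.Perm (Fin N) => iv A w + s ≤ m

theorem cnt_eq_cc (t : ℕ) : cnt A t = cc fun w : Equiv.Perm (Fin N) => iv A w = t := by
  rw [cc_eq]; rfl

/-- Out-neighbours minus in-neighbours inside a set. -/
def dS (S : Finset (Fin N)) (v : Fin N) : ℤ :=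
  ((S.filter fun u => A v u).card : ℤ) - (S.filter fun u => A u v).card

variable {β : Type} [LinearOrder β]

/-- The cell of the value `x` at the vertex `i`. -/
def cl (X : Fin N → β) (i : Fin N) (x : β) : Finset (Fin N) × Finset (Fin N) :=
  (univ.filter fun j => A i j ∧ X j < x, univ.filter fun j => A j i ∧ x < X j)

/-- Number of inverted edges at `i` if `i` receives the value `x`. -/
def gs (X : Fin N → β) (i : Fin N) (x : β) : ℕ := (cl A X i x).1.card + (cl A X i x).2.card

/-- Inverted edges outside `R`. -/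
def fz (R : Finset (Fin N)) (e : Fin N → β) : ℕ :=
  (univ.filter fun p : Fin N × Fin N => A p.1 p.2 ∧ p.1 ∉ R ∧ p.2 ∉ R ∧ e p.2 < e p.1).card

/-- Values `x` on `R` and `e` elsewhere. -/
def glue {α : Type} (R : Finset (Fin N)) (e : Fin N → α) (x : R → α) : Fin N → α :=
  fun v => if h : v ∈ R then x ⟨v, h⟩ else e v

variable {M : ℕ}

/-- `X` has the relative order of `π`. -/
def OrdP (π : Equiv.Perm (Fin N)) (X : Fin N → Fin M) : Prop := ∀ u v, X u < X v ↔ π u < π v

/-- All values are at distance at least `g`. -/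
def Sep (g : ℕ) (X : Fin N → Fin M) : Prop :=
  ∀ u v, u ≠ v → (X u : ℕ) + g ≤ X v ∨ (X v : ℕ) + g ≤ X u

/-- The gap below the value of `u` is at most `g`. -/
def Sm (g : ℕ) (X : Fin N → Fin M) (u : Fin N) : Prop :=
  (∃ v, X v < X u ∧ (X u : ℕ) ≤ X v + g) ∨ (X u : ℕ) < g

open Classical in
/-- Total weight of the vertices with a small gap below them. -/
noncomputable def smw (g : ℕ) (wt : Fin N → ℕ) (X : Fin N → Fin M) : ℝ :=
  ∑ u, if Sm g X u then (wt u : ℝ) else 0

open Classical in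
/-- Values close to the value of one neighbour: reflection in that value is a coin. -/
noncomputable def coinS (A : Fin N → Fin N → Prop) (X : Fin N → Fin M) (i : Fin N) :
    Finset (Fin M) :=
  univ.filter fun x => ∃ u, Nb A i u ∧ x ≠ X u ∧ (x : ℕ) ≤ 2 * X u ∧ 2 * (X u : ℕ) < M + x ∧
    ∀ v, Nb A i v → v ≠ u → 2 * |((x : ℕ) : ℤ) - (X u : ℕ)| < |((X v : ℕ) : ℤ) - (X u : ℕ)|

/-- Site functions on `R`. -/
def gR (R : Finset (Fin N)) (X : Fin N → β) : R → β → ℕ := fun i => gs A X i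

/-- Good environments. -/
def Good (R : Finset (Fin N)) (g0 g1 d0 D : ℕ) (X : Fin N → Fin M) : Prop :=
  Lev (gR A R X) g0 g1 d0 D

/-- Number of coin sites in `R`. -/
noncomputable def ncX (R : Finset (Fin N)) (X : Fin N → Fin M) : ℕ :=
  nco (fun i : R => coinS A X i) fun i : R => X i

/-- Expected number of coin sites in `R` after resampling in the cells. -/
noncomputable def UX (R : Finset (Fin N)) (X : Fin N → Fin M) : ℝ :=
  UU (fun i : R => coinS A X i) (fun i : R => cl A X i) fun i : R => X i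

end graph

/-- The graph of the problem. -/
abbrev Adj (N k : ℕ) : Fin N → Fin N → Prop := fun i j => i < j ∧ ((j : ℕ) - (i : ℕ)) % k = 1

/-- Every third column. -/
def R3 (N k : ℕ) : Finset (Fin N) :=
  univ.filter fun v => (v : ℕ) % k % 3 = 1 ∧ (v : ℕ) % k + 1 < k

/-- Parameters of the warm regime. -/
structure WP (r d0 D a0 l n h s : ℕ) (η ξ ρ0 ρ1 : ℝ) : Prop where
  d0_le : d0 ≤ 2 * 2 ^ a0
  le_D : 2 * 2 ^ a0 ≤ D
  D_le : D ≤ 2 ^ l
  n_ge : 2 ≤ n
  eta_pos : 0 < η
  eta_le : η ≤ 1 / 48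
  h_le : (h : ℝ) + 1 ≤ η * n
  s_le : 4 * s ≤ h * D
  kap : 48 * n * ρ1 ≤ ((r / l : ℕ) : ℝ) * 2 ^ a0
  xi_nonneg : 0 ≤ ξ
  xi_le : ξ * D ≤ 2 * η
  rho0 : 1 ≤ ρ0
  rho1 : 0 ≤ ρ1

/-- The integrand of the contour argument. -/
noncomputable def hh {ι : Type} [Fintype ι] (d : ι → ℤ) (Y : ℝ) (z : ℂ) : ℂ :=
  (∏ v, Complex.cos (d v * z)) * Complex.exp (Complex.I * Y * z) * (-2 * Complex.I * Complex.sin z)

/-- The normalised factor of the contour argument. -/
noncomputable def uu (a τ : ℝ) : ℂ :=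
  (Real.cos a - Complex.I * τ * Real.sin a) * Complex.exp (Complex.I * τ * a)

/-- The low frequency integral of a folded class. -/
noncomputable def lowI {ι : Type} [Fintype ι] (d : ι → ℤ) (p : ℕ) (Y : ℝ) : ℝ :=
  ∫ t in (0 : ℝ)..(1 / (2 * p)), (∏ v, Real.cos (d v * t)) * (2 * Real.sin t * Real.sin (Y * t))

/-- The averaged modulus of the folded classes. -/
noncomputable def modF {N : ℕ} (A : Fin N → Fin N → Prop) [DecidableRel A] (t : ℝ) : ℝ :=
  ∑ π : Equiv.Perm (Fin N), ∏ v, |Real.cos (dg A π v * t)|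

end Pool.Agent.Lib.MP_64bee1_co.UN
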