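import Pool.Agent.Lib.MP_64bee1_co.UN.Stmts

/-!
The coefficients of the binomial blocks.
-/

namespace Pool.Agent.Lib.MP_64bee1_co.UN

open Finset Polynomial

theorem PK1_one (Δ n : ℕ) (hΔ : 0 < Δ) (y : ℕ) :
    (((1 + X ^ Δ) ^ n * ∑ r ∈ range Δ, X ^ r : ℝ[X])).coeff y = (n.choose (y / Δ) : ℝ) := by
  induction n generalizing y with
  | zero =>
    rw [pow_zero, one_mul, finsetSum_coeff]
    simp only [coeff_X_pow]
    rw [sum_ite_eq]
    by_cases h : y < Δ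
    · simp [h, Nat.div_eq_of_lt h]
    · have : 0 < y / Δ := Nat.div_pos (by omega) hΔ
      simp [h, Nat.choose_eq_zero_of_lt this]
  | succ n ih =>
    have e : ((1 + X ^ Δ) ^ (n + 1) * ∑ r ∈ range Δ, X ^ r : ℝ[X]) =
        (1 + X ^ Δ) ^ n * (∑ r ∈ range Δ, X ^ r) +
          ((1 + X ^ Δ) ^ n * ∑ r ∈ range Δ, X ^ r) * X ^ Δ := by ring
    rw [e, coeff_add, coeff_mul_X_pow', ih]
    by_cases h : Δ ≤ y
    · rw [if_pos h, ih, Nat.div_eq_sub_div hΔ h, Nat.choose_succ_succ']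
      push_cast
      ring
    · rw [if_neg h, Nat.div_eq_of_lt (by omega)]
      simp

theorem PKf : St_PKf := by
  intro Δ n j ρ hρ
  have hΔ : 0 < Δ := by omega
  have e : Kp Δ n = ∑ s ∈ range Δ, ((1 + X ^ Δ) ^ n * ∑ r ∈ range Δ, X ^ r) * X ^ s := by
    rw [Kp, ← mul_sum]; ring
  rw [e, finsetSum_coeff]
  simp only [coeff_mul_X_pow', PK1_one Δ n hΔ]
  rw [← sum_range_add_sum_Ico _ (show ρ + 1 ≤ Δ by omega)]
  congr 1
  · rw [sum_congr rfl (g := fun _ => (n.choose j : ℝ))]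
    · simp
    · intro s hs
      have hs' : s < ρ + 1 := mem_range.1 hs
      rw [if_pos (by omega)]
      congr 2
      rw [show j * Δ + ρ - s = (ρ - s) + Δ * j by rw [mul_comm Δ j]; omega,
        Nat.add_mul_div_left _ _ hΔ, Nat.div_eq_of_lt (by omega), zero_add]
  · rw [sum_congr rfl (g := fun _ => if j = 0 then (0 : ℝ) else (n.choose (j - 1) : ℝ))]
    · rw [sum_const, Nat.card_Ico, nsmul_eq_mul, Nat.cast_sub (by omega)]
      push_cast
      ring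
    · intro s hs
      obtain ⟨h1, h2⟩ := mem_Ico.1 hs
      rcases j with _ | j
      · rw [if_neg (by omega), if_pos rfl]
      · have h3 : (j + 1) * Δ = Δ * j + Δ := by ring
        rw [if_pos (by omega), if_neg (by omega), Nat.add_sub_cancel]
        congr 2
        rw [show (j + 1) * Δ + ρ - s = (Δ + ρ - s) + Δ * j by omega,
          Nat.add_mul_div_left _ _ hΔ, Nat.div_eq_of_lt (by omega), zero_add]

theorem PK1_ratio (n i : ℕ) (η : ℝ) (h0 : 0 ≤ η) (h1 : η ≤ 1 / 2)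
    (h : ((i + 1 : ℕ) : ℝ) ≤ (1 / 2 - η) * n) :
    (n.choose i : ℝ) ≤ (1 - 2 * η) * n.choose (i + 1) := by
  push_cast at h
  have hn : (0 : ℝ) ≤ n := Nat.cast_nonneg n
  have hi : (0 : ℝ) ≤ i := Nat.cast_nonneg i
  have hlt : (i : ℝ) < n := by nlinarith
  have hlt' : i < n := by exact_mod_cast hlt
  have e : (n.choose (i + 1) : ℝ) * (i + 1) = n.choose i * ((n : ℝ) - i) := by
    have := Nat.choose_succ_right_eq n i
    have h2 : ((n.choose (i + 1) * (i + 1) : ℕ) : ℝ) = ((n.choose i * (n - i) : ℕ) : ℝ) := by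
      rw [this]
    push_cast [Nat.cast_sub hlt'.le] at h2
    exact h2
  have hc : (0 : ℝ) ≤ n.choose (i + 1) := Nat.cast_nonneg _
  have h3 : (i : ℝ) + 1 ≤ (1 - 2 * η) * ((n : ℝ) - i) := by
    have h4 : (1 / 2 + η) * n ≤ (n : ℝ) - i := by linarith
    have h5 : (1 - 2 * η) * ((1 / 2 + η) * n) ≤ (1 - 2 * η) * ((n : ℝ) - i) :=
      mul_le_mul_of_nonneg_left h4 (by linarith)
    have h6 : 0 ≤ η * (1 - 2 * η) * n := mul_nonneg (mul_nonneg h0 (by linarith)) hn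
    nlinarith
  refine le_of_mul_le_mul_right ?_ (sub_pos.2 hlt)
  rw [← e]
  nlinarith [mul_le_mul_of_nonneg_left h3 hc]

theorem PK1_fin (D η a b c : ℝ) (hD : 1 ≤ D) (h0 : 0 ≤ η) (h1 : a ≤ D * c)
    (h2 : a + 2 * η * c ≤ b) : (1 + 2 * η / D) * a ≤ b := by
  have h3 : 2 * η / D * a ≤ 2 * η / D * (D * c) :=
    mul_le_mul_of_nonneg_left h1 (div_nonneg (by linarith) (by linarith))
  have h4 : 2 * η / D * (D * c) = 2 * η * c := by field_simp
  nlinarith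

theorem PKg : St_PKg := by
  intro Δ n y η hΔ h0 h1 h
  have hD : (1 : ℝ) ≤ Δ := by exact_mod_cast hΔ
  obtain ⟨j, ρ, hρ, rfl⟩ : ∃ j ρ, ρ < Δ ∧ y = j * Δ + ρ :=
    ⟨y / Δ, y % Δ, Nat.mod_lt _ hΔ, (Nat.div_add_mod' y Δ).symm⟩
  have hr0 : (0 : ℝ) ≤ ρ := Nat.cast_nonneg _
  by_cases hc : ρ + 1 < Δ
  · have hj : (j * Δ + ρ + 1) / Δ = j := by
      rw [show j * Δ + ρ + 1 = (ρ + 1) + Δ * j by ring, Nat.add_mul_div_left _ _ hΔ,
        Nat.div_eq_of_lt hc, zero_add]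
    rw [hj] at h
    have hr : (ρ : ℝ) + 1 ≤ Δ := by exact_mod_cast hc.le
    have hcj : (0 : ℝ) ≤ n.choose j := Nat.cast_nonneg _
    have hk : (if j = 0 then 0 else (n.choose (j - 1) : ℝ)) ≤ (1 - 2 * η) * n.choose j := by
      rcases j with _ | j
      · rw [if_pos rfl]
        exact mul_nonneg (by linarith) hcj
      · rw [if_neg (by omega), Nat.add_sub_cancel]
        exact PK1_ratio n j η h0 h1 h
    rw [PKf Δ n j ρ hρ, add_assoc (j * Δ), PKf Δ n j (ρ + 1) hc]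
    generalize (if j = 0 then 0 else (n.choose (j - 1) : ℝ)) = c' at hk ⊢
    refine PK1_fin _ _ _ _ (n.choose j) hD h0 ?_ ?_
    · have h5 : c' ≤ n.choose j := by nlinarith
      nlinarith [mul_le_mul_of_nonneg_left h5 (show (0 : ℝ) ≤ Δ - 1 - ρ by linarith)]
    · push_cast
      nlinarith
  · have hΔ' : Δ = ρ + 1 := by omega
    have e : j * Δ + ρ + 1 = (j + 1) * Δ + 0 := by rw [hΔ']; ring
    have hj : (j * Δ + ρ + 1) / Δ = j + 1 := by
      rw [e, add_zero, Nat.mul_div_cancel _ hΔ]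
    rw [hj] at h
    have hk := PK1_ratio n j η h0 h1 h
    have hr : (Δ : ℝ) = ρ + 1 := by exact_mod_cast hΔ'
    have hcj : (0 : ℝ) ≤ n.choose (j + 1) := Nat.cast_nonneg _
    rw [PKf Δ n j ρ hρ, e, PKf Δ n (j + 1) 0 hΔ, if_neg (Nat.succ_ne_zero j), Nat.add_sub_cancel]
    refine PK1_fin _ _ _ _ (n.choose (j + 1)) hD h0 ?_ ?_
    · have h5 : (n.choose j : ℝ) ≤ n.choose (j + 1) := by nlinarith
      rw [hr]
      nlinarith [mul_le_mul_of_nonneg_left h5 (show (0 : ℝ) ≤ ρ + 1 by linarith)]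
    · rw [hr]
      push_cast
      nlinarith

end Pool.Agent.Lib.MP_64bee1_co.UN
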