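import Pool.Agent.Lib.MP_64bee1_co.UN.Stmts

/-!
The step from `m` to `m + 1` away from the centre, many columns and high level.
-/

namespace Pool.Agent.Lib.MP_64bee1_co.UN

open Finset Polynomial

theorem REGB1_small {N l : ℕ} (h : N ≤ 2 ^ l) (h0 : 1 ≤ N) (k : ℕ) {t : ℝ} (ht : t ≤ -(k * l)) :
    Real.exp t ≤ 1 / (N : ℝ) ^ k := by
  have hN : (0 : ℝ) < N := by exact_mod_cast h0
  have he : (N : ℝ) ≤ Real.exp l := by
    have h1 : (N : ℝ) ≤ 2 ^ l := by exact_mod_cast h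
    refine h1.trans ?_
    have h2 : (2 : ℝ) ≤ Real.exp 1 := by
      have := Real.add_one_le_exp (1 : ℝ); linarith
    calc (2 : ℝ) ^ l ≤ Real.exp 1 ^ l := pow_le_pow_left₀ (by norm_num) h2 l
      _ = Real.exp l := by rw [← Real.exp_nat_mul, mul_one]
  have h1 : (N : ℝ) ^ k ≤ Real.exp (k * l) := by
    rw [Real.exp_nat_mul]
    exact pow_le_pow_left₀ hN.le he k
  calc Real.exp t ≤ Real.exp (-(k * l)) := Real.exp_le_exp.2 ht
    _ = 1 / Real.exp (k * l) := by rw [Real.exp_neg, one_div]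
    _ ≤ 1 / (N : ℝ) ^ k := one_div_le_one_div_of_le (pow_pos hN k) h1

theorem REGB1_cum {N : ℕ} (A : Fin N → Fin N → Prop) [DecidableRel A] (m : ℕ)
    (h : ∀ j ≤ m, cnt A j ≤ cnt A m) : cum A 0 m ≤ (m + 1) * cnt A m := by
  have h1 : cum A 0 m ≤ cc fun w : Equiv.Perm (Fin N) => ∃ j ∈ range (m + 1), iv A w = j :=
    cc_mono fun w hw => ⟨iv A w, mem_range.2 (by omega), rfl⟩
  refine h1.trans ((cc_exists_le _ fun j (w : Equiv.Perm (Fin N)) => iv A w = j).trans ?_)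
  calc ∑ j ∈ range (m + 1), cc (fun w : Equiv.Perm (Fin N) => iv A w = j)
      ≤ ∑ j ∈ range (m + 1), cnt A m := sum_le_sum fun j hj => by
        rw [← cnt_eq_cc]; exact h j (by have := mem_range.1 hj; omega)
    _ = (m + 1) * cnt A m := by simp

theorem REGB1_gam {N r l d : ℕ} (hl : 1000 ≤ l) (hN : N ≤ 2 ^ l) (N1 : 1 ≤ N) (hr : N ≤ 20 * r)
    (hd : l ^ 39 ≤ d) :
    (256 * ((l ^ 37 : ℕ) : ℝ) * N / (r * d)) ^ (l ^ 37) * Real.exp (40 * ((l ^ 35 : ℕ) : ℝ) * l) ≤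
      1 / (N : ℝ) ^ 5 := by
  have hlR : (1000 : ℝ) ≤ l := by exact_mod_cast hl
  have l0 : (0 : ℝ) < l := by linarith
  have r0 : (0 : ℝ) < r := by exact_mod_cast (show 0 < r by omega)
  have hrR : (N : ℝ) ≤ 20 * r := by exact_mod_cast hr
  have hdR : (l : ℝ) ^ 39 ≤ d := by exact_mod_cast hd
  have h1 : 256 * ((l ^ 37 : ℕ) : ℝ) * N / (r * d) ≤ Real.exp (-2) := by
    have h2 : Real.exp 2 ≤ 9 := by
      have h3 : Real.exp 1 ≤ 3 := Real.exp_one_lt_three.le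
      calc Real.exp 2 = Real.exp 1 * Real.exp 1 := by rw [← Real.exp_add]; norm_num
        _ ≤ 3 * 3 := mul_le_mul h3 h3 (Real.exp_pos _).le (by norm_num)
        _ = 9 := by norm_num
    calc 256 * ((l ^ 37 : ℕ) : ℝ) * N / (r * d)
        ≤ 256 * ((l ^ 37 : ℕ) : ℝ) * (20 * r) / (r * (l : ℝ) ^ 39) := by gcongr
      _ = 5120 / ((l : ℝ) * l) := by push_cast; field_simp; norm_num
      _ ≤ 1 / 9 := by
        rw [div_le_div_iff₀ (by positivity) (by norm_num)]; nlinarith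
      _ ≤ 1 / Real.exp 2 := one_div_le_one_div_of_le (Real.exp_pos _) h2
      _ = Real.exp (-2) := by rw [Real.exp_neg, one_div]
  calc (256 * ((l ^ 37 : ℕ) : ℝ) * N / (r * d)) ^ (l ^ 37) * Real.exp (40 * ((l ^ 35 : ℕ) : ℝ) * l)
      ≤ Real.exp (-2) ^ (l ^ 37) * Real.exp (40 * ((l ^ 35 : ℕ) : ℝ) * l) := by gcongr
    _ = Real.exp (((l ^ 37 : ℕ) : ℝ) * (-2) + 40 * ((l ^ 35 : ℕ) : ℝ) * l) := by
        rw [Real.exp_add, Real.exp_nat_mul]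
    _ ≤ 1 / (N : ℝ) ^ 5 := by
        refine REGB1_small hN N1 5 ?_
        push_cast
        have h4 : (1 : ℝ) ≤ (l : ℝ) ^ 35 := one_le_pow₀ (by linarith)
        have h5 : (l : ℝ) ^ 37 = (l : ℝ) ^ 35 * l * l := by ring
        have h6 : (l : ℝ) ≤ (l : ℝ) ^ 35 * l := le_mul_of_one_le_left l0.le h4
        have h7 : 40 * (l : ℝ) ^ 35 * l = 40 * ((l : ℝ) ^ 35 * l) := by ring
        rw [h5, h7]
        generalize (l : ℝ) ^ 35 * l = y at h6 ⊢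
        nlinarith

theorem REGB1 (h0 : St_GF) (h1 : St_MAIN1) (h2 : St_PAR) (h3 : St_CG) (h4 : St_DEL2) :
    St_REGB1 := by
  intro ε ε0 ε4
  refine ⟨max 1000000000 ⌈1000 / ε⌉₊, fun N k l m hl hN hlN hk hs hm hc => ?_⟩
  obtain ⟨hP, hPm⟩ := hs
  have hl9 : 1000000000 ≤ l := le_trans (le_max_left _ _) hl
  have hεl : 1000 ≤ ε * l := by
    have : 1000 / ε ≤ l := Nat.ceil_le.1 (le_trans (le_max_right _ _) hl)
    rwa [div_le_iff₀ ε0, mul_comm] at this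
  have l1 : 1 ≤ l := by omega
  have mono : ∀ {a b : ℕ}, a ≤ b → l ^ a ≤ l ^ b := fun h => Nat.pow_le_pow_right l1 h
  have lle : ∀ {a : ℕ}, 1 ≤ a → l ≤ l ^ a := fun h => by simpa using mono h
  have step : ∀ a c : ℕ, c ≤ l → c * l ^ a ≤ l ^ (a + 1) := fun a c h => by
    rw [pow_succ']; exact Nat.mul_le_mul_right _ h
  have lN : l ≤ N := (lle (by norm_num)).trans hlN
  have N1 : 1 ≤ N := by omega
  have PN : N / k ≤ N := Nat.div_le_self _ _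
  have P40 : 40 ≤ N / k := by have := (lle (show 1 ≤ 76 by norm_num)).trans hP; omega
  obtain ⟨gA, -, -, gE, -, gd, -, gR⟩ := h0 N k (by omega)
  obtain ⟨R, RI, Rd, Rc⟩ := gR P40
  have rN : R.card ≤ N := by simpa using card_le_univ R
  obtain ⟨⟨a0, a1, a2, wp⟩, p2, p3, -, p5⟩ := h2 N (N / k) l R.card (by omega) hN hlN hP PN Rc rN
  have p5' := p5 ε hεl
  have hd : l ^ 39 ≤ N / k / l ^ 37 := by
    rw [Nat.le_div_iff_mul_le (pow_pos (by omega) _), ← pow_add]; exact hP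
  have key := h1 N (Adj N k) R (l ^ 2) (N / k / 3) a0 l (l ^ 4) (l ^ 2) (l ^ 2 / 20 * (N / k + 2))
    (20 * l) (N / k / l ^ 37) (l ^ 37) m (1 / l) (1 / (N : ℝ) ^ 2) (1 / (N : ℝ) ^ 5) N1 gA RI Rd
    (Nat.one_le_pow _ _ (by omega)) wp
    (calc 8 * 2 ^ a0 * (20 * l) ≤ 8 * (2 * l ^ 6) * (20 * l) := by gcongr
      _ = 320 * l ^ 7 := by ring
      _ ≤ l ^ (7 + 1) := step 7 320 (by omega)
      _ ≤ l ^ 39 := mono (by norm_num)
      _ ≤ _ := hd)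
    ((mono (by norm_num)).trans hd)
    (Nat.div_le_div_left (by have := lle (show 1 ≤ 37 by norm_num); omega) (by norm_num))
    (by
      have := (step 37 40 (by omega)).trans ((mono (show 37 + 1 ≤ 600 by norm_num)).trans hlN)
      omega) p3
  have cg := h3 N (Adj N k) (N / k + 2) m (l ^ 2 / 20) ε gA (by omega) gd ε0 (by linarith) hm
  have del := h4 N k l (l ^ 35) m (by omega) hN (Nat.one_le_pow _ _ (by omega))
    ((step 35 8 (by omega)).trans ((mono (by norm_num)).trans hP)) hPm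
  have mo : cum (Adj N k) 0 (m + l ^ 37 * (N / k / l ^ 37)) ≤ cum (Adj N k) 0 (m + N / k) := by
    have := Nat.mul_div_le (N / k) (l ^ 37)
    exact cc_mono fun w hw => by omega
  have gam := REGB1_gam (by omega) hN N1 Rc hd
  have hmE : 2 * m ≤ ne (Adj N k) := by
    have : (0 : ℝ) ≤ ne (Adj N k) := Nat.cast_nonneg _
    have : 2 * (m : ℝ) ≤ ne (Adj N k) := by nlinarith
    exact_mod_cast this
  have hmN : m + 1 ≤ N ^ 2 := by
    have : N * (N / k + 2) ≤ N * (N + 2) := by gcongr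
    have : 1000 ≤ N := by omega
    nlinarith
  have cu : (cum (Adj N k) 0 m : ℝ) ≤ (N : ℝ) ^ 2 * cnt (Adj N k) m := by
    have := (REGB1_cum (Adj N k) m hc).trans (Nat.mul_le_mul_right _ hmN)
    exact_mod_cast this
  have moR : (cum (Adj N k) 0 (m + l ^ 37 * (N / k / l ^ 37)) : ℝ) ≤
      cum (Adj N k) 0 (m + N / k) := by exact_mod_cast mo
  have hNR : (1000 : ℝ) ≤ N := by exact_mod_cast (show 1000 ≤ N by omega)
  generalize (cum (Adj N k) 0 (m + l ^ 37 * (N / k / l ^ 37)) : ℝ) = c3 at key moR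
  generalize (cum (Adj N k) 0 (m + N / k) : ℝ) = c4 at del moR
  generalize (cum (Adj N k) (l ^ 2 / 20 * (N / k + 2)) m : ℝ) = c2 at key cg
  have c10 : (0 : ℝ) ≤ cum (Adj N k) 0 m := Nat.cast_nonneg _
  generalize (cum (Adj N k) 0 m : ℝ) = c1 at key cg del cu c10
  have a00 : (0 : ℝ) ≤ cnt (Adj N k) m := Nat.cast_nonneg _
  have g0 : (0 : ℝ) ≤ (256 * ((l ^ 37 : ℕ) : ℝ) * N / (R.card * ((N / k / l ^ 37 : ℕ) : ℝ))) ^
      (l ^ 37) := by positivity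
  generalize (256 * ((l ^ 37 : ℕ) : ℝ) * N / (R.card * ((N / k / l ^ 37 : ℕ) : ℝ))) ^ (l ^ 37) = γ
    at key gam g0
  have t2 : Real.exp (20 * (1 / (l : ℝ)) * ((l ^ 2 : ℕ) : ℝ)) * c2 ≤ 1 / (N : ℝ) ^ 5 * c1 :=
    calc Real.exp (20 * (1 / (l : ℝ)) * ((l ^ 2 : ℕ) : ℝ)) * c2
        ≤ Real.exp (20 * (1 / (l : ℝ)) * ((l ^ 2 : ℕ) : ℝ)) *
          (Real.exp (-(2 * ε * ((l ^ 2 / 20 : ℕ) : ℝ))) * c1) := by gcongr
      _ ≤ 1 / (N : ℝ) ^ 5 * c1 := by rw [← mul_assoc]; gcongr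
  have t3 : γ * c3 ≤ 1 / (N : ℝ) ^ 5 * c1 :=
    calc γ * c3 ≤ γ * (Real.exp (40 * ((l ^ 35 : ℕ) : ℝ) * l) * c1) := by
          gcongr; exact moR.trans del
      _ ≤ 1 / (N : ℝ) ^ 5 * c1 := by rw [← mul_assoc]; gcongr
  have t1 : 1 / (N : ℝ) ^ 5 * c1 ≤ 1 / (N : ℝ) ^ 3 * cnt (Adj N k) m :=
    calc 1 / (N : ℝ) ^ 5 * c1 ≤ 1 / (N : ℝ) ^ 5 * ((N : ℝ) ^ 2 * cnt (Adj N k) m) := by gcongr
      _ = 1 / (N : ℝ) ^ 3 * cnt (Adj N k) m := by field_simp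
  have t0 : (2 / (N : ℝ) ^ 3 + (N : ℝ) ^ 3 * Real.exp (-((l ^ 2 : ℕ) : ℝ) / 16)) *
      cnt (Adj N k) m ≤ 3 * (1 / (N : ℝ) ^ 3 * cnt (Adj N k) m) := by
    rw [← mul_assoc]
    refine mul_le_mul_of_nonneg_right ?_ a00
    have : 2 / (N : ℝ) ^ 3 = 2 * (1 / (N : ℝ) ^ 3) := by ring
    linarith
  have t4 : 6 * (1 / (N : ℝ) ^ 3) ≤ 1 / (N : ℝ) ^ 2 / 2 := by
    rw [show 6 * (1 / (N : ℝ) ^ 3) = 12 / N * (1 / (N : ℝ) ^ 2 / 2) by field_simp; norm_num]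
    refine mul_le_of_le_one_left (by positivity) ?_
    rw [div_le_one (by linarith)]; linarith
  have x0 : (0 : ℝ) ≤ 1 / (N : ℝ) ^ 2 := by positivity
  have x1 : 1 / (N : ℝ) ^ 2 ≤ 1 := by
    rw [div_le_one (by positivity)]; exact one_le_pow₀ (by linarith)
  have t5 := mul_le_mul_of_nonneg_right t4 a00
  suffices h : (cnt (Adj N k) m : ℝ) ≤ cnt (Adj N k) (m + 1) by exact_mod_cast h
  refine le_trans ?_ key
  generalize (cnt (Adj N k) m : ℝ) = a at *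
  generalize 1 / (N : ℝ) ^ 2 = ξ at *
  calc a ≤ (1 + ξ) * (a - ξ / 2 * a) := by nlinarith [mul_nonneg (mul_nonneg x0 a00) (sub_nonneg.2 x1)]
    _ ≤ _ := by
      refine mul_le_mul_of_nonneg_left ?_ (by linarith)
      linarith

end Pool.Agent.Lib.MP_64bee1_co.UN
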