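import Pool.Agent.Lib.MP_64bee1_co.UN.Defs

/-!
The intermediate statements of the uniform theorem.
-/

namespace Pool.Agent.Lib.MP_64bee1_co.UN

open Finset Polynomial

/-! ### Binomial blocks -/

def St_PKf : Prop := ∀ Δ n j ρ : ℕ, ρ < Δ →
  (Kp Δ n).coeff (j * Δ + ρ) = ((ρ : ℝ) + 1) * n.choose j +
    ((Δ : ℝ) - 1 - ρ) * (if j = 0 then 0 else (n.choose (j - 1) : ℝ))

def St_PKg : Prop := ∀ (Δ n y : ℕ) (η : ℝ), 1 ≤ Δ → 0 ≤ η → η ≤ 1 / 2 →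
  (((y + 1) / Δ : ℕ) : ℝ) ≤ (1 / 2 - η) * n →
  (1 + 2 * η / Δ) * (Kp Δ n).coeff y ≤ (Kp Δ n).coeff (y + 1)

def St_PKcold : Prop := ∀ (Δ n m : ℕ) (η q : ℝ) (H : ℝ[X]), 1 ≤ Δ → 0 < η → η ≤ 1 / 8 →
  0 < q → q ≤ 1 → q ^ Δ ≤ 1 - 8 * η → Nn H →
  (1 + 2 * η / Δ) * ((Kp Δ n * H).coeff m -
    Real.exp (1 - n * η ^ 2 / 2) * ((Kp Δ n * H).eval q / q ^ m)) ≤ (Kp Δ n * H).coeff (m + 1)

def St_PKhot : Prop := ∀ (Δ n h m : ℕ) (η : ℝ) (H : ℝ[X]), 1 ≤ Δ → 0 < η → η ≤ 1 / 8 →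
  (h : ℝ) + 1 ≤ η * n → Nn H →
  (1 + 2 * η / Δ) * ((Kp Δ n * H).coeff m - Real.exp (20 * η * h) *
    (if h * Δ ≤ m then (Kp Δ n * H).coeff (m - h * Δ) else 0)) ≤ (Kp Δ n * H).coeff (m + 1)

/-! ### One environment -/

def St_UC : Prop := ∀ (ι α : Type) [Fintype ι] [DecidableEq ι] [Fintype α] (g : ι → α → ℕ) (f0 : ℕ)
  (S : ι → Finset α) (n : ℕ), IsCoin g S →
  ∃ H : ℝ[X], Nn H ∧ gen g f0 (univ.filter fun x => n ≤ nco S x) = Kp 1 n * H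

def St_UChot : Prop := ∀ (ι α : Type) [Fintype ι] [DecidableEq ι] [Fintype α] (g : ι → α → ℕ)
  (f0 : ℕ) (S : ι → Finset α) (n h m : ℕ) (η : ℝ), IsCoin g S → 0 < η → η ≤ 1 / 8 →
  (h : ℝ) + 1 ≤ η * n →
  (1 + 2 * η) * ((bb g f0 m : ℝ) - (cc fun x => tot g f0 x = m ∧ nco S x < n : ℕ) -
    Real.exp (20 * η * h) * cb g f0 h m) ≤ bb g f0 (m + 1)

def St_UCcold : Prop := ∀ (ι α : Type) [Fintype ι] [DecidableEq ι] [Fintype α] (g : ι → α → ℕ)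
  (f0 : ℕ) (S : ι → Finset α) (n m : ℕ) (η q : ℝ), IsCoin g S → 0 < η → 0 < q → q ≤ 1 - 8 * η →
  (1 + 2 * η) * ((bb g f0 m : ℝ) - (cc fun x => tot g f0 x = m ∧ nco S x < n : ℕ) -
    Real.exp (1 - n * η ^ 2 / 2) * (ZZ g f0 q / q ^ m)) ≤ bb g f0 (m + 1)

def St_MS1 : Prop := ∀ (ι α : Type) [Fintype α] (g : ι → α → ℕ) (i : ι) (μ g1 Δ δ : ℕ) (q : ℝ),
  (∀ a, μ ≤ g i a) → 8 * ((range (2 * Δ)).filter fun v => ww g i (μ + v) < g1).card ≤ 2 * Δ →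
  δ ≤ Δ → 0 < q → q ≤ 1 → 1 / 3 ≤ q ^ (2 * Δ) →
  ∃ C R : ℝ[X], Nn C ∧ Nn R ∧ Gs g i = C * (1 + X ^ δ) + R ∧
    (g1 : ℝ) * Δ * (Gs g i).eval q ≤ 12 * Fintype.card α * (C * (1 + X ^ δ)).eval q

def St_MS2 : Prop := ∀ (ι : Type) [Fintype ι] (G C R : ι → ℝ[X]) (sc : ι → ℕ) (a n : ℕ) (p q : ℝ),
  (∀ i, Nn (C i)) → (∀ i, Nn (R i)) → (∀ i, G i = C i * (1 + X ^ 2 ^ sc i) + R i) →
  (∀ i, sc i ≤ a) → (∀ i, p * (G i).eval q ≤ (C i * (1 + X ^ 2 ^ sc i)).eval q) →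
  0 ≤ q → 2 ≤ n → (∀ l ≤ a, 4 * (n : ℝ) ≤ p * (univ.filter fun i => sc i = l).card) →
  ∃ H Rm : ℝ[X], Nn H ∧ Nn Rm ∧ ∏ i, G i = Kp (2 ^ a) n * H + Rm ∧
    Rm.eval q ≤ ((a : ℝ) + 1) / 2 ^ n * (∏ i, G i).eval q

def St_WARM : Prop := ∀ (ι α : Type) [Fintype ι] [DecidableEq ι] [Fintype α] (g : ι → α → ℕ)
  (f0 g0 g1 d0 D a0 l n h s m : ℕ) (η ξ ρ0 ρ1 q : ℝ),
  WP (Fintype.card ι) d0 D a0 l n h s η ξ ρ0 ρ1 → Lev g g0 g1 d0 D → 1 ≤ Fintype.card α →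
  (Fintype.card α : ℝ) ≤ ρ1 * g1 → 0 < q → q ≤ 1 → 1 / 3 ≤ q ^ (2 * 2 ^ a0) →
  (1 + ξ) * ((bb g f0 m : ℝ) -
    ((l : ℝ) / 2 ^ n + Real.exp (1 - n * η ^ 2 / 2)) * (ZZ g f0 q / q ^ m) -
    Real.exp (20 * η * h) * cb g f0 s m) ≤ bb g f0 (m + 1)

def St_HYB : Prop := ∀ (ι : Type) (s : Finset ι) (Y : ι → ℝ[X]) (μ : ι → ℕ) (J : ℕ) (τ : ℝ),
  0 ≤ τ → (∀ i ∈ s, Nn (Y i)) → (∀ i ∈ s, (Y i).eval 1 = 1) →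
  (∀ i ∈ s, ∀ v < μ i, (Y i).coeff v = 0) →
  (∀ i ∈ s, 1 - τ ≤ ∑ v ∈ range (μ i + J), (Y i).coeff v) → ∀ t : ℕ,
  (∑ j ∈ range t, (∏ i ∈ s, Y i).coeff j) * (1 - ∑ j ∈ range t, (∏ i ∈ s, Y i).coeff j) ≤
    s.card * (∑ j ∈ range t, (∏ i ∈ s, Y i).coeff j -
      ∑ j ∈ range (t - J), (∏ i ∈ s, Y i).coeff j + τ)

def St_W : Prop := ∀ (ι α : Type) [Fintype ι] [DecidableEq ι] [Fintype α] (g : ι → α → ℕ)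
  (f0 g0 m : ℕ) (ρ0 : ℝ), (∀ i, ∃ μ : ℕ, (∀ a, μ ≤ g i a) ∧ g0 ≤ ww g i μ) → 1 ≤ g0 → 1 ≤ ρ0 →
  (Fintype.card α : ℝ) ≤ ρ0 * g0 → 0 < cb g f0 0 m →
  ∃ q : ℝ, 0 < q ∧ q ≤ 1 ∧
    ZZ g f0 q / q ^ m ≤ 64 * ((Fintype.card ι : ℝ) + 1) ^ 2 * ρ0 * cb g f0 0 m

def St_HEAT : Prop := ∀ (ι α : Type) [Fintype ι] [DecidableEq ι] [Fintype α] (g : ι → α → ℕ)
  (f0 g0 g1 d0 D J d u m : ℕ) (ρ0 ρ1 q : ℝ), Lev g g0 g1 d0 D → 1 ≤ g0 → 1 ≤ g1 →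
  0 ≤ ρ0 → 0 ≤ ρ1 → (Fintype.card α : ℝ) ≤ ρ0 * g0 → (Fintype.card α : ℝ) ≤ ρ1 * g1 →
  0 < q → q ≤ 1 → 4 * J ≤ d → d0 ≤ d → d ≤ D → 1 ≤ d → 2 * u ≤ Fintype.card ι →
  (bb g f0 m : ℝ) ≤ Fintype.card ι * ρ0 * q ^ J * (ZZ g f0 q / q ^ m) +
    (4 * u * ρ1 / (Fintype.card ι * d)) ^ u * cb g f0 0 (m + u * d)

def St_CELL : Prop := ∀ (ι α β : Type) [Fintype ι] [DecidableEq ι] [Fintype α] (g : ι → α → ℕ)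
  (f0 : ℕ) (S : ι → Finset α) (c : ι → α → β) (n m : ℕ),
  (∀ i a a', c i a = c i a' → g i a = g i a') →
  ((cc fun x => tot g f0 x = m ∧ nco S x < n : ℕ) : ℝ) ≤ bb g f0 m / 2 ^ n +
    (cc fun x => tot g f0 x = m ∧ UU S c x < 4 * n : ℕ)

def St_ENV1 : Prop := ∀ (ι α : Type) [Fintype ι] [DecidableEq ι] [Fintype α] (g : ι → α → ℕ)
  (f0 g0 g1 d0 D a0 l n h s j d u m : ℕ) (η ξ ρ0 ρ1 e1 : ℝ),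
  WP (Fintype.card ι) d0 D a0 l n h s η ξ ρ0 ρ1 → Lev g g0 g1 d0 D → 1 ≤ Fintype.card α →
  1 ≤ g0 → 1 ≤ g1 → (Fintype.card α : ℝ) ≤ ρ0 * g0 → (Fintype.card α : ℝ) ≤ ρ1 * g1 →
  8 * 2 ^ a0 * j ≤ d → d0 ≤ d → d ≤ D → 1 ≤ d → 2 * u ≤ Fintype.card ι →
  64 * ((Fintype.card ι : ℝ) + 1) ^ 2 * ρ0 * ((l : ℝ) / 2 ^ n + Real.exp (1 - n * η ^ 2 / 2) +
    Fintype.card ι * ρ0 / 3 ^ j) ≤ e1 →
  (1 + ξ) * ((bb g f0 m : ℝ) - e1 * cb g f0 0 m - Real.exp (20 * η * h) * cb g f0 s m -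
    (4 * u * ρ1 / (Fintype.card ι * d)) ^ u * cb g f0 0 (m + u * d)) ≤ bb g f0 (m + 1)

def St_ENV2 : Prop := ∀ (ι α β : Type) [Fintype ι] [DecidableEq ι] [Fintype α] (g : ι → α → ℕ)
  (S : ι → Finset α) (c : ι → α → β) (f0 g0 g1 d0 D a0 l n h s n' m : ℕ) (η ξ ρ0 ρ1 η' e2 : ℝ),
  WP (Fintype.card ι) d0 D a0 l n h s η ξ ρ0 ρ1 → Lev g g0 g1 d0 D → 1 ≤ Fintype.card α →
  1 ≤ g0 → (Fintype.card α : ℝ) ≤ ρ0 * g0 → (Fintype.card α : ℝ) ≤ ρ1 * g1 →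
  IsCoin g S → (∀ i a a', c i a = c i a' → g i a = g i a') →
  0 < η' → 32 * 2 ^ a0 * η' ≤ 1 → ξ ≤ 2 * η' →
  64 * ((Fintype.card ι : ℝ) + 1) ^ 2 * ρ0 * ((l : ℝ) / 2 ^ n + Real.exp (1 - n * η ^ 2 / 2) +
    Real.exp (1 - n' * η' ^ 2 / 2)) + 1 / 2 ^ n' ≤ e2 →
  (1 + ξ) * ((bb g f0 m : ℝ) - (cc fun x => tot g f0 x = m ∧ UU S c x < 4 * n' : ℕ) -
    e2 * cb g f0 0 m - Real.exp (20 * η * h) * cb g f0 s m) ≤ bb g f0 (m + 1)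

/-! ### The model with independent values -/

def St_GLUE : Prop := ∀ (N M : ℕ) (A : Fin N → Fin N → Prop) [DecidableRel A] (R : Finset (Fin N)),
  Asym A → Indep A R →
  (∀ (e : Fin N → Fin M) (x : R → Fin M), ivf A (glue R e x) = tot (gR A R e) (fz A R e) x ∧
    (∀ g0 g1 d0 D, Good A R g0 g1 d0 D (glue R e x) ↔ Good A R g0 g1 d0 D e) ∧
    ncX A R (glue R e x) = nco (fun i : R => coinS A e i) x ∧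
    UX A R (glue R e x) = UU (fun i : R => coinS A e i) (fun i : R => cl A e i) x) ∧
  (∀ Q : (Fin N → Fin M) → Prop,
    ∑ e : Fin N → Fin M, cc (fun x : R → Fin M => Q (glue R e x)) = M ^ R.card * cc Q) ∧
  ∀ X : Fin N → Fin M, ∑ i ∈ R, gs A X i (X i) ≤ ivf A X

def St_CNT : Prop := ∀ (N M : ℕ) (A : Fin N → Fin N → Prop) [DecidableRel A],
  (∀ π : Equiv.Perm (Fin N), cc (fun X : Fin N → Fin M => OrdP π X) = M.choose N) ∧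
  (∀ Q : ℕ → Prop, M.choose N * cc (fun w : Equiv.Perm (Fin N) => Q (iv A w)) ≤
      cc (fun X : Fin N → Fin M => Q (ivf A X)) ∧
    cc (fun X : Fin N → Fin M => Q (ivf A X)) ≤
      M.choose N * cc (fun w : Equiv.Perm (Fin N) => Q (iv A w)) +
        cc fun X : Fin N → Fin M => ¬ Sep 1 X) ∧
  ∀ (Bad : (Fin N → Fin M) → Prop) (b : ℝ) (m : ℕ),
    (∀ π : Equiv.Perm (Fin N), iv A π = m →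
      ((cc fun X => OrdP π X ∧ Bad X : ℕ) : ℝ) ≤ b * M.choose N) →
    ((cc fun X => ivf A X = m ∧ Bad X : ℕ) : ℝ) ≤
      b * M.choose N * cnt A m + (cc fun X : Fin N → Fin M => ¬ Sep 1 X : ℕ)

def St_NSEP : Prop := ∀ (N g : ℕ) (δ : ℝ), 0 < δ → ∃ M0 : ℕ, ∀ M ≥ M0,
  ((cc fun X : Fin N → Fin M => ¬ Sep g X : ℕ) : ℝ) ≤ δ * M.choose N

def St_LIFT : Prop := ∀ (N : ℕ) (A : Fin N → Fin N → Prop) [DecidableRel A] (R : Finset (Fin N))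
  (m s m' : ℕ) (ξ b e1 Λ γ : ℝ), Asym A → Indep A R → 0 ≤ ξ → 0 ≤ e1 → 0 ≤ Λ → 0 ≤ γ →
  (∀ δ : ℝ, 0 < δ → ∃ M : ℕ, N ≤ M ∧ 1 ≤ M ∧
    ((cc fun X : Fin N → Fin M => ¬ Sep 1 X : ℕ) : ℝ) ≤ δ * M.choose N ∧
    ∃ Bad : (Fin N → Fin M) → Prop,
      ((cc fun X => ivf A X = m ∧ Bad X : ℕ) : ℝ) ≤ (b + δ) * M.choose N ∧
      ∀ e : Fin N → Fin M, (1 + ξ) * ((bb (gR A R e) (fz A R e) m : ℝ) -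
        (cc fun x => tot (gR A R e) (fz A R e) x = m ∧ Bad (glue R e x) : ℕ) -
        e1 * cb (gR A R e) (fz A R e) 0 m - Λ * cb (gR A R e) (fz A R e) s m -
        γ * cb (gR A R e) (fz A R e) 0 m') ≤ bb (gR A R e) (fz A R e) (m + 1)) →
  (1 + ξ) * ((cnt A m : ℝ) - b - e1 * cum A 0 m - Λ * cum A s m - γ * cum A 0 m') ≤ cnt A (m + 1)

def St_GAP : Prop := ∀ (N M g : ℕ) (π : Equiv.Perm (Fin N)) (H : Finset (Fin N)), 2 * N ≤ M →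
  ((cc fun X : Fin N → Fin M => OrdP π X ∧ ∀ u ∈ H, Sm g X u : ℕ) : ℝ) ≤
    (2 * N * g / M) ^ H.card * M.choose N

def St_WGAP : Prop := ∀ (N M g μ0 : ℕ) (π : Equiv.Perm (Fin N)) (wt : Fin N → ℕ) (S c : ℝ),
  2 * N ≤ M → 64 * N * g ≤ M → 1 ≤ μ0 → (∀ u, wt u ≤ μ0) → ((∑ u, wt u : ℕ) : ℝ) ≤ S →
  ((cc fun X : Fin N → Fin M => OrdP π X ∧ c ≤ smw g wt X : ℕ) : ℝ) ≤
    Real.exp ((S / 16 - c) / μ0) * M.choose N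

def St_GOOD : Prop := ∀ (N M : ℕ) (A : Fin N → Fin N → Prop) [DecidableRel A] (R : Finset (Fin N))
  (g0 g1 d0 D : ℕ) (π : Equiv.Perm (Fin N)), Asym A → (∀ i ∈ R, idg A i + D ≤ od A i) → 1 ≤ d0 →
  1 ≤ D → 2 * N ≤ M → 64 * N * g1 ≤ M →
  ((cc fun X : Fin N → Fin M => OrdP π X ∧ ¬ Good A R g0 g1 d0 D X : ℕ) : ℝ) ≤
    (2 * N ^ 2 * g0 / M + N ^ 3 * Real.exp (-(d0 : ℝ) / 16)) * M.choose N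

def St_COIN : Prop := ∀ (N M : ℕ) (A : Fin N → Fin N → Prop) [DecidableRel A] (R : Finset (Fin N))
  (X : Fin N → Fin M), Asym A → IsCoin (gR A R X) fun i : R => coinS A X i

def St_MULT : Prop := ∀ (N k τ : ℕ) (β : Type) [LinearOrder β] (X : Fin N → β) (y : β), 2 ≤ k →
  Function.Injective X →
  cc (fun v => gs (Adj N k) X v y ≤ τ) ≤
    (2 * τ + 1) * k + 2 + cc fun v => τ < gs (Adj N k) X v (X v)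

def St_SITE : Prop := ∀ (N M g : ℕ) (A : Fin N → Fin N → Prop) [DecidableRel A]
  (X : Fin N → Fin M) (i u1 u2 : Fin N), Asym A → Nb A i u1 → X i < X u1 →
  X u1 < X u2 → (∀ v, Nb A i v → X v < X i ∨ v = u1 ∨ X u2 ≤ X v) → ¬ Sm g X u1 → ¬ Sm g X u2 →
  g / 2 ≤ cc fun a => a ∈ coinS A X i ∧ cl A X i a = cl A X i (X i)

def St_TYP2 : Prop := ∀ (N M k τ ν μ0 n g1 : ℕ) (R : Finset (Fin N)) (π : Equiv.Perm (Fin N)),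
  2 ≤ k → (∀ i ∈ R, τ + 2 ≤ od (Adj N k) i) → (2 * τ + 3) * k + 2 + ν ≤ μ0 →
  2 * iv (Adj N k) π ≤ ν * (τ + 1) → 4 * μ0 ≤ R.card → 2 ≤ g1 → 64 * N * g1 ≤ M →
  256 * n * μ0 * M ≤ R.card ^ 2 * g1 →
  ((cc fun X : Fin N → Fin M => OrdP π X ∧ UX (Adj N k) R X < 4 * n : ℕ) : ℝ) ≤
    2 * Real.exp (-(R.card : ℝ) / (16 * μ0)) * M.choose N

def St_SW : Prop := ∀ (N M p m : ℕ) (A : Fin N → Fin N → Prop) [DecidableRel A]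
  (Bl Gr : Finset (Fin N)) (Φ : (Fin N → Fin M) → Prop), Asym A → 1 ≤ p →
  (∀ i j, A i j → j ∈ Bl → ∀ u, A i u → u ∈ Bl) → (∀ i j, A i j → i ∈ Bl → ∀ u, A u j → u ∈ Bl) →
  (∀ v, (univ.filter (Nb A v)).card ≤ p) → Bl.card ≤ p → Bl ⊆ Gr →
  (∀ i ∈ Bl, ∀ j, Nb A i j → j ∈ Gr) →
  (∀ X X', (∀ v, v ∉ Gr → X v = X' v) → Φ X → Φ X') →
  cc (fun X : Fin N → Fin M => ivf A X ≤ m ∧ Sep (15 * (2 * p + 1)) X ∧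
      (∃ i j, A i j ∧ (i ∈ Bl ∨ j ∈ Bl) ∧ X i < X j) ∧ Φ X) ≤
    100000 * p ^ 4 * cc fun X : Fin N → Fin M => ivf A X ≤ m ∧ (∃ i ∈ Bl, X i ∈ coinS A X i) ∧ Φ X

def St_TYP3 : Prop := ∀ N M k m n u : ℕ, 3 ≤ k → 40 ≤ N / k → 2 * m ≤ ne (Adj N k) →
  4000000 * (N / k + 2) ^ 4 * (n + u) ≤ k →
  ((cc fun X : Fin N → Fin M => ivf (Adj N k) X = m ∧ ncX (Adj N k) (R3 N k) X < n : ℕ) : ℝ) ≤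
    n / 2 ^ u * (cc fun X : Fin N → Fin M => ivf (Adj N k) X ≤ m : ℕ) +
      2 * n * (cc fun X : Fin N → Fin M => ¬ Sep (15 * (2 * (N / k + 2) + 1)) X : ℕ)

/-! ### The graph -/

def St_GF : Prop := ∀ N k : ℕ, 2 ≤ k → Asym (Adj N k) ∧
  (∀ i j, Adj N k i j → (j : ℕ) % k = ((i : ℕ) % k + 1) % k) ∧
  (∀ v : Fin N, N ≤ k * od (Adj N k) v + v + 1 ∧ k * od (Adj N k) v + v + 2 ≤ N + k ∧
    (v : ℕ) ≤ k * idg (Adj N k) v ∧ k * idg (Adj N k) v + 1 ≤ v + k ∧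
    N / k ≤ od (Adj N k) v + idg (Adj N k) v ∧ od (Adj N k) v + idg (Adj N k) v ≤ N / k + 2 ∧
    (univ.filter (Nb (Adj N k) v)).card = od (Adj N k) v + idg (Adj N k) v) ∧
  2 * ne (Adj N k) ≤ N * (N / k + 2) ∧
  (∀ r < k, N / k ≤ (univ.filter fun v : Fin N => (v : ℕ) % k = r).card ∧
    (univ.filter fun v : Fin N => (v : ℕ) % k = r).card ≤ N / k + 1) ∧
  (∀ (π : Equiv.Perm (Fin N)) (v : Fin N), |dg (Adj N k) π v| ≤ (N / k + 2 : ℕ)) ∧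
  Indep (Adj N k) (R3 N k) ∧
  (40 ≤ N / k → ∃ R : Finset (Fin N), Indep (Adj N k) R ∧
    (∀ i ∈ R, idg (Adj N k) i + N / k / 3 ≤ od (Adj N k) i) ∧ N ≤ 20 * R.card)

/-! ### Growth and upper ratio bounds for permutations -/

def St_CG : Prop := ∀ (N : ℕ) (A : Fin N → Fin N → Prop) [DecidableRel A] (p m j : ℕ) (ε : ℝ),
  Asym A → 1 ≤ p → (∀ π v, |dg A π v| ≤ p) → 0 < ε → ε ≤ 1 / 2 →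
  2 * (m : ℝ) ≤ (1 - 2 * ε) * ne A →
  (cum A (j * p) m : ℝ) ≤ Real.exp (-(2 * ε * j)) * cum A 0 m

def St_DELb : Prop := ∀ N k a L : ℕ, 2 ≤ k → 1 ≤ L → L ≤ k → a + L ≤ N →
  ∃ Ψ : Equiv.Perm (Fin N) → Equiv.Perm (Fin N),
    (∀ w, iv (Adj N k) (Ψ w) +
        ivt (Adj N k) (univ.filter fun v : Fin N => a ≤ (v : ℕ) ∧ (v : ℕ) < a + L) w ≤
      iv (Adj N k) w + if L < k then N / k + 1 else 0) ∧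
    ∀ w w', Ψ w = Ψ w' → (∀ v : Fin N, a ≤ (v : ℕ) → (v : ℕ) < a + L → w v = w' v) → w = w'

def St_DEL : Prop := ∀ N k L t δ : ℕ, 2 ≤ k → 1 ≤ L → L ≤ k → L ≤ N →
  2 * N * (δ + if L < k then N / k + 1 else 0) ≤ t * L →
  cum (Adj N k) 0 (t + δ) ≤ (1 + N ^ (L + 1)) * cum (Adj N k) 0 t

def St_DEL2 : Prop := ∀ N k l c m : ℕ, 2 ≤ k → N ≤ 2 ^ l → 1 ≤ c → 8 * c ≤ N / k →
  N * (N / k) ≤ m * c →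
  (cum (Adj N k) 0 (m + N / k) : ℝ) ≤ Real.exp (40 * c * l) * cum (Adj N k) 0 m

/-! ### One step inequalities away from the centre -/

def St_MAIN1 : Prop := ∀ (N : ℕ) (A : Fin N → Fin N → Prop) [DecidableRel A] (R : Finset (Fin N))
  (d0 D a0 l n h s j d u m : ℕ) (η ξ e1 : ℝ), 1 ≤ N → Asym A → Indep A R →
  (∀ i ∈ R, idg A i + D ≤ od A i) → 1 ≤ d0 →
  WP R.card d0 D a0 l n h s η ξ ((N : ℝ) ^ 5) (64 * N) →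
  8 * 2 ^ a0 * j ≤ d → d0 ≤ d → d ≤ D → 2 * u ≤ R.card →
  64 * ((R.card : ℝ) + 1) ^ 2 * N ^ 5 * ((l : ℝ) / 2 ^ n + Real.exp (1 - n * η ^ 2 / 2) +
    R.card * N ^ 5 / 3 ^ j) ≤ e1 →
  (1 + ξ) * ((cnt A m : ℝ) - (2 / N ^ 3 + N ^ 3 * Real.exp (-(d0 : ℝ) / 16)) * cnt A m -
    e1 * cum A 0 m - Real.exp (20 * η * h) * cum A s m -
    (256 * u * N / (R.card * d)) ^ u * cum A 0 (m + u * d)) ≤ cnt A (m + 1)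

def St_MAIN2 : Prop := ∀ (N k : ℕ) (R : Finset (Fin N))
  (d0 D a0 l n h s n' τ ν μ0 m : ℕ) (η ξ η' e2 : ℝ), 1 ≤ N → 2 ≤ k → Indep (Adj N k) R →
  (∀ i ∈ R, idg (Adj N k) i + D ≤ od (Adj N k) i) → 1 ≤ d0 →
  WP R.card d0 D a0 l n h s η ξ ((N : ℝ) ^ 5) (64 * N) →
  0 < η' → 32 * 2 ^ a0 * η' ≤ 1 → ξ ≤ 2 * η' → τ + 2 ≤ D → (2 * τ + 3) * k + 2 + ν ≤ μ0 →
  2 * m ≤ ν * (τ + 1) → 4 * μ0 ≤ R.card → 256 * n' * μ0 * (64 * N) ≤ R.card ^ 2 →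
  64 * ((R.card : ℝ) + 1) ^ 2 * N ^ 5 * ((l : ℝ) / 2 ^ n + Real.exp (1 - n * η ^ 2 / 2) +
    Real.exp (1 - n' * η' ^ 2 / 2)) + 1 / 2 ^ n' ≤ e2 →
  (1 + ξ) * ((cnt (Adj N k) m : ℝ) - (2 / N ^ 3 + N ^ 3 * Real.exp (-(d0 : ℝ) / 16) +
      2 * Real.exp (-(R.card : ℝ) / (16 * μ0))) * cnt (Adj N k) m -
    e2 * cum (Adj N k) 0 m - Real.exp (20 * η * h) * cum (Adj N k) s m) ≤ cnt (Adj N k) (m + 1)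

def St_MAIN3 : Prop := ∀ (N k m n u h : ℕ) (η : ℝ), 3 ≤ k → 40 ≤ N / k → 2 * m ≤ ne (Adj N k) →
  4000000 * (N / k + 2) ^ 4 * (n + u) ≤ k → 0 < η → η ≤ 1 / 8 → (h : ℝ) + 1 ≤ η * n →
  (1 + 2 * η) * ((cnt (Adj N k) m : ℝ) - n / 2 ^ u * cum (Adj N k) 0 m -
    Real.exp (20 * η * h) * cum (Adj N k) h m) ≤ cnt (Adj N k) (m + 1)

def St_PAR : Prop := ∀ N P l r : ℕ, 100000000 ≤ l → N ≤ 2 ^ l → l ^ 600 ≤ N → l ^ 76 ≤ P → P ≤ N →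
  N ≤ 20 * r → r ≤ N →
  (∃ a0 : ℕ, l ^ 6 ≤ 2 ^ a0 ∧ 2 ^ a0 ≤ 2 * l ^ 6 ∧
    WP r (l ^ 2) (P / 3) a0 l (l ^ 4) (l ^ 2) (l ^ 2 / 20 * (P + 2)) (1 / l) (1 / (N : ℝ) ^ 2)
      ((N : ℝ) ^ 5) (64 * N)) ∧
  (N : ℝ) ^ 3 * Real.exp (-((l ^ 2 : ℕ) : ℝ) / 16) ≤ 1 / N ^ 3 ∧
  64 * ((r : ℝ) + 1) ^ 2 * N ^ 5 * ((l : ℝ) / 2 ^ l ^ 4 +
    Real.exp (1 - ((l ^ 4 : ℕ) : ℝ) * (1 / (l : ℝ)) ^ 2 / 2) + r * N ^ 5 / 3 ^ (20 * l)) ≤ 1 / N ^ 5 ∧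
  64 * ((r : ℝ) + 1) ^ 2 * N ^ 5 * ((l : ℝ) / 2 ^ l ^ 4 +
    Real.exp (1 - ((l ^ 4 : ℕ) : ℝ) * (1 / (l : ℝ)) ^ 2 / 2) +
    Real.exp (1 - ((l ^ 16 : ℕ) : ℝ) * (1 / (l : ℝ) ^ 7) ^ 2 / 2)) + 1 / 2 ^ l ^ 16 ≤ 1 / N ^ 5 ∧
  ∀ ε : ℝ, 1000 ≤ ε * l → Real.exp (20 * (1 / (l : ℝ)) * ((l ^ 2 : ℕ) : ℝ)) *
    Real.exp (-(2 * ε * ((l ^ 2 / 20 : ℕ) : ℝ))) ≤ 1 / N ^ 5

/-- The step from level `m` to level `m + 1` away from the centre, under a side condition. -/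
def RegB (Side : ℕ → ℕ → ℕ → ℕ → Prop) : Prop := ∀ ε : ℝ, 0 < ε → ε ≤ 1 / 4 → ∃ l0 : ℕ,
  ∀ N k l m : ℕ, l0 ≤ l → N ≤ 2 ^ l → l ^ 600 ≤ N → 3 ≤ k → Side N k l m →
  2 * (m : ℝ) ≤ (1 - 2 * ε) * ne (Adj N k) → (∀ j ≤ m, cnt (Adj N k) j ≤ cnt (Adj N k) m) →
  cnt (Adj N k) m ≤ cnt (Adj N k) (m + 1)

def St_REGB1 : Prop := RegB fun N k l m => l ^ 76 ≤ N / k ∧ N * (N / k) ≤ m * l ^ 35

def St_REGB2 : Prop := RegB fun N k l m => l ^ 76 ≤ N / k ∧ m * l ^ 35 ≤ N * (N / k)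

def St_REGB3 : Prop := RegB fun N k l _ => 40 ≤ N / k ∧ N / k < l ^ 76

/-! ### The centre -/

def St_PEEL : Prop := ∀ (N j1 j0 : ℕ) (c : Finset (Fin N) → Fin N → ℝ) (κ : ℝ)
  (Gd : Finset (Fin N) → Prop), (∀ S v, 0 ≤ c S v) → (∀ S v, c S v ≤ 1) → 0 ≤ κ → j1 ≤ j0 → j0 ≤ N →
  (∀ S0, S0.card = j0 → Gd S0 → ∀ S ⊆ S0, j1 < S.card → ∑ v ∈ S, c S v ≤ κ * S.card) →
  ∑ π : Equiv.Perm (Fin N), ∏ v, c (univ.filter fun u => π u ≤ π v) v ≤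
    κ ^ (j0 - j1) * N.factorial +
      (cc fun S0 : Finset (Fin N) => S0.card = j0 ∧ ¬ Gd S0 : ℕ) *
        (j0.factorial * (N - j0).factorial : ℕ)

/-- Membership of a natural number in a set of vertices. -/
def mS {N : ℕ} (S : Finset (Fin N)) (x : ℕ) : Prop := ∃ h : x < N, (⟨x, h⟩ : Fin N) ∈ S

def St_DS : Prop :=
  (∀ (N k h : ℕ) (S : Finset (Fin N)) (v w : Fin N), 2 ≤ k → (w : ℕ) = v + h * k →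
    dS (Adj N k) S v - dS (Adj N k) S w =
      (cc fun s : Fin h => mS S (v + 1 + s * k) : ℕ) +
        (cc fun s : Fin h => mS S (v + (k - 1) + s * k) : ℕ)) ∧
  (∀ (N k : ℕ) (π : Equiv.Perm (Fin N)) (v : Fin N),
    dg (Adj N k) π v = dS (Adj N k) (univ.filter fun u => π u ≤ π v) v) ∧
  ∀ a θ : ℝ, 1 / 8 ≤ θ → θ ≤ 2 → |Real.cos a| + |Real.cos (a + θ)| ≤ 2 - 1 / 300

def St_HFa : Prop := ∃ c : ℝ, 0 < c ∧ ∃ N0 : ℕ, ∀ N k : ℕ, N0 ≤ N → 3 ≤ k → 4 ≤ N / k →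
  ∀ t : ℝ, 1 / (2 * ((N / k + 2 : ℕ) : ℝ)) ≤ t → t ≤ 1 →
  modF (Adj N k) t ≤ Real.exp (-(c * N)) * N.factorial

def St_BLK : Prop := ∀ (V B : Type) [Fintype V] [Fintype B] (e : B × Fin 4 → V),
  Function.Injective e →
  ((cc fun S : Finset V => 64 * cc (fun b => e (b, 0) ∈ S ∧ e (b, 1) ∈ S ∧ e (b, 2) ∈ S ∧
      e (b, 3) ∉ S) < Fintype.card B : ℕ) : ℝ) ≤
    2 ^ Fintype.card V * Real.exp (-(Fintype.card B : ℝ) / 50)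

def St_HFb : Prop := ∃ c : ℝ, 0 < c ∧ ∃ N0 : ℕ, ∀ N k : ℕ, N0 ≤ N → 3 ≤ k → 4 ≤ N / k →
  ∀ t : ℝ, 1 ≤ t → t ≤ Real.pi / 2 → modF (Adj N k) t ≤ Real.exp (-(c * N)) * N.factorial

def St_CU : Prop := ∀ (ι : Type) [Fintype ι] (a τ : ι → ℝ), (∀ v, |a v| ≤ 1 / 2) →
  (∀ v, |τ v| ≤ 1 / 2) →
  ‖∏ v, uu (a v) (τ v) - ((∏ v, ‖uu (a v) (τ v)‖ : ℝ) : ℂ)‖ ≤
    (∏ v, ‖uu (a v) (τ v)‖) * (3 * ∑ v, |τ v| * |a v| ^ 3) ∧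
  1 - (∑ v, a v ^ 2) / 2 ≤ ∏ v, ‖uu (a v) (τ v)‖ ∧
  ∏ v, ‖uu (a v) (τ v)‖ ≤ Real.exp (-(∑ v, a v ^ 2) / 4)

def St_CB : Prop := ∀ (ι : Type) [Fintype ι] (d : ι → ℤ) (p : ℕ) (S Y : ℝ), (∀ v, |d v| ≤ p) →
  S = ∑ v, (d v : ℝ) ^ 2 → 0 < S → 0 < Y → 2 * Y * p ≤ S →
  ∃ β : ℝ, Y / S ≤ β ∧ β ≤ 2 * Y / S ∧ ∑ v, (d v : ℝ) * Real.tanh (d v * β) = Y

def St_CM : Prop := ∀ (ι : Type) [Fintype ι] (d : ι → ℤ) (p : ℕ) (S Y β : ℝ), 1 ≤ p →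
  (∀ v, |d v| ≤ p) → S = ∑ v, (d v : ℝ) ^ 2 → 1536 ^ 2 * (p : ℝ) ^ 2 ≤ S → 0 < β →
  864 * β * p ≤ 1 → ∑ v, (d v : ℝ) * Real.tanh (d v * β) = Y →
  Real.exp (-(Y * β)) * (∏ v, Real.cosh (d v * β)) * β / (2 * √S) ≤
    (∫ t in (-(1 / (2 * p)) : ℝ)..(1 / (2 * p)), hh d Y (t + β * Complex.I)).re

def St_CS : Prop := ∀ (ι : Type) [Fintype ι] (d : ι → ℤ) (p : ℕ) (S Y β : ℝ), 1 ≤ p →
  (∀ v, |d v| ≤ p) → S = ∑ v, (d v : ℝ) ^ 2 → 0 ≤ Y → 0 ≤ β → 2 * β * p ≤ 1 →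
  (∫ t in (-(1 / (2 * p)) : ℝ)..(1 / (2 * p)), hh d Y (t + β * Complex.I)).re -
    8 * β * (∏ v, Real.cosh (d v * β)) * Real.exp (-S / (16 * p ^ 2)) ≤ 2 * lowI d p Y

def St_CR : Prop := ∀ (ι : Type) [Fintype ι] (d : ι → ℤ) (p : ℕ) (S Y : ℝ), 1 ≤ p →
  (∀ v, |d v| ≤ p) → S = ∑ v, (d v : ℝ) ^ 2 → 1536 ^ 2 * (p : ℝ) ^ 2 ≤ S → 0 < Y →
  1728 * Y * p ≤ S → 32 * √S * Real.exp (-S / (16 * p ^ 2)) ≤ Real.exp (-(2 * Y ^ 2 / S)) →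
  Y * Real.exp (-(2 * Y ^ 2 / S)) / (8 * S * √S) ≤ lowI d p Y

def St_CF : Prop := ∀ c2 c' : ℝ, 0 < c2 → 0 < c' → ∃ ε : ℝ, 0 < ε ∧ ∃ N0 : ℕ, ∀ N p : ℕ, N0 ≤ N →
  1 ≤ p → p ≤ N + 2 → ∀ d : Fin N → ℤ, (∀ v, |d v| ≤ p) →
  c2 * N * p ^ 2 ≤ ∑ v, (d v : ℝ) ^ 2 → ∀ Y : ℝ, 1 ≤ Y → Y ≤ ε * N * p →
  Real.exp (-(c' * N)) ≤ lowI d p Y

def St_REGA : Prop := ∃ ε : ℝ, 0 < ε ∧ ε ≤ 1 / 4 ∧ ∃ N0 : ℕ, ∀ N k m : ℕ, N0 ≤ N → 3 ≤ k →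
  4 ≤ N / k → 2 * m + 2 ≤ ne (Adj N k) → (1 - 2 * ε) * ne (Adj N k) < 2 * (m : ℝ) →
  cnt (Adj N k) m ≤ cnt (Adj N k) (m + 1)

/-! ### The theorem -/

def St_FINAL : Prop := ∃ n0 : ℕ, ∀ n k : ℕ, n0 ≤ n → 3 ≤ k →
  ∃ c : ℕ, (∀ i j, i ≤ j → j ≤ c → cnt (Adj (n + 1) k) i ≤ cnt (Adj (n + 1) k) j) ∧
    ∀ i j, c ≤ i → i ≤ j → cnt (Adj (n + 1) k) j ≤ cnt (Adj (n + 1) k) i

end Pool.Agent.Lib.MP_64bee1_co.UN
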