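import Pool.Agent.Lib.MP_64bee1_co.UN.Stmts

/-!
Typical environments have many expected coins.
-/

namespace Pool.Agent.Lib.MP_64bee1_co.UN

open Finset

section aux
variable {N : ℕ} (A : Fin N → Fin N → Prop) [DecidableRel A]

theorem TYP2_sum_inc (π : Equiv.Perm (Fin N)) :
    ∑ v, gs A π v (π v) = 2 * iv A π := by
  have h1 : ∑ v, (cl A π v (π v)).1.card = iv A π := by
    simp only [cl, iv, card_filter, Fintype.sum_prod_type]
  have h2 : ∑ v, (cl A π v (π v)).2.card = iv A π := by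
    simp only [cl, iv, card_filter, Fintype.sum_prod_type]
    exact sum_comm
  simp only [gs, sum_add_distrib, h1, h2]
  ring

theorem TYP2_notcheap (π : Equiv.Perm (Fin N)) (τ ν : ℕ) (h : 2 * iv A π ≤ ν * (τ + 1)) :
    cc (fun v => τ < gs A π v (π v)) ≤ ν := by
  rw [cc_eq]
  have h1 : (univ.filter fun v => τ < gs A π v (π v)).card * (τ + 1) ≤ ν * (τ + 1) := by
    refine le_trans ?_ h
    rw [← TYP2_sum_inc]
    calc (univ.filter fun v => τ < gs A π v (π v)).card * (τ + 1)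
        = ∑ _v ∈ univ.filter fun v => τ < gs A π v (π v), (τ + 1) := by
          rw [sum_const, smul_eq_mul]
      _ ≤ ∑ v ∈ univ.filter fun v => τ < gs A π v (π v), gs A π v (π v) :=
          sum_le_sum fun v hv => (mem_filter.1 hv).2
      _ ≤ ∑ v, gs A π v (π v) := sum_le_sum_of_subset (filter_subset _ _)
  exact Nat.le_of_mul_le_mul_right h1 (Nat.succ_pos τ)

theorem TYP2_pair (hA : Asym A) (π : Equiv.Perm (Fin N)) (τ : ℕ) (i : Fin N)
    (hod : τ + 2 ≤ od A i) (hc : gs A π i (π i) ≤ τ) :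
    ∃ u1 u2 : Fin N, Nb A i u1 ∧ π i < π u1 ∧ π u1 < π u2 ∧
      (∀ v, Nb A i v → π v < π i ∨ v = u1 ∨ π u2 ≤ π v) := by
  classical
  set U : Finset (Fin N) := univ.filter fun v => Nb A i v ∧ π i < π v with hU
  have hcard : 2 ≤ U.card := by
    have hsub : (univ.filter fun j => A i j) ⊆ (cl A π i (π i)).1 ∪ U := by
      intro j hj
      have hij := (mem_filter.1 hj).2
      have hne : π j ≠ π i := fun h => (Asym.ne' hA i j hij) (π.injective h).symm
      rcases lt_or_gt_of_ne hne with h | h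
      · exact mem_union_left _ (mem_filter.2 ⟨mem_univ _, hij, h⟩)
      · exact mem_union_right _ (mem_filter.2 ⟨mem_univ _, Or.inl hij, h⟩)
    have h1 := (card_le_card hsub).trans (card_union_le _ _)
    unfold od at hod
    unfold gs at hc
    omega
  obtain ⟨u1, hu1, hmin1⟩ := exists_min_image U (fun v => π v) (card_pos.1 (by omega))
  have hcard2 : 0 < (U.erase u1).card := by
    rw [card_erase_of_mem hu1]; omega
  obtain ⟨u2, hu2, hmin2⟩ := exists_min_image (U.erase u1) (fun v => π v) (card_pos.1 hcard2)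
  have hu1' := (mem_filter.1 hu1).2
  refine ⟨u1, u2, hu1'.1, hu1'.2, ?_, ?_⟩
  · refine lt_of_le_of_ne (hmin1 u2 (mem_of_mem_erase hu2)) fun h => ?_
    exact (ne_of_mem_erase hu2) (π.injective h).symm
  · intro v hv
    have hvi : v ≠ i := by
      rintro rfl
      rcases hv with h | h <;> exact hA _ _ h h
    have hne : π v ≠ π i := fun h => hvi (π.injective h)
    rcases lt_or_gt_of_ne hne with h | h
    · exact Or.inl h
    · by_cases hv1 : v = u1
      · exact Or.inr (Or.inl hv1)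
      · exact Or.inr (Or.inr (hmin2 v (mem_erase.2 ⟨hv1, mem_filter.2 ⟨mem_univ _, hv, h⟩⟩)))

theorem TYP2_gs_le (π : Equiv.Perm (Fin N)) (i u1 u2 y : Fin N) (h1 : π i < y) (h2 : y ≤ π u2)
    (hv : ∀ v, Nb A i v → π v < π i ∨ v = u1 ∨ π u2 ≤ π v) :
    gs A π i y ≤ gs A π i (π i) + 1 := by
  classical
  have ha : (cl A π i y).1 ⊆ insert u1 (cl A π i (π i)).1 := by
    intro j hj
    have hj' := (mem_filter.1 hj).2
    rcases hv j (Or.inl hj'.1) with h | h | h
    · exact mem_insert_of_mem (mem_filter.2 ⟨mem_univ _, hj'.1, h⟩)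
    · exact h ▸ mem_insert_self _ _
    · exact absurd (lt_of_lt_of_le hj'.2 h2) (not_lt.2 h)
  have hb : (cl A π i y).2 ⊆ (cl A π i (π i)).2 := by
    intro j hj
    have hj' := (mem_filter.1 hj).2
    exact mem_filter.2 ⟨mem_univ _, hj'.1, h1.trans hj'.2⟩
  have := (card_le_card ha).trans (card_insert_le _ _)
  have := card_le_card hb
  unfold gs
  omega

theorem TYP2_inj {M : ℕ} {π : Equiv.Perm (Fin N)} {X : Fin N → Fin M} (h : OrdP π X) :
    Function.Injective X := by
  intro u v huv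
  apply π.injective
  refine le_antisymm (not_lt.1 fun hh => ?_) (not_lt.1 fun hh => ?_)
  · exact absurd ((h _ _).2 hh) (by rw [huv]; exact lt_irrefl _)
  · exact absurd ((h _ _).2 hh) (by rw [huv]; exact lt_irrefl _)

theorem TYP2_gs_eq {M : ℕ} {π : Equiv.Perm (Fin N)} {X : Fin N → Fin M} (h : OrdP π X)
    (v : Fin N) : gs A X v (X v) = gs A π v (π v) := by
  unfold gs cl
  simp only [h _ _]

omit [DecidableRel A] in
theorem TYP2_smw {M : ℕ} (g : ℕ) (Ch : Finset (Fin N)) (u : Fin N → Fin N) (X : Fin N → Fin M)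
    [DecidablePred fun i => Sm g X (u i)] :
    smw g (fun w => (Ch.filter fun i => u i = w).card) X =
      ((Ch.filter fun i => Sm g X (u i)).card : ℝ) := by
  classical
  unfold smw
  rw [card_eq_sum_card_fiberwise (f := u) (s := Ch.filter fun i => Sm g X (u i)) (t := univ)
    (fun _ _ => mem_coe.2 (mem_univ _))]
  push_cast
  refine sum_congr rfl fun w _ => ?_
  rw [filter_filter]
  split_ifs with hw
  · congr 2
    refine filter_congr fun i _ => ⟨fun h => ⟨h ▸ hw, h⟩, fun h => h.2⟩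
  · symm
    rw [Nat.cast_eq_zero, card_eq_zero]
    exact filter_false_of_mem fun i _ h => hw (h.2 ▸ h.1)

omit [DecidableRel A] in
theorem TYP2_sum_wt (Ch : Finset (Fin N)) (u : Fin N → Fin N) :
    ∑ w, (Ch.filter fun i => u i = w).card = Ch.card :=
  (card_eq_sum_card_fiberwise (f := u) (s := Ch) (t := univ)
    (fun _ _ => mem_coe.2 (mem_univ _))).symm

theorem TYP2_cells {M : ℕ} (X : Fin N → Fin M) (G : Finset (Fin N)) (τ μ0 : ℕ)
    (hG : ∀ i ∈ G, gs A X i (X i) ≤ τ) (hm : ∀ y, cc (fun v => gs A X v y ≤ τ) ≤ μ0) :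
    ∑ i ∈ G, cc (fun a => cl A X i a = cl A X i (X i)) ≤ μ0 * M := by
  calc ∑ i ∈ G, cc (fun a => cl A X i a = cl A X i (X i))
      ≤ ∑ i ∈ G, cc (fun a => gs A X i a ≤ τ) := by
        refine sum_le_sum fun i hi => cc_mono fun a ha => ?_
        have : gs A X i a = gs A X i (X i) := by unfold gs; rw [ha]
        rw [this]; exact hG i hi
    _ ≤ ∑ i, cc (fun a => gs A X i a ≤ τ) := sum_le_sum_of_subset (subset_univ _)
    _ = ∑ a, cc (fun i => gs A X i a ≤ τ) := by
        simp only [cc_eq, card_filter]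
        exact sum_comm
    _ ≤ ∑ _a : Fin M, μ0 := sum_le_sum fun a _ => hm a
    _ = μ0 * M := by rw [sum_const, card_univ, Fintype.card_fin, smul_eq_mul, mul_comm]

theorem TYP2_UX {M : ℕ} (R G : Finset (Fin N)) (X : Fin N → Fin M) (hGR : G ⊆ R) (c : ℕ)
    (hc : ∀ i ∈ G, c ≤ cc fun a => a ∈ coinS A X i ∧ cl A X i a = cl A X i (X i))
    (W : ℝ) (hW : ((∑ i ∈ G, cc (fun a => cl A X i a = cl A X i (X i)) : ℕ) : ℝ) ≤ W)
    (hne : G.Nonempty) :
    (c : ℝ) * (G.card : ℝ) ^ 2 / W ≤ UX A R X := by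
  have hpos : ∀ i ∈ G, (0 : ℝ) < (cc (fun a => cl A X i a = cl A X i (X i)) : ℝ) := by
    intro i _
    classical
    rw [Nat.cast_pos, cc_eq, card_pos]
    exact ⟨X i, mem_filter.2 ⟨mem_univ _, rfl⟩⟩
  have hU : UX A R X = ∑ i ∈ R,
      (cc fun a => a ∈ coinS A X i ∧ cl A X i a = cl A X i (X i) : ℝ) /
        (cc fun a => cl A X i a = cl A X i (X i) : ℝ) := by
    unfold UX UU
    exact sum_coe_sort R fun i => (cc fun a => a ∈ coinS A X i ∧ cl A X i a = cl A X i (X i) : ℝ) /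
        (cc fun a => cl A X i a = cl A X i (X i) : ℝ)
  have hT := sq_sum_div_le_sum_sq_div G (fun _ => (1 : ℝ)) hpos
  simp only [sum_const, nsmul_eq_mul, mul_one, one_pow] at hT
  push_cast at hW
  have hS : 0 < ∑ i ∈ G, (cc (fun a => cl A X i a = cl A X i (X i)) : ℝ) := sum_pos hpos hne
  calc (c : ℝ) * (G.card : ℝ) ^ 2 / W
      ≤ (c : ℝ) * ((G.card : ℝ) ^ 2 / ∑ i ∈ G, (cc (fun a => cl A X i a = cl A X i (X i)) : ℝ)) := by
        rw [mul_div_assoc]
        exact mul_le_mul_of_nonneg_left (div_le_div_of_nonneg_left (by positivity) hS hW)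
          (Nat.cast_nonneg _)
    _ ≤ (c : ℝ) * ∑ i ∈ G, 1 / (cc (fun a => cl A X i a = cl A X i (X i)) : ℝ) :=
        mul_le_mul_of_nonneg_left hT (Nat.cast_nonneg _)
    _ = ∑ i ∈ G, (c : ℝ) / (cc (fun a => cl A X i a = cl A X i (X i)) : ℝ) := by
        rw [mul_sum]; exact sum_congr rfl fun i _ => by ring
    _ ≤ ∑ i ∈ G, (cc fun a => a ∈ coinS A X i ∧ cl A X i a = cl A X i (X i) : ℝ) /
        (cc fun a => cl A X i a = cl A X i (X i) : ℝ) :=
        sum_le_sum fun i hi => div_le_div_of_nonneg_right (Nat.cast_le.2 (hc i hi)) (hpos i hi).le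
    _ ≤ _ := by
        rw [hU]
        exact sum_le_sum_of_subset_of_nonneg hGR fun i _ _ => by positivity

end aux

theorem TYP2 (h0 : St_GF) (h1 : St_WGAP) (h2 : St_MULT) (h3 : St_SITE) : St_TYP2 := by
  intro N M k τ ν μ0 n g1 R π hk hod hμ hν hR hg hM hn
  classical
  have hA : Asym (Adj N k) := (h0 N k hk).1
  have hμ1 : 1 ≤ μ0 := by omega
  have hN : 1 ≤ N := by
    have : R.card ≤ N := by simpa using card_le_univ R
    omega
  have hM2 : 2 * N ≤ M := by nlinarith
  have hnc := TYP2_notcheap (Adj N k) π τ ν hν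
  set Ch : Finset (Fin N) := R.filter fun i => gs (Adj N k) π i (π i) ≤ τ with hCh
  have hChR : Ch ⊆ R := filter_subset _ _
  have hChc : R.card ≤ Ch.card + ν := by
    have hsub : R ⊆ Ch ∪ univ.filter fun v => τ < gs (Adj N k) π v (π v) := by
      intro i hi
      by_cases h : gs (Adj N k) π i (π i) ≤ τ
      · exact mem_union_left _ (mem_filter.2 ⟨hi, h⟩)
      · exact mem_union_right _ (mem_filter.2 ⟨mem_univ _, not_le.1 h⟩)
    have := (card_le_card hsub).trans (card_union_le _ _)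
    rw [cc_eq] at hnc
    omega
  have hex : ∀ i : Fin N, ∃ u1 u2 : Fin N, i ∈ Ch → Nb (Adj N k) i u1 ∧ π i < π u1 ∧ π u1 < π u2 ∧
      (∀ v, Nb (Adj N k) i v → π v < π i ∨ v = u1 ∨ π u2 ≤ π v) := by
    intro i
    by_cases hi : i ∈ Ch
    · obtain ⟨u1, u2, h⟩ := TYP2_pair (Adj N k) hA π τ i (hod i (hChR hi)) (mem_filter.1 hi).2
      exact ⟨u1, u2, fun _ => h⟩
    · exact ⟨i, i, fun h => absurd h hi⟩
  choose u1 u2 hu using hex
  have hmul : ∀ y : Fin N, cc (fun v => gs (Adj N k) π v y ≤ τ + 1) ≤ μ0 := by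
    intro y
    have h := h2 N k (τ + 1) (Fin N) π y hk π.injective
    have h' : cc (fun v => τ + 1 < gs (Adj N k) π v (π v)) ≤ ν :=
      le_trans (cc_mono fun v hv => by omega) hnc
    have e : (2 * (τ + 1) + 1) * k = (2 * τ + 3) * k := by ring
    omega
  have hwt : ∀ u : Fin N → Fin N, (∀ i ∈ Ch, π i < π (u i) ∧ π (u i) ≤ π (u2 i)) →
      ∀ w, (Ch.filter fun i => u i = w).card ≤ μ0 := by
    intro u hu' w
    refine le_trans ?_ (hmul (π w))
    rw [cc_eq]
    refine card_le_card fun i hi => mem_filter.2 ⟨mem_univ _, ?_⟩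
    obtain ⟨hi', rfl⟩ := mem_filter.1 hi
    have := TYP2_gs_le (Adj N k) π i (u1 i) (u2 i) (π (u i)) (hu' i hi').1 (hu' i hi').2
      (hu i hi').2.2.2
    have := (mem_filter.1 hi').2
    omega
  have hsum : ∀ u : Fin N → Fin N,
      ((∑ w, (Ch.filter fun i => u i = w).card : ℕ) : ℝ) ≤ (R.card : ℝ) := by
    intro u
    rw [TYP2_sum_wt]
    exact Nat.cast_le.2 (card_le_card hChR)
  have e : ((R.card : ℝ) / 16 - R.card / 8) / μ0 = -(R.card : ℝ) / (16 * μ0) := by
    have : (μ0 : ℝ) ≠ 0 := by positivity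
    field_simp
    ring
  have hW1 := h1 N M g1 μ0 π _ R.card (R.card / 8) hM2 hM hμ1
    (hwt u1 fun i hi => ⟨(hu i hi).2.1, (hu i hi).2.2.1.le⟩) (hsum u1)
  have hW2 := h1 N M g1 μ0 π _ R.card (R.card / 8) hM2 hM hμ1
    (hwt u2 fun i hi => ⟨(hu i hi).2.1.trans (hu i hi).2.2.1, le_rfl⟩) (hsum u2)
  rw [e] at hW1 hW2
  have key : ∀ X : Fin N → Fin M, OrdP π X ∧ UX (Adj N k) R X < 4 * n →
      (OrdP π X ∧ (R.card : ℝ) / 8 ≤ smw g1 (fun w => (Ch.filter fun i => u1 i = w).card) X) ∨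
      (OrdP π X ∧ (R.card : ℝ) / 8 ≤ smw g1 (fun w => (Ch.filter fun i => u2 i = w).card) X) := by
    rintro X ⟨hX, hU⟩
    by_contra hcon
    rw [not_or, not_and, not_and, not_le, not_le, TYP2_smw, TYP2_smw] at hcon
    have hb1 := hcon.1 hX
    have hb2 := hcon.2 hX
    set G : Finset (Fin N) := Ch.filter fun i => ¬ Sm g1 X (u1 i) ∧ ¬ Sm g1 X (u2 i) with hG
    have hGc : Ch.card ≤ G.card + (Ch.filter fun i => Sm g1 X (u1 i)).card +
        (Ch.filter fun i => Sm g1 X (u2 i)).card := by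
      have hsub : Ch ⊆ G ∪ (Ch.filter fun i => Sm g1 X (u1 i)) ∪
          (Ch.filter fun i => Sm g1 X (u2 i)) := by
        intro i hi
        by_cases ha : Sm g1 X (u1 i)
        · exact mem_union_left _ (mem_union_right _ (mem_filter.2 ⟨hi, ha⟩))
        · by_cases hb : Sm g1 X (u2 i)
          · exact mem_union_right _ (mem_filter.2 ⟨hi, hb⟩)
          · exact mem_union_left _ (mem_union_left _ (mem_filter.2 ⟨hi, ha, hb⟩))
      exact (card_le_card hsub).trans ((card_union_le _ _).trans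
        (Nat.add_le_add_right (card_union_le _ _) _))
    have hb1' : 8 * (Ch.filter fun i => Sm g1 X (u1 i)).card < R.card := by
      have : (8 : ℝ) * (Ch.filter fun i => Sm g1 X (u1 i)).card < R.card := by linarith
      exact_mod_cast this
    have hb2' : 8 * (Ch.filter fun i => Sm g1 X (u2 i)).card < R.card := by
      have : (8 : ℝ) * (Ch.filter fun i => Sm g1 X (u2 i)).card < R.card := by linarith
      exact_mod_cast this
    have hGr : R.card ≤ 2 * G.card := by omega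
    have hGne : G.Nonempty := card_pos.1 (by omega)
    have hGCh : G ⊆ Ch := filter_subset _ _
    have hcells := TYP2_cells (Adj N k) X G τ μ0
      (fun i hi => by rw [TYP2_gs_eq _ hX]; exact (mem_filter.1 (hGCh hi)).2)
      (fun y => by
        have h := h2 N k τ (Fin M) X y hk (TYP2_inj hX)
        simp only [TYP2_gs_eq _ hX] at h
        have e : (2 * τ + 3) * k = (2 * τ + 1) * k + 2 * k := by ring
        omega)
    have hUX := TYP2_UX (Adj N k) R G X (hGCh.trans hChR) (g1 / 2)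
      (fun i hi => by
        have hi' := hu i (hGCh hi)
        have hs := (mem_filter.1 hi).2
        refine h3 N M g1 (Adj N k) X i (u1 i) (u2 i) hA hi'.1 ((hX _ _).2 hi'.2.1)
          ((hX _ _).2 hi'.2.2.1) (fun v hv => ?_) hs.1 hs.2
        rcases hi'.2.2.2 v hv with h | h | h
        · exact Or.inl ((hX _ _).2 h)
        · exact Or.inr (Or.inl h)
        · exact Or.inr (Or.inr (not_lt.1 fun hh => absurd ((hX _ _).1 hh) (not_lt.2 h))))
      ((μ0 * M : ℕ) : ℝ) (Nat.cast_le.2 hcells) hGne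
    have hpos : (0 : ℝ) < ((μ0 * M : ℕ) : ℝ) := by
      have : 0 < μ0 * M := Nat.mul_pos (by omega) (by omega)
      exact_mod_cast this
    have hfin : 4 * n * (μ0 * M) ≤ g1 / 2 * G.card ^ 2 := by
      have a1 : g1 ≤ 4 * (g1 / 2) := by omega
      have a2 : R.card ^ 2 ≤ (2 * G.card) ^ 2 := Nat.pow_le_pow_left hGr 2
      have a3 : R.card ^ 2 * g1 ≤ (2 * G.card) ^ 2 * (4 * (g1 / 2)) := Nat.mul_le_mul a2 a1
      nlinarith
    have hfin' : (4 * n : ℝ) ≤ ((g1 / 2 : ℕ) : ℝ) * (G.card : ℝ) ^ 2 / ((μ0 * M : ℕ) : ℝ) := by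
      rw [le_div_iff₀ hpos]
      exact_mod_cast hfin
    linarith
  have hle := (cc_mono key).trans (cc_or_le _ _)
  have hle' : ((cc fun X : Fin N → Fin M => OrdP π X ∧ UX (Adj N k) R X < 4 * n : ℕ) : ℝ) ≤ _ :=
    Nat.cast_le.2 hle
  push_cast at hle'
  linarith

end Pool.Agent.Lib.MP_64bee1_co.UN
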